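import Pool.Agent.H39.KP.Basic

namespace Pool.Agent.H39.KP

open Polynomial

/-- the polynomial ring -/
abbrev R : Type := MvPolynomial ℕ ℚ

/-- evaluation of polynomials on the cube -/
noncomputable def evalHom : R →+* (Cube → ℂ) :=
  RingHom.pi fun x => (MvPolynomial.aeval (pt x) : R →ₐ[ℚ] ℂ).toRingHom

noncomputable instance algR : Algebra R (Cube → ℂ) := evalHom.toAlgebra

theorem aeval_apply (p : R[X]) (F : Cube → ℂ) (x : Cube) :
    (aeval F p) x = eval₂ (MvPolynomial.aeval (pt x) : R →ₐ[ℚ] ℂ).toRingHom (F x) p := by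
  have h := Polynomial.hom_eval₂ p (algebraMap R (Cube → ℂ)) (Pi.evalRingHom (fun _ => ℂ) x) F
  rw [Polynomial.aeval_def]
  exact h

theorem algc_iff {f : Fn} : Algc f ↔ IsAlgebraic R fun x : Cube => f (pt x) := by
  constructor
  · rintro ⟨p, hp, h⟩
    refine ⟨p, hp, ?_⟩
    funext x
    rw [aeval_apply]
    exact h x
  · rintro ⟨p, hp, h⟩
    refine ⟨p, hp, fun x => ?_⟩
    rw [← aeval_apply p (fun x => f (pt x)) x, h]
    rfl

variable {f g : Fn}

theorem Algc.add (hf : Algc f) (hg : Algc g) : Algc fun z => f z + g z := by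
  rw [algc_iff] at *
  exact hf.add hg

theorem Algc.mul (hf : Algc f) (hg : Algc g) : Algc fun z => f z * g z := by
  rw [algc_iff] at *
  exact hf.mul hg

theorem Algc.neg (hf : Algc f) : Algc fun z => - f z := by
  rw [algc_iff] at *
  exact hf.neg

theorem algc_poly (q : R) : Algc fun z => MvPolynomial.aeval z q := by
  rw [algc_iff]
  have : (fun x : Cube => MvPolynomial.aeval (pt x) q) = algebraMap R (Cube → ℂ) q := rfl
  rw [this]
  exact isAlgebraic_algebraMap q

theorem algc_coord (k : ℕ) : Algc fun z => z k := by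
  simpa using algc_poly (MvPolynomial.X k)

theorem algc_rat (q : ℚ) : Algc fun _ => (q : ℂ) := by
  simpa using algc_poly (MvPolynomial.C q)

/-- Algebraic constants. -/
theorem algc_const {c : ℂ} (hc : IsAlgebraic ℚ c) : Algc fun _ => c := by
  obtain ⟨p, hp, h⟩ := hc
  refine ⟨p.map MvPolynomial.C, (Polynomial.map_ne_zero_iff (MvPolynomial.C_injective ℕ ℚ)).2 hp, fun x => ?_⟩
  have hh : ((MvPolynomial.aeval (pt x) : R →ₐ[ℚ] ℂ).toRingHom).comp MvPolynomial.C = algebraMap ℚ ℂ :=
    Subsingleton.elim _ _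
  have h2 := Polynomial.eval₂_map (p := p) (MvPolynomial.C : ℚ →+* R) (MvPolynomial.aeval (pt x) : R →ₐ[ℚ] ℂ).toRingHom c
  rw [h2, hh]
  exact h

theorem Algc.of_sq (hf : Algc fun z => g z ^ 2) : Algc g := by
  rw [algc_iff] at *
  exact IsAlgebraic.of_pow (n := 2) (by norm_num) hf

/-- composition with an injective substitution -/
theorem Algc.comp_inj (hf : Algc f) (Φ : (ℕ → ℂ) → ℕ → ℂ) (φ : R →ₐ[ℚ] R) (hφ : Function.Injective φ)
    (hc : ∀ x : Cube, ∃ y : Cube, Φ (pt x) = pt y) (h : ∀ (x : Cube) k, MvPolynomial.aeval (pt x) (φ (MvPolynomial.X k)) = Φ (pt x) k) :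
    Algc fun z => f (Φ z) := by
  obtain ⟨p, hp, h1⟩ := hf
  refine ⟨p.map φ.toRingHom, (Polynomial.map_ne_zero_iff hφ).2 hp, fun x => ?_⟩
  obtain ⟨y, hy⟩ := hc x
  have : ((MvPolynomial.aeval (pt x) : R →ₐ[ℚ] ℂ).comp φ) = (MvPolynomial.aeval (pt y) : R →ₐ[ℚ] ℂ) := by
    apply MvPolynomial.algHom_ext
    intro k
    simp only [AlgHom.comp_apply, h, MvPolynomial.aeval_X, hy]
  have hh : ((MvPolynomial.aeval (pt x) : R →ₐ[ℚ] ℂ).toRingHom).comp φ.toRingHom
      = (MvPolynomial.aeval (pt y) : R →ₐ[ℚ] ℂ).toRingHom := congrArg AlgHom.toRingHom this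
  have h2 := Polynomial.eval₂_map (p := p) φ.toRingHom (MvPolynomial.aeval (pt x) : R →ₐ[ℚ] ℂ).toRingHom (f (Φ (pt x)))
  show eval₂ _ (f (Φ (pt x))) _ = 0
  rw [h2, hh, hy]
  exact h1 y

theorem exists_special (p : R[X]) (hp : p ≠ 0) (j : ℕ) : ∃ a : ℚ, 0 ≤ a ∧ a ≤ 1 ∧
    p.map (MvPolynomial.aeval (Function.update MvPolynomial.X j (MvPolynomial.C a)) : R →ₐ[ℚ] R).toRingHom ≠ 0 := by
  obtain ⟨n, hn⟩ : ∃ n, p.coeff n ≠ 0 := by
    by_contra h
    push Not at h
    exact hp (Polynomial.ext h)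
  have hinf : (Set.Icc (0 : ℚ) 1).Infinite := Set.Icc_infinite (by norm_num)
  obtain ⟨y, hy, hy2⟩ : ∃ y : ℕ → ℚ, (∀ k, y k ∈ Set.Icc (0 : ℚ) 1) ∧ MvPolynomial.eval y (p.coeff n) ≠ 0 := by
    by_contra h
    push Not at h
    apply hn
    apply MvPolynomial.funext_set (fun _ => Set.Icc (0 : ℚ) 1) (fun _ => hinf)
    intro y hy
    rw [map_zero]
    exact h y fun k => hy k (Set.mem_univ k)
  refine ⟨y j, (hy j).1, (hy j).2, fun h => hy2 ?_⟩
  have h3 := congrArg (fun q : R[X] => MvPolynomial.eval y (q.coeff n)) h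
  simp only [Polynomial.coeff_map, Polynomial.coeff_zero, map_zero] at h3
  rw [← h3]
  have : (MvPolynomial.eval y) = (MvPolynomial.eval y).comp
      (MvPolynomial.aeval (Function.update MvPolynomial.X j (MvPolynomial.C (y j))) : R →ₐ[ℚ] R).toRingHom := by
    apply MvPolynomial.ringHom_ext
    · intro r; simp
    · intro k
      by_cases hk : k = j
      · subst hk; simp
      · simp [Function.update_of_ne hk]
  conv_lhs => rw [this]
  rfl

theorem special_apply (x : Cube) (j : ℕ) (a : ℚ) (q : R) (y : Cube) (hy : pt y = Function.update (pt x) j (a : ℂ)) :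
    MvPolynomial.aeval (pt x) ((MvPolynomial.aeval (Function.update MvPolynomial.X j (MvPolynomial.C a)) : R →ₐ[ℚ] R) q)
      = MvPolynomial.aeval (pt y) q := by
  have : ((MvPolynomial.aeval (pt x) : R →ₐ[ℚ] ℂ).comp
      (MvPolynomial.aeval (Function.update MvPolynomial.X j (MvPolynomial.C a)) : R →ₐ[ℚ] R))
      = (MvPolynomial.aeval (pt y) : R →ₐ[ℚ] ℂ) := by
    apply MvPolynomial.algHom_ext
    intro k
    rw [hy]
    by_cases hk : k = j
    · subst hk; simp
    · simp [Function.update_of_ne hk]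
  exact congrArg (fun F : R →ₐ[ℚ] ℂ => F q) this

/-- point of the cube with one coordinate replaced by a rational number. -/
theorem pt_update_rat (x : Cube) (j : ℕ) {a : ℝ} (h0 : 0 ≤ a) (h1 : a ≤ 1) :
    pt (Function.update x j ⟨a, h0, h1⟩) = Function.update (pt x) j (a : ℂ) := by
  funext k
  by_cases hk : k = j
  · subst hk; simp [pt]
  · simp [pt, Function.update_of_ne hk]

/-- substitution of `q` for `z_i`, where `q = z_i` for `z_j = 1`, and `f` does not depend on `z_j`. -/
theorem Algc.subst_fresh (hf : Algc f) {i j : ℕ} (hij : i ≠ j) (hj : ∀ z t, f (Function.update z j t) = f z) (q : R)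
    (hq : MvPolynomial.aeval (Function.update MvPolynomial.X j (MvPolynomial.C 1) : ℕ → R) q = MvPolynomial.X i)
    (hc : ∀ x : Cube, ∃ t ∈ Set.Icc (0 : ℝ) 1, MvPolynomial.aeval (pt x) q = (t : ℂ)) :
    Algc fun z => f (Function.update z i (MvPolynomial.aeval z q)) := by
  obtain ⟨p, hp, h1⟩ := hf
  obtain ⟨a, ha0, ha1, hpa⟩ := exists_special p hp j
  set σ : ℚ → (R →ₐ[ℚ] R) := fun a => MvPolynomial.aeval (Function.update MvPolynomial.X j (MvPolynomial.C a)) with hσ
  have hpa' : p.map (σ a).toRingHom ≠ 0 := hpa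
  set φ : R →ₐ[ℚ] R := MvPolynomial.aeval (Function.update MvPolynomial.X i q) with hφ
  -- `p_a` kills `f`
  have h2 : ∀ x : Cube, eval₂ (MvPolynomial.aeval (pt x) : R →ₐ[ℚ] ℂ).toRingHom (f (pt x)) (p.map (σ a).toRingHom) = 0 := by
    intro x
    have ha0' : (0 : ℝ) ≤ (a : ℝ) := by exact_mod_cast ha0
    have ha1' : (a : ℝ) ≤ 1 := by exact_mod_cast ha1
    have h3 := h1 (Function.update x j ⟨(a : ℝ), ha0', ha1'⟩)
    rw [pt_update_rat x j ha0' ha1', hj] at h3
    have hh : ((MvPolynomial.aeval (pt x) : R →ₐ[ℚ] ℂ).toRingHom).comp (σ a).toRingHom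
        = (MvPolynomial.aeval (Function.update (pt x) j (((a : ℝ)) : ℂ)) : R →ₐ[ℚ] ℂ).toRingHom := by
      refine RingHom.ext fun q => ?_
      have h4 := special_apply x j a q (Function.update x j ⟨(a : ℝ), ha0', ha1'⟩) (by
        rw [pt_update_rat x j ha0' ha1']; push_cast; rfl)
      rw [pt_update_rat x j ha0' ha1'] at h4
      exact h4
    rw [Polynomial.eval₂_map, hh]
    exact h3
  refine ⟨(p.map (σ a).toRingHom).map φ.toRingHom, fun h => hpa' ?_, fun x => ?_⟩
  · have h5 : (((p.map (σ a).toRingHom).map φ.toRingHom).map (σ 1).toRingHom) = p.map (σ a).toRingHom := by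
      rw [Polynomial.map_map, Polynomial.map_map]
      congr 1
      apply MvPolynomial.ringHom_ext
      · intro r; simp
      · intro k
        by_cases hk : k = j
        · subst hk; simp [hσ, hφ]
        · by_cases hki : k = i
          · subst hki
            simp only [hσ, hφ]
            simp [Function.update_of_ne hk]
            simpa using hq
          · simp [hσ, hφ, Function.update_of_ne hk, Function.update_of_ne hki]
    rw [← h5, h, Polynomial.map_zero]
  · obtain ⟨t, ht, hq2⟩ := hc x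
    have h6 := h2 (Function.update x i ⟨t, ht⟩)
    rw [pt_update_rat x i ht.1 ht.2] at h6
    show eval₂ _ (f (Function.update (pt x) i (MvPolynomial.aeval (pt x) q))) _ = 0
    rw [hq2]
    have : ((MvPolynomial.aeval (pt x) : R →ₐ[ℚ] ℂ).comp φ)
        = (MvPolynomial.aeval (Function.update (pt x) i (t : ℂ)) : R →ₐ[ℚ] ℂ) := by
      apply MvPolynomial.algHom_ext
      intro k
      by_cases hk : k = i
      · subst hk; simp [hφ, hq2]
      · simp [hφ, Function.update_of_ne hk]
    have hh : ((MvPolynomial.aeval (pt x) : R →ₐ[ℚ] ℂ).toRingHom).comp φ.toRingHom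
        = (MvPolynomial.aeval (Function.update (pt x) i (t : ℂ)) : R →ₐ[ℚ] ℂ).toRingHom :=
      congrArg AlgHom.toRingHom this
    rw [Polynomial.eval₂_map, hh]
    exact h6

end Pool.Agent.H39.KP
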