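import Pool.Agent.H39.KP.Ident

namespace Pool.Agent.H39.KP

open Function Filter Topology Polynomial

attribute [local instance] MvPolynomial.algebraMvPolynomial

variable {f g : Fn}

/-- the algebraic numbers -/
abbrev K : Type := algebraicClosure ℚ ℂ

instance algK : Algebra.IsAlgebraic ℚ K := by
  constructor
  intro x
  have h := (mem_algebraicClosure_iff (F := ℚ) (E := ℂ)).1 x.2
  have h2 : IsAlgebraic ℚ ((algebraMap K ℂ) x) := h
  exact (isAlgebraic_algebraMap_iff (algebraMap K ℂ).injective).1 h2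

/-- polynomials over the algebraic numbers -/
abbrev RK : Type := MvPolynomial ℕ K

noncomputable def evalHomK : RK →+* (Cube → ℂ) :=
  RingHom.pi fun x => (MvPolynomial.aeval (pt x) : RK →ₐ[K] ℂ).toRingHom

noncomputable instance algRK : Algebra RK (Cube → ℂ) := evalHomK.toAlgebra

theorem aeval_map_K (z : ℕ → ℂ) (q : R) :
    MvPolynomial.aeval z (MvPolynomial.map (algebraMap ℚ K) q) = MvPolynomial.aeval z q := by
  rw [MvPolynomial.aeval_map_algebraMap]

instance towerK : IsScalarTower R RK (Cube → ℂ) := by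
  apply IsScalarTower.of_algebraMap_eq
  intro q
  funext x
  exact (aeval_map_K (pt x) q).symm

theorem aevalK_apply (p : RK[X]) (F : Cube → ℂ) (x : Cube) :
    (aeval F p) x = eval₂ (MvPolynomial.aeval (pt x) : RK →ₐ[K] ℂ).toRingHom (F x) p := by
  have h := Polynomial.hom_eval₂ p (algebraMap RK (Cube → ℂ)) (Pi.evalRingHom (fun _ => ℂ) x) F
  rw [Polynomial.aeval_def]
  exact h

/-- value of a polynomial in `w` with coefficients in `RK` -/
noncomputable def ev2 (p : RK[X]) (z : ℕ → ℂ) (w : ℂ) : ℂ := eval₂ (MvPolynomial.aeval z : RK →ₐ[K] ℂ).toRingHom w p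

/-- algebraic over `K(z)` implies algebraic over `ℚ(z)`. -/
theorem algc_of_K (p : RK[X]) (hp : p ≠ 0) (h : ∀ x : Cube, ev2 p (pt x) (f (pt x)) = 0) : Algc f := by
  rw [algc_iff]
  have h1 : IsAlgebraic RK fun x : Cube => f (pt x) := by
    refine ⟨p, hp, ?_⟩
    funext x
    rw [aevalK_apply]
    exact h x
  exact h1.restrictScalars R

/-- polynomial with variables `< n` -/
def Vr (n : ℕ) (q : RK) : Prop := ∀ Φ Ψ : ℕ → RK, (∀ k < n, Φ k = Ψ k) →
  MvPolynomial.aeval Φ q = (MvPolynomial.aeval Ψ q : RK)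

/-- specialisation of the variables `≥ n` -/
noncomputable def sp (n : ℕ) (a : ℕ → ℚ) : RK →ₐ[K] RK :=
  MvPolynomial.aeval fun k => if k < n then MvPolynomial.X k else MvPolynomial.C (algebraMap ℚ K (a k))

theorem Vr_sp (n : ℕ) (a : ℕ → ℚ) (q : RK) : Vr n (sp n a q) := by
  intro Φ Ψ h
  have : (MvPolynomial.aeval Φ : RK →ₐ[K] RK).comp (sp n a) = (MvPolynomial.aeval Ψ : RK →ₐ[K] RK).comp (sp n a) := by
    apply MvPolynomial.algHom_ext
    intro k
    simp only [sp, AlgHom.comp_apply, MvPolynomial.aeval_X]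
    by_cases hk : k < n
    · simp [hk, h k hk]
    · simp [hk]
  exact congrArg (fun F : RK →ₐ[K] RK => F q) this

theorem aeval_sp (n : ℕ) (a : ℕ → ℚ) (z : ℕ → ℂ) (q : RK) :
    MvPolynomial.aeval z (sp n a q) = MvPolynomial.aeval (fun k => if k < n then z k else (a k : ℂ)) q := by
  have : (MvPolynomial.aeval z : RK →ₐ[K] ℂ).comp (sp n a)
      = (MvPolynomial.aeval (fun k => if k < n then z k else (a k : ℂ)) : RK →ₐ[K] ℂ) := by
    apply MvPolynomial.algHom_ext
    intro k
    simp only [sp, AlgHom.comp_apply, MvPolynomial.aeval_X]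
    by_cases hk : k < n
    · simp [hk]
    · simp [hk]
  exact congrArg (fun F : RK →ₐ[K] ℂ => F q) this

/-- a minimal polynomial with variables `< n` -/
theorem exists_good_poly {n : ℕ} (hd : Dep n f) (hf : Algc f) :
    ∃ p : RK[X], p ≠ 0 ∧ (∀ k, Vr n (p.coeff k)) ∧ ∀ x : Cube, ev2 p (pt x) (f (pt x)) = 0 := by
  obtain ⟨p, hp, h⟩ := hf
  obtain ⟨m, hm⟩ : ∃ m, p.coeff m ≠ 0 := by
    by_contra h
    push Not at h
    exact hp (Polynomial.ext h)
  have hinf : (Set.Icc (0 : ℚ) 1).Infinite := Set.Icc_infinite (by norm_num)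
  obtain ⟨y, hy, hy2⟩ : ∃ y : ℕ → ℚ, (∀ k, y k ∈ Set.Icc (0 : ℚ) 1) ∧ MvPolynomial.eval y (p.coeff m) ≠ 0 := by
    by_contra h
    push Not at h
    apply hm
    apply MvPolynomial.funext_set (fun _ => Set.Icc (0 : ℚ) 1) (fun _ => hinf)
    intro y hy
    rw [map_zero]
    exact h y fun k => hy k (Set.mem_univ k)
  set p1 : RK[X] := p.map (MvPolynomial.map (algebraMap ℚ K)) with hp1
  have hev : ∀ z w, ev2 p1 z w = eval₂ (MvPolynomial.aeval z : R →ₐ[ℚ] ℂ).toRingHom w p := by
    intro z w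
    rw [ev2, hp1, Polynomial.eval₂_map]
    congr 1
    refine RingHom.ext fun q => ?_
    exact aeval_map_K z q
  refine ⟨p1.map (sp n y).toRingHom, ?_, fun k => ?_, fun x => ?_⟩
  · intro h0
    apply hy2
    have h1 := congrArg (fun q : RK[X] => MvPolynomial.aeval (fun k => ((y k : ℚ) : ℂ)) (q.coeff m)) h0
    simp only [Polynomial.coeff_map, Polynomial.coeff_zero, map_zero, hp1] at h1
    have h2 : MvPolynomial.aeval (fun k => ((y k : ℚ) : ℂ)) (sp n y (MvPolynomial.map (algebraMap ℚ K) (p.coeff m))) = 0 := h1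
    rw [aeval_sp, aeval_map_K] at h2
    have h3 : (fun k => if k < n then ((y k : ℚ) : ℂ) else ((y k : ℚ) : ℂ)) = algebraMap ℚ ℂ ∘ y := by
      funext k; simp
    rw [h3, MvPolynomial.aeval_algebraMap_apply] at h2
    have h4 := (map_eq_zero (algebraMap ℚ ℂ)).1 h2
    rwa [MvPolynomial.aeval_eq_eval] at h4
  · rw [Polynomial.coeff_map]
    exact Vr_sp n y _
  · have hx : ∀ k, ∃ t : unitInterval, ((t : ℝ) : ℂ) = if k < n then pt x k else ((y k : ℚ) : ℂ) := by
      intro k
      by_cases hk : k < n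
      · exact ⟨x k, by simp [hk, pt]⟩
      · have h1 := hy k
        refine ⟨⟨(y k : ℝ), by exact_mod_cast h1.1, by exact_mod_cast h1.2⟩, ?_⟩
        simp [hk]
    choose t ht using hx
    have h5 := h t
    rw [← hev] at h5
    have h6 : pt t = fun k => if k < n then pt x k else ((y k : ℚ) : ℂ) := by funext k; exact ht k
    have h7 : f (pt t) = f (pt x) := hd _ _ fun k hk => by rw [h6]; simp [hk]
    rw [h7] at h5
    rw [ev2, Polynomial.eval₂_map]
    rw [ev2] at h5
    convert h5 using 2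
    refine RingHom.ext fun q => ?_
    have := aeval_sp n y (pt x) q
    rw [← h6] at this
    exact this

theorem ev2_vr {n : ℕ} {p : RK[X]} (hp : ∀ k, Vr n (p.coeff k)) {z z' : ℕ → ℂ} (h : ∀ k < n, z k = z' k) (w : ℂ) :
    ev2 p z w = ev2 p z' w := by
  have key : ∀ q, Vr n q → (MvPolynomial.aeval z q : ℂ) = MvPolynomial.aeval z' q := by
    intro q hq
    -- replace the variables `≥ n` by zero
    set Φ : ℕ → RK := fun k => if k < n then MvPolynomial.X k else 0 with hΦ
    have h1 : MvPolynomial.aeval Φ q = q := by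
      have := hq Φ MvPolynomial.X fun k hk => by simp [hΦ, hk]
      rw [this]
      simp
    have h2 : ∀ z : ℕ → ℂ, MvPolynomial.aeval z q = MvPolynomial.aeval (fun k => if k < n then z k else 0) q := by
      intro z
      conv_lhs => rw [← h1]
      have : (MvPolynomial.aeval z : RK →ₐ[K] ℂ).comp (MvPolynomial.aeval Φ)
          = (MvPolynomial.aeval (fun k => if k < n then z k else 0) : RK →ₐ[K] ℂ) := by
        apply MvPolynomial.algHom_ext
        intro k
        simp only [hΦ, AlgHom.comp_apply, MvPolynomial.aeval_X]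
        by_cases hk : k < n <;> simp [hk]
      exact congrArg (fun F : RK →ₐ[K] ℂ => F q) this
    rw [h2 z, h2 z']
    congr 2
    funext k
    by_cases hk : k < n <;> simp [hk, h]
  unfold ev2
  rw [Polynomial.eval₂_eq_sum_range, Polynomial.eval₂_eq_sum_range]
  apply Finset.sum_congr rfl
  intro k _
  congr 1
  exact key _ (hp k)

end Pool.Agent.H39.KP
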