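import Pool.Agent.H39.KP.Defs

namespace Pool.Agent.H39.KP

open Filter Topology MeasureTheory

/-- restriction to `n` variables -/
def res (n : ℕ) (z : ℕ → ℂ) : Fin n → ℂ := fun i => z i

/-- extension by zero -/
def ext (n : ℕ) (y : Fin n → ℂ) : ℕ → ℂ := fun i => if h : i < n then y ⟨i, h⟩ else 0

@[simp] theorem res_ext (n : ℕ) (y : Fin n → ℂ) : res n (ext n y) = y := by
  funext i; simp [res, ext]

/-- The closed polydisc. -/
def D : Set (ℕ → ℂ) := {z | ∀ i, ‖z i‖ ≤ 1}

theorem pt_mem_D (x : Cube) : pt x ∈ D := by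
  intro i
  simp only [pt, Complex.norm_real, Real.norm_eq_abs]
  rw [abs_of_nonneg (x i).2.1]; exact (x i).2.2

theorem res_mem {n : ℕ} {z : ℕ → ℂ} (hz : z ∈ D) : res n z ∈ Metric.closedBall (0 : Fin n → ℂ) 1 := by
  rw [mem_closedBall_zero_iff, pi_norm_le_iff_of_nonneg zero_le_one]
  intro i; exact hz i

theorem ext_mem {n : ℕ} {y : Fin n → ℂ} (hy : y ∈ Metric.closedBall (0 : Fin n → ℂ) 1) : ext n y ∈ D := by
  rw [mem_closedBall_zero_iff, pi_norm_le_iff_of_nonneg zero_le_one] at hy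
  intro i
  unfold ext
  split_ifs with h
  · exact hy ⟨i, h⟩
  · simp

/-- `f` depends on the first `n` variables. -/
def Dep (n : ℕ) (f : Fn) : Prop := ∀ z w : ℕ → ℂ, (∀ i < n, z i = w i) → f z = f w

theorem Dep.mono {n m : ℕ} {f : Fn} (h : Dep n f) (hm : n ≤ m) : Dep m f := fun z w hz =>
  h z w fun i hi => hz i (hi.trans_le hm)

theorem Dep.ext_res {n : ℕ} {f : Fn} (h : Dep n f) (z : ℕ → ℂ) : f (ext n (res n z)) = f z := by
  apply h
  intro i hi
  simp [ext, res, hi]

/-- Quantified form. -/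
def HoloN (n : ℕ) (f : Fn) : Prop := Dep n f ∧
  ∀ x ∈ Metric.closedBall (0 : Fin n → ℂ) 1, ∀ᶠ y in 𝓝 x, DifferentiableAt ℂ (fun y => f (ext n y)) y

theorem holo_iff {f : Fn} : Holo f ↔ ∃ n, HoloN n f := by
  constructor
  · rintro ⟨n, F, U, hU, hB, hF, hf⟩
    refine ⟨n, ?_, ?_⟩
    · intro z w h
      rw [hf, hf]
      congr 1
      funext i
      exact h i i.2
    · intro x hx
      have : (fun y => f (ext n y)) = F := by
        funext y
        rw [hf]
        congr 1
        exact res_ext n y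
      rw [this]
      filter_upwards [hU.mem_nhds (hB hx)] with y hy
      exact hF.differentiableAt (hU.mem_nhds hy)
  · rintro ⟨n, h1, h2⟩
    refine ⟨n, fun y => f (ext n y), {x | ∀ᶠ y in 𝓝 x, DifferentiableAt ℂ (fun y => f (ext n y)) y},
      isOpen_setOfPred_eventually_nhds, h2, ?_, ?_⟩
    · intro x hx
      exact (Eventually.self_of_nhds hx).differentiableWithinAt
    · intro z
      exact (h1.ext_res z).symm

/-- composition. -/
theorem HoloN.comp {n m : ℕ} {f : Fn} (hf : HoloN n f) {Φ : (ℕ → ℂ) → ℕ → ℂ}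
    (hΦ : ∀ k < n, HoloN m fun z => Φ z k) (hD : ∀ z ∈ D, Φ z ∈ D) : HoloN m fun z => f (Φ z) := by
  constructor
  · intro z w h
    apply hf.1
    intro k hk
    exact (hΦ k hk).1 z w h
  · intro x hx
    have key : ∀ y, f (Φ (ext m y)) = (fun y => f (ext n y)) (res n (Φ (ext m y))) := fun y =>
      (hf.1.ext_res _).symm
    have hd : ∀ᶠ y in 𝓝 x, DifferentiableAt ℂ (fun y => res n (Φ (ext m y))) y := by
      have : ∀ᶠ y in 𝓝 x, ∀ k : Fin n, DifferentiableAt ℂ (fun y => Φ (ext m y) k) y :=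
        eventually_all.2 fun k => (hΦ k k.2).2 x hx
      filter_upwards [this] with y hy
      exact differentiableAt_pi.2 hy
    have hc : ContinuousAt (fun y => res n (Φ (ext m y))) x := hd.self_of_nhds.continuousAt
    have hm : res n (Φ (ext m x)) ∈ Metric.closedBall (0 : Fin n → ℂ) 1 := res_mem (hD _ (ext_mem hx))
    have h2 := hc.eventually (hf.2 _ hm)
    filter_upwards [hd, h2] with y hy1 hy2
    simp only [key]
    exact DifferentiableAt.comp (g := fun y => f (ext n y)) y hy2 hy1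

theorem HoloN.mono {n m : ℕ} {f : Fn} (h : HoloN n f) (hm : n ≤ m) : HoloN m f := by
  refine h.comp (Φ := fun z => z) (fun k hk => ⟨fun z w hz => hz k (hk.trans_le hm), fun x _ => ?_⟩) fun z hz => hz
  refine Eventually.of_forall fun y => ?_
  have : (fun y : Fin m → ℂ => ext m y k) = fun y => y ⟨k, hk.trans_le hm⟩ := by
    funext y; simp [ext, hk.trans_le hm]
  rw [this]
  exact differentiableAt_apply _ _

theorem holoN_coord {n k : ℕ} (hk : k < n) : HoloN n fun z => z k := by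
  refine ⟨fun z w hz => hz k hk, fun x _ => Eventually.of_forall fun y => ?_⟩
  have : (fun y : Fin n → ℂ => ext n y k) = fun y => y ⟨k, hk⟩ := by
    funext y; simp [ext, hk]
  rw [this]
  exact differentiableAt_apply _ _

theorem holoN_const (n : ℕ) (c : ℂ) : HoloN n fun _ => c :=
  ⟨fun _ _ _ => rfl, fun _ _ => Eventually.of_forall fun _ => differentiableAt_const _⟩

theorem HoloN.add {n : ℕ} {f g : Fn} (hf : HoloN n f) (hg : HoloN n g) : HoloN n fun z => f z + g z := by
  refine ⟨fun z w h => by simp only [hf.1 z w h, hg.1 z w h], fun x hx => ?_⟩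
  filter_upwards [hf.2 x hx, hg.2 x hx] with y h1 h2
  exact h1.add h2

theorem HoloN.mul {n : ℕ} {f g : Fn} (hf : HoloN n f) (hg : HoloN n g) : HoloN n fun z => f z * g z := by
  refine ⟨fun z w h => by simp only [hf.1 z w h, hg.1 z w h], fun x hx => ?_⟩
  filter_upwards [hf.2 x hx, hg.2 x hx] with y h1 h2
  exact h1.mul h2

theorem HoloN.neg {n : ℕ} {f : Fn} (hf : HoloN n f) : HoloN n fun z => - f z := by
  refine ⟨fun z w h => by simp only [hf.1 z w h], fun x hx => ?_⟩
  filter_upwards [hf.2 x hx] with y h1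
  exact h1.neg

theorem HoloN.inv {n : ℕ} {f : Fn} (hf : HoloN n f) (h0 : ∀ z ∈ D, f z ≠ 0) : HoloN n fun z => (f z)⁻¹ := by
  refine ⟨fun z w h => by simp only [hf.1 z w h], fun x hx => ?_⟩
  have h1 := (hf.2 x hx)
  have h2 : ContinuousAt (fun y => f (ext n y)) x := h1.self_of_nhds.continuousAt
  have h3 := h2.eventually_ne (h0 _ (ext_mem hx))
  filter_upwards [h1, h3] with y h1 h2
  exact h1.inv h2

section Holo

variable {f g : Fn}

theorem Holo.common (hf : Holo f) (hg : Holo g) : ∃ n, HoloN n f ∧ HoloN n g := by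
  obtain ⟨n, hn⟩ := holo_iff.1 hf
  obtain ⟨m, hm⟩ := holo_iff.1 hg
  exact ⟨max n m, hn.mono (le_max_left _ _), hm.mono (le_max_right _ _)⟩

theorem Holo.add (hf : Holo f) (hg : Holo g) : Holo fun z => f z + g z := by
  obtain ⟨n, h1, h2⟩ := hf.common hg
  exact holo_iff.2 ⟨n, h1.add h2⟩

theorem Holo.mul (hf : Holo f) (hg : Holo g) : Holo fun z => f z * g z := by
  obtain ⟨n, h1, h2⟩ := hf.common hg
  exact holo_iff.2 ⟨n, h1.mul h2⟩

theorem Holo.neg (hf : Holo f) : Holo fun z => - f z := by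
  obtain ⟨n, h1⟩ := holo_iff.1 hf
  exact holo_iff.2 ⟨n, h1.neg⟩

theorem Holo.inv (hf : Holo f) (h0 : ∀ z ∈ D, f z ≠ 0) : Holo fun z => (f z)⁻¹ := by
  obtain ⟨n, h1⟩ := holo_iff.1 hf
  exact holo_iff.2 ⟨n, h1.inv h0⟩

theorem holo_const (c : ℂ) : Holo fun _ => c := holo_iff.2 ⟨0, holoN_const 0 c⟩

theorem holo_coord (k : ℕ) : Holo fun z => z k := holo_iff.2 ⟨k + 1, holoN_coord (Nat.lt_succ_self k)⟩

theorem Holo.comp (hf : Holo f) {Φ : (ℕ → ℂ) → ℕ → ℂ} (hΦ : ∀ k, Holo fun z => Φ z k)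
    (hD : ∀ z ∈ D, Φ z ∈ D) : Holo fun z => f (Φ z) := by
  obtain ⟨n, h1⟩ := holo_iff.1 hf
  have h2 : ∀ k, ∃ m, HoloN m fun z => Φ z k := fun k => holo_iff.1 (hΦ k)
  choose m hm using h2
  refine holo_iff.2 ⟨(Finset.range n).sup m, h1.comp (fun k hk => (hm k).mono ?_) hD⟩
  exact Finset.le_sup (f := m) (Finset.mem_range.2 hk)

theorem update_mem_D {z : ℕ → ℂ} (hz : z ∈ D) (i : ℕ) {t : ℂ} (ht : ‖t‖ ≤ 1) : Function.update z i t ∈ D := by
  intro k
  by_cases h : k = i
  · subst h; simpa using ht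
  · simpa [Function.update_of_ne h] using hz k

theorem Holo.update (hf : Holo f) (i : ℕ) (hg : Holo g) (h1 : ∀ z ∈ D, ‖g z‖ ≤ 1) :
    Holo fun z => f (Function.update z i (g z)) := by
  refine hf.comp (Φ := fun z => Function.update z i (g z)) (fun k => ?_) fun z hz => update_mem_D hz i (h1 z hz)
  by_cases h : k = i
  · subst h; simpa using hg
  · simpa [Function.update_of_ne h] using holo_coord k

/-- finite dependence -/
theorem Holo.dep (hf : Holo f) : ∃ n, Dep n f := by
  obtain ⟨n, h⟩ := holo_iff.1 hf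
  exact ⟨n, h.1⟩

theorem Dep.update {n j : ℕ} (h : Dep n f) (hj : n ≤ j) (z : ℕ → ℂ) (t : ℂ) : f (Function.update z j t) = f z := by
  apply h
  intro i hi
  rw [Function.update_of_ne (by omega)]

theorem Holo.diffAt (hf : Holo f) {z : ℕ → ℂ} (hz : z ∈ D) (i : ℕ) {t : ℂ} (ht : ‖t‖ ≤ 1) :
    DifferentiableAt ℂ (fun t => f (Function.update z i t)) t := by
  obtain ⟨n, h1⟩ := holo_iff.1 hf
  have key : ∀ t, f (Function.update z i t) = (fun y => f (ext n y)) (res n (Function.update z i t)) := fun t =>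
    (h1.1.ext_res _).symm
  simp only [key]
  have h2 := (h1.2 _ (res_mem (update_mem_D hz i ht))).self_of_nhds
  refine DifferentiableAt.comp (g := fun y => f (ext n y)) t h2 ?_
  rw [differentiableAt_pi]
  intro k
  by_cases h : (k : ℕ) = i
  · simp only [res, h, Function.update_self]; exact differentiableAt_id
  · simp only [res, Function.update_of_ne h]; exact differentiableAt_const _

theorem Holo.hasDeriv (hf : Holo f) {z : ℕ → ℂ} (hz : z ∈ D) (i : ℕ) :
    HasDerivAt (fun t => f (Function.update z i t)) (pd i f z) (z i) :=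
  (hf.diffAt hz i (hz i)).hasDerivAt

theorem Holo.continuous (hf : Holo f) : Continuous fun x : Cube => f (pt x) := by
  obtain ⟨n, h1⟩ := holo_iff.1 hf
  have key : ∀ x : Cube, f (pt x) = (fun y => f (ext n y)) (res n (pt x)) := fun t => (h1.1.ext_res _).symm
  simp only [key]
  rw [continuous_iff_continuousAt]
  intro x
  have h2 := (h1.2 _ (res_mem (pt_mem_D x))).self_of_nhds.continuousAt
  refine ContinuousAt.comp (g := fun y => f (ext n y)) (f := fun x : Cube => res n (pt x)) h2 ?_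
  apply Continuous.continuousAt
  unfold res pt
  fun_prop

end Holo

end Pool.Agent.H39.KP
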