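import Pool.Agent.H39.KP.Rat

namespace Pool.Agent.H39.KP

open Function Filter Topology

variable {f g F G : Fn}

/-- the map to the box with the corner `b` and the sides `s` -/
noncomputable def bx (b s : ℕ → ℚ) (z : ℕ → ℂ) : ℕ → ℂ := fun k => (b k : ℂ) + (s k : ℂ) * z k

def Good (b s : ℕ → ℚ) : Prop := ∀ k, 0 < s k ∧ 0 ≤ b k ∧ b k + s k ≤ 1

theorem norm_rat {a : ℚ} (ha : 0 ≤ a) : ‖(a : ℂ)‖ = (a : ℝ) := by
  rw [show (a : ℂ) = ((a : ℝ) : ℂ) by push_cast; rfl, Complex.norm_real, Real.norm_of_nonneg (by exact_mod_cast ha)]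

theorem bx_mem_D {b s : ℕ → ℚ} (h : Good b s) {z : ℕ → ℂ} (hz : z ∈ D) : bx b s z ∈ D := by
  intro k
  obtain ⟨h1, h2, h3⟩ := h k
  have h3' : (b k : ℝ) + (s k : ℝ) ≤ 1 := by exact_mod_cast h3
  have h1' : (0 : ℝ) ≤ (s k : ℝ) := by exact_mod_cast h1.le
  calc ‖(b k : ℂ) + (s k : ℂ) * z k‖ ≤ ‖(b k : ℂ)‖ + ‖(s k : ℂ)‖ * ‖z k‖ := by
        rw [← norm_mul]; exact norm_add_le _ _
    _ ≤ (b k : ℝ) + (s k : ℝ) * 1 := by
        rw [norm_rat h2, norm_rat h1.le]
        exact add_le_add le_rfl (mul_le_mul_of_nonneg_left (hz k) h1')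
    _ ≤ 1 := by linarith

theorem O_bx (hf : f ∈ O) {b s : ℕ → ℚ} (h : Good b s) : (fun z => f (bx b s z)) ∈ O := by
  obtain ⟨n, hn⟩ := holo_iff.1 hf.1
  obtain ⟨r, hr, hR⟩ := hn.exists_radius
  set Φ : ℕ → RK := fun k => MvPolynomial.C (algebraMap ℚ K (b k)) + MvPolynomial.C (algebraMap ℚ K (s k)) * MvPolynomial.X k with hΦ
  set ψ : RK →ₐ[K] RK := MvPolynomial.aeval fun k =>
    MvPolynomial.C (algebraMap ℚ K (s k))⁻¹ * (MvPolynomial.X k - MvPolynomial.C (algebraMap ℚ K (b k))) with hψ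
  have hs0 : ∀ k, algebraMap ℚ K (s k) ≠ 0 := fun k => by
    rw [Ne, map_eq_zero]; exact (h k).1.ne'
  have h1 : ∀ k < n, ψ (Φ k) = MvPolynomial.X k := by
    intro k _
    simp only [hΦ, hψ, map_add, map_mul, MvPolynomial.aeval_X, MvPolynomial.aeval_C, MvPolynomial.algebraMap_eq]
    have e1 : (MvPolynomial.C (algebraMap ℚ K (s k)) : RK) * MvPolynomial.C (algebraMap ℚ K (s k))⁻¹ = 1 := by
      rw [← MvPolynomial.C_mul, mul_inv_cancel₀ (hs0 k), MvPolynomial.C_1]
    linear_combination (MvPolynomial.X k - MvPolynomial.C (algebraMap ℚ K (b k)) : RK) * e1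
  have h2 : ∀ z : ℕ → ℂ, (fun k => (MvPolynomial.aeval z (Φ k) : ℂ)) = bx b s z := by
    intro z
    funext k
    simp [hΦ, bx]
  have h3 := O_comp hr hR hf.2 Φ ψ h1 fun z hz => by
    rw [h2]
    exact D_sub_Bl hr (bx_mem_D h hz)
  simpa only [h2] using h3

theorem bx_half0 (b s : ℕ → ℚ) (z : ℕ → ℂ) (i : ℕ) : bx b s (update z i (z i / 2)) = bx b (update s i (s i / 2)) z := by
  funext k
  by_cases hk : k = i
  · subst hk; simp [bx]; ring
  · simp [bx, update_of_ne hk]

theorem bx_half1 (b s : ℕ → ℚ) (z : ℕ → ℂ) (i : ℕ) :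
    bx b s (update z i ((1 + z i) / 2)) = bx (update b i (b i + s i / 2)) (update s i (s i / 2)) z := by
  funext k
  by_cases hk : k = i
  · subst hk; simp [bx]; ring
  · simp [bx, update_of_ne hk]

/-- all boxes with the sides `s` -/
def AllRep (f : Fn) (s : ℕ → ℚ) : Prop := ∀ b, Good b s → Rep fun z => f (bx b s z)

theorem AllRep.halve (hf : f ∈ O) {s : ℕ → ℚ} (i : ℕ) (h : AllRep f (update s i (s i / 2))) : AllRep f s := by
  intro b hb
  have hF := O_bx hf hb
  have e0 : half0 i (fun z => f (bx b s z)) = fun z => ((1 / 2 : ℚ) : ℂ) * f (bx b (update s i (s i / 2)) z) := by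
    funext z
    simp only [half0, bx_half0]
    push_cast; ring
  have e1 : half1 i (fun z => f (bx b s z)) = fun z => ((1 / 2 : ℚ) : ℂ) * f (bx (update b i (b i + s i / 2)) (update s i (s i / 2)) z) := by
    funext z
    simp only [half1, bx_half1]
    push_cast; ring
  have hg0 : Good b (update s i (s i / 2)) := by
    intro k
    obtain ⟨h1, h2, h3⟩ := hb k
    by_cases hk : k = i
    · subst hk; rw [update_self]; exact ⟨by linarith, h2, by linarith⟩
    · rw [update_of_ne hk]; exact ⟨h1, h2, h3⟩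
  have hg1 : Good (update b i (b i + s i / 2)) (update s i (s i / 2)) := by
    intro k
    obtain ⟨h1, h2, h3⟩ := hb k
    by_cases hk : k = i
    · subst hk; rw [update_self, update_self]; exact ⟨by linarith, by linarith, by linarith⟩
    · rw [update_of_ne hk, update_of_ne hk]; exact ⟨h1, h2, h3⟩
  have hsub := subdivide hF i
  rw [e0, e1] at hsub
  exact Rep.of_eqv hsub (((h _ hg0).const (PolF.rat _)).add ((h _ hg1).const (PolF.rat _)))

/-- the sides `2^(-e)` -/
def sd (n e : ℕ) : ℕ → ℚ := fun k => if k < n then (1 / 2) ^ e else 1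

theorem AllRep.step (hf : f ∈ O) {n e : ℕ} (h : AllRep f (sd n (e + 1))) : AllRep f (sd n e) := by
  have key : ∀ m ≤ n, AllRep f (fun k => if k < n - m then (1 / 2) ^ (e + 1) else if k < n then (1 / 2) ^ e else 1) := by
    intro m
    induction m with
    | zero =>
      intro _
      have : (fun k => if k < n - 0 then ((1 : ℚ) / 2) ^ (e + 1) else if k < n then (1 / 2) ^ e else 1) = sd n (e + 1) := by
        funext k
        simp only [sd, Nat.sub_zero]
        split_ifs <;> rfl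
      rw [this]; exact h
    | succ m ih =>
      intro hm
      have h1 := ih (by omega)
      apply AllRep.halve hf (n - (m + 1))
      convert h1 using 1
      funext k
      by_cases hk : k = n - (m + 1)
      · subst hk
        rw [update_self, if_neg (by omega), if_pos (by omega), if_pos (by omega)]
        ring
      · rw [update_of_ne hk]
        by_cases h2 : k < n - (m + 1)
        · rw [if_pos h2, if_pos (by omega)]
        · rw [if_neg h2, if_neg (show ¬ k < n - m by omega)]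
  have h2 := key n le_rfl
  convert h2 using 1
  funext k
  simp [sd]

theorem AllRep.rep (hf : f ∈ O) {n e : ℕ} (h : AllRep f (sd n e)) : Rep f := by
  have h0 : AllRep f (sd n 0) := by
    induction e with
    | zero => exact h
    | succ e ih => exact ih (h.step hf)
  have h1 := h0 (fun _ => 0) fun k => by
    simp only [sd]
    split_ifs <;> norm_num
  refine Rep.of_eq (fun x => ?_) h1
  congr 1
  funext k
  simp only [bx, sd]
  split_ifs <;> simp

/-- from local representations to a representation -/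
theorem rep_of_local (hf : f ∈ O) (n : ℕ) (h : ∀ a : Fin n → ℝ, a ∈ Set.Icc (0 : Fin n → ℝ) 1 → ∃ δ > 0, ∀ b s : ℕ → ℚ, Good b s →
    (∀ k : Fin n, |(b k : ℝ) - a k| + (s k : ℝ) < δ) → Rep fun z => f (bx b s z)) : Rep f := by
  have key : ∃ δ > (0 : ℝ), ∀ b s : ℕ → ℚ, Good b s → (fun k : Fin n => (b k : ℝ)) ∈ Set.Icc (0 : Fin n → ℝ) 1 →
      (∀ k : Fin n, (s k : ℝ) < δ) → Rep fun z => f (bx b s z) := by
    refine (isCompact_Icc (a := (0 : Fin n → ℝ)) (b := 1)).induction_on (p := fun S => ∃ δ > (0 : ℝ), ∀ b s : ℕ → ℚ, Good b s →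
      (fun k : Fin n => (b k : ℝ)) ∈ S → (∀ k : Fin n, (s k : ℝ) < δ) → Rep fun z => f (bx b s z)) ?_ ?_ ?_ ?_
    · exact ⟨1, one_pos, fun b s _ h => absurd h (Set.notMem_empty _)⟩
    · rintro S T hST ⟨δ, hδ, h1⟩
      exact ⟨δ, hδ, fun b s hg hb hs => h1 b s hg (hST hb) hs⟩
    · rintro S T ⟨δ, hδ, h1⟩ ⟨δ', hδ', h2⟩
      refine ⟨min δ δ', lt_min hδ hδ', fun b s hg hb hs => ?_⟩
      rcases hb with hb | hb
      · exact h1 b s hg hb fun k => (hs k).trans_le (min_le_left _ _)
      · exact h2 b s hg hb fun k => (hs k).trans_le (min_le_right _ _)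
    · intro a ha
      obtain ⟨δ, hδ, h1⟩ := h a ha
      refine ⟨Metric.ball a (δ / 2), mem_nhdsWithin_of_mem_nhds (Metric.ball_mem_nhds a (by positivity)), δ / 2, by positivity,
        fun b s hg hb hs => h1 b s hg fun k => ?_⟩
      rw [mem_ball_iff_norm, pi_norm_lt_iff (by positivity)] at hb
      have h2 := hb k
      rw [Pi.sub_apply, Real.norm_eq_abs] at h2
      have h3 := hs k
      linarith
  obtain ⟨δ, hδ, h1⟩ := key
  obtain ⟨e, he⟩ := exists_pow_lt_of_lt_one hδ (show (1 / 2 : ℝ) < 1 by norm_num)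
  refine AllRep.rep (n := n) (e := e) hf fun b hg => h1 b _ hg ?_ fun k => ?_
  · constructor
    · intro k
      show (0 : ℝ) ≤ (b k : ℝ)
      exact_mod_cast (hg k).2.1
    · intro k
      have h2 := (hg k).2.2
      have h3 := (hg k).1
      have h4 : b k ≤ 1 := by linarith
      show (b k : ℝ) ≤ 1
      exact_mod_cast h4
  · simp only [sd, k.2, if_true]
    push_cast
    exact he

end Pool.Agent.H39.KP
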