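import Pool.Agent.H39.KP.Alg

namespace Pool.Agent.H39.KP

open Function

variable {f g : Fn}

theorem O_add (hf : f ∈ O) (hg : g ∈ O) : (fun z => f z + g z) ∈ O := ⟨hf.1.add hg.1, hf.2.add hg.2⟩

theorem O_mul (hf : f ∈ O) (hg : g ∈ O) : (fun z => f z * g z) ∈ O := ⟨hf.1.mul hg.1, hf.2.mul hg.2⟩

theorem O_neg (hf : f ∈ O) : (fun z => - f z) ∈ O := ⟨hf.1.neg, hf.2.neg⟩

theorem O_sub (hf : f ∈ O) (hg : g ∈ O) : (fun z => f z - g z) ∈ O := by
  simpa [sub_eq_add_neg] using O_add hf (O_neg hg)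

theorem O_coord (k : ℕ) : (fun z : ℕ → ℂ => z k) ∈ O := ⟨holo_coord k, algc_coord k⟩

theorem O_rat (q : ℚ) : (fun _ : ℕ → ℂ => (q : ℂ)) ∈ O := ⟨holo_const _, algc_rat q⟩

theorem O_const {c : ℂ} (hc : IsAlgebraic ℚ c) : (fun _ : ℕ → ℂ => c) ∈ O := ⟨holo_const _, algc_const hc⟩

theorem O_sum {ι : Type*} (s : Finset ι) (F : ι → Fn) (h : ∀ i ∈ s, F i ∈ O) : (fun z => ∑ i ∈ s, F i z) ∈ O := by
  classical
  induction s using Finset.induction_on with
  | empty => simpa using O_rat 0
  | insert a s ha ih =>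
    simp only [Finset.sum_insert ha]
    exact O_add (h a (Finset.mem_insert_self a s)) (ih fun i hi => h i (Finset.mem_insert_of_mem hi))

/-- fresh variable -/
def Fresh (j : ℕ) (f : Fn) : Prop := ∀ z t, f (update z j t) = f z

theorem Holo.fresh (hf : Holo f) : ∃ n, ∀ j, n ≤ j → Fresh j f := by
  obtain ⟨n, h⟩ := hf.dep
  exact ⟨n, fun j hj z t => h.update hj z t⟩

theorem Holo.exists_fresh (hf : Holo f) (i : ℕ) : ∃ j, j ≠ i ∧ Fresh j f := by
  obtain ⟨n, h⟩ := hf.fresh
  exact ⟨n + i + 1, by omega, h _ (by omega)⟩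

/-- the generators of the relations -/
theorem stokes_mem (hg : g ∈ O) (i : ℕ) :
    (fun x => pd i g (pt x) - g (update (pt x) i 1) + g (update (pt x) i 0)) ∈ Stokes :=
  Submodule.subset_span ⟨g, hg, i, rfl⟩

theorem Eqv.refl (f : Fn) : Eqv f f := by
  unfold Eqv
  simp only [sub_self]
  exact Stokes.zero_mem

theorem Eqv.of_eq (h : ∀ x, f (pt x) = g (pt x)) : Eqv f g := by
  unfold Eqv
  simp only [h, sub_self]
  exact Stokes.zero_mem

theorem Eqv.symm (h : Eqv f g) : Eqv g f := by
  unfold Eqv at *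
  have := Stokes.neg_mem h
  convert this using 1
  funext x; simp

theorem Eqv.trans {h : Fn} (h1 : Eqv f g) (h2 : Eqv g h) : Eqv f h := by
  unfold Eqv at *
  have := Stokes.add_mem h1 h2
  convert this using 1
  funext x; simp

theorem Eqv.add {f' g' : Fn} (h1 : Eqv f g) (h2 : Eqv f' g') : Eqv (fun z => f z + f' z) (fun z => g z + g' z) := by
  unfold Eqv at *
  have := Stokes.add_mem h1 h2
  convert this using 1
  funext x; simp; ring

theorem Eqv.neg (h1 : Eqv f g) : Eqv (fun z => - f z) (fun z => - g z) := by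
  unfold Eqv at *
  have := Stokes.neg_mem h1
  convert this using 1
  funext x; simp; ring

theorem Eqv.sub {f' g' : Fn} (h1 : Eqv f g) (h2 : Eqv f' g') : Eqv (fun z => f z - f' z) (fun z => g z - g' z) := by
  simpa [sub_eq_add_neg] using h1.add h2.neg

/-- Two forms with the same derivative. -/
theorem two_forms {A B : Fn} (hA : A ∈ O) (hB : B ∈ O) {i j : ℕ} (h : ∀ x, pd j A (pt x) = pd i B (pt x)) :
    (fun x => (A (update (pt x) j 1) - A (update (pt x) j 0)) - (B (update (pt x) i 1) - B (update (pt x) i 0)))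
      ∈ Stokes := by
  have := Stokes.sub_mem (stokes_mem hB i) (stokes_mem hA j)
  convert this using 1
  funext x
  simp only [Pi.sub_apply, h]
  ring

/-- Homotopy: substitution of `φ(z_i, z_j)` for `z_i`, with partial derivatives `φ₁`, `φ₂`. -/
theorem homotopy (hf : f ∈ O) {i j : ℕ} (hij : i ≠ j) (hj : Fresh j f) (φ φ₁ φ₂ : ℂ → ℂ → ℂ) (c : ℂ → ℂ → ℂ)
    (h1 : ∀ s t, HasDerivAt (fun s => φ s t) (φ₁ s t) s) (h2 : ∀ s t, HasDerivAt (fun t => φ s t) (φ₂ s t) t)
    (h12 : ∀ s t, HasDerivAt (fun t => φ₁ s t) (c s t) t) (h21 : ∀ s t, HasDerivAt (fun s => φ₂ s t) (c s t) s)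
    (hφ : ∀ s t, ‖s‖ ≤ 1 → ‖t‖ ≤ 1 → ‖φ s t‖ ≤ 1)
    (hA : (fun z => φ₁ (z i) (z j) * f (update z i (φ (z i) (z j)))) ∈ O)
    (hB : (fun z => φ₂ (z i) (z j) * f (update z i (φ (z i) (z j)))) ∈ O) :
    (fun x => (φ₁ (pt x i) 1 * f (update (pt x) i (φ (pt x i) 1)) - φ₁ (pt x i) 0 * f (update (pt x) i (φ (pt x i) 0)))
      - (φ₂ 1 (pt x j) * f (update (pt x) i (φ 1 (pt x j))) - φ₂ 0 (pt x j) * f (update (pt x) i (φ 0 (pt x j)))))
      ∈ Stokes := by
  have key := two_forms (i := i) (j := j) hA hB fun x => ?_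
  · convert key using 1
    funext x
    have e : ∀ t, f (update (update (pt x) j t) i (φ (pt x i) t)) = f (update (pt x) i (φ (pt x i) t)) := fun t => by
      rw [update_comm hij.symm, hj]
    simp only [update_self, update_of_ne hij, update_of_ne hij.symm, e, update_idem]
  · have hz := pt_mem_D x
    set z := pt x with hzdef
    have hd : HasDerivAt (fun w => f (update z i w)) (deriv (fun w => f (update z i w)) (φ (z i) (z j))) (φ (z i) (z j)) :=
      (hf.1.diffAt hz i (hφ _ _ (hz i) (hz j))).hasDerivAt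
    set d := deriv (fun w => f (update z i w)) (φ (z i) (z j)) with hdd
    have eA : pd j (fun z => φ₁ (z i) (z j) * f (update z i (φ (z i) (z j)))) z
        = c (z i) (z j) * f (update z i (φ (z i) (z j))) + φ₁ (z i) (z j) * (d * φ₂ (z i) (z j)) := by
      unfold pd
      have e : (fun t => φ₁ (update z j t i) (update z j t j) * f (update (update z j t) i (φ (update z j t i) (update z j t j))))
          = fun t => φ₁ (z i) t * f (update z i (φ (z i) t)) := by
        funext t
        rw [update_of_ne hij, update_self, update_comm hij.symm, hj]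
      rw [e]
      have h3 : HasDerivAt (fun t => f (update z i (φ (z i) t))) (d * φ₂ (z i) (z j)) (z j) :=
        HasDerivAt.comp (h₂ := fun w => f (update z i w)) (z j) hd (h2 (z i) (z j))
      exact ((h12 (z i) (z j)).mul h3).deriv
    have eB : pd i (fun z => φ₂ (z i) (z j) * f (update z i (φ (z i) (z j)))) z
        = c (z i) (z j) * f (update z i (φ (z i) (z j))) + φ₂ (z i) (z j) * (d * φ₁ (z i) (z j)) := by
      unfold pd
      have e : (fun t => φ₂ (update z i t i) (update z i t j) * f (update (update z i t) i (φ (update z i t i) (update z i t j))))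
          = fun t => φ₂ t (z j) * f (update z i (φ t (z j))) := by
        funext t
        rw [update_of_ne hij.symm, update_self, update_idem]
      rw [e]
      have h3 : HasDerivAt (fun t => f (update z i (φ t (z j)))) (d * φ₁ (z i) (z j)) (z i) :=
        HasDerivAt.comp (h₂ := fun w => f (update z i w)) (h := fun t => φ t (z j)) (z i) hd (h1 (z i) (z j))
      exact ((h21 (z i) (z j)).mul h3).deriv
    rw [eA, eB]
    ring

theorem norm_mul_le_one {s t : ℂ} (hs : ‖s‖ ≤ 1) (ht : ‖t‖ ≤ 1) : ‖s * t‖ ≤ 1 := by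
  rw [norm_mul]; exact mul_le_one₀ hs (norm_nonneg _) ht

theorem norm_half_le {s t : ℂ} (hs : ‖s‖ ≤ 1) (ht : ‖t‖ ≤ 1) : ‖s * ((1 + t) / 2)‖ ≤ 1 := by
  have h : ‖1 + t‖ ≤ 2 := (norm_add_le _ _).trans (by rw [norm_one]; linarith)
  refine norm_mul_le_one hs ?_
  rw [norm_div, Complex.norm_ofNat, div_le_one (by norm_num)]
  exact h

/-- substitution of `z_i z_j` -/
theorem O_subst_mul (hf : f ∈ O) {i j : ℕ} (hij : i ≠ j) (hj : Fresh j f) :
    (fun z => f (update z i (z i * z j))) ∈ O := by
  refine ⟨hf.1.update i ((holo_coord i).mul (holo_coord j)) fun z hz => norm_mul_le_one (hz i) (hz j), ?_⟩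
  have h := hf.2.subst_fresh hij hj (MvPolynomial.X i * MvPolynomial.X j)
    (by simp [update_of_ne hij])
    (fun x => ⟨(x i : ℝ) * (x j : ℝ), ⟨mul_nonneg (x i).2.1 (x j).2.1, mul_le_one₀ (x i).2.2 (x j).2.1 (x j).2.2⟩, by
      simp [pt]⟩)
  simpa using h

/-- substitution of `z_i (1 + z_j) / 2` -/
theorem O_subst_half (hf : f ∈ O) {i j : ℕ} (hij : i ≠ j) (hj : Fresh j f) :
    (fun z => f (update z i (z i * ((1 + z j) / 2)))) ∈ O := by
  have hh : Holo fun z : ℕ → ℂ => z i * ((1 + z j) / 2) := by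
    have := ((holo_coord i).mul ((holo_const 1).add (holo_coord j))).mul (holo_const (1 / 2))
    convert this using 2
    ring
  refine ⟨hf.1.update i hh fun z hz => norm_half_le (hz i) (hz j), ?_⟩
  have h := hf.2.subst_fresh hij hj (MvPolynomial.X i * (1 + MvPolynomial.X j) * MvPolynomial.C (1 / 2))
    (by
      simp only [map_mul, map_add, map_one, MvPolynomial.aeval_X, update_of_ne hij, update_self, MvPolynomial.aeval_C,
        MvPolynomial.algebraMap_eq]
      have e2 : (1 : R) + 1 = MvPolynomial.C 2 := by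
        have : (MvPolynomial.C (2 : ℚ) : R) = 2 := map_ofNat MvPolynomial.C 2
        rw [this]; norm_num
      rw [e2, mul_assoc, ← MvPolynomial.C_mul]
      norm_num)
    (fun x => ⟨(x i : ℝ) * ((1 + (x j : ℝ)) / 2), ⟨by
      have := (x i).2.1; have := (x j).2.1; positivity, by
      have h1 := (x i).2.1; have h2 := (x i).2.2; have h3 := (x j).2.1; have h4 := (x j).2.2
      nlinarith⟩, by
      simp [pt]; ring⟩)
  have e : (fun z : ℕ → ℂ => f (update z i (z i * ((1 + z j) / 2)))) =
      fun z => f (update z i (MvPolynomial.aeval z (MvPolynomial.X i * (1 + MvPolynomial.X j) * MvPolynomial.C (1 / 2) : R))) := by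
    funext z
    congr 2
    simp
    ring
  rw [e]
  exact h

/-- renaming of a variable -/
theorem rename_fresh (hf : f ∈ O) {i j : ℕ} (hij : i ≠ j) (hj : Fresh j f) :
    Eqv f fun z => f (update z i (z j)) := by
  have h := homotopy hf hij hj (fun s t => s * t) (fun _ t => t) (fun s _ => s) (fun _ _ => 1)
    (fun s t => by simpa using (hasDerivAt_id s).mul_const t) (fun s t => by simpa using (hasDerivAt_id t).const_mul s)
    (fun s t => hasDerivAt_id t) (fun s t => hasDerivAt_id s)
    (fun s t hs ht => norm_mul_le_one hs ht)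
    (O_mul (O_coord j) (O_subst_mul hf hij hj)) (O_mul (O_coord i) (O_subst_mul hf hij hj))
  unfold Eqv
  convert h using 1
  funext x
  simp

/-- the first half -/
noncomputable def half0 (i : ℕ) (f : Fn) : Fn := fun z => f (update z i (z i / 2)) / 2

/-- the second half -/
noncomputable def half1 (i : ℕ) (f : Fn) : Fn := fun z => f (update z i ((1 + z i) / 2)) / 2

/-- affine substitutions -/
theorem O_affine (hf : f ∈ O) (i : ℕ) {a b : ℚ} (hb : b ≠ 0) (ha : 0 ≤ a) (hb0 : 0 ≤ b) (hab : a + b ≤ 1) :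
    (fun z => f (update z i ((a : ℂ) + (b : ℂ) * z i))) ∈ O := by
  have hh : Holo fun z : ℕ → ℂ => (a : ℂ) + (b : ℂ) * z i := (holo_const _).add ((holo_const _).mul (holo_coord i))
  have ha' : (0 : ℝ) ≤ (a : ℝ) := by exact_mod_cast ha
  have hb' : (0 : ℝ) ≤ (b : ℝ) := by exact_mod_cast hb0
  have hab' : (a : ℝ) + (b : ℝ) ≤ 1 := by exact_mod_cast hab
  refine ⟨hf.1.update i hh fun z hz => ?_, ?_⟩
  · have h1 : ‖(a : ℂ)‖ = (a : ℝ) := by
      rw [show (a : ℂ) = ((a : ℝ) : ℂ) by push_cast; rfl, Complex.norm_real, Real.norm_of_nonneg ha']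
    have h2 : ‖(b : ℂ)‖ = (b : ℝ) := by
      rw [show (b : ℂ) = ((b : ℝ) : ℂ) by push_cast; rfl, Complex.norm_real, Real.norm_of_nonneg hb']
    calc ‖(a : ℂ) + (b : ℂ) * z i‖ ≤ ‖(a : ℂ)‖ + ‖(b : ℂ)‖ * ‖z i‖ := by
          rw [← norm_mul]; exact norm_add_le _ _
      _ ≤ (a : ℝ) + (b : ℝ) * 1 := by
          rw [h1, h2]; exact add_le_add le_rfl (mul_le_mul_of_nonneg_left (hz i) hb')
      _ ≤ 1 := by linarith
  · set φ : R →ₐ[ℚ] R := MvPolynomial.aeval (update MvPolynomial.X i (MvPolynomial.C a + MvPolynomial.C b * MvPolynomial.X i)) with hφ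
    set ψ : R →ₐ[ℚ] R := MvPolynomial.aeval (update MvPolynomial.X i (MvPolynomial.C b⁻¹ * (MvPolynomial.X i - MvPolynomial.C a))) with hψ
    have hinj : Function.Injective φ := by
      have hcomp : ψ.comp φ = AlgHom.id ℚ R := by
        apply MvPolynomial.algHom_ext
        intro k
        by_cases hk : k = i
        · subst hk
          simp only [hφ, hψ, AlgHom.comp_apply, MvPolynomial.aeval_X, update_self, map_add, map_mul,
            MvPolynomial.aeval_C, MvPolynomial.algebraMap_eq, AlgHom.coe_id, id_eq]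
          rw [← mul_assoc, ← MvPolynomial.C_mul, mul_inv_cancel₀ hb, MvPolynomial.C_1, one_mul]
          ring
        · simp [hφ, hψ, update_of_ne hk]
      intro p q h
      have := congrArg ψ h
      have h1 := congrArg (fun F : R →ₐ[ℚ] R => F p) hcomp
      have h2 := congrArg (fun F : R →ₐ[ℚ] R => F q) hcomp
      simp only [AlgHom.comp_apply, AlgHom.coe_id, id_eq] at h1 h2
      rw [← h1, ← h2, this]
    refine hf.2.comp_inj (fun z => update z i ((a : ℂ) + (b : ℂ) * z i)) φ hinj (fun x => ?_) fun x k => ?_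
    · have h0 : 0 ≤ (a : ℝ) + (b : ℝ) * (x i : ℝ) := by have := (x i).2.1; positivity
      have h1 : (a : ℝ) + (b : ℝ) * (x i : ℝ) ≤ 1 := by
        have := (x i).2.2
        nlinarith
      refine ⟨update x i ⟨_, h0, h1⟩, ?_⟩
      rw [pt_update_rat x i h0 h1]
      congr 1
      simp [pt]
    · by_cases hk : k = i
      · subst hk; simp [hφ]
      · simp [hφ, update_of_ne hk]

theorem O_half0 (hf : f ∈ O) (i : ℕ) : half0 i f ∈ O := by
  have h := O_mul (O_affine hf i (a := 0) (b := 1 / 2) (by norm_num) le_rfl (by norm_num) (by norm_num)) (O_rat (1 / 2))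
  convert h using 1
  funext z
  simp only [half0]
  rw [show ((0 : ℚ) : ℂ) + ((1 / 2 : ℚ) : ℂ) * z i = z i / 2 by push_cast; ring]
  push_cast; ring

theorem O_half1 (hf : f ∈ O) (i : ℕ) : half1 i f ∈ O := by
  have h := O_mul (O_affine hf i (a := 1 / 2) (b := 1 / 2) (by norm_num) (by norm_num) (by norm_num) (by norm_num)) (O_rat (1 / 2))
  convert h using 1
  funext z
  simp only [half1]
  rw [show ((1 / 2 : ℚ) : ℂ) + ((1 / 2 : ℚ) : ℂ) * z i = (1 + z i) / 2 by push_cast; ring]
  push_cast; ring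

/-- Subdivision. -/
theorem subdivide (hf : f ∈ O) (i : ℕ) : Eqv f fun z => half0 i f z + half1 i f z := by
  obtain ⟨j, hji, hj⟩ := hf.1.exists_fresh i
  have hij : i ≠ j := hji.symm
  have h := homotopy hf hij hj (fun s t => s * ((1 + t) / 2)) (fun _ t => (1 + t) / 2) (fun s _ => s / 2) (fun _ _ => 1 / 2)
    (fun s t => ((hasDerivAt_id' s).mul_const ((1 + t) / 2)).congr_deriv (by ring))
    (fun s t => ((((hasDerivAt_id' t).const_add 1).div_const 2).const_mul s).congr_deriv (by ring))
    (fun s t => ((hasDerivAt_id' t).const_add 1).div_const 2)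
    (fun s t => (hasDerivAt_id' s).div_const 2)
    (fun s t hs ht => norm_half_le hs ht)
    (by
      have := O_mul (O_mul (O_add (O_rat 1) (O_coord j)) (O_rat (1 / 2))) (O_subst_half hf hij hj)
      convert this using 1
      funext z; push_cast; ring)
    (by
      have := O_mul (O_mul (O_coord i) (O_rat (1 / 2))) (O_subst_half hf hij hj)
      convert this using 1
      funext z; push_cast; ring)
  have h2 : Eqv f fun z => half0 i f z + f (update z i ((1 + z j) / 2)) / 2 := by
    unfold Eqv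
    convert h using 1
    funext x
    simp only [half0]
    norm_num
    ring
  refine h2.trans ((Eqv.refl _).add ?_)
  -- rename
  have hg := O_half1 hf i
  have hfr : Fresh j (half1 i f) := by
    intro z t
    simp only [half1]
    rw [update_comm hij.symm, hj, update_of_ne hij]
  have h3 := (rename_fresh hg hij hfr).symm
  refine (Eqv.of_eq fun x => ?_).trans h3
  simp [half1]

end Pool.Agent.H39.KP
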