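import Pool.Agent.H39.KP.AlgK

namespace Pool.Agent.H39.KP

open Function Filter Topology Polynomial

variable {f g : Fn}

theorem HoloR.comp_holo {n : ℕ} {r : ℝ} (hr : 0 < r) (hf : HoloR n r f) {Φ : (ℕ → ℂ) → ℕ → ℂ}
    (hΦ : ∀ k < n, Holo fun z => Φ z k) (hD : ∀ z ∈ D, Φ z ∈ Bl n r) : Holo fun z => f (Φ z) := by
  have h2 : ∀ k, ∃ m, k < n → HoloN m fun z => Φ z k := fun k => by
    by_cases hk : k < n
    · obtain ⟨m, hm⟩ := holo_iff.1 (hΦ k hk)
      exact ⟨m, fun _ => hm⟩
    · exact ⟨0, fun h => absurd h hk⟩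
  choose m hm using h2
  set M := (Finset.range n).sup m with hM
  have hΦM : ∀ k < n, HoloN M fun z => Φ z k := fun k hk =>
    (hm k hk).mono (Finset.le_sup (f := m) (Finset.mem_range.2 hk))
  refine holo_iff.2 ⟨M, ?_, fun x hx => ?_⟩
  · intro z w h
    apply hf.1
    intro k hk
    exact (hΦM k hk).1 z w h
  · have key : ∀ y, f (Φ (ext M y)) = (fun y => f (ext n y)) (res n (Φ (ext M y))) := fun y =>
      (hf.1.ext_res _).symm
    have hd : ∀ᶠ y in 𝓝 x, DifferentiableAt ℂ (fun y => res n (Φ (ext M y))) y := by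
      have : ∀ᶠ y in 𝓝 x, ∀ k : Fin n, DifferentiableAt ℂ (fun y => Φ (ext M y) k) y :=
        eventually_all.2 fun k => (hΦM k k.2).2 x hx
      filter_upwards [this] with y hy
      exact differentiableAt_pi.2 hy
    have hc : ContinuousAt (fun y => res n (Φ (ext M y))) x := hd.self_of_nhds.continuousAt
    have hm : res n (Φ (ext M x)) ∈ Metric.ball (0 : Fin n → ℂ) r := res_mem_ball hr (hD _ (ext_mem hx))
    have h2 : ∀ᶠ y in 𝓝 x, res n (Φ (ext M y)) ∈ Metric.ball (0 : Fin n → ℂ) r :=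
      hc.eventually (Metric.isOpen_ball.mem_nhds hm)
    filter_upwards [hd, h2] with y hy1 hy2
    simp only [key]
    exact DifferentiableAt.comp (g := fun y => f (ext n y)) y
      (hf.2.differentiableAt (Metric.isOpen_ball.mem_nhds hy2)) hy1

theorem holo_polyK (q : RK) : Holo fun z => MvPolynomial.aeval z q := by
  induction q using MvPolynomial.induction_on with
  | C a => simpa using holo_const (a : ℂ)
  | add p q hp hq => simpa using hp.add hq
  | mul_X p i hp => simpa using hp.mul (holo_coord i)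

theorem O_polyK (q : RK) : (fun z => (MvPolynomial.aeval z q : ℂ)) ∈ O := by
  refine ⟨holo_polyK q, ?_⟩
  refine algc_of_K (Polynomial.X - Polynomial.C q) (Polynomial.X_sub_C_ne_zero q) fun x => ?_
  simp [ev2]

theorem HoloR.mul {n : ℕ} {r : ℝ} (hf : HoloR n r f) (hg : HoloR n r g) : HoloR n r fun z => f z * g z :=
  ⟨fun z w h => by simp only [hf.1 z w h, hg.1 z w h], hf.2.mul hg.2⟩

theorem HoloR.add {n : ℕ} {r : ℝ} (hf : HoloR n r f) (hg : HoloR n r g) : HoloR n r fun z => f z + g z :=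
  ⟨fun z w h => by simp only [hf.1 z w h, hg.1 z w h], hf.2.add hg.2⟩

theorem HoloR.const (n : ℕ) (r : ℝ) (c : ℂ) : HoloR n r fun _ => c :=
  ⟨fun _ _ _ => rfl, differentiableOn_const _⟩

theorem HoloR.pow {n : ℕ} {r : ℝ} (hf : HoloR n r f) (m : ℕ) : HoloR n r fun z => f z ^ m := by
  induction m with
  | zero => simpa using HoloR.const n r 1
  | succ m ih => simpa only [pow_succ] using ih.mul hf

theorem HoloR.sum {n : ℕ} {r : ℝ} {ι : Type*} (s : Finset ι) (F : ι → Fn) (h : ∀ i ∈ s, HoloR n r (F i)) :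
    HoloR n r fun z => ∑ i ∈ s, F i z := by
  classical
  induction s using Finset.induction_on with
  | empty => simpa using HoloR.const n r 0
  | insert a s ha ih =>
    simp only [Finset.sum_insert ha]
    exact (h a (Finset.mem_insert_self a s)).add (ih fun i hi => h i (Finset.mem_insert_of_mem hi))

/-- a polynomial in the first variables is entire -/
theorem holoR_vr {n : ℕ} (r : ℝ) {q : RK} (hq : Vr n q) : HoloR n r fun z => MvPolynomial.aeval z q := by
  refine ⟨fun z w h => ?_, ?_⟩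
  · have h1 := ev2_vr (p := Polynomial.C q) (n := n) (fun k => by
      rw [Polynomial.coeff_C]
      split_ifs
      · exact hq
      · intro Φ Ψ _; simp) h 0
    simpa [ev2] using h1
  · have key : ∀ q : RK, Differentiable ℂ fun y : Fin n → ℂ => (MvPolynomial.aeval (ext n y) q : ℂ) := by
      intro q
      induction q using MvPolynomial.induction_on with
      | C a => simp
      | add p q hp hq => simp only [map_add]; exact hp.add hq
      | mul_X p i hp =>
        have : Differentiable ℂ fun y : Fin n → ℂ => ext n y i := by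
          unfold ext
          split_ifs with h
          · fun_prop
          · fun_prop
        simp only [map_mul, MvPolynomial.aeval_X]; exact hp.mul this
    exact (key q).differentiableOn

theorem holoR_ev2 {n : ℕ} {r : ℝ} (hf : HoloR n r f) {p : RK[X]} (hp : ∀ k, Vr n (p.coeff k)) :
    HoloR n r fun z => ev2 p z (f z) := by
  unfold ev2
  simp only [Polynomial.eval₂_eq_sum_range]
  apply HoloR.sum
  intro k _
  exact (holoR_vr r (hp k)).mul (hf.pow k)

/-- the algebraic relation on the polydisc. -/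
theorem ev2_ball {n : ℕ} {r : ℝ} (hr : 1 < r) (hf : HoloR n r f) {p : RK[X]} (hp : ∀ k, Vr n (p.coeff k))
    (h : ∀ x : Cube, ev2 p (pt x) (f (pt x)) = 0) : ∀ z ∈ Bl n r, ev2 p z (f z) = 0 :=
  (holoR_ev2 hf hp).ident hr h

theorem ev2_map (φ : RK →ₐ[K] RK) (Φ : ℕ → RK) (hφ : φ = MvPolynomial.aeval Φ) (p : RK[X]) (z : ℕ → ℂ) (w : ℂ) :
    ev2 (p.map φ.toRingHom) z w = ev2 p (fun k => MvPolynomial.aeval z (Φ k)) w := by
  unfold ev2
  rw [Polynomial.eval₂_map]
  congr 1
  have : (MvPolynomial.aeval z : RK →ₐ[K] ℂ).comp φ = (MvPolynomial.aeval (fun k => (MvPolynomial.aeval z (Φ k) : ℂ)) : RK →ₐ[K] ℂ) := by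
    apply MvPolynomial.algHom_ext
    intro k
    simp [hφ]
  refine RingHom.ext fun q => ?_
  exact congrArg (fun F : RK →ₐ[K] ℂ => F q) this

theorem map_ne_zero_of {n : ℕ} {p : RK[X]} (hp0 : p ≠ 0) (hp : ∀ k, Vr n (p.coeff k)) (Φ : ℕ → RK) (ψ : RK →ₐ[K] RK)
    (hψ : ∀ k < n, ψ (Φ k) = MvPolynomial.X k) : p.map (MvPolynomial.aeval Φ : RK →ₐ[K] RK).toRingHom ≠ 0 := by
  intro h0
  apply hp0
  have h1 : (p.map (MvPolynomial.aeval Φ : RK →ₐ[K] RK).toRingHom).map ψ.toRingHom = p := by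
    rw [Polynomial.map_map]
    apply Polynomial.ext
    intro k
    rw [Polynomial.coeff_map]
    have e1 : (ψ.toRingHom.comp (MvPolynomial.aeval Φ : RK →ₐ[K] RK).toRingHom) (p.coeff k)
        = MvPolynomial.aeval (fun k => ψ (Φ k)) (p.coeff k) := by
      have : ψ.comp (MvPolynomial.aeval Φ : RK →ₐ[K] RK) = (MvPolynomial.aeval (fun k => ψ (Φ k)) : RK →ₐ[K] RK) := by
        apply MvPolynomial.algHom_ext
        intro k
        simp
      exact congrArg (fun F : RK →ₐ[K] RK => F (p.coeff k)) this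
    rw [e1, hp k _ MvPolynomial.X hψ]
    simp
  rw [← h1, h0, Polynomial.map_zero]

/-- composition with polynomial maps over `K` -/
theorem O_comp {n : ℕ} {r : ℝ} (hr : 1 < r) (hf : HoloR n r f) (ha : Algc f) (Φ : ℕ → RK) (ψ : RK →ₐ[K] RK)
    (hψ : ∀ k < n, ψ (Φ k) = MvPolynomial.X k)
    (hD : ∀ z ∈ D, (fun k => (MvPolynomial.aeval z (Φ k) : ℂ)) ∈ Bl n r) :
    (fun z => f fun k => MvPolynomial.aeval z (Φ k)) ∈ O := by
  refine ⟨hf.comp_holo (Φ := fun z k => MvPolynomial.aeval z (Φ k)) (by linarith) (fun k _ => holo_polyK (Φ k)) hD, ?_⟩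
  obtain ⟨p, hp0, hp, h⟩ := exists_good_poly hf.1 ha
  refine algc_of_K (p.map (MvPolynomial.aeval Φ : RK →ₐ[K] RK).toRingHom) (map_ne_zero_of hp0 hp Φ ψ hψ) fun x => ?_
  rw [ev2_map _ Φ rfl]
  exact ev2_ball hr hf hp h _ (hD _ (pt_mem_D x))

theorem polyK_zero {q : RK} (h : ∀ x : Cube, (MvPolynomial.aeval (pt x) q : ℂ) = 0) : q = 0 := by
  have hinj : Function.Injective (algebraMap K ℂ) := (algebraMap K ℂ).injective
  rw [← (MvPolynomial.map_injective (σ := ℕ) _ hinj).eq_iff, map_zero]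
  set S : Set ℂ := (fun t : ℝ => (t : ℂ)) '' Set.Icc 0 1 with hS
  have hinf : S.Infinite := (Set.Icc_infinite (by norm_num)).image Complex.ofReal_injective.injOn
  apply MvPolynomial.funext_set (fun _ => S) (fun _ => hinf)
  intro y hy
  have h1 : ∀ k, ∃ t : unitInterval, ((t : ℝ) : ℂ) = y k := by
    intro k
    obtain ⟨t, ht, h2⟩ := hy k (Set.mem_univ k)
    exact ⟨⟨t, ht⟩, h2⟩
  choose x hx using h1
  have h2 : pt x = y := by funext k; exact hx k
  have h3 := h x
  rw [h2] at h3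
  rw [MvPolynomial.eval_map, map_zero]
  rw [MvPolynomial.aeval_def] at h3
  exact h3

/-- a polynomial with nonvanishing derivative -/
theorem exists_sep_poly {n : ℕ} (hd : Dep n f) (hf : Algc f) :
    ∃ p : RK[X], p ≠ 0 ∧ (∀ k, Vr n (p.coeff k)) ∧ (∀ x : Cube, ev2 p (pt x) (f (pt x)) = 0) ∧
      ∃ x : Cube, ev2 p.derivative (pt x) (f (pt x)) ≠ 0 := by
  classical
  have hex : ∃ d, ∃ p : RK[X], p.natDegree = d ∧ p ≠ 0 ∧ (∀ k, Vr n (p.coeff k)) ∧
      ∀ x : Cube, ev2 p (pt x) (f (pt x)) = 0 := by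
    obtain ⟨p, h1, h2, h3⟩ := exists_good_poly hd hf
    exact ⟨_, p, rfl, h1, h2, h3⟩
  obtain ⟨p, hdeg, hp0, hp, h⟩ := Nat.find_spec hex
  refine ⟨p, hp0, hp, h, ?_⟩
  by_contra hcon
  push Not at hcon
  have hpos : 0 < p.natDegree := by
    by_contra h0
    have h1 : p.natDegree = 0 := by omega
    rw [Polynomial.natDegree_eq_zero] at h1
    obtain ⟨q, hq⟩ := h1
    apply hp0
    rw [← hq] at h ⊢
    rw [polyK_zero (q := q) fun x => by simpa [ev2] using h x]
    simp
  have hd0 : p.derivative ≠ 0 := by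
    intro h0
    have := Polynomial.derivative_eq_zero.1 h0
    omega
  have hlt : p.derivative.natDegree < p.natDegree := Polynomial.natDegree_derivative_lt hpos.ne'
  rw [hdeg] at hlt
  refine Nat.find_min hex hlt ⟨p.derivative, rfl, hd0, fun k => ?_, hcon⟩
  rw [Polynomial.coeff_derivative]
  intro Φ Ψ hΦ
  rw [map_mul, map_mul, hp (k + 1) Φ Ψ hΦ]
  simp

end Pool.Agent.H39.KP
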