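import Pool.Agent.H39.KP.Comp

namespace Pool.Agent.H39.KP

open Function Filter Topology Polynomial

variable {f g : Fn}

/-- `i` in `K` -/
noncomputable def IK : K := ⟨Complex.I, mem_algebraicClosure_iff.2 isAlg_I⟩

theorem coe_IK : ((IK : K) : ℂ) = Complex.I := rfl

/-- vertices of the square, with three points on every edge -/
noncomputable def VK (m : ℕ) : K := IK ^ (m / 4) * (1 + IK * (((m % 4 : ℕ) : K) - 2) / 2)

/-- the steps -/
noncomputable def WK (m : ℕ) : K := IK ^ (m / 4) * (IK / 2)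

noncomputable def V (m : ℕ) : ℂ := Complex.I ^ (m / 4) * (1 + Complex.I * (((m % 4 : ℕ) : ℂ) - 2) / 2)

noncomputable def W (m : ℕ) : ℂ := Complex.I ^ (m / 4) * (Complex.I / 2)

theorem coe_two : ((2 : K) : ℂ) = 2 := map_ofNat (algebraMap K ℂ) 2

theorem coe_VK (m : ℕ) : ((VK m : K) : ℂ) = V m := by
  simp [VK, V, coe_IK, coe_two]

theorem coe_WK (m : ℕ) : ((WK m : K) : ℂ) = W m := by
  simp [WK, W, coe_IK, coe_two]

theorem W_ne (m : ℕ) : W m ≠ 0 := by simp [W]

theorem V_succ (m : ℕ) : V (m + 1) = V m + W m := by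
  unfold V W
  have h4 : m % 4 < 4 := Nat.mod_lt _ (by norm_num)
  by_cases h : m % 4 = 3
  · have h1 : (m + 1) / 4 = m / 4 + 1 := by omega
    have h2 : (m + 1) % 4 = 0 := by omega
    rw [h1, h2, h, pow_succ]
    push_cast
    linear_combination (-(Complex.I ^ (m / 4))) * Complex.I_sq
  · have h1 : (m + 1) / 4 = m / 4 := by omega
    have h2 : (m + 1) % 4 = m % 4 + 1 := by omega
    rw [h1, h2]
    push_cast
    ring

theorem V_end : V 16 = V 0 := by
  simp [V]

/-- the edges -/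
noncomputable def ζ (m : ℕ) (t : ℂ) : ℂ := V m + W m * t

theorem zeta_zero (m : ℕ) : ζ m 0 = V m := by simp [ζ]

theorem zeta_one (m : ℕ) : ζ m 1 = V (m + 1) := by simp [ζ, V_succ]

theorem norm_zeta (m : ℕ) (t : ℂ) : ‖ζ m t‖ = ‖(2 + Complex.I * (((m % 4 : ℕ) : ℂ) - 2)) + Complex.I * t‖ / 2 := by
  have : ζ m t = Complex.I ^ (m / 4) * (((2 + Complex.I * (((m % 4 : ℕ) : ℂ) - 2)) + Complex.I * t) / 2) := by
    simp only [ζ, V, W]; ring
  rw [this, norm_mul, norm_pow, Complex.norm_I, one_pow, one_mul, norm_div, Complex.norm_ofNat]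

theorem norm_base (m : ℕ) : 2 ≤ ‖(2 + Complex.I * (((m % 4 : ℕ) : ℂ) - 2))‖ ∧
    ‖(2 + Complex.I * (((m % 4 : ℕ) : ℂ) - 2))‖ ≤ 3 := by
  have h4 : m % 4 < 4 := Nat.mod_lt _ (by norm_num)
  have h0 : ‖(2 + Complex.I * (((m % 4 : ℕ) : ℂ) - 2))‖ ^ 2 = 4 + (((m % 4 : ℕ) : ℝ) - 2) ^ 2 := by
    rw [← Complex.normSq_eq_norm_sq, Complex.normSq_apply]
    simp
    ring
  have h5 : (((m % 4 : ℕ) : ℝ) - 2) ^ 2 ≤ 4 := by
    have h1 : ((m % 4 : ℕ) : ℝ) ≤ 3 := by exact_mod_cast (by omega : m % 4 ≤ 3)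
    have h2 : (0 : ℝ) ≤ ((m % 4 : ℕ) : ℝ) := by positivity
    nlinarith
  constructor
  · nlinarith [norm_nonneg (2 + Complex.I * (((m % 4 : ℕ) : ℂ) - 2)), sq_nonneg (((m % 4 : ℕ) : ℝ) - 2)]
  · nlinarith [norm_nonneg (2 + Complex.I * (((m % 4 : ℕ) : ℂ) - 2)), sq_nonneg (((m % 4 : ℕ) : ℝ) - 2)]

theorem zeta_lower (m : ℕ) {t : ℂ} (ht : ‖t‖ ≤ 1) : 1 / 2 ≤ ‖ζ m t‖ := by
  rw [norm_zeta]
  have h1 := (norm_base m).1
  have h2 : ‖Complex.I * t‖ ≤ 1 := by rw [norm_mul, Complex.norm_I, one_mul]; exact ht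
  have h3 := norm_sub_le_norm_add (2 + Complex.I * (((m % 4 : ℕ) : ℂ) - 2)) (Complex.I * t)
  linarith

theorem zeta_upper (m : ℕ) {t : ℂ} (ht : ‖t‖ ≤ 1) : ‖ζ m t‖ ≤ 2 := by
  rw [norm_zeta]
  have h1 := (norm_base m).2
  have h2 : ‖Complex.I * t‖ ≤ 1 := by rw [norm_mul, Complex.norm_I, one_mul]; exact ht
  have h3 := norm_add_le (2 + Complex.I * (((m % 4 : ℕ) : ℂ) - 2)) (Complex.I * t)
  linarith

theorem zeta_ne (m : ℕ) {t : ℂ} (ht : ‖t‖ ≤ 1) : ζ m t ≠ 0 := by
  have := zeta_lower m ht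
  intro h
  rw [h, norm_zero] at this
  linarith

theorem telescope (B : ℂ → ℂ) : ∑ m ∈ Finset.range 16, (B (V (m + 1)) - B (V m)) = 0 := by
  rw [Finset.sum_range_sub (fun m => B (V m)), V_end, sub_self]

theorem O_substK {n : ℕ} (hn : HoloN n f) (ha : Algc f) {i j : ℕ} (hij : i ≠ j) (hj : n ≤ j) {lam : K} (hl0 : lam ≠ 0)
    (hl : ‖(lam : ℂ)‖ ≤ 1 / 2) (m : ℕ) :
    (fun z => f (update z i (z j * ((lam : ℂ) * (V m + W m * z i))))) ∈ O := by
  obtain ⟨r, hr, hR⟩ := hn.exists_radius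
  set Φ : ℕ → RK := update MvPolynomial.X i
    (MvPolynomial.X j * (MvPolynomial.C lam * (MvPolynomial.C (VK m) + MvPolynomial.C (WK m) * MvPolynomial.X i))) with hΦ
  set ψ : RK →ₐ[K] RK := MvPolynomial.aeval (update (update MvPolynomial.X j 1) i
    (MvPolynomial.C (WK m)⁻¹ * (MvPolynomial.C lam⁻¹ * MvPolynomial.X i - MvPolynomial.C (VK m)))) with hψ
  have hW0 : WK m ≠ 0 := by
    intro h
    have := congrArg (fun a : K => (a : ℂ)) h
    simp only [coe_WK] at this
    exact W_ne m this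
  have h1 : ∀ k < n, ψ (Φ k) = MvPolynomial.X k := by
    intro k hk
    by_cases hki : k = i
    · subst hki
      simp only [hΦ, hψ, update_self, map_mul, map_add, MvPolynomial.aeval_X, MvPolynomial.aeval_C,
        MvPolynomial.algebraMap_eq, update_of_ne hij.symm, one_mul]
      have e1 : (MvPolynomial.C (WK m) : RK) * MvPolynomial.C (WK m)⁻¹ = 1 := by
        rw [← MvPolynomial.C_mul, mul_inv_cancel₀ hW0, MvPolynomial.C_1]
      have e2 : (MvPolynomial.C lam : RK) * MvPolynomial.C lam⁻¹ = 1 := by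
        rw [← MvPolynomial.C_mul, mul_inv_cancel₀ hl0, MvPolynomial.C_1]
      linear_combination (MvPolynomial.C lam * (MvPolynomial.C lam⁻¹ * MvPolynomial.X k - MvPolynomial.C (VK m))) * e1
        + (MvPolynomial.X k) * e2
    · have hkj : k ≠ j := by omega
      simp [hΦ, hψ, update_of_ne hki, update_of_ne hkj]
  have h2 : ∀ z : ℕ → ℂ, (fun k => (MvPolynomial.aeval z (Φ k) : ℂ)) = update z i (z j * ((lam : ℂ) * (V m + W m * z i))) := by
    intro z
    funext k
    by_cases hki : k = i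
    · subst hki
      simp [hΦ, ← coe_VK, ← coe_WK]
    · simp [hΦ, update_of_ne hki]
  have h3 := O_comp hr hR ha Φ ψ h1 fun z hz => by
    rw [h2]
    apply D_sub_Bl hr
    apply update_mem_D hz
    have h4 := zeta_upper m (hz i)
    have h5 : ‖z j‖ ≤ 1 := hz j
    rw [norm_mul, norm_mul]
    have h6 : ‖V m + W m * z i‖ ≤ 2 := h4
    calc ‖z j‖ * (‖(lam : ℂ)‖ * ‖V m + W m * z i‖) ≤ 1 * (1 / 2 * 2) := by gcongr
      _ = 1 := by norm_num
  simp only [h2] at h3
  exact h3

/-- **Cauchy's theorem**, formally: the integral over the boundary of the square is zero. -/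
theorem formal_cauchy (hf : f ∈ O) (i : ℕ) {lam : K} (hl0 : lam ≠ 0) (hl : ‖(lam : ℂ)‖ ≤ 1 / 2) :
    (fun x : Cube => ∑ m ∈ Finset.range 16, (lam : ℂ) * W m * f (update (pt x) i ((lam : ℂ) * ζ m (pt x i)))) ∈ Stokes := by
  obtain ⟨n, hn⟩ := holo_iff.1 hf.1
  set j := n + i + 1 with hj
  have hij : i ≠ j := by omega
  have hfr : Fresh j f := fun z t => hn.1.update (by omega) z t
  have hlK : (fun _ : ℕ → ℂ => (lam : ℂ)) ∈ O := by simpa using O_polyK (MvPolynomial.C lam)
  have hWK : ∀ m, (fun _ : ℕ → ℂ => W m) ∈ O := fun m => by simpa [← coe_WK] using O_polyK (MvPolynomial.C (WK m))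
  have hVK : ∀ m, (fun _ : ℕ → ℂ => V m) ∈ O := fun m => by simpa [← coe_VK] using O_polyK (MvPolynomial.C (VK m))
  have key : ∀ m, (fun x : Cube => (lam : ℂ) * W m * f (update (pt x) i ((lam : ℂ) * ζ m (pt x i)))
      - ((lam : ℂ) * V (m + 1) * f (update (pt x) i (pt x j * ((lam : ℂ) * V (m + 1))))
        - (lam : ℂ) * V m * f (update (pt x) i (pt x j * ((lam : ℂ) * V m))))) ∈ Stokes := by
    intro m
    have h := homotopy hf hij hfr (fun s t => t * ((lam : ℂ) * (V m + W m * s))) (fun _ t => t * ((lam : ℂ) * W m))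
      (fun s _ => (lam : ℂ) * (V m + W m * s)) (fun _ _ => (lam : ℂ) * W m)
      (fun s t => ((((hasDerivAt_id' s).const_mul (W m)).const_add (V m)).const_mul (lam : ℂ)).const_mul t |>.congr_deriv (by ring))
      (fun s t => ((hasDerivAt_id' t).mul_const ((lam : ℂ) * (V m + W m * s))).congr_deriv (by ring))
      (fun s t => ((hasDerivAt_id' t).mul_const ((lam : ℂ) * W m)).congr_deriv (by ring))
      (fun s t => ((((hasDerivAt_id' s).const_mul (W m)).const_add (V m)).const_mul (lam : ℂ)).congr_deriv (by ring))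
      (fun s t hs ht => by
        have h4 : ‖V m + W m * s‖ ≤ 2 := zeta_upper m hs
        rw [norm_mul, norm_mul]
        calc ‖t‖ * (‖(lam : ℂ)‖ * ‖V m + W m * s‖) ≤ 1 * (1 / 2 * 2) := by gcongr
          _ = 1 := by norm_num)
      (O_mul (O_mul (O_coord j) (O_mul hlK (hWK m))) (O_substK hn hf.2 hij (by omega) hl0 hl m))
      (O_mul (O_mul hlK (O_add (hVK m) (O_mul (hWK m) (O_coord i)))) (O_substK hn hf.2 hij (by omega) hl0 hl m))
    convert h using 1
    funext x
    simp only [V_succ, ζ, one_mul, mul_one, mul_zero, add_zero, zero_mul]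
    ring
  have hsum := Submodule.sum_mem Stokes (t := Finset.range 16) fun m _ => key m
  convert hsum using 1
  funext x
  simp only [Finset.sum_apply, Finset.sum_sub_distrib]
  have := telescope fun v => (lam : ℂ) * v * f (update (pt x) i (pt x j * ((lam : ℂ) * v)))
  rw [Finset.sum_sub_distrib] at this
  rw [this, sub_zero]

/-- homotopy of the pole, formally -/
theorem formal_residue {h d : Fn} (hh : h ∈ O) (hd : d ∈ O) {i : ℕ} (hhi : Fresh i h) (hdi : Fresh i d)
    (hb : ∀ z ∈ D, ‖d z‖ ≤ 1 / 4) :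
    (fun x : Cube => ∑ m ∈ Finset.range 16, (h (pt x) * W m / (ζ m (pt x i) - d (pt x)) - h (pt x) * W m / ζ m (pt x i)))
      ∈ Stokes := by
  obtain ⟨n1, hn1⟩ := hh.1.fresh
  obtain ⟨n2, hn2⟩ := hd.1.fresh
  set j := n1 + n2 + i + 1 with hj
  have hij : i ≠ j := by omega
  have hhj : Fresh j h := hn1 j (by omega)
  have hdj : Fresh j d := hn2 j (by omega)
  have hWK : ∀ m, (fun _ : ℕ → ℂ => W m) ∈ O := fun m => by simpa [← coe_WK] using O_polyK (MvPolynomial.C (WK m))
  have hVK : ∀ m, (fun _ : ℕ → ℂ => V m) ∈ O := fun m => by simpa [← coe_VK] using O_polyK (MvPolynomial.C (VK m))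
  have hne : ∀ m, ∀ z ∈ D, (V m + W m * z i) - z j * d z ≠ 0 := by
    intro m z hz h0
    have h1 : 1 / 2 ≤ ‖V m + W m * z i‖ := zeta_lower m (hz i)
    have h2 : V m + W m * z i = z j * d z := by linear_combination h0
    rw [h2, norm_mul] at h1
    have h3 : ‖z j‖ * ‖d z‖ ≤ 1 * (1 / 4) := mul_le_mul (hz j) (hb z hz) (norm_nonneg _) zero_le_one
    linarith
  have hinv : ∀ m, (fun z : ℕ → ℂ => ((V m + W m * z i) - z j * d z)⁻¹) ∈ O := fun m =>
    O_inv (O_sub (O_add (hVK m) (O_mul (hWK m) (O_coord i))) (O_mul (O_coord j) hd)) (hne m)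
  have key : ∀ m, (fun x : Cube => (h (pt x) * W m / (ζ m (pt x i) - d (pt x)) - h (pt x) * W m / ζ m (pt x i))
      - ((-(h (pt x) * d (pt x)) * (V (m + 1) - pt x j * d (pt x))⁻¹)
        - (-(h (pt x) * d (pt x)) * (V m - pt x j * d (pt x))⁻¹))) ∈ Stokes := by
    intro m
    have h := two_forms (A := fun z => (h z * W m) * ((V m + W m * z i) - z j * d z)⁻¹)
      (B := fun z => (-(h z * d z)) * ((V m + W m * z i) - z j * d z)⁻¹)
      (O_mul (O_mul hh (hWK m)) (hinv m)) (O_mul (O_neg (O_mul hh hd)) (hinv m)) (i := i) (j := j) fun x => ?_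
    · convert h using 1
      funext x
      simp only [hhj _ _, hdj _ _, hhi _ _, hdi _ _, update_self, update_of_ne hij, update_of_ne hij.symm, V_succ, ζ]
      simp only [one_mul, zero_mul, mul_one, mul_zero, add_zero, sub_zero, div_eq_mul_inv]
    · set z := pt x with hz
      have hzD : z ∈ D := pt_mem_D x
      have eA : pd j (fun z => (h z * W m) * ((V m + W m * z i) - z j * d z)⁻¹) z
          = (h z * W m) * (d z / ((V m + W m * z i) - z j * d z) ^ 2) := by
        unfold pd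
        have e : (fun t => (h (update z j t) * W m) * ((V m + W m * update z j t i) - update z j t j * d (update z j t))⁻¹)
            = fun t => (h z * W m) * ((V m + W m * z i) - t * d z)⁻¹ := by
          funext t
          rw [hhj, hdj, update_of_ne hij, update_self]
        rw [e]
        have h1 : HasDerivAt (fun t => (V m + W m * z i) - t * d z) (-(d z)) (z j) :=
          (((hasDerivAt_id' (z j)).mul_const (d z)).const_sub (V m + W m * z i)).congr_deriv (by ring)
        have h2 := (h1.inv (hne m z hzD)).const_mul (h z * W m)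
        rw [neg_neg] at h2
        exact h2.deriv
      have eB : pd i (fun z => (-(h z * d z)) * ((V m + W m * z i) - z j * d z)⁻¹) z
          = (-(h z * d z)) * (-(W m) / ((V m + W m * z i) - z j * d z) ^ 2) := by
        unfold pd
        have e : (fun t => (-(h (update z i t) * d (update z i t))) * ((V m + W m * update z i t i) - update z i t j * d (update z i t))⁻¹)
            = fun t => (-(h z * d z)) * ((V m + W m * t) - z j * d z)⁻¹ := by
          funext t
          rw [hhi, hdi, update_of_ne hij.symm, update_self]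
        rw [e]
        have h1 : HasDerivAt (fun t => (V m + W m * t) - z j * d z) (W m) (z i) :=
          ((((hasDerivAt_id' (z i)).const_mul (W m)).const_add (V m)).sub_const (z j * d z)).congr_deriv (by ring)
        exact ((h1.inv (hne m z hzD)).const_mul (-(h z * d z))).deriv
      rw [eA, eB]
      ring
  have hsum := Submodule.sum_mem Stokes (t := Finset.range 16) fun m _ => key m
  convert hsum using 1
  funext x
  simp only [Finset.sum_apply, Finset.sum_sub_distrib]
  have := telescope fun v => -(h (pt x) * d (pt x)) * (v - pt x j * d (pt x))⁻¹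
  rw [Finset.sum_sub_distrib] at this
  rw [this, sub_zero]

end Pool.Agent.H39.KP
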