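import Mathlib

/-!
# Formal periods: the power series model

Functions of the variables `z_0, z_1, …` which depend on finitely many of them, are holomorphic near the closed unit
polydisc and algebraic over `ℚ(z_0, z_1, …)`, modulo the relations of Stokes `∂f/∂z_i - f|_{z_i = 1} + f|_{z_i = 0}`.
By a theorem of Ayoub this is the space of effective formal periods (after inverting `2πi`).
-/

namespace Pool.Agent.H39.KP

open MeasureTheory

/-- Functions of `z_0, z_1, …`. -/
abbrev Fn : Type := (ℕ → ℂ) → ℂ

/-- `f` depends only on `z_0, …, z_(n-1)` for some `n` and is holomorphic near the closed unit polydisc (which is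
`Metric.closedBall 0 1`, for the maximum norm). -/
def Holo (f : Fn) : Prop := ∃ (n : ℕ) (F : (Fin n → ℂ) → ℂ) (U : Set (Fin n → ℂ)),
  IsOpen U ∧ Metric.closedBall 0 1 ⊆ U ∧ DifferentiableOn ℂ F U ∧ ∀ z, f z = F fun i => z i

/-- The cube `[0, 1]^ℕ`. -/
abbrev Cube : Type := ℕ → unitInterval

/-- The points of the cube as points of the polydisc. -/
def pt (x : Cube) : ℕ → ℂ := fun i => ((x i : ℝ) : ℂ)

/-- `f` is algebraic over `ℚ(z_0, z_1, …)`: `p(z, f(z)) = 0` for a nonzero polynomial `p`. -/
def Algc (f : Fn) : Prop := ∃ p : Polynomial (MvPolynomial ℕ ℚ), p ≠ 0 ∧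
  ∀ x : Cube, Polynomial.eval₂ (MvPolynomial.aeval (pt x) : MvPolynomial ℕ ℚ →ₐ[ℚ] ℂ).toRingHom (f (pt x)) p = 0

/-- The algebra of Ayoub. -/
def O : Set Fn := {f | Holo f ∧ Algc f}

/-- The partial derivative `∂f/∂z_i`. -/
noncomputable def pd (i : ℕ) (f : Fn) : Fn := fun z => deriv (fun t => f (Function.update z i t)) (z i)

/-- The relations: the span of the functions `∂g/∂z_i - g|_{z_i = 1} + g|_{z_i = 0}`, `g ∈ O`, on the cube. -/
noncomputable def Stokes : Submodule ℚ (Cube → ℂ) := Submodule.span ℚ
  {h | ∃ g ∈ O, ∃ i : ℕ, h = fun x =>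
    pd i g (pt x) - g (Function.update (pt x) i 1) + g (Function.update (pt x) i 0)}

/-- `f` and `g` are the same formal period. -/
def Eqv (f g : Fn) : Prop := (fun x => f (pt x) - g (pt x)) ∈ Stokes

/-- The integral over the cube. -/
noncomputable def ev (f : Fn) : ℂ :=
  ∫ x, f (pt x) ∂(Measure.infinitePi fun _ : ℕ => (volume : Measure unitInterval))

/-- `f` is real on the cube. -/
def IsReal (f : Fn) : Prop := ∀ x : Cube, (f (pt x)).im = 0

/-- The function `4 / (1 + s²)` on the two halves of `[0, 1]`; its integral is `π`. -/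
noncomputable def piFn (t : ℂ) : ℂ := 8 / (4 + t ^ 2) + 8 / (4 + (1 + t) ^ 2)

/-- The product of the `m`-th power of the formal period `π` and `f`. -/
noncomputable def piMul : ℕ → Fn → Fn
  | 0, f => f
  | m + 1, f => fun z => piFn (z 0) * piMul m f fun i => z (i + 1)

/-- `f` is zero as a formal period, that is, in the localisation of the effective formal periods at `π`. -/
def Zero (f : Fn) : Prop := ∃ m : ℕ, (fun x => piMul m f (pt x)) ∈ Stokes

/-- The conjecture of Kontsevich in this model: the evaluation is injective. -/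
def Conj : Prop := ∀ f ∈ O, ev f = 0 → Zero f

end Pool.Agent.H39.KP
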