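import Pool.Agent.H39.KP.Meas
import Pool.Agent.H39.L.Helper417_Mer_HartogsExt

namespace Pool.Agent.H39.KP

open Function MeasureTheory Filter Topology

variable {f g : Fn}

theorem holoN_pd {n : ℕ} (hf : HoloN n f) {i : ℕ} (hi : i < n) : HoloN n (pd i f) := by
  have key : ∀ z : ℕ → ℂ, (fun t => f (update z i t)) = fun t => (fun y => f (ext n y)) (update (res n z) ⟨i, hi⟩ t) := by
    intro z
    funext t
    simp only
    apply hf.1
    intro k hk
    by_cases h : k = i
    · subst h; simp [ext, hk]
    · rw [update_of_ne h]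
      simp only [ext, hk, dif_pos]
      rw [update_of_ne (by simpa [Fin.ext_iff] using h)]
      rfl
  have key2 : ∀ z : ℕ → ℂ, pd i f z = deriv (fun t => (fun y => f (ext n y)) (update (res n z) ⟨i, hi⟩ t)) (res n z ⟨i, hi⟩) := by
    intro z
    unfold pd
    rw [key z]
    rfl
  refine ⟨fun z w h => ?_, fun x hx => ?_⟩
  · rw [key2, key2]
    have : res n z = res n w := by funext k; exact h k k.2
    rw [this]
  · set U := {x | ∀ᶠ y in 𝓝 x, DifferentiableAt ℂ (fun y => f (ext n y)) y} with hUdef
    have hU : IsOpen U := isOpen_setOfPred_eventually_nhds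
    have hd : DifferentiableOn ℂ (fun y => f (ext n y)) U := fun y hy => (Eventually.self_of_nhds hy).differentiableWithinAt
    have h3 := Pool.Agent.Helper417.Mer.Hartogs673.differentiableOn_fderiv_apply hU hd (Pi.single (⟨i, hi⟩ : Fin n) (1 : ℂ))
    have hxU : x ∈ U := hf.2 x hx
    have h4 : ∀ y ∈ U, pd i f (ext n y) = fderiv ℂ (fun y => f (ext n y)) y (Pi.single (⟨i, hi⟩ : Fin n) (1 : ℂ)) := by
      intro y hy
      rw [key2, res_ext]
      have h5 : HasDerivAt (fun t : ℂ => update y (⟨i, hi⟩ : Fin n) t) (Pi.single (⟨i, hi⟩ : Fin n) (1 : ℂ)) (y ⟨i, hi⟩) := by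
        have := hasDerivAt_update y (⟨i, hi⟩ : Fin n) (y ⟨i, hi⟩)
        exact this
      have h6 : DifferentiableAt ℂ (fun y => f (ext n y)) (update y (⟨i, hi⟩ : Fin n) (y ⟨i, hi⟩)) := by
        rw [update_eq_self]; exact Eventually.self_of_nhds hy
      have h7 := h6.hasFDerivAt.comp_hasDerivAt (y ⟨i, hi⟩) h5
      rw [update_eq_self] at h7
      exact h7.deriv
    filter_upwards [hU.mem_nhds hxU] with y hy
    have h8 : DifferentiableAt ℂ (fun z => fderiv ℂ (fun y => f (ext n y)) z (Pi.single (⟨i, hi⟩ : Fin n) (1 : ℂ))) y :=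
      h3.differentiableAt (hU.mem_nhds hy)
    refine h8.congr_of_eventuallyEq ?_
    filter_upwards [hU.mem_nhds hy] with w hw
    exact h4 w hw

theorem Holo.pd (hf : Holo f) (i : ℕ) : Holo (pd i f) := by
  obtain ⟨n, h⟩ := holo_iff.1 hf
  exact holo_iff.2 ⟨n + i + 1, holoN_pd (h.mono (by omega)) (by omega)⟩

theorem Holo.at' (hf : Holo f) (i : ℕ) {a : ℂ} (ha : ‖a‖ ≤ 1) : Holo fun z => f (Function.update z i a) :=
  hf.update i (holo_const a) fun _ _ => ha

/-- the fundamental theorem -/
theorem integral_pd (hf : Holo f) (i : ℕ) (x : Cube) :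
    ∫ t : unitInterval, KP.pd i f (pt (update x i t)) ∂volume = f (update (pt x) i 1) - f (update (pt x) i 0) := by
  have e : ∀ t : unitInterval, pt (update x i t) = update (pt x) i ((t : ℝ) : ℂ) := by
    intro t
    funext k
    by_cases h : k = i
    · subst h; simp [pt]
    · simp [pt, update_of_ne h]
  simp only [e]
  rw [integral_unit (φ := fun t => KP.pd i f (update (pt x) i (t : ℂ)))]
  have hd : ∀ t ∈ Set.uIcc (0 : ℝ) 1, HasDerivAt (fun t : ℝ => f (update (pt x) i (t : ℂ))) (KP.pd i f (update (pt x) i (t : ℂ))) t := by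
    intro t ht
    rw [Set.uIcc_of_le zero_le_one] at ht
    have ht1 : ‖(t : ℂ)‖ ≤ 1 := by rw [Complex.norm_real, Real.norm_of_nonneg ht.1]; exact ht.2
    have h1 : HasDerivAt (fun t => f (update (pt x) i t)) (KP.pd i f (update (pt x) i (t : ℂ))) (t : ℂ) := by
      have := hf.hasDeriv (update_mem_D (pt_mem_D x) i ht1) i
      simpa using this
    exact h1.comp_ofReal
  rw [intervalIntegral.integral_eq_sub_of_hasDerivAt hd]
  · simp
  · apply ContinuousOn.intervalIntegrable
    rw [Set.uIcc_of_le zero_le_one]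
    have hc : Continuous fun t : unitInterval => KP.pd i f (pt (update x i t)) := by
      refine (hf.pd i).continuous.comp ?_
      exact (continuous_update i).comp (Continuous.prodMk continuous_const continuous_id)
    simp only [e] at hc
    rw [continuousOn_iff_continuous_domRestrict]
    exact hc

/-- relations have integral zero -/
theorem stokes_integral {h : Cube → ℂ} (hh : h ∈ Stokes) : ∫ x, h x ∂μ = 0 ∧ Integrable h μ := by
  unfold Stokes at hh
  induction hh using Submodule.span_induction with
  | mem h hh =>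
    obtain ⟨g, hg, i, rfl⟩ := hh
    have c1 := (hg.1.pd i).continuous
    have c2 := (hg.1.at' i (a := 1) (by simp)).continuous
    have c3 := (hg.1.at' i (a := 0) (by simp)).continuous
    have i1 := integrable_of_continuous c1
    have i2 := integrable_of_continuous c2
    have i3 := integrable_of_continuous c3
    refine ⟨?_, (i1.sub i2).add i3⟩
    have s1 : ∫ x, (KP.pd i g (pt x) - g (update (pt x) i 1) + g (update (pt x) i 0)) ∂μ
        = ∫ x, (KP.pd i g (pt x) - g (update (pt x) i 1)) ∂μ + ∫ x, g (update (pt x) i 0) ∂μ :=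
      integral_add (i1.sub i2) i3
    show ∫ x, (KP.pd i g (pt x) - g (update (pt x) i 1) + g (update (pt x) i 0)) ∂μ = 0
    rw [s1, integral_sub i1 i2, integral_update c1 i]
    have e : (fun x : Cube => ∫ t : unitInterval, KP.pd i g (pt (update x i t)) ∂volume)
        = fun x => g (update (pt x) i 1) - g (update (pt x) i 0) := by
      funext x
      exact integral_pd hg.1 i x
    rw [e, integral_sub i2 i3]
    ring
  | zero => simp
  | add h1 h2 _ _ ih1 ih2 =>
    refine ⟨?_, ih1.2.add ih2.2⟩
    simp only [Pi.add_apply]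
    rw [integral_add ih1.2 ih2.2, ih1.1, ih2.1, add_zero]
  | smul q h _ ih =>
    have e : (q • h) = fun x => (q : ℂ) * h x := by
      funext x
      simp [Pi.smul_apply, Rat.smul_def]
    refine ⟨?_, ?_⟩
    · rw [e, integral_const_mul, ih.1, mul_zero]
    · rw [e]; exact ih.2.const_mul _

theorem Eqv.ev_eq (hf : Holo f) (hg : Holo g) (h : Eqv f g) : ev f = ev g := by
  have h1 := (stokes_integral h).1
  rw [integral_sub (integrable_of_continuous hf.continuous) (integrable_of_continuous hg.continuous)] at h1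
  exact sub_eq_zero.1 h1

end Pool.Agent.H39.KP
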