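import Pool.Agent.H39.KP.Comp

namespace Pool.Agent.H39.KP

open Function Filter Topology Polynomial

variable {f g h : Fn}

theorem HoloR.mono_r {n : ℕ} {r s : ℝ} (hf : HoloR n r f) (hs : s ≤ r) : HoloR n s f :=
  ⟨hf.1, hf.2.mono (Metric.ball_subset_ball hs)⟩

/-- a common radius -/
theorem Holo.common_radius (hf : Holo f) (hg : Holo g) : ∃ n, ∃ r > 1, HoloR n r f ∧ HoloR n r g := by
  obtain ⟨n, h1, h2⟩ := hf.common hg
  obtain ⟨r, hr, h3⟩ := h1.exists_radius
  obtain ⟨s, hs, h4⟩ := h2.exists_radius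
  exact ⟨n, min r s, lt_min hr hs, h3.mono_r (min_le_left _ _), h4.mono_r (min_le_right _ _)⟩

theorem ev2_eq_sum (p : RK[X]) (z : ℕ → ℂ) (w : ℂ) :
    ev2 p z w = ∑ k ∈ Finset.range (p.natDegree + 1), MvPolynomial.aeval z (p.coeff k) * w ^ k := by
  unfold ev2
  rw [Polynomial.eval₂_eq_sum_range]
  rfl

theorem ev2_continuous {n : ℕ} {r : ℝ} (hf : HoloR n r f) : ContinuousOn (fun y : Fin n → ℂ => f (ext n y)) (Metric.ball 0 r) :=
  hf.2.continuousOn

/-- no zero divisors -/
theorem HoloR.mul_zero {n : ℕ} {r : ℝ} (hr : 1 < r) (hf : HoloR n r f) (hg : HoloR n r g)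
    (h0 : ∀ x : Cube, f (pt x) * g (pt x) = 0) (hne : ∃ x : Cube, f (pt x) ≠ 0) : ∀ z ∈ Bl n r, g z = 0 := by
  obtain ⟨x0, hx0⟩ := hne
  have hfg := (hf.mul hg).ident hr h0
  have hx0B : pt x0 ∈ Bl n r := D_sub_Bl hr (pt_mem_D x0)
  have hres := res_mem_ball (by linarith) hx0B
  have hc : ContinuousAt (fun y : Fin n → ℂ => f (ext n y)) (res n (pt x0)) :=
    hf.2.continuousOn.continuousAt (Metric.isOpen_ball.mem_nhds hres)
  have hev : ∀ᶠ y in 𝓝 (res n (pt x0)), f (ext n y) ≠ 0 ∧ y ∈ Metric.ball (0 : Fin n → ℂ) r := by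
    refine (hc.eventually_ne ?_).and (Metric.isOpen_ball.mem_nhds hres)
    rw [hf.1.ext_res]; exact hx0
  obtain ⟨δ, hδ, hb⟩ := Metric.eventually_nhds_iff_ball.1 hev
  refine hg.ident_nhds (by linarith) hx0B hδ fun z hz => ?_
  have h1 : res n z ∈ Metric.ball (res n (pt x0)) δ := by
    rw [mem_ball_iff_norm, pi_norm_lt_iff hδ]
    intro k
    exact hz k k.2
  obtain ⟨h2, h3⟩ := hb _ h1
  have h4 := hfg (ext n (res n z)) (ext_mem_Bl (by linarith) h3)
  rw [hg.1.ext_res] at h4
  rcases mul_eq_zero.1 h4 with h5 | h5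
  · exact absurd h5 h2
  · exact h5

/-- the polynomial over `K` -/
theorem Algc.toK (hf : Algc f) : ∃ p : RK[X], p ≠ 0 ∧ ∀ x : Cube, ev2 p (pt x) (f (pt x)) = 0 := by
  obtain ⟨p, hp, h⟩ := hf
  refine ⟨p.map (MvPolynomial.map (algebraMap ℚ K)), ?_, fun x => ?_⟩
  · rw [Polynomial.map_ne_zero_iff]
    · exact hp
    · exact MvPolynomial.map_injective _ (algebraMap ℚ K).injective
  · rw [ev2, Polynomial.eval₂_map]
    convert h x using 1
    congr 1
    refine RingHom.ext fun q => ?_
    exact aeval_map_K (pt x) q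

theorem Algc.div_poly {N : RK} (hN : N ≠ 0) (h1 : Algc fun z => MvPolynomial.aeval z N * h z) : Algc h := by
  obtain ⟨p, hp, h2⟩ := h1.toK
  refine algc_of_K (p.comp (Polynomial.C N * Polynomial.X)) ?_ fun x => ?_
  · obtain ⟨m, hm⟩ : ∃ m, p.coeff m ≠ 0 := by
      by_contra h
      push Not at h
      exact hp (Polynomial.ext h)
    intro h0
    have h3 := congrArg (fun q => Polynomial.coeff q m) h0
    simp only [Polynomial.comp_C_mul_X_coeff, Polynomial.coeff_zero] at h3
    exact mul_ne_zero hm (pow_ne_zero m hN) h3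
  · have h3 := h2 x
    unfold ev2 at h3 ⊢
    rw [Polynomial.eval₂_comp]
    simpa using h3

/-- quotients of algebraic functions -/
theorem Algc.div_of {n : ℕ} {r : ℝ} (hr : 1 < r) {G H : Fn} (hG : HoloR n r G)
    (hGa : Algc G) (hHa : Algc H) (hne : ∃ x : Cube, G (pt x) ≠ 0) (hGH : ∀ x : Cube, G (pt x) * h (pt x) = H (pt x)) : Algc h := by
  classical
  -- minimal polynomial
  have hex : ∃ d, ∃ p : RK[X], p.natDegree = d ∧ p ≠ 0 ∧ (∀ k, Vr n (p.coeff k)) ∧
      ∀ x : Cube, ev2 p (pt x) (G (pt x)) = 0 := by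
    obtain ⟨p, h1, h2, h3⟩ := exists_good_poly hG.1 hGa
    exact ⟨_, p, rfl, h1, h2, h3⟩
  obtain ⟨p, hdeg, hp0, hp, hpz⟩ := Nat.find_spec hex
  have hX : p = p.divX * Polynomial.X + Polynomial.C (p.coeff 0) := (Polynomial.divX_mul_X_add p).symm
  have hdivV : ∀ k, Vr n (p.divX.coeff k) := fun k => by rw [Polynomial.coeff_divX]; exact hp _
  have hsum : ∀ z w, ev2 p z w = ev2 p.divX z w * w + MvPolynomial.aeval z (p.coeff 0) := by
    intro z w
    conv_lhs => rw [hX]
    simp [ev2]
  have hc0 : p.coeff 0 ≠ 0 := by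
    intro h0
    have h1 : ∀ x : Cube, G (pt x) * ev2 p.divX (pt x) (G (pt x)) = 0 := by
      intro x
      have h2 := hpz x
      rw [hsum, h0, map_zero, add_zero] at h2
      rw [mul_comm]; exact h2
    have h3 := hG.mul_zero hr (holoR_ev2 hG hdivV) h1 hne
    have h4 : p.divX ≠ 0 := by
      intro h5
      rw [h5, h0] at hX
      simp at hX
      exact hp0 hX
    have hdpos : p.natDegree ≠ 0 := by
      intro h5
      rw [Polynomial.natDegree_eq_zero] at h5
      obtain ⟨q, hq⟩ := h5
      rw [← hq, Polynomial.coeff_C_zero] at h0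
      rw [h0, Polynomial.C_0] at hq
      exact hp0 hq.symm
    have hlt : p.divX.natDegree < Nat.find hex := by
      rw [← hdeg, Polynomial.natDegree_divX_eq_natDegree_tsub_one]
      omega
    exact Nat.find_min hex hlt ⟨p.divX, rfl, h4, hdivV, fun x => h3 _ (D_sub_Bl hr (pt_mem_D x))⟩
  refine Algc.div_poly hc0 ?_
  -- `p_0 h = - divX(G) G h = - divX(G) H`
  have h1 : Algc fun z => ev2 p.divX z (G z) := by
    simp only [ev2_eq_sum]
    have : ∀ s : Finset ℕ, Algc fun z => ∑ k ∈ s, MvPolynomial.aeval z (p.divX.coeff k) * G z ^ k := by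
      intro s
      induction s using Finset.induction_on with
      | empty => simpa using algc_rat 0
      | insert a s ha ih =>
        simp only [Finset.sum_insert ha]
        refine Algc.add (Algc.mul (O_polyK _).2 ?_) ih
        have : ∀ k : ℕ, Algc fun z => G z ^ k := by
          intro k
          induction k with
          | zero => simpa using algc_rat 1
          | succ k ih => simpa only [pow_succ] using ih.mul hGa
        exact this a
    exact this _
  have h2 := (h1.mul hHa).neg
  obtain ⟨q, hq, h3⟩ := h2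
  refine ⟨q, hq, fun x => ?_⟩
  have h4 := h3 x
  simp only at h4 ⊢
  have h5 : -(ev2 p.divX (pt x) (G (pt x)) * H (pt x)) = MvPolynomial.aeval (pt x) (p.coeff 0) * h (pt x) := by
    have h6 := hpz x
    rw [hsum] at h6
    rw [← hGH x]
    linear_combination (-(h (pt x))) * h6
  rw [h5] at h4
  exact h4

/-- derivative of a polynomial -/
theorem hasDerivAt_aeval (q : RK) (z : ℕ → ℂ) (i : ℕ) (t : ℂ) :
    HasDerivAt (fun t => (MvPolynomial.aeval (update z i t) q : ℂ)) (MvPolynomial.aeval (update z i t) (MvPolynomial.pderiv i q)) t := by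
  induction q using MvPolynomial.induction_on with
  | C a => simpa using hasDerivAt_const t (a : ℂ)
  | add p q hp hq => simpa using hp.fun_add hq
  | mul_X p j hp =>
    by_cases hj : j = i
    · subst hj
      have := hp.fun_mul (hasDerivAt_id' t)
      have e : (MvPolynomial.aeval (update z j t) (MvPolynomial.pderiv j (p * MvPolynomial.X j)) : ℂ)
          = MvPolynomial.aeval (update z j t) (MvPolynomial.pderiv j p) * t + MvPolynomial.aeval (update z j t) p * 1 := by
        rw [Derivation.leibniz, MvPolynomial.pderiv_X_self]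
        simp only [smul_eq_mul, map_add, map_mul, MvPolynomial.aeval_X, update_self, map_one]
        ring
      rw [e]
      simp only [map_mul, MvPolynomial.aeval_X, update_self]
      exact this
    · have := hp.mul_const (z j)
      have e : (MvPolynomial.aeval (update z i t) (MvPolynomial.pderiv i (p * MvPolynomial.X j)) : ℂ)
          = MvPolynomial.aeval (update z i t) (MvPolynomial.pderiv i p) * z j := by
        rw [Derivation.leibniz, MvPolynomial.pderiv_X_of_ne hj]
        simp only [smul_eq_mul, mul_zero, zero_add, map_mul, MvPolynomial.aeval_X, update_of_ne hj]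
        ring
      rw [e]
      simp only [map_mul, MvPolynomial.aeval_X, update_of_ne hj]
      exact this

/-- derivatives of algebraic functions are algebraic -/
theorem O_pd (hf : f ∈ O) (i : ℕ) : pd i f ∈ O := by
  refine ⟨hf.1.pd i, ?_⟩
  obtain ⟨n, r, hr, h1, h2⟩ := hf.1.common_radius (hf.1.pd i)
  obtain ⟨p, hp0, hp, hpz, hne⟩ := exists_sep_poly h1.1 hf.2
  have hball := ev2_ball hr h1 hp hpz
  have hpd : ∀ k, Vr n (p.derivative.coeff k) := by
    intro k
    rw [Polynomial.coeff_derivative]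
    intro Φ Ψ hΦ
    rw [map_mul, map_mul, hp (k + 1) Φ Ψ hΦ]
    simp
  have hpow : ∀ k : ℕ, Algc fun z => f z ^ k := by
    intro k
    induction k with
    | zero => simpa using algc_rat 1
    | succ k ih => simpa only [pow_succ] using ih.mul hf.2
  have hsumA : ∀ (c : ℕ → RK) (s : Finset ℕ), Algc fun z => ∑ k ∈ s, MvPolynomial.aeval z (c k) * f z ^ k := by
    intro c s
    induction s using Finset.induction_on with
    | empty => simpa using algc_rat 0
    | insert a s ha ih =>
      simp only [Finset.sum_insert ha]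
      exact Algc.add (Algc.mul (O_polyK _).2 (hpow a)) ih
  have hGa : Algc fun z => ev2 p.derivative z (f z) := by
    simp only [ev2_eq_sum]
    exact hsumA _ _
  have hHa : Algc fun z => -∑ k ∈ Finset.range (p.natDegree + 1), MvPolynomial.aeval z (MvPolynomial.pderiv i (p.coeff k)) * f z ^ k :=
    (hsumA (fun k => MvPolynomial.pderiv i (p.coeff k)) _).neg
  refine Algc.div_of hr (holoR_ev2 h1 hpd) hGa hHa hne fun x => ?_
  -- differentiate
  set z := pt x with hz
  have hzB : z ∈ Bl n r := D_sub_Bl hr (pt_mem_D x)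
  have hd : HasDerivAt (fun t => f (update z i t)) (pd i f z) (z i) := hf.1.hasDeriv (pt_mem_D x) i
  have hzero : (fun t => ev2 p (update z i t) (f (update z i t))) =ᶠ[𝓝 (z i)] fun _ => 0 := by
    by_cases hi : i < n
    · have h3 : ∀ᶠ t in 𝓝 (z i), ‖t‖ < r := continuous_norm.continuousAt.eventually_lt continuousAt_const (hzB i hi)
      filter_upwards [h3] with t ht
      exact hball _ (update_mem_Bl hzB i ht)
    · refine Eventually.of_forall fun t => ?_
      apply hball
      intro k hk
      rw [update_of_ne (by omega)]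
      exact hzB k hk
  have h4 : HasDerivAt (fun t => ev2 p (update z i t) (f (update z i t))) 0 (z i) :=
    (hasDerivAt_const (z i) (0 : ℂ)).congr_of_eventuallyEq hzero
  have h5 : HasDerivAt (fun t => ev2 p (update z i t) (f (update z i t)))
      (∑ k ∈ Finset.range (p.natDegree + 1), (MvPolynomial.aeval z (MvPolynomial.pderiv i (p.coeff k)) * f z ^ k
        + MvPolynomial.aeval z (p.coeff k) * ((k : ℂ) * f z ^ (k - 1) * pd i f z))) (z i) := by
    simp only [ev2_eq_sum]
    apply HasDerivAt.fun_sum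
    intro k _
    have h6 := hasDerivAt_aeval (p.coeff k) z i (z i)
    have h7 := hd.fun_pow k
    have h8 := h6.fun_mul h7
    simp only [update_eq_self] at h8
    exact h8
  have h6 : HasDerivAt (fun w => ev2 p z w) (∑ k ∈ Finset.range (p.natDegree + 1), MvPolynomial.aeval z (p.coeff k) * ((k : ℂ) * f z ^ (k - 1))) (f z) := by
    simp only [ev2_eq_sum]
    apply HasDerivAt.fun_sum
    intro k _
    have h7 := ((hasDerivAt_id' (f z)).fun_pow k).const_mul (MvPolynomial.aeval z (p.coeff k) : ℂ)
    simpa using h7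
  have h7 : HasDerivAt (fun w => ev2 p z w) (ev2 p.derivative z (f z)) (f z) := by
    have h8 := Polynomial.hasDerivAt (p.map (MvPolynomial.aeval z : RK →ₐ[K] ℂ).toRingHom) (f z)
    rw [Polynomial.derivative_map] at h8
    unfold ev2
    simp only [Polynomial.eval₂_eq_eval_map]
    exact h8
  rw [h7.unique h6]
  have h9 := h4.unique h5
  rw [Finset.sum_add_distrib] at h9
  rw [Finset.sum_mul]
  have h10 : ∑ k ∈ Finset.range (p.natDegree + 1), MvPolynomial.aeval z (p.coeff k) * ((k : ℂ) * f z ^ (k - 1)) * pd i f z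
      = ∑ k ∈ Finset.range (p.natDegree + 1), MvPolynomial.aeval z (p.coeff k) * ((k : ℂ) * f z ^ (k - 1) * pd i f z) :=
    Finset.sum_congr rfl fun k _ => by ring
  rw [h10]
  linear_combination -h9

end Pool.Agent.H39.KP
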