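import Pool.Agent.H39.KP.Special
import Pool.Agent.H39.L.Helper417_Mer_HartogsExt

namespace Pool.Agent.H39.KP

open Function Filter Topology Metric

variable {f g F G : Fn}

theorem Algc.congr (hf : Algc f) (h : ∀ x : Cube, f (pt x) = g (pt x)) : Algc g := by
  obtain ⟨p, hp, h1⟩ := hf
  exact ⟨p, hp, fun x => by rw [← h x]; exact h1 x⟩

theorem update_ext {n : ℕ} (y : Fin n → ℂ) {i : ℕ} (hi : i < n) (t : ℂ) : update (ext n y) i t = ext n (update y ⟨i, hi⟩ t) := by
  funext k
  by_cases hk : k = i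
  · subst hk
    simp [ext, hi]
  · rw [update_of_ne hk]
    by_cases hkn : k < n
    · simp only [ext, hkn, dif_pos]
      rw [update_of_ne (by simpa [Fin.ext_iff] using hk)]
    · simp [ext, hkn]

/-- the quotient by a variable -/
noncomputable def quo (ρ : ℝ) (i : ℕ) (F : Fn) : Fn := fun z =>
  (2 * Real.pi * Complex.I : ℂ)⁻¹ • ∮ ξ in C(0, ρ), F (update z i ξ) * (ξ * (ξ - z i))⁻¹

theorem quo_holoR {n : ℕ} {r ρ : ℝ} (hρ : 1 < ρ) (hρr : ρ < r) (hF : HoloR n r F) {i : ℕ} (hi : i < n) : HoloR n ρ (quo ρ i F) := by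
  constructor
  · intro z w h
    unfold quo
    have e : ∀ ξ, F (update z i ξ) = F (update w i ξ) := by
      intro ξ
      apply hF.1
      intro k hk
      by_cases hki : k = i
      · subst hki; simp
      · rw [update_of_ne hki, update_of_ne hki, h k hk]
    simp only [e, h i hi]
  · unfold quo
    apply DifferentiableOn.fun_const_smul
    set Ω : Set ((Fin n → ℂ) × ℂ) := {p | update p.1 ⟨i, hi⟩ p.2 ∈ ball (0 : Fin n → ℂ) r ∧ p.2 ≠ 0 ∧ p.2 - p.1 ⟨i, hi⟩ ≠ 0} with hΩ
    have hupd : ∀ q : (Fin n → ℂ) × ℂ, DifferentiableAt ℂ (fun p : (Fin n → ℂ) × ℂ => update p.1 ⟨i, hi⟩ p.2) q := by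
      intro q
      rw [differentiableAt_pi]
      intro k
      by_cases hk : k = ⟨i, hi⟩
      · subst hk; simp only [update_self]; exact differentiableAt_snd
      · simp only [update_of_ne hk]
        fun_prop
    have hupc : Continuous fun p : (Fin n → ℂ) × ℂ => update p.1 ⟨i, hi⟩ p.2 :=
      continuous_iff_continuousAt.2 fun q => (hupd q).continuousAt
    have hΩo : IsOpen Ω := by
      have h1 : IsOpen {p : (Fin n → ℂ) × ℂ | update p.1 ⟨i, hi⟩ p.2 ∈ ball (0 : Fin n → ℂ) r} := isOpen_ball.preimage hupc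
      have h2 : IsOpen {p : (Fin n → ℂ) × ℂ | p.2 ≠ 0} := isOpen_ne_fun (by fun_prop) (by fun_prop)
      have h3 : IsOpen {p : (Fin n → ℂ) × ℂ | p.2 - p.1 ⟨i, hi⟩ ≠ 0} := isOpen_ne_fun (by fun_prop) (by fun_prop)
      exact h1.inter (h2.inter h3)
    have hd : DifferentiableOn ℂ (fun p : (Fin n → ℂ) × ℂ => F (ext n (update p.1 ⟨i, hi⟩ p.2)) * (p.2 * (p.2 - p.1 ⟨i, hi⟩))⁻¹) Ω := by
      rintro q ⟨h1, h2, h3⟩
      apply DifferentiableAt.differentiableWithinAt
      have h4 : DifferentiableAt ℂ (fun p : (Fin n → ℂ) × ℂ => F (ext n (update p.1 ⟨i, hi⟩ p.2))) q :=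
        DifferentiableAt.comp (g := fun y => F (ext n y)) q (hF.2.differentiableAt (isOpen_ball.mem_nhds h1)) (hupd q)
      have h5 : DifferentiableAt ℂ (fun p : (Fin n → ℂ) × ℂ => p.2 * (p.2 - p.1 ⟨i, hi⟩)) q := by fun_prop
      exact h4.mul (h5.inv (mul_ne_zero h2 h3))
    have h := Pool.Agent.Helper417.Mer.Hartogs673.param_circle hΩo hd (r := ρ) (U := ball (0 : Fin n → ℂ) ρ) isOpen_ball ?_
    · refine h.congr fun y hy => ?_
      have e : ext n y i = y ⟨i, hi⟩ := by simp [ext, hi]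
      simp only [update_ext y hi, e]
    · intro y hy ξ hξ
      rw [mem_sphere_zero_iff_norm, abs_of_pos (by linarith)] at hξ
      have hρ0 : 0 < ρ := by linarith
      rw [mem_ball_zero_iff, pi_norm_lt_iff hρ0] at hy
      refine ⟨?_, ?_, ?_⟩
      · show update y ⟨i, hi⟩ ξ ∈ ball (0 : Fin n → ℂ) r
        rw [mem_ball_zero_iff, pi_norm_lt_iff (by linarith)]
        intro k
        by_cases hk : k = ⟨i, hi⟩
        · subst hk; rw [update_self, hξ]; exact hρr
        · rw [update_of_ne hk]; exact (hy k).trans hρr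
      · show ξ ≠ 0
        rintro rfl
        rw [norm_zero] at hξ
        linarith
      · show ξ - y ⟨i, hi⟩ ≠ 0
        intro h0
        have := hy ⟨i, hi⟩
        rw [← sub_eq_zero.1 h0, hξ] at this
        exact lt_irrefl _ this

theorem quo_eq {n : ℕ} {r ρ : ℝ} (hρ : 1 < ρ) (hρr : ρ < r) (hF : HoloR n r F) {i : ℕ} (hi : i < n) {z : ℕ → ℂ} (hz : z ∈ Bl n ρ) :
    F z = F (update z i 0) + z i * quo ρ i F z := by
  have hρ0 : 0 < ρ := by linarith
  have hzr : z ∈ Bl n r := fun k hk => (hz k hk).trans hρr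
  have hd := hF.diffOn_update (by linarith) hzr i
  have hdc : DiffContOnCl ℂ (fun t => F (update z i t)) (ball 0 ρ) := by
    apply DifferentiableOn.diffContOnCl
    rw [closure_ball _ hρ0.ne']
    exact hd.mono (closedBall_subset_ball hρr)
  have h1 := hdc.two_pi_i_inv_smul_circleIntegral_sub_inv_smul (w := z i) (by rw [mem_ball_zero_iff]; exact hz i hi)
  have h2 := hdc.two_pi_i_inv_smul_circleIntegral_sub_inv_smul (w := 0) (by simpa using hρ0)
  rw [update_eq_self] at h1
  have hcont : ContinuousOn (fun t => F (update z i t)) (sphere 0 ρ) :=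
    hd.continuousOn.mono (sphere_subset_closedBall.trans (closedBall_subset_ball hρr))
  have hne : ∀ ξ ∈ sphere (0 : ℂ) ρ, ξ - z i ≠ 0 := by
    intro ξ hξ h0
    rw [mem_sphere_zero_iff_norm] at hξ
    have := hz i hi
    rw [← sub_eq_zero.1 h0, hξ] at this
    exact lt_irrefl _ this
  have hne0 : ∀ ξ ∈ sphere (0 : ℂ) ρ, ξ - 0 ≠ 0 := by
    intro ξ hξ h0
    rw [mem_sphere_zero_iff_norm] at hξ
    rw [sub_zero] at h0
    rw [h0, norm_zero] at hξ
    linarith
  have i1 : CircleIntegrable (fun ξ => (ξ - z i)⁻¹ • F (update z i ξ)) 0 ρ := by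
    apply ContinuousOn.circleIntegrable hρ0.le
    exact ((continuousOn_id.sub continuousOn_const).inv₀ hne).smul hcont
  have i2 : CircleIntegrable (fun ξ => (ξ - 0)⁻¹ • F (update z i ξ)) 0 ρ := by
    apply ContinuousOn.circleIntegrable hρ0.le
    exact ((continuousOn_id.sub continuousOn_const).inv₀ hne0).smul hcont
  have key : z i * quo ρ i F z = F z - F (update z i 0) := by
    rw [← h1, ← h2, ← smul_sub, ← circleIntegral.integral_sub i1 i2]
    unfold quo
    rw [smul_eq_mul, smul_eq_mul, mul_left_comm]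
    congr 1
    rw [← smul_eq_mul, ← circleIntegral.integral_smul]
    apply circleIntegral.integral_congr hρ0.le
    intro ξ hξ
    have k1 := hne ξ hξ
    have k2 := hne0 ξ hξ
    rw [sub_zero] at k2
    simp only [smul_eq_mul, sub_zero]
    field_simp
    ring
  rw [key]; ring

/-- division by a variable -/
theorem divide (hF : F ∈ O) (i : ℕ) : ∃ K ∈ O, ∀ z ∈ D, F z = F (update z i 0) + z i * K z := by
  obtain ⟨n0, hn0⟩ := holo_iff.1 hF.1
  set n := n0 + i + 1 with hn
  have hN : HoloN n F := hn0.mono (by omega)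
  obtain ⟨r, hr, hR⟩ := hN.exists_radius
  obtain ⟨ρ, hρ, hρr⟩ := exists_between hr
  have hi : i < n := by omega
  have hK := quo_holoR hρ hρr hR hi
  have heq : ∀ z ∈ D, F z = F (update z i 0) + z i * quo ρ i F z := fun z hz => quo_eq hρ hρr hR hi (D_sub_Bl hρ hz)
  refine ⟨quo ρ i F, ⟨holo_iff.2 ⟨n, hK.holoN hρ⟩, ?_⟩, heq⟩
  refine Algc.div_poly (N := MvPolynomial.X i) (MvPolynomial.X_ne_zero i) ?_
  refine Algc.congr (O_sub hF (O_at0 hF i)).2 fun x => ?_
  simp only [MvPolynomial.aeval_X]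
  rw [heq _ (pt_mem_D x)]
  ring

end Pool.Agent.H39.KP
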