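import Pool.Agent.H39.KP.Subst

namespace Pool.Agent.H39.KP

open Function Filter Topology

variable {f g F G u v : Fn}

/-- arithmetic expressions -/
inductive Ex : Type where
  | aff (c₀ c₁ : ℂ) (i : ℕ) : Ex
  | op (c₁ c₂ c₃ : ℂ) (a b : Ex) : Ex

namespace Ex

noncomputable def eval : Ex → Fn
  | aff c₀ c₁ i => fun z => c₀ + c₁ * z i
  | op c₁ c₂ c₃ a b => fun z => c₁ * a.eval z + c₂ * b.eval z + c₃ * (a.eval z * b.eval z)

def OK : Ex → Prop
  | aff c₀ c₁ _ => IsGauss c₀ ∧ IsGauss c₁ ∧ ‖c₀‖ + ‖c₁‖ ≤ 1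
  | op c₁ c₂ c₃ a b => IsGauss c₁ ∧ IsGauss c₂ ∧ IsGauss c₃ ∧ ‖c₁‖ + ‖c₂‖ + ‖c₃‖ ≤ 1 / 16 ∧ a.OK ∧ b.OK

def size : Ex → ℕ
  | aff _ _ _ => 0
  | op _ _ _ a b => a.size + b.size + 1

theorem OK.norm_le : ∀ {e : Ex}, e.OK → ∀ z ∈ D, ‖e.eval z‖ ≤ 1
  | aff c₀ c₁ i, h, z, hz => by
    have h1 : ‖c₁ * z i‖ ≤ ‖c₁‖ := by
      rw [norm_mul]; exact mul_le_of_le_one_right (norm_nonneg _) (hz i)
    exact (norm_add_le _ _).trans (by have := h.2.2; linarith)
  | op c₁ c₂ c₃ a b, h, z, hz => by
    have ha := OK.norm_le h.2.2.2.2.1 z hz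
    have hb := OK.norm_le h.2.2.2.2.2 z hz
    have h1 : ‖c₁ * a.eval z‖ ≤ ‖c₁‖ := by
      rw [norm_mul]; exact mul_le_of_le_one_right (norm_nonneg _) ha
    have h2 : ‖c₂ * b.eval z‖ ≤ ‖c₂‖ := by
      rw [norm_mul]; exact mul_le_of_le_one_right (norm_nonneg _) hb
    have h3 : ‖c₃ * (a.eval z * b.eval z)‖ ≤ ‖c₃‖ := by
      rw [norm_mul]; exact mul_le_of_le_one_right (norm_nonneg _) (norm_mul_le_one ha hb)
    have h4 := h.2.2.2.1
    exact (norm_add₃_le).trans (by linarith)

theorem op_norm_le {c₁ c₂ c₃ x y : ℂ} (h : ‖c₁‖ + ‖c₂‖ + ‖c₃‖ ≤ 1 / 16) (hx : ‖x‖ ≤ 1) (hy : ‖y‖ ≤ 1) :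
    ‖c₁ * x + c₂ * y + c₃ * (x * y)‖ ≤ 1 / 16 := by
  have h1 : ‖c₁ * x‖ ≤ ‖c₁‖ := by
    rw [norm_mul]; exact mul_le_of_le_one_right (norm_nonneg _) hx
  have h2 : ‖c₂ * y‖ ≤ ‖c₂‖ := by
    rw [norm_mul]; exact mul_le_of_le_one_right (norm_nonneg _) hy
  have h3 : ‖c₃ * (x * y)‖ ≤ ‖c₃‖ := by
    rw [norm_mul]; exact mul_le_of_le_one_right (norm_nonneg _) (norm_mul_le_one hx hy)
  exact (norm_add₃_le).trans (by linarith)

theorem OK.polF : ∀ {e : Ex}, e.OK → PolF e.eval
  | aff c₀ c₁ i, h => (h.1.polF).add ((h.2.1.polF).mul (PolF.coord i))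
  | op c₁ c₂ c₃ a b, h => (((h.1.polF).mul h.2.2.2.2.1.polF).add ((h.2.1.polF).mul h.2.2.2.2.2.polF)).add
      ((h.2.2.1.polF).mul (h.2.2.2.2.1.polF.mul h.2.2.2.2.2.polF))

theorem exists_fresh : ∀ e : Ex, ∃ M, ∀ j ≥ M, Fresh j e.eval
  | aff c₀ c₁ i => ⟨i + 1, fun j hj z t => by
      simp only [eval]
      rw [update_of_ne (by omega)]⟩
  | op c₁ c₂ c₃ a b => by
      obtain ⟨M, hM⟩ := exists_fresh a
      obtain ⟨M', hM'⟩ := exists_fresh b
      refine ⟨M + M', fun j hj z t => ?_⟩
      simp only [eval, hM j (by omega) z t, hM' j (by omega) z t]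

theorem aff_of_size : ∀ e : Ex, e.size = 0 → ∃ c₀ c₁ i, e = aff c₀ c₁ i
  | aff c₀ c₁ i, _ => ⟨c₀, c₁, i, rfl⟩
  | op _ _ _ a b, h => by simp only [size] at h; omega

theorem OK_zero : (aff 0 0 0).OK := ⟨IsGauss.zero, IsGauss.zero, by simp⟩

end Ex

open Ex in
theorem mono_expr_zero {n : ℕ} (hF : Mono F) (hd : Dep n F) (σ : ℕ → Ex) (hσ : ∀ k, (σ k).OK)
    (hs : ∀ k < n, (σ k).size = 0) : Mono fun z => F fun k => (σ k).eval z := by
  have h1 : ∀ k, ∃ c₀ c₁ i, k < n → σ k = aff c₀ c₁ i := by
    intro k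
    by_cases hk : k < n
    · obtain ⟨c₀, c₁, i, h⟩ := aff_of_size _ (hs k hk)
      exact ⟨c₀, c₁, i, fun _ => h⟩
    · exact ⟨0, 0, 0, fun h => absurd h hk⟩
  choose α β τ h1 using h1
  set α' : ℕ → ℂ := fun k => if k < n then α k else 0 with hα'
  set β' : ℕ → ℂ := fun k => if k < n then β k else 0 with hβ'
  have hOK : ∀ k < n, IsGauss (α k) ∧ IsGauss (β k) ∧ ‖α k‖ + ‖β k‖ ≤ 1 := by
    intro k hk
    have := hσ k
    rw [h1 k hk] at this
    exact this
  have h2 := hF.subst α' β' (fun k => by
    by_cases hk : k < n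
    · simpa [hα', hk] using (hOK k hk).1
    · simpa [hα', hk] using IsGauss.zero) (fun k => by
    by_cases hk : k < n
    · simpa [hβ', hk] using (hOK k hk).2.1
    · simpa [hβ', hk] using IsGauss.zero) τ fun z hz k => by
    by_cases hk : k < n
    · have h3 := (hOK k hk).2.2
      have h4 : ‖β k * z (τ k)‖ ≤ ‖β k‖ := by
        rw [norm_mul]; exact mul_le_of_le_one_right (norm_nonneg _) (hz _)
      simp only [hα', hβ', hk, if_true]
      exact (norm_add_le _ _).trans (by linarith)
    · simp [hα', hβ', hk]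
  have e : (fun z => F fun k => (σ k).eval z) = fun z => F fun k => α' k + β' k * z (τ k) := by
    funext z
    apply hd
    intro k hk
    rw [h1 k hk]
    simp [Ex.eval, hα', hβ', hk]
  rw [e]
  exact h2

theorem tri_factor (m n : ℕ) {c₁ c₂ c₃ : ℂ} (h1 : IsGauss c₁) (h2 : IsGauss c₂) (h3 : IsGauss c₃) :
    Tri fun z => ζ m (z n) - 4 * (c₁ * z (n + 1) + c₂ * z (n + 2) + c₃ * (z (n + 1) * z (n + 2))) := by
  have h4 : IsGauss (-4) := by simpa using IsGauss.rat (-4)
  refine ⟨n + 1, n + 2, n, V m, -4 * c₁, -4 * c₂, W m, -4 * c₃, IsGauss.V m, h4.mul h1, h4.mul h2, IsGauss.W m, h4.mul h3,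
    fun z => ?_⟩
  simp only [ζ]
  ring

open Ex in
/-- **elimination of the operations** -/
theorem repN_expr (N : ℕ) : ∀ (n : ℕ) (F : Fn) (σ : ℕ → Ex), Mono F → Dep n F → (∀ k, (σ k).OK) →
    ∑ k ∈ Finset.range n, (σ k).size ≤ N → RepN fun z => F fun k => (σ k).eval z := by
  induction N with
  | zero =>
    intro n F σ hF hd hσ hN
    refine RepN.mono (mono_expr_zero hF hd σ hσ fun k hk => ?_)
    have h1 := Finset.sum_eq_zero_iff.1 (Nat.le_zero.1 hN) k (Finset.mem_range.2 hk)
    exact h1
  | succ N ih =>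
    intro n F σ hF hd hσ hN
    by_cases hall : ∀ k < n, (σ k).size = 0
    · exact RepN.mono (mono_expr_zero hF hd σ hσ hall)
    push Not at hall
    obtain ⟨k, hk, hks⟩ := hall
    obtain ⟨c₁, c₂, c₃, a, b, hop⟩ : ∃ c₁ c₂ c₃ a b, σ k = op c₁ c₂ c₃ a b := by
      cases h : σ k with
      | aff c₀ c₁ i => rw [h] at hks; exact absurd rfl hks
      | op c₁ c₂ c₃ a b => exact ⟨c₁, c₂, c₃, a, b, rfl⟩
    have hOK := hσ k
    rw [hop] at hOK
    obtain ⟨hc1, hc2, hc3, hc, ha, hb⟩ := hOK
    -- a fresh variable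
    have hfr : ∃ M, ∀ j < n, ∀ i ≥ M, Fresh i (σ j).eval := by
      choose M hM using fun j => (σ j).exists_fresh
      refine ⟨(Finset.range n).sup M, fun j hj i hi => hM j i ?_⟩
      exact (Finset.le_sup (f := M) (Finset.mem_range.2 hj)).trans hi
    obtain ⟨M, hM⟩ := hfr
    have hMf : ∀ j < n, Fresh M (σ j).eval := fun j hj => hM j hj M le_rfl
    set v : Fn := (σ k).eval with hv
    have hvz : ∀ z, v z = c₁ * a.eval z + c₂ * b.eval z + c₃ * (a.eval z * b.eval z) := by
      intro z; rw [hv, hop]; rfl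
    have hvP : PolF v := (hσ k).polF
    have hvb : ∀ z ∈ D, ‖v z‖ ≤ 1 / 16 := fun z hz => by
      rw [hvz]; exact op_norm_le hc (ha.norm_le z hz) (hb.norm_le z hz)
    -- the function with a slot
    set S : (ℕ → ℂ) → ℕ → ℂ := fun z j => if j = k then z M else (σ j).eval z with hS
    have hSP : ∀ j, PolF fun z => S z j := by
      intro j
      by_cases hj : j = k
      · simpa [hS, hj] using PolF.coord M
      · simpa [hS, hj] using (hσ j).polF
    have hSD : ∀ z ∈ D, S z ∈ D := by
      intro z hz j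
      by_cases hj : j = k
      · simpa [hS, hj] using hz M
      · simpa [hS, hj] using (hσ j).norm_le z hz
    set G : Fn := fun z => F (S z) with hG
    have hGR : RatG G := hF.ratG.comp hSP hSD
    have hsub := subst_formula hGR hvP (hMf k hk) hvb
    have hGv : ∀ z, G (update z M (v z)) = F fun j => (σ j).eval z := by
      intro z
      apply hd
      intro j hj
      by_cases hjk : j = k
      · simp [hS, hjk, hv]
      · simp only [hS, hjk, if_false, hMf j hj _ _]
    have hfO : (fun z => F fun j => (σ j).eval z) ∈ O :=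
      (hF.ratG.comp (fun j => (hσ j).polF) fun z hz j => (hσ j).norm_le z hz).mem_O
    have hfM : Fresh M fun z => F fun j => (σ j).eval z := by
      intro z t
      apply hd
      intro j hj
      exact hMf j hj z t
    refine RepN.of_cFn hfO hfM ?_
    have hsub' : Eqv (fun z => cFn (z M) * F fun j => (σ j).eval z)
        (fun z => ∑ m ∈ Finset.range 16, W m * (G (update z M (ζ m (z M) / 4)) * (ζ m (z M) - 4 * v z)⁻¹)) := by
      simpa only [hGv] using hsub
    refine RepN.of_eqv hsub' (RepN.sum _ _ fun m _ => RepN.const (IsGauss.W m) ?_)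
    -- the new function and the new expressions
    set F' : Fn := fun z => F (fun j => if j = k then ζ m (z n) / 4 else if j < n then z j else 0) *
      (ζ m (z n) - 4 * (c₁ * z (n + 1) + c₂ * z (n + 2) + c₃ * (z (n + 1) * z (n + 2))))⁻¹ with hF'
    set σ' : ℕ → Ex := fun j => if j = k then aff 0 0 0 else if j < n then σ j else if j = n then aff 0 1 M
      else if j = n + 1 then a else if j = n + 2 then b else aff 0 0 0 with hσ'
    have hF'M : Mono F' := by
      refine Mono.mul ?_ (Mono.inv (tri_factor m n hc1 hc2 hc3) fun z hz => ?_)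
      · have h4 : IsGauss (1 / 4) := by simpa using IsGauss.rat (1 / 4)
        have := hF.subst (fun j => if j = k then V m * (1 / 4) else 0) (fun j => if j = k then W m * (1 / 4) else if j < n then 1 else 0)
          (fun j => by
            by_cases hj : j = k
            · simpa [hj] using (IsGauss.V m).mul h4
            · simpa [hj] using IsGauss.zero)
          (fun j => by
            by_cases hj : j = k
            · simpa [hj] using (IsGauss.W m).mul h4
            · by_cases hj2 : j < n
              · simpa [hj, hj2] using IsGauss.one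
              · simpa [hj, hj2] using IsGauss.zero)
          (fun j => if j = k then n else j) (fun z hz j => by
            by_cases hj : j = k
            · have hu := zeta_upper m (hz n)
              have e : V m * (1 / 4) + W m * (1 / 4) * z n = ζ m (z n) / 4 := by simp only [ζ]; ring
              simp only [hj, if_true]
              rw [e, norm_div, Complex.norm_ofNat]
              linarith
            · by_cases hj2 : j < n
              · simpa [hj, hj2] using hz j
              · simp [hj, hj2])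
        convert this using 1
        funext z
        congr 1
        funext j
        by_cases hj : j = k
        · simp only [hj, if_true, ζ]; ring
        · by_cases hj2 : j < n
          · simp [hj, hj2]
          · simp [hj, hj2]
      · intro h0
        have hl := zeta_lower m (hz n)
        have e : ζ m (z n) = 4 * (c₁ * z (n + 1) + c₂ * z (n + 2) + c₃ * (z (n + 1) * z (n + 2))) := by linear_combination h0
        have h5 := op_norm_le hc (hz (n + 1)) (hz (n + 2))
        rw [e, norm_mul, Complex.norm_ofNat] at hl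
        linarith
    have hF'd : Dep (n + 3) F' := by
      intro z w h
      simp only [hF']
      rw [h n (by omega), h (n + 1) (by omega), h (n + 2) (by omega)]
      congr 2
      funext j
      by_cases hj : j = k
      · simp [hj]
      · by_cases hj2 : j < n
        · simp [hj, hj2, h j (by omega)]
        · simp [hj, hj2]
    have hσ'OK : ∀ j, (σ' j).OK := by
      intro j
      simp only [hσ']
      split_ifs
      · exact OK_zero
      · exact hσ j
      · exact ⟨IsGauss.zero, IsGauss.one, by simp⟩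
      · exact ha
      · exact hb
      · exact OK_zero
    have hsize : ∑ j ∈ Finset.range (n + 3), (σ' j).size ≤ N := by
      rw [Finset.sum_range_succ, Finset.sum_range_succ, Finset.sum_range_succ]
      have e1 : (σ' n).size = 0 := by simp [hσ', show n ≠ k by omega, size]
      have e2 : (σ' (n + 1)).size = a.size := by simp [hσ', show n + 1 ≠ k by omega]
      have e3 : (σ' (n + 2)).size = b.size := by simp [hσ', show n + 2 ≠ k by omega]
      rw [e1, e2, e3]
      have e4 : ∑ j ∈ Finset.range n, (σ' j).size = ∑ j ∈ (Finset.range n).erase k, (σ j).size := by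
        rw [← Finset.add_sum_erase _ _ (Finset.mem_range.2 hk)]
        have : (σ' k).size = 0 := by simp [hσ', size]
        rw [this, zero_add]
        apply Finset.sum_congr rfl
        intro j hj
        have hj1 := Finset.ne_of_mem_erase hj
        have hj2 := Finset.mem_range.1 (Finset.mem_of_mem_erase hj)
        simp [hσ', hj1, hj2]
      have e5 := Finset.add_sum_erase (Finset.range n) (fun j => (σ j).size) (Finset.mem_range.2 hk)
      have e6 : (σ k).size = a.size + b.size + 1 := by rw [hop]; rfl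
      simp only [e6] at e5
      omega
    have hres := ih (n + 3) F' σ' hF'M hF'd hσ'OK hsize
    convert hres using 1
    funext z
    have q1 : (σ' n).eval z = z M := by simp [hσ', show n ≠ k by omega, Ex.eval]
    have q2 : (σ' (n + 1)).eval z = a.eval z := by simp [hσ', show n + 1 ≠ k by omega]
    have q3 : (σ' (n + 2)).eval z = b.eval z := by simp [hσ', show n + 2 ≠ k by omega]
    simp only [hF', q1, q2, q3, hvz]
    congr 1
    simp only [hG]
    apply hd
    intro j hj
    by_cases hjk : j = k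
    · simp [hS, hjk]
    · have : σ' j = σ j := by simp [hσ', hjk, hj]
      simp only [hS, hjk, if_false, hj, if_true, this, hMf j hj _ _]

end Pool.Agent.H39.KP
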