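import Pool.Agent.H39.KP.PiM

namespace Pool.Agent.H39.KP

open Function Filter Topology

variable {f g : Fn}

/-- the open polydisc of radius `r` in the first `n` variables -/
def Bl (n : ℕ) (r : ℝ) : Set (ℕ → ℂ) := {z | ∀ k < n, ‖z k‖ < r}

/-- holomorphic on the polydisc of radius `r` -/
def HoloR (n : ℕ) (r : ℝ) (f : Fn) : Prop := Dep n f ∧
  DifferentiableOn ℂ (fun y : Fin n → ℂ => f (ext n y)) (Metric.ball 0 r)

theorem res_mem_ball {n : ℕ} {r : ℝ} (hr : 0 < r) {z : ℕ → ℂ} (hz : z ∈ Bl n r) :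
    res n z ∈ Metric.ball (0 : Fin n → ℂ) r := by
  rw [mem_ball_zero_iff, pi_norm_lt_iff hr]
  intro i; exact hz i i.2

theorem ext_mem_Bl {n : ℕ} {r : ℝ} (hr : 0 < r) {y : Fin n → ℂ} (hy : y ∈ Metric.ball (0 : Fin n → ℂ) r) :
    ext n y ∈ Bl n r := by
  rw [mem_ball_zero_iff, pi_norm_lt_iff hr] at hy
  intro k hk
  simp only [ext, hk, dif_pos]
  exact hy ⟨k, hk⟩

theorem D_sub_Bl {n : ℕ} {r : ℝ} (hr : 1 < r) {z : ℕ → ℂ} (hz : z ∈ D) : z ∈ Bl n r := fun k _ => (hz k).trans_lt hr

theorem HoloN.exists_radius {n : ℕ} (hf : HoloN n f) : ∃ r > 1, HoloR n r f := by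
  set U := {x : Fin n → ℂ | ∀ᶠ y in 𝓝 x, DifferentiableAt ℂ (fun y => f (ext n y)) y} with hU
  have hUo : IsOpen U := isOpen_setOfPred_eventually_nhds
  have hsub : Metric.closedBall (0 : Fin n → ℂ) 1 ⊆ U := hf.2
  obtain ⟨δ, hδ, hd⟩ := (isCompact_closedBall (0 : Fin n → ℂ) 1).exists_thickening_subset_open hUo hsub
  refine ⟨1 + δ, by linarith, hf.1, fun x hx => ?_⟩
  have : x ∈ U := by
    apply hd
    rw [thickening_closedBall hδ zero_le_one]
    rwa [add_comm]
  exact (Eventually.self_of_nhds this).differentiableWithinAt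

theorem HoloR.holoN {n : ℕ} {r : ℝ} (hr : 1 < r) (hf : HoloR n r f) : HoloN n f := by
  refine ⟨hf.1, fun x hx => ?_⟩
  have hx' : x ∈ Metric.ball (0 : Fin n → ℂ) r := Metric.closedBall_subset_ball hr hx
  filter_upwards [Metric.isOpen_ball.mem_nhds hx'] with y hy
  exact hf.2.differentiableAt (Metric.isOpen_ball.mem_nhds hy)

theorem HoloR.diffAt_comp {n : ℕ} {r : ℝ} (hr : 0 < r) (hf : HoloR n r f) {φ : ℂ → ℕ → ℂ} {t : ℂ}
    (hφ : ∀ k < n, DifferentiableAt ℂ (fun s => φ s k) t) (ht : φ t ∈ Bl n r) :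
    DifferentiableAt ℂ (fun s => f (φ s)) t := by
  have key : ∀ s, f (φ s) = (fun y => f (ext n y)) (res n (φ s)) := fun s => (hf.1.ext_res _).symm
  simp only [key]
  refine DifferentiableAt.comp (g := fun y => f (ext n y)) t
    (hf.2.differentiableAt (Metric.isOpen_ball.mem_nhds (res_mem_ball hr ht))) ?_
  rw [differentiableAt_pi]
  intro k
  exact hφ k k.2

theorem update_mem_Bl {n : ℕ} {r : ℝ} {z : ℕ → ℂ} (hz : z ∈ Bl n r) (i : ℕ) {t : ℂ} (ht : ‖t‖ < r) :
    update z i t ∈ Bl n r := by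
  intro k hk
  by_cases h : k = i
  · subst h; simpa using ht
  · simpa [update_of_ne h] using hz k hk

theorem HoloR.diffOn_update {n : ℕ} {r : ℝ} (hr : 0 < r) (hf : HoloR n r f) {z : ℕ → ℂ} (hz : z ∈ Bl n r) (i : ℕ) :
    DifferentiableOn ℂ (fun t => f (update z i t)) (Metric.ball 0 r) := by
  intro t ht
  rw [mem_ball_zero_iff] at ht
  refine (hf.diffAt_comp hr (φ := fun t => update z i t) (fun k _ => ?_) (update_mem_Bl hz i ht)).differentiableWithinAt
  by_cases h : k = i
  · subst h; simp only [update_self]; exact differentiableAt_id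
  · simp only [update_of_ne h]; exact differentiableAt_const _

/-- identity theorem from the cube -/
theorem HoloR.ident {n : ℕ} {r : ℝ} (hr : 1 < r) (hf : HoloR n r f) (h0 : ∀ x : Cube, f (pt x) = 0) :
    ∀ z ∈ Bl n r, f z = 0 := by
  have key : ∀ m ≤ n, ∀ z ∈ Bl n r, (∀ k, m ≤ k → k < n → ∃ t ∈ Set.Icc (0 : ℝ) 1, z k = t) → f z = 0 := by
    intro m
    induction m with
    | zero =>
      intro _ z _ h
      have h1 : ∀ k, ∃ t : unitInterval, k < n → z k = ((t : ℝ) : ℂ) := by
        intro k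
        by_cases hk : k < n
        · obtain ⟨t, ht, h2⟩ := h k (Nat.zero_le _) hk
          exact ⟨⟨t, ht⟩, fun _ => h2⟩
        · exact ⟨0, fun h => absurd h hk⟩
      choose x hx using h1
      rw [hf.1 z (pt x) fun k hk => hx k hk]
      exact h0 x
    | succ m ih =>
      intro hm z hz h
      have hd := hf.diffOn_update (by linarith) hz m
      have han : AnalyticOnNhd ℂ (fun t => f (update z m t)) (Metric.ball 0 r) := fun t ht =>
        hd.analyticAt (Metric.isOpen_ball.mem_nhds ht)
      have hzero : ∀ t ∈ Set.Icc (0 : ℝ) 1, f (update z m (t : ℂ)) = 0 := by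
        intro t ht
        apply ih (by omega)
        · apply update_mem_Bl hz
          rw [Complex.norm_real, Real.norm_of_nonneg ht.1]; linarith [ht.2]
        · intro k hk1 hk2
          by_cases hkm : k = m
          · subst hkm; exact ⟨t, ht, by simp⟩
          · obtain ⟨s, hs, h2⟩ := h k (by omega) hk2
            exact ⟨s, hs, by rw [update_of_ne hkm, h2]⟩
      have hfreq : ∃ᶠ t in 𝓝[≠] ((1 / 2 : ℝ) : ℂ), f (update z m t) = 0 := by
        have h3 : Tendsto (fun s : ℝ => (s : ℂ)) (𝓝[≠] (1 / 2)) (𝓝[≠] ((1 / 2 : ℝ) : ℂ)) := by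
          apply tendsto_nhdsWithin_of_tendsto_nhds_of_eventually_within
          · exact (Complex.continuous_ofReal.tendsto _).mono_left nhdsWithin_le_nhds
          · filter_upwards [self_mem_nhdsWithin] with s hs
            intro h
            exact hs (Complex.ofReal_injective h)
        apply h3.frequently
        apply Eventually.frequently
        have h4 : Set.Icc (0 : ℝ) 1 ∈ 𝓝 (1 / 2 : ℝ) := Icc_mem_nhds (by norm_num) (by norm_num)
        filter_upwards [nhdsWithin_le_nhds h4] with s hs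
        exact hzero s hs
      have h5 := han.eqOn_zero_of_preconnected_of_frequently_eq_zero (convex_ball 0 r).isPreconnected
        (by rw [mem_ball_zero_iff, Complex.norm_real]; norm_num; linarith) hfreq
      have h6 := h5 (x := z m) (by rw [mem_ball_zero_iff]; exact hz m (by omega))
      simpa using h6
  intro z hz
  exact key n le_rfl z hz fun k h1 h2 => by omega

/-- identity theorem from a neighbourhood -/
theorem HoloR.ident_nhds {n : ℕ} {r : ℝ} (hr : 0 < r) (hf : HoloR n r f) {a : ℕ → ℂ} (ha : a ∈ Bl n r) {δ : ℝ}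
    (hδ : 0 < δ) (h0 : ∀ z, (∀ k < n, ‖z k - a k‖ < δ) → f z = 0) : ∀ z ∈ Bl n r, f z = 0 := by
  intro z hz
  set U : Set ℂ := {s | (fun k => a k + s * (z k - a k)) ∈ Bl n r} with hU
  have hUo : IsOpen U := by
    have : U = ⋂ k : Fin n, {s : ℂ | ‖a k + s * (z k - a k)‖ < r} := by
      ext s
      simp only [hU, Bl, Set.mem_ofPred_eq, Set.mem_iInter]
      exact ⟨fun h k => h k k.2, fun h k hk => h ⟨k, hk⟩⟩
    rw [this]
    apply isOpen_iInter_of_finite
    intro k
    exact isOpen_lt (by fun_prop) continuous_const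
  have hUc : Convex ℝ U := by
    have : U = ⋂ k : Fin n, {s : ℂ | ‖a k + s * (z k - a k)‖ < r} := by
      ext s
      simp only [hU, Bl, Set.mem_ofPred_eq, Set.mem_iInter]
      exact ⟨fun h k => h k k.2, fun h k hk => h ⟨k, hk⟩⟩
    rw [this]
    apply convex_iInter
    intro k
    have h1 : {s : ℂ | ‖a k + s * (z k - a k)‖ < r} = (fun s : ℂ => a k + s * (z k - a k)) ⁻¹' Metric.ball 0 r := by
      ext s; simp
    rw [h1]
    intro s hs t ht p q hp hq hpq
    simp only [Set.mem_preimage] at hs ht ⊢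
    have h2 := (convex_ball (0 : ℂ) r) hs ht hp hq hpq
    convert h2 using 1
    simp only [Complex.real_smul]
    have : (p : ℂ) + q = 1 := by exact_mod_cast hpq
    linear_combination (-(a k)) * this
  have hd : DifferentiableOn ℂ (fun s => f (fun k => a k + s * (z k - a k))) U := by
    intro s hs
    refine (hf.diffAt_comp hr (φ := fun s k => a k + s * (z k - a k)) (fun k _ => ?_) hs).differentiableWithinAt
    fun_prop
  have han : AnalyticOnNhd ℂ (fun s => f (fun k => a k + s * (z k - a k))) U := fun s hs =>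
    hd.analyticAt (hUo.mem_nhds hs)
  have hev : (fun s => f (fun k => a k + s * (z k - a k))) =ᶠ[𝓝 0] 0 := by
    have h1 : ∀ᶠ s : ℂ in 𝓝 0, ∀ k : Fin n, ‖s * (z k - a k)‖ < δ := by
      apply eventually_all.2
      intro k
      have : Continuous fun s : ℂ => ‖s * (z k - a k)‖ := by fun_prop
      have h2 := this.tendsto 0
      simp only [zero_mul, norm_zero] at h2
      exact h2.eventually_lt_const hδ
    filter_upwards [h1] with s hs
    apply h0
    intro k hk
    have := hs ⟨k, hk⟩
    simpa using this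
  have h6 := han.eqOn_zero_of_preconnected_of_eventuallyEq_zero hUc.isPreconnected
    (z₀ := 0) (by simpa [hU] using ha) hev
  have h7 := h6 (x := 1) (by simp only [hU, Set.mem_ofPred_eq]; convert hz using 1; funext k; ring)
  simp only [Pi.zero_apply, one_mul] at h7
  rw [← h7]
  congr 1
  funext k; ring

end Pool.Agent.H39.KP
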