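import Pool.Agent.H39.KP.KOcc

namespace Pool.Agent.H39.KP

open Function Filter Topology

variable {f g F G u v : Fn}

/-- substitution of `ζ_m(z_y) / 4` for `z_y` -/
noncomputable def Ex.lsub (y m : ℕ) : Ex → Ex
  | .aff A B x => if x = y then .aff (A + B * (V m / 4)) (B * (W m / 4)) x else .aff A B x
  | .op c₁ c₂ c₃ a b => .op c₁ c₂ c₃ (a.lsub y m) (b.lsub y m)

theorem Ex.lsub_eval (y m : ℕ) : ∀ (e : Ex) (z : ℕ → ℂ), (e.lsub y m).eval z = e.eval (update z y (ζ m (z y) / 4))
  | .aff A B x, z => by
    simp only [Ex.lsub]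
    by_cases h : x = y
    · subst h
      simp only [if_true, Ex.eval, update_self, ζ]
      ring
    · simp only [h, if_false, Ex.eval, update_of_ne h]
  | .op c₁ c₂ c₃ a b, z => by
    simp only [Ex.lsub, Ex.eval, lsub_eval y m a, lsub_eval y m b]

theorem Ex.lsub_cnt (y m x : ℕ) : ∀ e : Ex, (e.lsub y m).cnt x = e.cnt x
  | .aff A B x' => by
    have hW : W m / 4 ≠ 0 := div_ne_zero (W_ne m) (by norm_num)
    by_cases h : x' = y
    · simp [Ex.lsub, h, Ex.cnt, hW]
    · simp [Ex.lsub, h]
  | .op c₁ c₂ c₃ a b => by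
    simp only [Ex.lsub, Ex.cnt, lsub_cnt y m x a, lsub_cnt y m x b]

theorem Ex.Pure.mono {n t t' : ℕ} (ht : t' ≤ t) : ∀ {e : Ex}, e.Pure n t → e.Pure n t'
  | .aff _ _ _, h => fun h1 h2 => h h1 (h2.trans_le ht)
  | .op _ _ _ _ _, h => ⟨h.1.mono ht, h.2.mono ht⟩

theorem Ex.lsub_In {n t m : ℕ} (hn : n ≤ t) (hm : m < 16) : ∀ {e : Ex}, e.In → e.Pure n (t + 1) → (e.lsub t m).In
  | .aff A B x, h, hp => by
    by_cases hx : x = t
    · subst hx
      simp only [Ex.lsub, if_true]
      rcases hp hn (Nat.lt_succ_self _) with ⟨rfl, rfl⟩ | rfl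
      · have : ((0 : ℂ) + 1 * (V m / 4), (1 : ℂ) * (W m / 4)) = (V m / 4, W m / 4) := by simp
        show ((0 : ℂ) + 1 * (V m / 4), (1 : ℂ) * (W m / 4)) ∈ LS
        rw [this]
        exact mem_LS_zeta hm
      · show (A + 0 * (V m / 4), (0 : ℂ) * (W m / 4)) ∈ LS
        rw [zero_mul, zero_mul, add_zero]
        exact h
    · simp only [Ex.lsub, hx, if_false]
      exact h
  | .op _ _ _ a b, h, hp => ⟨h.1, lsub_In hn hm h.2.1 hp.1, lsub_In hn hm h.2.2 hp.2⟩

theorem Ex.lsub_Pure {n t m : ℕ} : ∀ {e : Ex}, e.Pure n (t + 1) → (e.lsub t m).Pure n t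
  | .aff A B x, hp => by
    by_cases hx : x = t
    · subst hx
      simp only [Ex.lsub, if_true]
      intro _ h
      exact absurd h (lt_irrefl _)
    · simp only [Ex.lsub, hx, if_false]
      exact hp.mono (Nat.le_succ _)
  | .op _ _ _ a b, hp => ⟨lsub_Pure hp.1, lsub_Pure hp.2⟩

noncomputable def Fac.lsub (y m : ℕ) (φ : Fac) : Fac := ⟨φ.a, fun j => (φ.p j).lsub y m⟩

theorem Fac.lsub_val (y m : ℕ) (φ : Fac) (z : ℕ → ℂ) : (φ.lsub y m).val z = φ.val (update z y (ζ m (z y) / 4)) := by
  simp only [Fac.lsub, Fac.val, Ex.lsub_eval]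

theorem Fac.lsub_cnt (y m x : ℕ) (φ : Fac) : (φ.lsub y m).cnt x = φ.cnt x := by
  simp only [Fac.lsub, Fac.cnt, Ex.lsub_cnt]

theorem sv_lsub (y m : ℕ) (Φ : List Fac) (z : ℕ → ℂ) : sv (Φ.map (Fac.lsub y m)) z = sv Φ (update z y (ζ m (z y) / 4)) := by
  unfold sv
  rw [List.map_map]
  congr 1
  apply List.map_congr_left
  intro φ _
  simp only [Function.comp_apply, Fac.lsub_val]

theorem stc_lsub (y m x : ℕ) (Φ : List Fac) : stc x (Φ.map (Fac.lsub y m)) = stc x Φ := by
  unfold stc
  rw [List.map_map]
  congr 1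
  apply List.map_congr_left
  intro φ _
  simp only [Function.comp_apply, Fac.lsub_cnt]

/-- the values of the carriers -/
noncomputable def Wt (org ex : ℕ → ℕ) (t : ℕ) (z : ℕ → ℂ) : ℕ → ℂ := fun x => if x < t then z (org x) / 16 ^ ex x else z x

theorem Wt_mem_D {org ex : ℕ → ℕ} {t : ℕ} {z : ℕ → ℂ} (hz : z ∈ D) : Wt org ex t z ∈ D := by
  intro x
  unfold Wt
  split_ifs
  · rw [norm_div, norm_pow, Complex.norm_ofNat]
    exact (div_le_self (norm_nonneg _) (one_le_pow₀ (by norm_num))).trans (hz _)
  · exact hz x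

theorem Wt_polF (org ex : ℕ → ℕ) (t x : ℕ) : PolF fun z => Wt org ex t z x := by
  unfold Wt
  split_ifs
  · have h : IsGauss (1 / 16 ^ ex x) := by
      have := IsGauss.rat (1 / 16 ^ ex x)
      push_cast at this
      exact this
    have := h.polF.mul (PolF.coord (org x))
    convert this using 1
    funext z
    ring
  · exact PolF.coord x

theorem mem_TS_copy : ((1 / 16 : ℂ), (0 : ℂ), (0 : ℂ)) ∈ TS := by simp [TS]

/-- **the copies of the variables** -/
theorem repB_chain {n T : ℕ} (par org ex : ℕ → ℕ) (h0 : ∀ x < n, org x = x ∧ ex x = 0)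
    (h1 : ∀ x, n ≤ x → x < T → par x < x ∧ org x = org (par x) ∧ ex x = ex (par x) + 1) :
    ∀ t, n ≤ t → t ≤ T → ∀ Φ : List Fac, (∀ φ ∈ Φ, φ.OK) → (∀ φ ∈ Φ, ∀ j, (φ.p j).Pure n t) →
      (∀ x, stc x Φ + (if n ≤ x ∧ x < t then 1 else 0) + ((Finset.Ico n t).filter fun y => par y = x).card ≤ 3) →
      RepB fun z => sv Φ (Wt org ex t z) := by
  have horg : ∀ x < T, org x < n := by
    intro x
    induction x using Nat.strong_induction_on with
    | _ x ih =>
      intro hx
      by_cases hxn : x < n
      · rw [(h0 x hxn).1]; exact hxn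
      · push Not at hxn
        obtain ⟨k1, k2, -⟩ := h1 x hxn hx
        rw [k2]
        exact ih _ k1 (k1.trans hx)
  intro t ht
  induction t, ht using Nat.le_induction with
  | base =>
    intro _ Φ hΦ _ hcn
    have h := repB_state _ Φ hΦ (fun x => by have := hcn x; omega) le_rfl
    convert h using 1
    funext z
    congr 1
    funext x
    unfold Wt
    split_ifs with hx
    · rw [(h0 x hx).1, (h0 x hx).2, pow_zero, div_one]
    · rfl
  | succ t ht ih =>
    intro htT Φ hΦ hpure hcn
    obtain ⟨k1, k2, k3⟩ := h1 t ht (by omega)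
    set p := par t with hp
    have hot : org p < n := horg p (by omega)
    set v : Fn := fun z => z (org p) / 16 ^ ex p / 16 with hv
    have hvP : PolF v := by
      have h : IsGauss (1 / 16 ^ ex p / 16) := by
        have := IsGauss.rat (1 / 16 ^ ex p / 16)
        push_cast at this
        exact this
      have := h.polF.mul (PolF.coord (org p))
      convert this using 1
      funext z
      simp only [hv]
      ring
    have hvt : Fresh t v := fun z c => by
      simp only [hv]
      rw [update_of_ne (by omega)]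
    have hvb : ∀ z ∈ D, ‖v z‖ ≤ 1 / 16 := by
      intro z hz
      simp only [hv]
      rw [norm_div, norm_div, norm_pow, Complex.norm_ofNat]
      have h5 : ‖z (org p)‖ / 16 ^ ex p ≤ 1 := (div_le_self (norm_nonneg _) (one_le_pow₀ (by norm_num))).trans (hz _)
      linarith
    set F : Fn := fun z => sv Φ (Wt org ex t z) with hF
    have hFR : RatG F := (sv_ratG hΦ).comp (Wt_polF org ex t) fun z hz => Wt_mem_D hz
    have hWu : ∀ z c, Wt org ex t (update z t c) = update (Wt org ex t z) t c := by
      intro z c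
      funext x
      by_cases hx : x = t
      · subst hx
        simp [Wt]
      · rw [update_of_ne hx]
        simp only [Wt]
        split_ifs with h
        · rw [update_of_ne (by have := horg x (by omega); omega)]
        · rw [update_of_ne hx]
    have hFv : ∀ z, F (update z t (v z)) = sv Φ (Wt org ex (t + 1) z) := by
      intro z
      simp only [hF]
      rw [hWu]
      congr 1
      funext x
      by_cases hx : x = t
      · subst hx
        simp only [update_self, Wt, Nat.lt_succ_self, if_true, hv]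
        rw [k2, k3, pow_succ, div_div]
      · rw [update_of_ne hx]
        simp only [Wt]
        by_cases h : x < t
        · rw [if_pos h, if_pos (by omega)]
        · rw [if_neg h, if_neg (by omega)]
    have hsub := subst_formula hFR hvP hvt hvb
    have hfO : (fun z => sv Φ (Wt org ex (t + 1) z)) ∈ O :=
      ((sv_ratG hΦ).comp (Wt_polF org ex (t + 1)) fun z hz => Wt_mem_D hz).mem_O
    have hff : Fresh t fun z => sv Φ (Wt org ex (t + 1) z) := by
      intro z c
      show sv Φ (Wt org ex (t + 1) (update z t c)) = sv Φ (Wt org ex (t + 1) z)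
      congr 1
      funext x
      simp only [Wt]
      split_ifs with h
      · rw [update_of_ne (by have := horg x (by omega); omega)]
      · rw [update_of_ne (by omega)]
    refine RepB.of_cFn hfO hff ?_
    have hsub' : Eqv (fun z => cFn (z t) * sv Φ (Wt org ex (t + 1) z))
        (fun z => ∑ m ∈ Finset.range 16, W m * (F (update z t (ζ m (z t) / 4)) * (ζ m (z t) - 4 * v z)⁻¹)) := by
      simpa only [hFv] using hsub
    refine RepB.of_eqv hsub' (RepB.sum _ _ fun m hm => RepB.const (IsGauss.W m) ?_)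
    rw [Finset.mem_range] at hm
    set ψ : Fac := ⟨![V m, -4 * (1 / 16), -4 * 0, W m, -4 * 0], ![Ex.aff 0 1 p, Ex.aff 0 0 0, Ex.aff 0 1 t]⟩ with hψ
    have hres := ih (by omega) (ψ :: Φ.map (Fac.lsub t m)) (fun φ hφ => ?_) (fun φ hφ j => ?_) (fun x => ?_)
    · convert hres using 1
      funext z
      rw [sv_cons, sv_lsub]
      have e1 : ψ.val (Wt org ex t z) = ζ m (z t) - 4 * v z := by
        have q1 : Wt org ex t z p = z (org p) / 16 ^ ex p := by simp [Wt, k1]
        have q2 : Wt org ex t z t = z t := by simp [Wt]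
        simp only [hψ, Fac.val, kv, Matrix.cons_val_zero, Matrix.cons_val_one, Matrix.cons_val, Ex.eval, ζ, q1, q2, hv]
        ring
      have e2 : Wt org ex t z t = z t := by simp [Wt]
      rw [e1, e2, ← hWu]
      ring
    · rcases List.mem_cons.1 hφ with rfl | hφ
      · refine ⟨mem_S0_op hm mem_TS_copy, fun j => ?_⟩
        fin_cases j
        · exact mem_LS_id
        · exact mem_LS_zero
        · exact mem_LS_id
      · obtain ⟨φ', hφ', rfl⟩ := List.mem_map.1 hφ
        exact ⟨(hΦ φ' hφ').1, fun j => Ex.lsub_In ht hm ((hΦ φ' hφ').2 j) (hpure φ' hφ' j)⟩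
    · rcases List.mem_cons.1 hφ with rfl | hφ
      · fin_cases j
        · exact fun _ _ => Or.inl ⟨rfl, rfl⟩
        · exact fun _ _ => Or.inr rfl
        · exact fun _ _ => Or.inl ⟨rfl, rfl⟩
      · obtain ⟨φ', hφ', rfl⟩ := List.mem_map.1 hφ
        exact Ex.lsub_Pure (hpure φ' hφ' j)
    · rw [stc_cons, stc_lsub]
      have h5 := hcn x
      have h6 : ψ.cnt x = (if p = x then 1 else 0) + (if t = x then 1 else 0) := by
        simp [hψ, Fac.cnt, Fin.sum_univ_three, Ex.cnt]
      have h7 : (Finset.Ico n (t + 1)).filter (fun y => par y = x) = if p = x then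
          insert t ((Finset.Ico n t).filter fun y => par y = x) else (Finset.Ico n t).filter fun y => par y = x := by
        rw [← Finset.insert_Ico_right_eq_Ico_add_one ht, Finset.filter_insert]
      have h8 : ((Finset.Ico n (t + 1)).filter (fun y => par y = x)).card
          = ((Finset.Ico n t).filter fun y => par y = x).card + (if p = x then 1 else 0) := by
        rw [h7]
        split_ifs
        · rw [Finset.card_insert_of_notMem (by simp)]
        · rfl
      rw [h8] at h5
      rw [h6]
      have h9 : (if t = x then 1 else 0) + (if n ≤ x ∧ x < t then 1 else 0) ≤ (if n ≤ x ∧ x < t + 1 then 1 else 0 : ℕ) := by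
        split_ifs <;> omega
      omega

end Pool.Agent.H39.KP
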