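import Pool.Agent.H39.KP.KState

namespace Pool.Agent.H39.KP

open Function Filter Topology

variable {f g F G u v : Fn}

/-- dyadic Gaussian numbers -/
def IsDy (c : ℂ) : Prop := ∃ (a b : ℤ) (n : ℕ), c = ((a : ℂ) + b * Complex.I) / 2 ^ n

theorem IsDy.int (a : ℤ) : IsDy (a : ℂ) := ⟨a, 0, 0, by simp⟩

theorem IsDy.I : IsDy Complex.I := ⟨0, 1, 0, by simp⟩

theorem IsDy.add {c d : ℂ} (hc : IsDy c) (hd : IsDy d) : IsDy (c + d) := by
  obtain ⟨a, b, n, rfl⟩ := hc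
  obtain ⟨a', b', n', rfl⟩ := hd
  refine ⟨a * 2 ^ n' + a' * 2 ^ n, b * 2 ^ n' + b' * 2 ^ n, n + n', ?_⟩
  rw [div_add_div _ _ (pow_ne_zero _ two_ne_zero) (pow_ne_zero _ two_ne_zero), pow_add]
  push_cast
  congr 1
  ring

theorem IsDy.mul {c d : ℂ} (hc : IsDy c) (hd : IsDy d) : IsDy (c * d) := by
  obtain ⟨a, b, n, rfl⟩ := hc
  obtain ⟨a', b', n', rfl⟩ := hd
  refine ⟨a * a' - b * b', a * b' + b * a', n + n', ?_⟩
  rw [div_mul_div_comm, pow_add]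
  push_cast
  congr 1
  linear_combination (b * b' : ℂ) * Complex.I_sq

theorem IsDy.neg {c : ℂ} (hc : IsDy c) : IsDy (-c) := by
  simpa using (IsDy.int (-1)).mul hc

theorem IsDy.sub {c d : ℂ} (hc : IsDy c) (hd : IsDy d) : IsDy (c - d) := by
  rw [sub_eq_add_neg]; exact hc.add hd.neg

theorem IsDy.half_pow (n : ℕ) : IsDy (1 / 2 ^ n) := ⟨1, 0, n, by simp⟩

theorem IsDy.div_pow {c : ℂ} (hc : IsDy c) (n : ℕ) : IsDy (c / 2 ^ n) := by
  rw [div_eq_mul_one_div]; exact hc.mul (IsDy.half_pow n)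

theorem IsDy.mul_pow {c : ℂ} (hc : IsDy c) (n : ℕ) : IsDy (2 ^ n * c) := by
  simpa using (IsDy.int (2 ^ n)).mul hc

theorem IsDy.div_zpow {c : ℂ} (hc : IsDy c) (n : ℤ) : IsDy (c / 2 ^ n) := by
  obtain ⟨k, rfl | rfl⟩ := n.eq_nat_or_neg
  · rw [zpow_natCast]; exact hc.div_pow k
  · rw [zpow_neg, zpow_natCast, div_inv_eq_mul, mul_comm]; exact hc.mul_pow k

theorem abs_floor_le {x : ℝ} {N : ℕ} (hx : |x| ≤ 1) : |⌊(2 : ℝ) ^ N * x⌋| ≤ 2 ^ N := by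
  obtain ⟨h1, h2⟩ := abs_le.1 hx
  have hp : (0 : ℝ) < 2 ^ N := by positivity
  rw [abs_le]
  constructor
  · apply Int.le_floor.2
    push_cast
    nlinarith
  · have h3 := Int.floor_le ((2 : ℝ) ^ N * x)
    have h4 : (⌊(2 : ℝ) ^ N * x⌋ : ℝ) ≤ 2 ^ N := by nlinarith
    exact_mod_cast h4

theorem abs_sub_floor {x : ℝ} (N : ℕ) : |x - ⌊(2 : ℝ) ^ N * x⌋ / 2 ^ N| ≤ 1 / 2 ^ N := by
  have hp : (0 : ℝ) < 2 ^ N := by positivity
  have h1 := Int.floor_le ((2 : ℝ) ^ N * x)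
  have h2 := Int.lt_floor_add_one ((2 : ℝ) ^ N * x)
  have e : x - ⌊(2 : ℝ) ^ N * x⌋ / 2 ^ N = (2 ^ N * x - ⌊(2 : ℝ) ^ N * x⌋) / 2 ^ N := by field_simp
  rw [e, abs_div, abs_of_pos hp, abs_of_nonneg (by linarith)]
  gcongr
  linarith

/-- rounding -/
theorem round_grid (N : ℕ) {c : ℂ} (hc : ‖c‖ ≤ 1) : ∃ a b : ℤ, |a| ≤ 2 ^ N ∧ |b| ≤ 2 ^ N ∧
    ‖c - ((a : ℂ) + b * Complex.I) / 2 ^ N‖ ≤ 2 / 2 ^ N := by
  refine ⟨⌊(2 : ℝ) ^ N * c.re⌋, ⌊(2 : ℝ) ^ N * c.im⌋, abs_floor_le ((Complex.abs_re_le_norm c).trans hc),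
    abs_floor_le ((Complex.abs_im_le_norm c).trans hc), ?_⟩
  set a := ⌊(2 : ℝ) ^ N * c.re⌋ with ha
  set b := ⌊(2 : ℝ) ^ N * c.im⌋ with hb
  have e : c - ((a : ℂ) + b * Complex.I) / 2 ^ N = ((c.re - a / 2 ^ N : ℝ) : ℂ) + ((c.im - b / 2 ^ N : ℝ) : ℂ) * Complex.I := by
    apply Complex.ext
    · rw [show ((a : ℂ) + b * Complex.I) / 2 ^ N = ((a / 2 ^ N : ℝ) : ℂ) + ((b / 2 ^ N : ℝ) : ℂ) * Complex.I by push_cast; ring]
      simp only [Complex.sub_re, Complex.add_re, Complex.mul_re, Complex.ofReal_re, Complex.ofReal_im, Complex.I_re, Complex.I_im]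
      ring
    · rw [show ((a : ℂ) + b * Complex.I) / 2 ^ N = ((a / 2 ^ N : ℝ) : ℂ) + ((b / 2 ^ N : ℝ) : ℂ) * Complex.I by push_cast; ring]
      simp only [Complex.sub_im, Complex.add_im, Complex.mul_im, Complex.ofReal_re, Complex.ofReal_im, Complex.I_re, Complex.I_im]
      ring
  rw [e]
  refine (norm_add_le _ _).trans ?_
  rw [norm_mul, Complex.norm_I, mul_one, Complex.norm_real, Complex.norm_real, Real.norm_eq_abs, Real.norm_eq_abs]
  have h1 := abs_sub_floor (x := c.re) N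
  have h2 := abs_sub_floor (x := c.im) N
  rw [← ha] at h1
  rw [← hb] at h2
  calc |c.re - a / 2 ^ N| + |c.im - b / 2 ^ N| ≤ 1 / 2 ^ N + 1 / 2 ^ N := add_le_add h1 h2
    _ = 2 / 2 ^ N := by ring

theorem mem_LS_const {c : ℂ} (h : c ∈ Grid 7) (h1 : ‖c‖ ≤ 1) : (c, (0 : ℂ)) ∈ LS := Or.inr ⟨c, ⟨h, h1⟩, rfl⟩

theorem mem_LS_zero : ((0 : ℂ), (0 : ℂ)) ∈ LS := mem_LS_const ⟨0, 0, by norm_num, by norm_num, by simp⟩ (by simp)

theorem mem_TS_add : ((1 / 32 : ℂ), (1 / 32 : ℂ), (0 : ℂ)) ∈ TS := by simp [TS]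

theorem mem_TS_mul : ((0 : ℂ), (0 : ℂ), (1 / 16 : ℂ)) ∈ TS := by simp [TS]

theorem mem_TS_I : ((1 / 32 : ℂ), Complex.I * (1 / 32 : ℂ), (0 : ℂ)) ∈ TS := by simp [TS]

/-- the sum -/
noncomputable def eadd (a b : Ex) : Ex := Ex.op (1 / 32) (1 / 32) 0 a b

/-- the product -/
noncomputable def emul (a b : Ex) : Ex := Ex.op 0 0 (1 / 16) a b

/-- the sum with `i` -/
noncomputable def eaddI (a b : Ex) : Ex := Ex.op (1 / 32) (Complex.I * (1 / 32)) 0 a b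

theorem eadd_In {a b : Ex} (ha : a.In) (hb : b.In) : (eadd a b).In := ⟨mem_TS_add, ha, hb⟩

theorem emul_In {a b : Ex} (ha : a.In) (hb : b.In) : (emul a b).In := ⟨mem_TS_mul, ha, hb⟩

theorem eaddI_In {a b : Ex} (ha : a.In) (hb : b.In) : (eaddI a b).In := ⟨mem_TS_I, ha, hb⟩

theorem eadd_eval (a b : Ex) (z : ℕ → ℂ) : (eadd a b).eval z = (a.eval z + b.eval z) / 32 := by
  simp only [eadd, Ex.eval]; ring

theorem emul_eval (a b : Ex) (z : ℕ → ℂ) : (emul a b).eval z = (a.eval z * b.eval z) / 16 := by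
  simp only [emul, Ex.eval]; ring

theorem eaddI_eval (a b : Ex) (z : ℕ → ℂ) : (eaddI a b).eval z = (a.eval z + Complex.I * b.eval z) / 32 := by
  simp only [eaddI, Ex.eval]; ring

/-- small dyadic constants -/
theorem const_expr (n : ℕ) : ∀ a b : ℤ, ‖((a : ℂ) + b * Complex.I) / 2 ^ n‖ ≤ 1 / 64 →
    ∃ e : Ex, e.In ∧ (∀ x, e.cnt x = 0) ∧ ∀ z, e.eval z = ((a : ℂ) + b * Complex.I) / 2 ^ n := by
  induction n using Nat.strong_induction_on with
  | _ n ih =>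
    intro a b h
    set c : ℂ := ((a : ℂ) + b * Complex.I) / 2 ^ n with hc
    have h32 : ‖32 * c‖ ≤ 1 / 2 := by
      rw [norm_mul, Complex.norm_ofNat]; linarith
    by_cases hn : n ≤ 12
    · have hg : 32 * c ∈ Grid 7 := by
        obtain ⟨k, hk⟩ : ∃ k, 12 = n + k := ⟨12 - n, by omega⟩
        have e : 32 * c = (((a * 2 ^ k : ℤ) : ℂ) + ((b * 2 ^ k : ℤ) : ℂ) * Complex.I) / 2 ^ 7 := by
          rw [hc]
          have h5 : (32 : ℂ) * 2 ^ 7 = 2 ^ n * 2 ^ k := by rw [← pow_add, ← hk]; norm_num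
          rw [← mul_div_assoc, div_eq_div_iff (pow_ne_zero _ two_ne_zero) (pow_ne_zero _ two_ne_zero)]
          push_cast
          linear_combination ((a : ℂ) + b * Complex.I) * h5
        refine ⟨a * 2 ^ k, b * 2 ^ k, ?_, ?_, e⟩
        · have h6 := (Complex.abs_re_le_norm (32 * c)).trans h32
          rw [e] at h6
          have e2 : ((((a * 2 ^ k : ℤ) : ℂ) + ((b * 2 ^ k : ℤ) : ℂ) * Complex.I) / 2 ^ 7).re = ((a * 2 ^ k : ℤ) : ℝ) / 2 ^ 7 := by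
            rw [show (((a * 2 ^ k : ℤ) : ℂ) + ((b * 2 ^ k : ℤ) : ℂ) * Complex.I) / 2 ^ 7 = ((((a * 2 ^ k : ℤ) : ℝ) / 2 ^ 7 : ℝ) : ℂ)
              + ((((b * 2 ^ k : ℤ) : ℝ) / 2 ^ 7 : ℝ) : ℂ) * Complex.I by push_cast; ring]
            simp only [Complex.add_re, Complex.mul_re, Complex.ofReal_re, Complex.ofReal_im, Complex.I_re, Complex.I_im]
            ring
          rw [e2, abs_div, div_le_iff₀ (by positivity)] at h6
          have h7 : |((a * 2 ^ k : ℤ) : ℝ)| ≤ 2 ^ 7 := by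
            refine h6.trans ?_
            norm_num
          exact_mod_cast h7
        · have h6 := (Complex.abs_im_le_norm (32 * c)).trans h32
          rw [e] at h6
          have e2 : ((((a * 2 ^ k : ℤ) : ℂ) + ((b * 2 ^ k : ℤ) : ℂ) * Complex.I) / 2 ^ 7).im = ((b * 2 ^ k : ℤ) : ℝ) / 2 ^ 7 := by
            rw [show (((a * 2 ^ k : ℤ) : ℂ) + ((b * 2 ^ k : ℤ) : ℂ) * Complex.I) / 2 ^ 7 = ((((a * 2 ^ k : ℤ) : ℝ) / 2 ^ 7 : ℝ) : ℂ)
              + ((((b * 2 ^ k : ℤ) : ℝ) / 2 ^ 7 : ℝ) : ℂ) * Complex.I by push_cast; ring]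
            simp only [Complex.add_im, Complex.mul_im, Complex.ofReal_re, Complex.ofReal_im, Complex.I_re, Complex.I_im]
            ring
          rw [e2, abs_div, div_le_iff₀ (by positivity)] at h6
          have h7 : |((b * 2 ^ k : ℤ) : ℝ)| ≤ 2 ^ 7 := by
            refine h6.trans ?_
            norm_num
          exact_mod_cast h7
      refine ⟨eadd (Ex.aff (32 * c) 0 0) (Ex.aff 0 0 0), eadd_In (mem_LS_const hg (by linarith)) mem_LS_zero,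
        fun x => by simp [eadd, Ex.cnt], fun z => ?_⟩
      rw [eadd_eval]
      simp only [Ex.eval]
      ring
    · push Not at hn
      obtain ⟨k, rfl⟩ : ∃ k, n = k + 12 := ⟨n - 12, by omega⟩
      obtain ⟨p, q, hp, hq, hpq⟩ := round_grid 7 (c := 32 * c) (by linarith)
      set y : ℂ := 32 * c - ((p : ℂ) + q * Complex.I) / 2 ^ 7 with hy
      have ey : y = (((a - p * 2 ^ k : ℤ) : ℂ) + ((b - q * 2 ^ k : ℤ) : ℂ) * Complex.I) / 2 ^ (k + 7) := by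
        rw [hy, hc, pow_add, pow_add]
        push_cast
        field_simp
        ring
      have hy64 : ‖y‖ ≤ 1 / 64 := hpq.trans (by norm_num)
      obtain ⟨e, he, hcn, hev⟩ := ih (k + 7) (by omega) (a - p * 2 ^ k) (b - q * 2 ^ k) (by rw [← ey]; exact hy64)
      have hx1 : ‖((p : ℂ) + q * Complex.I) / 2 ^ 7‖ ≤ 1 := by
        have e1 : ((p : ℂ) + q * Complex.I) / 2 ^ 7 = 32 * c - y := by rw [hy]; ring
        rw [e1]
        exact (norm_sub_le _ _).trans (by linarith)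
      refine ⟨eadd (Ex.aff (((p : ℂ) + q * Complex.I) / 2 ^ 7) 0 0) e, eadd_In (mem_LS_const ⟨p, q, hp, hq, rfl⟩ hx1) he,
        fun x => by simp [eadd, Ex.cnt, hcn x], fun z => ?_⟩
      rw [eadd_eval, hev, ← ey]
      simp only [Ex.eval, zero_mul, add_zero]
      rw [hy]
      ring

theorem exists_const {c : ℂ} (hc : IsDy c) (h : ‖c‖ ≤ 1 / 64) : ∃ e : Ex, e.In ∧ (∀ x, e.cnt x = 0) ∧ ∀ z, e.eval z = c := by
  obtain ⟨a, b, n, rfl⟩ := hc
  exact const_expr n a b h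

/-- division by powers of two -/
theorem scale_expr (j : ℕ) : 4 ≤ j → ∀ e : Ex, e.In → ∃ e' : Ex, e'.In ∧ ((∀ x, e'.cnt x = e.cnt x) ∧
    ∀ n t, e.Pure n t → e'.Pure n t) ∧ ∀ z, e'.eval z = e.eval z / 2 ^ j := by
  induction j using Nat.strong_induction_on with
  | _ j ih =>
    intro hj e he
    by_cases hj8 : j < 8
    · obtain ⟨r, hr⟩ : ∃ r, 7 - (j - 4) = r := ⟨_, rfl⟩
      have hjr : j + r = 11 := by omega
      have e1 : (((2 ^ r : ℤ) : ℂ) + ((0 : ℤ) : ℂ) * Complex.I) / 2 ^ 7 = 16 / 2 ^ j := by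
        rw [div_eq_div_iff (pow_ne_zero _ two_ne_zero) (pow_ne_zero _ two_ne_zero)]
        push_cast
        rw [zero_mul, add_zero, ← pow_add, add_comm r j, hjr]
        norm_num
      have hle : (2 : ℤ) ^ r ≤ 2 ^ 7 := pow_le_pow_right₀ (by norm_num) (by omega)
      have hj4 : (2 : ℝ) ^ 4 ≤ 2 ^ j := pow_le_pow_right₀ (by norm_num) hj
      refine ⟨emul (Ex.aff ((((2 ^ r : ℤ) : ℂ) + ((0 : ℤ) : ℂ) * Complex.I) / 2 ^ 7) 0 0) e, emul_In (mem_LS_const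
        ⟨2 ^ r, 0, by rw [abs_of_pos (by positivity)]; exact hle, by norm_num, rfl⟩ ?_) he,
        ⟨fun x => by simp [emul, Ex.cnt], fun n t h => ⟨fun _ _ => Or.inr rfl, h⟩⟩, fun z => ?_⟩
      · rw [e1, norm_div, norm_pow, Complex.norm_ofNat, Complex.norm_ofNat, div_le_one (by positivity)]
        linarith
      · rw [emul_eval]
        simp only [Ex.eval, e1]
        field_simp
        ring
    · obtain ⟨e₁, he₁, hcn, h1⟩ := ih (j - 4) (by omega) (by omega) e he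
      have hone : ((1 : ℂ), (0 : ℂ)) ∈ LS := mem_LS_const ⟨2 ^ 7, 0, by norm_num, by norm_num, by norm_num⟩ (by simp)
      refine ⟨emul (Ex.aff 1 0 0) e₁, emul_In hone he₁, ⟨fun x => by simp [emul, Ex.cnt, hcn.1 x],
        fun n t h => ⟨fun _ _ => Or.inr rfl, hcn.2 n t h⟩⟩, fun z => ?_⟩
      rw [emul_eval, h1]
      simp only [Ex.eval]
      obtain ⟨k, rfl⟩ : ∃ k, j = k + 4 := ⟨j - 4, by omega⟩
      rw [Nat.add_sub_cancel, pow_add]
      field_simp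
      ring

end Pool.Agent.H39.KP
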