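import Pool.Agent.H39.KP.KChain

namespace Pool.Agent.H39.KP

open Function Filter Topology

variable {f g F G u v : Fn}

/-- polynomials on small dyadic boxes are expressions in copies of the variables -/
theorem small_polyS (A : RZ) : ∃ (R : ℕ) (κ : ℕ → ℕ), ∀ (S₀ : ℕ) (θ : ℕ → ℕ) (L : ℕ), ∃ δ > (0 : ℝ), ∀ b s : ℕ → ℚ,
    (∀ k, IsDy (b k : ℂ)) → (∀ k, IsDy (s k : ℂ)) → Good b s → (∀ k, (s k : ℝ) < δ) →
    ∃ e : Ex, e.In ∧ (∀ x, e.cnt x ≤ if S₀ ≤ x ∧ x < S₀ + R then 1 else 0) ∧ (∀ n t, e.Pure n t) ∧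
      ∀ z w : ℕ → ℂ, (∀ j < R, w (S₀ + j) = z (κ j) / 16 ^ θ (S₀ + j)) →
        (MvPolynomial.aeval (bx b s z) A : ℂ) = MvPolynomial.aeval (cor b) A + e.eval w / 2 ^ L := by
  induction A using MvPolynomial.induction_on with
  | C a =>
    exact ⟨0, fun _ => 0, fun S₀ θ L => ⟨1, one_pos, fun b s _ _ _ _ => ⟨Ex.aff 0 0 0, mem_LS_zero, fun x => by simp [Ex.cnt],
      fun n t _ _ => Or.inr rfl, fun z w _ => by simp [Ex.eval]⟩⟩⟩
  | add p q hp hq =>
    obtain ⟨R₁, κ₁, h1⟩ := hp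
    obtain ⟨R₂, κ₂, h2⟩ := hq
    refine ⟨R₁ + R₂, fun j => if j < R₁ then κ₁ j else κ₂ (j - R₁), fun S₀ θ L => ?_⟩
    obtain ⟨δ, hδ, h1⟩ := h1 S₀ θ (L + 5)
    obtain ⟨δ', hδ', h2⟩ := h2 (S₀ + R₁) θ (L + 5)
    refine ⟨min δ δ', lt_min hδ hδ', fun b s hb hs hg hsm => ?_⟩
    obtain ⟨e, he, hc, hP, h3⟩ := h1 b s hb hs hg fun k => (hsm k).trans_le (min_le_left _ _)
    obtain ⟨e', he', hc', hP', h4⟩ := h2 b s hb hs hg fun k => (hsm k).trans_le (min_le_right _ _)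
    refine ⟨eadd e e', eadd_In he he', fun x => ?_, fun n t => ⟨hP n t, hP' n t⟩, fun z w hw => ?_⟩
    · have h5 := hc x
      have h6 := hc' x
      simp only [eadd, Ex.cnt]
      split_ifs at * <;> omega
    · rw [map_add, map_add, h3 z w fun j hj => by
          have := hw j (by omega)
          dsimp only at this
          rwa [if_pos hj] at this, h4 z w fun j hj => by
          have := hw (R₁ + j) (by omega)
          dsimp only at this
          rwa [if_neg (by omega), Nat.add_sub_cancel_left, ← add_assoc] at this, eadd_eval, pow_add]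
      field_simp
      ring
  | mul_X p i hp =>
    obtain ⟨R₁, κ₁, h1⟩ := hp
    refine ⟨R₁ + 2, fun j => if j < R₁ then κ₁ j else i, fun S₀ θ L => ?_⟩
    obtain ⟨δ, hδ, h1⟩ := h1 S₀ θ (L + 20)
    obtain ⟨C, hC, hCb⟩ := exists_bound (RZ_polF p).mem_O
    obtain ⟨x₁, hx₁⟩ : ∃ x₁, x₁ = S₀ + R₁ := ⟨_, rfl⟩
    obtain ⟨x₂, hx₂⟩ : ∃ x₂, x₂ = S₀ + R₁ + 1 := ⟨_, rfl⟩
    refine ⟨min δ (min (1 / (16 * 16 ^ θ x₂)) (1 / (2 ^ 15 * 2 ^ L * C * 16 ^ θ x₁))), by positivity, fun b s hb hs hg hsm => ?_⟩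
    obtain ⟨e, he, hc, hP, h3⟩ := h1 b s hb hs hg fun k => (hsm k).trans_le (min_le_left _ _)
    have hs1 := (hsm i).trans_le ((min_le_right _ _).trans (min_le_left _ _))
    have hs2 := (hsm i).trans_le ((min_le_right _ _).trans (min_le_right _ _))
    obtain ⟨g1, g2, g3⟩ := hg i
    have hbi : (b i : ℝ) ≤ 1 := by exact_mod_cast (by linarith : b i ≤ 1)
    have hsr : (0 : ℝ) < (s i : ℝ) := by exact_mod_cast g1
    set P0 : ℂ := MvPolynomial.aeval (cor b) p with hP0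
    have hP0D : IsDy P0 := RZ_dy p hb
    have hP0b : ‖P0‖ ≤ C := by
      obtain ⟨x, hx⟩ := cor_eq_pt hg
      rw [hP0, ← hx]
      exact hCb x
    have h16 : ∀ k : ℕ, IsDy ((16 : ℂ) ^ k) := fun k => by
      have := IsDy.int (16 ^ k)
      push_cast at this
      exact this
    obtain ⟨e₁, he₁, hcn1, hc1⟩ := exists_const (c := 2 ^ (L + 9) * (P0 * (s i : ℂ) * 16 ^ θ x₁)) (((hP0D.mul (hs i)).mul (h16 _)).mul_pow _) (by
      rw [norm_mul, norm_mul, norm_mul, norm_pow, norm_pow, Complex.norm_ofNat, Complex.norm_ofNat, norm_rat g1.le]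
      calc (2 : ℝ) ^ (L + 9) * (‖P0‖ * (s i : ℝ) * 16 ^ θ x₁) ≤ 2 ^ (L + 9) * (C * (1 / (2 ^ 15 * 2 ^ L * C * 16 ^ θ x₁)) * 16 ^ θ x₁) := by gcongr
        _ = 1 / 64 := by rw [pow_add]; field_simp; norm_num)
    obtain ⟨e₂, he₂, hcn2, hc2⟩ := exists_const (c := (b i : ℂ) / 2 ^ 6) ((hb i).div_pow 6) (by
      rw [norm_div, norm_pow, Complex.norm_ofNat, norm_rat g2]
      norm_num
      linarith)
    obtain ⟨e₃, he₃, hcn3, hc3⟩ := exists_const (c := (s i : ℂ) * 16 ^ θ x₂ / 2 ^ 2) (((hs i).mul (h16 _)).div_pow 2) (by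
      rw [norm_div, norm_mul, norm_pow, norm_pow, Complex.norm_ofNat, Complex.norm_ofNat, norm_rat g1.le]
      calc (s i : ℝ) * 16 ^ θ x₂ / 2 ^ 2 ≤ (1 / (16 * 16 ^ θ x₂)) * 16 ^ θ x₂ / 2 ^ 2 := by gcongr
        _ = 1 / 64 := by field_simp; norm_num)
    refine ⟨eadd (emul e₁ (Ex.aff 0 1 x₁)) (emul e (eadd e₂ (emul e₃ (Ex.aff 0 1 x₂)))),
      eadd_In (emul_In he₁ mem_LS_id) (emul_In he (eadd_In he₂ (emul_In he₃ mem_LS_id))), fun x => ?_, fun n t => ?_, fun z w hw => ?_⟩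
    · have h5 := hc x
      simp only [eadd, emul, Ex.cnt, hcn1, hcn2, hcn3, zero_add, ne_eq, one_ne_zero, not_false_eq_true, and_true]
      split_ifs at * <;> omega
    · exact ⟨⟨Ex.pure_of_cnt hcn1, fun _ _ => Or.inl ⟨rfl, rfl⟩⟩, hP n t, Ex.pure_of_cnt hcn2, Ex.pure_of_cnt hcn3, fun _ _ => Or.inl ⟨rfl, rfl⟩⟩
    · have w1 : w x₁ = z i / 16 ^ θ x₁ := by
        have := hw R₁ (by omega)
        dsimp only at this
        rwa [if_neg (lt_irrefl _), ← hx₁] at this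
      have w2 : w x₂ = z i / 16 ^ θ x₂ := by
        have := hw (R₁ + 1) (by omega)
        dsimp only at this
        rwa [if_neg (by omega), ← add_assoc, ← hx₂] at this
      have h16' : ∀ k : ℕ, (16 : ℂ) ^ k ≠ 0 := fun k => pow_ne_zero _ (by norm_num)
      have k1 := h16' (θ x₁)
      have k2 := h16' (θ x₂)
      rw [map_mul, map_mul, h3 z w fun j hj => by
          have := hw j (by omega)
          dsimp only at this
          rwa [if_pos hj] at this, MvPolynomial.aeval_X, MvPolynomial.aeval_X, eadd_eval, emul_eval, emul_eval, eadd_eval, emul_eval,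
        hc1, hc2, hc3]
      simp only [Ex.eval, bx, cor, zero_add, one_mul, w1, w2]
      rw [pow_add, pow_add]
      field_simp
      ring

theorem small_polZS (hF : PolZ F) : ∃ (R : ℕ) (κ : ℕ → ℕ), ∀ (S₀ : ℕ) (θ : ℕ → ℕ) (L : ℕ), ∃ δ > (0 : ℝ), ∀ b s : ℕ → ℚ,
    (∀ k, IsDy (b k : ℂ)) → (∀ k, IsDy (s k : ℂ)) → Good b s → (∀ k, (s k : ℝ) < δ) →
    ∃ e : Ex, e.In ∧ (∀ x, e.cnt x ≤ if S₀ ≤ x ∧ x < S₀ + R then 1 else 0) ∧ (∀ n t, e.Pure n t) ∧
      ∀ z w : ℕ → ℂ, (∀ j < R, w (S₀ + j) = z (κ j) / 16 ^ θ (S₀ + j)) → F (bx b s z) = F (cor b) + e.eval w / 2 ^ L := by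
  obtain ⟨A, B, h⟩ := hF
  obtain ⟨R₁, κ₁, h1⟩ := small_polyS A
  obtain ⟨R₂, κ₂, h2⟩ := small_polyS B
  refine ⟨R₁ + R₂, fun j => if j < R₁ then κ₁ j else κ₂ (j - R₁), fun S₀ θ L => ?_⟩
  obtain ⟨δ, hδ, h1⟩ := h1 S₀ θ (L + 5)
  obtain ⟨δ', hδ', h2⟩ := h2 (S₀ + R₁) θ (L + 5)
  refine ⟨min δ δ', lt_min hδ hδ', fun b s hb hs hg hsm => ?_⟩
  obtain ⟨e, he, hc, hP, h3⟩ := h1 b s hb hs hg fun k => (hsm k).trans_le (min_le_left _ _)
  obtain ⟨e', he', hc', hP', h4⟩ := h2 b s hb hs hg fun k => (hsm k).trans_le (min_le_right _ _)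
  refine ⟨eaddI e e', eaddI_In he he', fun x => ?_, fun n t => ⟨hP n t, hP' n t⟩, fun z w hw => ?_⟩
  · have h5 := hc x
    have h6 := hc' x
    simp only [eaddI, Ex.cnt]
    split_ifs at * <;> omega
  · rw [h, h, h3 z w fun j hj => by
        have := hw j (by omega)
        dsimp only at this
        rwa [if_pos hj] at this, h4 z w fun j hj => by
        have := hw (R₁ + j) (by omega)
        dsimp only at this
        rwa [if_neg (by omega), Nat.add_sub_cancel_left, ← add_assoc] at this, eaddI_eval, pow_add]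
    field_simp
    ring

/-! ### the chains of copies -/

/-- number of copies of `k` before the step `j` -/
def kc (κ : ℕ → ℕ) : ℕ → ℕ → ℕ
  | 0, _ => 0
  | j + 1, k => (if κ j = k then 1 else 0) + kc κ j k

/-- the last copy of `k` before the step `j` -/
def cur (n : ℕ) (κ : ℕ → ℕ) : ℕ → ℕ → ℕ
  | 0, k => k
  | j + 1, k => if κ j = k then n + j else cur n κ j k

def corg (n : ℕ) (κ : ℕ → ℕ) (x : ℕ) : ℕ := if x < n then x else κ (x - n)

def cex (n : ℕ) (κ : ℕ → ℕ) (x : ℕ) : ℕ := if x < n then 0 else kc κ (x - n) (κ (x - n)) + 1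

def cpar (n : ℕ) (κ : ℕ → ℕ) (x : ℕ) : ℕ := cur n κ (x - n) (κ (x - n))

theorem cur_lt {n : ℕ} {κ : ℕ → ℕ} {k : ℕ} (hk : k < n) (j : ℕ) : cur n κ j k < n + j := by
  induction j with
  | zero => exact hk
  | succ j ih =>
    simp only [cur]
    split_ifs <;> omega

theorem corg_cur {n : ℕ} {κ : ℕ → ℕ} {k : ℕ} (hk : k < n) (j : ℕ) : corg n κ (cur n κ j k) = k := by
  induction j with
  | zero => simp [cur, corg, hk]
  | succ j ih =>
    simp only [cur]
    split_ifs with h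
    · simp [corg, h]
    · exact ih

theorem cex_cur {n : ℕ} {κ : ℕ → ℕ} {k : ℕ} (hk : k < n) (j : ℕ) : cex n κ (cur n κ j k) = kc κ j k := by
  induction j with
  | zero => simp [cur, cex, kc, hk]
  | succ j ih =>
    simp only [cur, kc]
    split_ifs with h
    · simp [cex, h, add_comm]
    · simpa using ih

theorem kc_mono (κ : ℕ → ℕ) {j j' : ℕ} (h : j ≤ j') (k : ℕ) : kc κ j k ≤ kc κ j' k := by
  induction j', h using Nat.le_induction with
  | base => exact le_rfl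
  | succ m _ ih => exact ih.trans (by simp only [kc]; omega)

theorem chain_h0 (n : ℕ) (κ : ℕ → ℕ) : ∀ x < n, corg n κ x = x ∧ cex n κ x = 0 := fun x hx => by simp [corg, cex, hx]

theorem chain_h1 {n R : ℕ} {κ : ℕ → ℕ} (hκ : ∀ j < R, κ j < n) : ∀ x, n ≤ x → x < n + R →
    cpar n κ x < x ∧ corg n κ x = corg n κ (cpar n κ x) ∧ cex n κ x = cex n κ (cpar n κ x) + 1 := by
  intro x h1 h2
  have hk := hκ (x - n) (by omega)
  refine ⟨?_, ?_, ?_⟩
  · have := cur_lt (κ := κ) hk (x - n)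
    unfold cpar
    omega
  · unfold cpar
    rw [corg_cur hk]
    simp [corg, not_lt.2 h1]
  · unfold cpar
    rw [cex_cur hk]
    simp [cex, not_lt.2 h1]

theorem chain_child {n R : ℕ} {κ : ℕ → ℕ} (hκ : ∀ j < R, κ j < n) (x : ℕ) :
    ((Finset.Ico n (n + R)).filter fun y => cpar n κ y = x).card ≤ 1 := by
  have key : ∀ y y', n ≤ y → y < y' → y' < n + R → cpar n κ y ≠ cpar n κ y' := by
    intro y y' h1 h2 h3 he
    have hk := hκ (y - n) (by omega)
    have hk' := hκ (y' - n) (by omega)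
    unfold cpar at he
    have e1 := congrArg (corg n κ) he
    rw [corg_cur hk, corg_cur hk'] at e1
    have e2 := congrArg (cex n κ) he
    rw [cex_cur hk, cex_cur hk', ← e1] at e2
    have e3 := kc_mono κ (j := y - n + 1) (j' := y' - n) (by omega) (κ (y - n))
    simp only [kc, if_true] at e3
    omega
  rw [Finset.card_le_one]
  intro a ha b hb
  simp only [Finset.mem_filter, Finset.mem_Ico] at ha hb
  by_contra hne
  rcases lt_or_gt_of_ne hne with h | h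
  · exact key a b ha.1.1 h hb.1.2 (ha.2.trans hb.2.symm)
  · exact key b a hb.1.1 h ha.1.2 (hb.2.trans ha.2.symm)

end Pool.Agent.H39.KP
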