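import Pool.Agent.H39.KP.KFin

namespace Pool.Agent.H39.KP

open Function Filter Topology

variable {f g F G u v : Fn}

theorem Wt_update {org ex : ℕ → ℕ} {T t : ℕ} (ht : T ≤ t) (h : ∀ x < T, org x < T) (z : ℕ → ℂ) (c : ℂ) :
    Wt org ex T (update z t c) = update (Wt org ex T z) t c := by
  funext x
  by_cases hx : x = t
  · subst hx
    simp [Wt, not_lt.2 ht]
  · rw [update_of_ne hx]
    simp only [Wt]
    split_ifs with h'
    · rw [update_of_ne (by have := h x h'; omega)]
    · rw [update_of_ne hx]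

/-- quotients of expressions in the copies -/
theorem repB_quot {n R : ℕ} {κ : ℕ → ℕ} (hκ : ∀ j < R, κ j < n) {c : ℂ} (hcG : c ∈ Grid 14) (hc : 1 / 4 < ‖c‖)
    {y e : Ex} (hy : y.In) (he : e.In) (hyP : y.Pure n (n + R)) (heP : e.Pure n (n + R))
    (hcn : ∀ x, y.cnt x + e.cnt x ≤ if n ≤ x ∧ x < n + R then 1 else 0) :
    RepB (fun z => (c + (1 / 4) * y.eval (Wt (corg n κ) (cex n κ) (n + R) z))⁻¹) ∧
    RepB (fun z => e.eval (Wt (corg n κ) (cex n κ) (n + R) z) * (c + (1 / 4) * y.eval (Wt (corg n κ) (cex n κ) (n + R) z))⁻¹) := by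
  obtain ⟨T, hT⟩ : ∃ T, T = n + R := ⟨_, rfl⟩
  rw [← hT] at hyP heP hcn ⊢
  have h0 := chain_h0 n κ
  have h1 := chain_h1 hκ
  have h2 := chain_child hκ
  rw [← hT] at h1 h2
  have horg : ∀ x < T, corg n κ x < T := by
    intro x hx
    by_cases hxn : x < n
    · rw [(h0 x hxn).1]; exact hx
    · have := hκ (x - n) (by omega)
      simp only [corg, hxn, if_false]
      omega
  have hWT : ∀ z, Wt (corg n κ) (cex n κ) T z T = z T := fun z => by simp [Wt]
  set ρ : Fac := ⟨![c, 1 / 4, 0, 0, 0], ![y, Ex.aff 0 0 0, Ex.aff 0 0 0]⟩ with hρ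
  have hρOK : ρ.OK := by
    refine ⟨Or.inl (Or.inl (Or.inr ⟨c, ⟨hcG, hc⟩, rfl⟩)), fun j => ?_⟩
    fin_cases j
    · exact hy
    · exact mem_LS_zero
    · exact mem_LS_zero
  have hρP : ∀ j, (ρ.p j).Pure n T := by
    intro j
    fin_cases j
    · exact hyP
    · exact fun _ _ => Or.inr rfl
    · exact fun _ _ => Or.inr rfl
  have hρv : ∀ z, ρ.val z = c + (1 / 4) * y.eval z := by
    intro z
    simp only [hρ, Fac.val, kv, Matrix.cons_val_zero, Matrix.cons_val_one, Matrix.cons_val]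
    ring
  have hρc : ∀ x, ρ.cnt x = y.cnt x := by
    intro x
    simp [hρ, Fac.cnt, Fin.sum_univ_three, Ex.cnt]
  constructor
  · have h := repB_chain (cpar n κ) (corg n κ) (cex n κ) h0 h1 T (by omega) le_rfl [ρ] (fun φ hφ => by
      rw [List.mem_singleton] at hφ; subst hφ; exact hρOK) (fun φ hφ => by
      rw [List.mem_singleton] at hφ; subst hφ; exact hρP) (fun x => by
        have k1 := hcn x
        have k2 := h2 x
        have k3 : stc x [ρ] = y.cnt x := by rw [stc_cons, hρc]; simp [stc]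
        rw [k3]
        split_ifs at * <;> omega)
    convert h using 1
    funext z
    rw [sv_cons, hρv]
    simp [sv]
  · set F : Fn := fun z => (c + (1 / 4) * y.eval (Wt (corg n κ) (cex n κ) T z))⁻¹ with hF
    set v : Fn := fun z => e.eval (Wt (corg n κ) (cex n κ) T z) with hv
    have hcT := hcn T
    rw [if_neg (by omega)] at hcT
    have fy : Fresh T y.eval := Ex.fresh_of_cnt (by omega)
    have fe : Fresh T e.eval := Ex.fresh_of_cnt (by omega)
    have fF : Fresh T F := fun z t => by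
      simp only [hF]
      rw [Wt_update le_rfl horg, fy]
    have fv : Fresh T v := fun z t => by
      simp only [hv]
      rw [Wt_update le_rfl horg, fe]
    have hFR : RatG F := by
      have h := (RatG.inv hρOK.polF hρOK.ne).comp (Wt_polF (corg n κ) (cex n κ) T) fun z hz => Wt_mem_D hz
      simpa only [hρv] using h
    have hvP : PolF v := he.OK.polF.comp (Wt_polF (corg n κ) (cex n κ) T)
    have hvb : ∀ z ∈ D, ‖v z‖ ≤ 1 := fun z hz => he.OK.norm_le _ (Wt_mem_D hz)
    have hnum := numerator_formula hFR hvP fF fv hvb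
    have h4 : PolF fun _ : ℕ → ℂ => (1 / 4 : ℂ) := by simpa using PolF.rat (1 / 4)
    have hO : (fun z => (1 / 4 : ℂ) * (v z * F z)) ∈ O := (h4.ratG.mul (hvP.ratG.mul hFR)).mem_O
    have hOf : Fresh T (fun z => (1 / 4 : ℂ) * (v z * F z)) := fun z t => by
      dsimp only; rw [fF, fv]
    have hrep : RepB (fun z => (1 / 4 : ℂ) * (v z * F z)) := by
      refine RepB.of_cFn hO hOf (RepB.of_eqv hnum (RepB.sum _ _ fun m hm => RepB.const (IsGauss.W m) ?_))
      rw [Finset.mem_range] at hm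
      set τ : Fac := ⟨![V m, 0, 0, W m, 0], ![Ex.aff 0 0 0, Ex.aff 0 0 0, Ex.aff 0 1 T]⟩ with hτ
      set κ' : Fac := ⟨![1, 0, -(1 / 4) * V m, 0, -(1 / 4) * W m], ![Ex.aff 0 1 T, e, Ex.aff 0 0 0]⟩ with hκ'
      have hτOK : τ.OK := by
        refine ⟨Or.inr ⟨m, hm, rfl⟩, fun j => ?_⟩
        fin_cases j
        · exact mem_LS_zero
        · exact mem_LS_zero
        · exact mem_LS_id
      have hκOK : κ'.OK := by
        refine ⟨Or.inl (Or.inr ⟨m, hm, rfl⟩), fun j => ?_⟩
        fin_cases j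
        · exact mem_LS_id
        · exact he
        · exact mem_LS_zero
      have hτP : ∀ j, (τ.p j).Pure n T := by
        intro j
        fin_cases j
        · exact fun _ _ => Or.inr rfl
        · exact fun _ _ => Or.inr rfl
        · exact fun _ _ => Or.inl ⟨rfl, rfl⟩
      have hκP : ∀ j, (κ'.p j).Pure n T := by
        intro j
        fin_cases j
        · exact fun _ _ => Or.inl ⟨rfl, rfl⟩
        · exact heP
        · exact fun _ _ => Or.inr rfl
      have h := repB_chain (cpar n κ) (corg n κ) (cex n κ) h0 h1 T (by omega) le_rfl [ρ, τ, τ, κ'] (fun φ hφ => by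
        simp only [List.mem_cons, List.not_mem_nil, or_false] at hφ
        rcases hφ with rfl | rfl | rfl | rfl
        · exact hρOK
        · exact hτOK
        · exact hτOK
        · exact hκOK) (fun φ hφ => by
        simp only [List.mem_cons, List.not_mem_nil, or_false] at hφ
        rcases hφ with rfl | rfl | rfl | rfl
        · exact hρP
        · exact hτP
        · exact hτP
        · exact hκP) (fun x => by
          have k1 := hcn x
          have k2 := h2 x
          have k3 : stc x [ρ, τ, τ, κ'] = y.cnt x + ((if T = x then 1 else 0) + ((if T = x then 1 else 0) + ((if T = x then 1 else 0) + e.cnt x))) := by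
            rw [stc_cons, stc_cons, stc_cons, stc_cons, hρc]
            simp [stc, hτ, hκ', Fac.cnt, Fin.sum_univ_three, Ex.cnt]
          have k4 : T ≤ x → ((Finset.Ico n T).filter fun y => cpar n κ y = x).card = 0 := by
            intro hx
            rw [Finset.card_eq_zero, Finset.filter_eq_empty_iff]
            intro y hy hyx
            rw [Finset.mem_Ico] at hy
            have := (h1 y hy.1 hy.2).1
            omega
          rw [k3]
          by_cases hx : T ≤ x
          · rw [k4 hx]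
            split_ifs at * <;> omega
          · split_ifs at * <;> omega)
      convert h using 1
      funext z
      have v1 : τ.val (Wt (corg n κ) (cex n κ) T z) = ζ m (z T) := by
        simp only [hτ, Fac.val, kv, Matrix.cons_val_zero, Matrix.cons_val_one, Matrix.cons_val, Ex.eval, ζ, hWT]
        ring
      have v2 : κ'.val (Wt (corg n κ) (cex n κ) T z) = 1 - (1 / 4 : ℂ) * (ζ m (z T) * v z) := by
        simp only [hκ', Fac.val, kv, Matrix.cons_val_zero, Matrix.cons_val_one, Matrix.cons_val, Ex.eval, ζ, hWT, hv]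
        ring
      rw [sv_cons, sv_cons, sv_cons, sv_cons, hρv, v1, v2]
      simp [sv, hF]
    have h4 := hrep.const (c := 4) (by simpa using IsGauss.rat 4)
    convert h4 using 1
    funext z
    ring

/-- all dyadic boxes with the sides `s` -/
def AllRepB (f : Fn) (s : ℕ → ℚ) : Prop := ∀ b, (∀ k, IsDy (b k : ℂ)) → Good b s → RepB fun z => f (bx b s z)

theorem AllRepB.halve (hf : f ∈ O) {s : ℕ → ℚ} (hs : ∀ k, IsDy (s k : ℂ)) (i : ℕ) (h : AllRepB f (update s i (s i / 2))) : AllRepB f s := by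
  intro b hbd hb
  have hF := O_bx hf hb
  have e0 : half0 i (fun z => f (bx b s z)) = fun z => ((1 / 2 : ℚ) : ℂ) * f (bx b (update s i (s i / 2)) z) := by
    funext z
    simp only [half0, bx_half0]
    push_cast; ring
  have e1 : half1 i (fun z => f (bx b s z)) = fun z => ((1 / 2 : ℚ) : ℂ) * f (bx (update b i (b i + s i / 2)) (update s i (s i / 2)) z) := by
    funext z
    simp only [half1, bx_half1]
    push_cast; ring
  have hg0 : Good b (update s i (s i / 2)) := by
    intro k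
    obtain ⟨h1, h2, h3⟩ := hb k
    by_cases hk : k = i
    · subst hk; rw [update_self]; exact ⟨by linarith, h2, by linarith⟩
    · rw [update_of_ne hk]; exact ⟨h1, h2, h3⟩
  have hg1 : Good (update b i (b i + s i / 2)) (update s i (s i / 2)) := by
    intro k
    obtain ⟨h1, h2, h3⟩ := hb k
    by_cases hk : k = i
    · subst hk; rw [update_self, update_self]; exact ⟨by linarith, by linarith, by linarith⟩
    · rw [update_of_ne hk, update_of_ne hk]; exact ⟨h1, h2, h3⟩
  have hd1 : ∀ k, IsDy ((update b i (b i + s i / 2) k : ℚ) : ℂ) := by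
    intro k
    by_cases hk : k = i
    · subst hk
      rw [update_self]
      push_cast
      have := (hs k).div_pow 1
      rw [pow_one] at this
      exact (hbd k).add this
    · rw [update_of_ne hk]; exact hbd k
  have hsub := subdivide hF i
  rw [e0, e1] at hsub
  exact RepB.of_eqv hsub (((h _ hbd hg0).const (IsGauss.rat _)).add ((h _ hd1 hg1).const (IsGauss.rat _)))

theorem AllRepB.step (hf : f ∈ O) {n e : ℕ} (h : AllRepB f (sd n (e + 1))) : AllRepB f (sd n e) := by
  have key : ∀ m ≤ n, AllRepB f (fun k => if k < n - m then (1 / 2) ^ (e + 1) else if k < n then (1 / 2) ^ e else 1) := by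
    intro m
    induction m with
    | zero =>
      intro _
      have : (fun k => if k < n - 0 then ((1 : ℚ) / 2) ^ (e + 1) else if k < n then (1 / 2) ^ e else 1) = sd n (e + 1) := by
        funext k
        simp only [sd, Nat.sub_zero]
        split_ifs <;> rfl
      rw [this]; exact h
    | succ m ih =>
      intro hm
      have h1 := ih (by omega)
      apply AllRepB.halve hf (fun k => by
        split_ifs
        · exact dy_half_pow _
        · exact dy_half_pow _
        · simpa using IsDy.int 1) (n - (m + 1))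
      convert h1 using 1
      funext k
      by_cases hk : k = n - (m + 1)
      · subst hk
        rw [update_self, if_neg (by omega), if_pos (by omega), if_pos (by omega)]
        ring
      · rw [update_of_ne hk]
        by_cases h2 : k < n - (m + 1)
        · rw [if_pos h2, if_pos (by omega)]
        · rw [if_neg h2, if_neg (show ¬ k < n - m by omega)]
  have h2 := key n le_rfl
  convert h2 using 1
  funext k
  simp [sd]

theorem AllRepB.repB (hf : f ∈ O) {n e : ℕ} (h : AllRepB f (sd n e)) : RepB f := by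
  have h0 : AllRepB f (sd n 0) := by
    induction e with
    | zero => exact h
    | succ e ih => exact ih (h.step hf)
  have h1 := h0 (fun _ => 0) (fun k => by simpa using IsDy.int 0) fun k => by
    simp only [sd]
    split_ifs <;> norm_num
  refine RepB.of_eq (fun x => ?_) h1
  congr 1
  funext k
  simp only [bx, sd]
  split_ifs <;> simp

/-- **rational functions, with finitely many kernels and bounded occurrences** -/
theorem repB_ratG (hF : RatG F) : RepB F := by
  have hFO := hF.mem_O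
  obtain ⟨P0, hP0, Q0, hQ0, h00, hF0⟩ := hF
  obtain ⟨N1, hN1, hPZ⟩ := hP0.clear
  obtain ⟨N2, hN2, hQZ⟩ := hQ0.clear
  have hN1c : (N1 : ℂ) ≠ 0 := by exact_mod_cast hN1.ne'
  have hN2c : (N2 : ℂ) ≠ 0 := by exact_mod_cast hN2.ne'
  obtain ⟨P, hP⟩ : ∃ P : Fn, P = fun z => (N2 : ℂ) * ((N1 : ℂ) * P0 z) := ⟨_, rfl⟩
  obtain ⟨Q, hQ⟩ : ∃ Q : Fn, Q = fun z => (N1 : ℂ) * ((N2 : ℂ) * Q0 z) := ⟨_, rfl⟩
  have hPz : PolZ P := by rw [hP]; exact hPZ.nat_mul N2
  have hQz : PolZ Q := by rw [hQ]; exact hQZ.nat_mul N1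
  have h0 : ∀ z ∈ D, Q z ≠ 0 := fun z hz => by
    rw [hQ]; exact mul_ne_zero hN1c (mul_ne_zero hN2c (h00 z hz))
  have hFe : ∀ z, F z = P z * (Q z)⁻¹ := by
    intro z
    rw [hF0, hP, hQ]
    dsimp only
    rw [← div_eq_mul_inv, mul_left_comm (N1 : ℂ), mul_div_mul_left _ _ hN2c, mul_div_mul_left _ _ hN1c]
  obtain ⟨n1, hn1⟩ := hPz.polF.dep
  obtain ⟨n2, hn2⟩ := hQz.polF.dep
  obtain ⟨R₁, κ₁, h1⟩ := small_polZS hPz
  obtain ⟨R₂, κ₂, h2⟩ := small_polZS hQz
  set κ : ℕ → ℕ := fun j => if j < R₁ then κ₁ j else κ₂ (j - R₁) with hκdef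
  set n := n1 + n2 + (∑ j ∈ Finset.range (R₁ + R₂), κ j + 1) with hn
  have hκ : ∀ j < R₁ + R₂, κ j < n := by
    intro j hj
    have := Finset.single_le_sum (f := κ) (fun _ _ => Nat.zero_le _) (Finset.mem_range.2 hj)
    omega
  have hPn : Dep n P := hn1.mono (by omega)
  have hQn : Dep n Q := hn2.mono (by omega)
  -- a lower bound for the denominator
  obtain ⟨C, hC, hb⟩ := exists_bound (O_inv hQz.polF.mem_O h0)
  obtain ⟨K, hK⟩ := exists_pow_lt_of_lt_one (show (0 : ℝ) < 1 / C by positivity) (show (1 / 2 : ℝ) < 1 by norm_num)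
  have hlow : ∀ b s, Good b s → (1 / 2 : ℝ) ^ K < ‖Q (cor b)‖ := by
    intro b s hg
    obtain ⟨x, hx⟩ := cor_eq_pt hg
    have h1 := hb x
    rw [hx, norm_inv] at h1
    have h2 : 0 < ‖Q (cor b)‖ := norm_pos_iff.2 (by rw [← hx]; exact h0 _ (pt_mem_D x))
    have h3 : 1 / C ≤ ‖Q (cor b)‖ := by
      rw [div_le_iff₀ hC]
      have := mul_le_mul_of_nonneg_left h1 h2.le
      rw [mul_inv_cancel₀ h2.ne'] at this
      exact this
    linarith
  set L := K + 11 with hL
  obtain ⟨δ, hδ, h1⟩ := h1 n (cex n κ) 0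
  obtain ⟨δ', hδ', h2⟩ := h2 (n + R₁) (cex n κ) L
  obtain ⟨N, hN⟩ := exists_pow_lt_of_lt_one (lt_min hδ hδ') (show (1 / 2 : ℝ) < 1 by norm_num)
  refine AllRepB.repB (n := n) (e := N) hFO fun b hbd hg => ?_
  -- the other variables do not matter
  set b' : ℕ → ℚ := fun k => if k < n then b k else 0 with hb'
  set s' : ℕ → ℚ := fun k => (1 / 2) ^ N with hs'
  have hg' : Good b' s' := by
    intro k
    by_cases hk : k < n
    · have := hg k
      simp only [sd, hk, if_true] at this
      simpa only [hb', hs', hk, if_true] using this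
    · simp only [hb', hs', hk, if_false]
      exact ⟨by positivity, le_rfl, by rw [zero_add]; exact pow_le_one₀ (by norm_num) (by norm_num)⟩
  have hb'd : ∀ k, IsDy (b' k : ℂ) := by
    intro k
    simp only [hb']
    split_ifs
    · exact hbd k
    · simpa using IsDy.int 0
  have hs'd : ∀ k, IsDy (s' k : ℂ) := fun k => dy_half_pow N
  have hsmall : ∀ k, (s' k : ℝ) < min δ δ' := by
    intro k
    simp only [hs']
    push_cast
    exact hN
  obtain ⟨e, he, hec, heP, h3⟩ := h1 b' s' hb'd hs'd hg' fun k => (hsmall k).trans_le (min_le_left _ _)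
  obtain ⟨e', he', hec', heP', h4⟩ := h2 b' s' hb'd hs'd hg' fun k => (hsmall k).trans_le (min_le_right _ _)
  obtain ⟨Wz, hWz⟩ : ∃ Wz : (ℕ → ℂ) → ℕ → ℂ, Wz = Wt (corg n κ) (cex n κ) (n + (R₁ + R₂)) := ⟨_, rfl⟩
  have hW : ∀ z, ∀ j < R₁ + R₂, Wz z (n + j) = z (κ j) / 16 ^ cex n κ (n + j) := by
    intro z j hj
    rw [hWz]
    simp [Wt, hj, corg]
  have h3' : ∀ z, P (bx b' s' z) = P (cor b') + e.eval (Wz z) := by
    intro z
    rw [h3 z (Wz z) fun j hj => by
      have := hW z j (by omega)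
      simp only [hκdef] at this
      rw [if_pos hj] at this
      exact this]
    rw [pow_zero, div_one]
  have h4' : ∀ z, Q (bx b' s' z) = Q (cor b') + e'.eval (Wz z) / 2 ^ L := by
    intro z
    rw [h4 z (Wz z) fun j hj => by
      have := hW z (R₁ + j) (by omega)
      have e5 : κ (R₁ + j) = κ₂ j := by
        simp only [hκdef]
        rw [if_neg (by omega), Nat.add_sub_cancel_left]
      rw [e5, ← add_assoc] at this
      exact this]
  have hbx : ∀ z, ∀ k < n, bx b (sd n N) z k = bx b' s' z k := by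
    intro z k hk
    simp [bx, sd, hb', hs', hk]
  -- normalisation of the denominator
  set c0 := Q (cor b') with hc0
  have hc0D : IsDy c0 := hQz.dy hb'd
  have hc0l := hlow b' s' hg'
  rw [← hc0] at hc0l
  have hc0p : 0 < ‖c0‖ := lt_trans (by positivity) hc0l
  obtain ⟨k, hk1, hk2⟩ := exists_mem_Ico_zpow hc0p (show (1 : ℝ) < 2 by norm_num)
  have hkK : -(K : ℤ) < k + 1 := by
    have h5 : (2 : ℝ) ^ (-(K : ℤ)) < 2 ^ (k + 1) := by
      rw [zpow_neg, zpow_natCast]
      have : ((2 : ℝ) ^ K)⁻¹ = (1 / 2) ^ K := by rw [one_div, inv_pow]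
      rw [this]
      exact hc0l.trans hk2
    exact (zpow_lt_zpow_iff_right₀ (by norm_num)).1 h5
  obtain ⟨J, hJ⟩ : ∃ J : ℕ, (J : ℤ) = L + (k + 1) - 7 := ⟨(L + (k + 1) - 7).toNat, by
    rw [Int.toNat_of_nonneg]; omega⟩
  have hJ4 : 4 ≤ J := by omega
  set c' := c0 / 2 ^ (k + 1) with hc'
  have h2z : (2 : ℂ) ^ (k + 1) ≠ 0 := zpow_ne_zero _ two_ne_zero
  have hc'D : IsDy c' := hc0D.div_zpow _
  have hc'n : ‖c'‖ = ‖c0‖ / 2 ^ (k + 1) := by rw [hc', norm_div, norm_zpow, Complex.norm_ofNat]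
  have hzp : (0 : ℝ) < 2 ^ (k + 1) := by positivity
  have hc'1 : ‖c'‖ ≤ 1 := by rw [hc'n, div_le_one hzp]; exact hk2.le
  have hc'2 : 1 / 2 ≤ ‖c'‖ := by
    rw [hc'n, le_div_iff₀ hzp, zpow_add_one₀ (by norm_num)]
    linarith
  obtain ⟨p, q, hp, hq, hpq⟩ := round_grid 14 hc'1
  set c := ((p : ℂ) + q * Complex.I) / 2 ^ 14 with hc
  have hcD : IsDy c := ⟨p, q, 14, rfl⟩
  have hcG : c ∈ Grid 14 := ⟨p, q, hp, hq, rfl⟩
  have hcn : 1 / 4 < ‖c‖ := by
    have h5 : ‖c'‖ - ‖c' - c‖ ≤ ‖c‖ := by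
      have h6 := norm_sub_norm_le c' (c' - c)
      rw [sub_sub_cancel] at h6
      exact h6
    have h6 : (2 : ℝ) / 2 ^ 14 < 1 / 4 := by norm_num
    linarith
  obtain ⟨e₁, he₁, hec1, hev1⟩ := exists_const (c := 2 ^ 7 * (c' - c)) ((hc'D.sub hcD).mul_pow 7) (by
    rw [norm_mul, norm_pow, Complex.norm_ofNat]
    calc (2 : ℝ) ^ 7 * ‖c' - c‖ ≤ 2 ^ 7 * (2 / 2 ^ 14) := by gcongr
      _ = 1 / 64 := by norm_num)
  obtain ⟨e₂, he₂, hec2, hev2⟩ := scale_expr J hJ4 e' he'
  obtain ⟨r1, r2⟩ := repB_quot hκ hcG hcn (eadd_In he₁ he₂) he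
    ⟨Ex.pure_of_cnt hec1, hec2.2 _ _ (heP' _ _)⟩ (heP _ _) (fun x => by
      have k1 := hec x
      have k2 := hec' x
      simp only [eadd, Ex.cnt, hec1, hec2.1, zero_add]
      split_ifs at * <;> omega)
  rw [← hWz] at r1 r2
  have hQe : ∀ z, (Q (bx b (sd n N) z))⁻¹ = (2 ^ (k + 1))⁻¹ * (c + (1 / 4) * (eadd e₁ e₂).eval (Wz z))⁻¹ := by
    intro z
    rw [← mul_inv]
    congr 1
    rw [hQn _ _ (hbx z), h4', eadd_eval, hev1, hev2]
    have e5 : (2 : ℂ) ^ L * 2 ^ (k + 1) = 2 ^ J * 2 ^ 7 := by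
      have h7 : (2 : ℂ) ^ ((L : ℤ) + (k + 1)) = 2 ^ ((J : ℤ) + 7) := by congr 1; omega
      rw [zpow_add₀ two_ne_zero (L : ℤ) (k + 1), zpow_add₀ two_ne_zero (J : ℤ) 7, zpow_natCast, zpow_natCast] at h7
      rw [h7]
      norm_num
    have e6 : (2 : ℂ) ^ (k + 1) * c' = c0 := by rw [hc']; field_simp
    have hL0 : (2 : ℂ) ^ L ≠ 0 := pow_ne_zero _ two_ne_zero
    have hJ0 : (2 : ℂ) ^ J ≠ 0 := pow_ne_zero _ two_ne_zero
    have e7 : e'.eval (Wz z) / 2 ^ L = 2 ^ (k + 1) * (e'.eval (Wz z) / (2 ^ J * 2 ^ 7)) := by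
      rw [← e5]; field_simp
    rw [e7, ← e6]
    ring
  have hPG : IsGauss (P (cor b')) := hPz.polF.gauss b'
  have h2G : IsGauss ((2 ^ (k + 1) : ℂ)⁻¹) := by
    refine ⟨((2 : ℚ) ^ (k + 1))⁻¹, 0, ?_⟩
    push_cast
    ring
  have r3 := ((RepB.const hPG r1).add r2).const h2G
  convert r3 using 1
  funext z
  rw [hFe, hQe, hPn _ _ (hbx z), h3']
  ring

/-- **all formal periods** -/
theorem exists_NFB (hf : f ∈ O) : RepB f := by
  obtain ⟨m, r, hr, h⟩ := level1 hf
  obtain ⟨m', g, hg, h'⟩ := repB_ratG hr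
  refine ⟨m' + m, g, hg, ?_⟩
  have e : ∀ k : ℕ, KP.piMul k (KP.piMul m f) = KP.piMul (k + m) f := by
    intro k
    induction k with
    | zero => rw [zero_add]; rfl
    | succ k ih => rw [piMul_succ, ih, show k + 1 + m = (k + m) + 1 by omega]; rfl
  have h2 := h.piMul m'
  rw [e] at h2
  exact h2.trans h'

/-- **the conjecture for sums of products of kernels** -/
theorem conj_iff_NFB : Conj ↔ ∀ u, NFB SS u → ev u = 0 → Zero u := by
  constructor
  · intro h u hu h0
    exact h u (hu.nfs.mem_O fun a ha => SS_good ha) h0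
  · intro h f hf h0
    obtain ⟨m, u, hu, he⟩ := exists_NFB hf
    have h1 : ev u = 0 := by
      rw [← he.ev_eq (O_piMul hf m).1 (hu.nfs.mem_O fun a ha => SS_good ha).1, ev_piMul hf, h0, mul_zero]
    exact zero_of_eqv he (h u hu h1)

end Pool.Agent.H39.KP
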