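import Pool.Agent.H39.KP.KRat

namespace Pool.Agent.H39.KP

open Function Filter Topology

variable {f g F G u v : Fn}

/-- the kernel at the position `q` involves the variable `z_x` -/
def Involves (q : (Fin 5 → ℂ) × (Fin 3 → ℕ)) (x : ℕ) : Prop :=
  ∃ (z : ℕ → ℂ) (t : ℂ), (kv q.1 fun j => update z x t (q.2 j)) ≠ kv q.1 fun j => z (q.2 j)

open Classical in
/-- products of reciprocals of kernels, every variable in at most three of them -/
def MonoB (S : Set (Fin 5 → ℂ)) (u : Fn) : Prop := ∃ l : List ((Fin 5 → ℂ) × (Fin 3 → ℕ)), (∀ q ∈ l, q.1 ∈ S) ∧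
  (∀ x, l.countP (fun q => Involves q x) ≤ 3) ∧ ∀ z, u z = (l.map fun q => (kv q.1 fun j => z (q.2 j))⁻¹).prod

/-- linear combinations over `ℚ(i)` -/
def NFB (S : Set (Fin 5 → ℂ)) (u : Fn) : Prop := ∃ l : List (ℂ × Fn), (∀ p ∈ l, IsGauss p.1 ∧ MonoB S p.2) ∧
  ∀ z, u z = (l.map fun p => p.1 * p.2 z).sum

theorem MonoB.monoS {S : Set (Fin 5 → ℂ)} (h : MonoB S u) : MonoS S u := by
  obtain ⟨l, h1, -, h3⟩ := h
  exact ⟨l, h1, h3⟩

theorem NFB.nfs {S : Set (Fin 5 → ℂ)} (h : NFB S u) : NFS S u := by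
  obtain ⟨l, h1, h3⟩ := h
  exact ⟨l, fun p hp => ⟨(h1 p hp).1, (h1 p hp).2.monoS⟩, h3⟩

theorem MonoB.one {S : Set (Fin 5 → ℂ)} : MonoB S fun _ => 1 := ⟨[], by simp, by simp, by simp⟩

theorem NFB.mono {S : Set (Fin 5 → ℂ)} (h : MonoB S u) : NFB S u := ⟨[(1, u)], by simpa using ⟨IsGauss.one, h⟩, by simp⟩

theorem NFB.add {S : Set (Fin 5 → ℂ)} (hu : NFB S u) (hv : NFB S v) : NFB S fun z => u z + v z := by
  obtain ⟨l, h1, h2⟩ := hu
  obtain ⟨l', h1', h2'⟩ := hv
  refine ⟨l ++ l', fun Q hQ => ?_, fun z => ?_⟩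
  · rcases List.mem_append.1 hQ with h | h
    · exact h1 Q h
    · exact h1' Q h
  · dsimp only; rw [h2, h2', List.map_append, List.sum_append]

theorem NFB.const {S : Set (Fin 5 → ℂ)} {c : ℂ} (hc : IsGauss c) (hu : NFB S u) : NFB S fun z => c * u z := by
  obtain ⟨l, h1, h2⟩ := hu
  refine ⟨l.map fun p => (c * p.1, p.2), fun p hp => ?_, fun z => ?_⟩
  · obtain ⟨q, hq, rfl⟩ := List.mem_map.1 hp
    exact ⟨hc.mul (h1 q hq).1, (h1 q hq).2⟩
  · dsimp only; rw [h2, List.map_map, ← List.sum_map_mul_left]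
    congr 1
    apply List.map_congr_left
    intro p _
    simp only [Function.comp_apply]
    ring

open Classical in
/-- two kernels in the first variable and a shift of the others -/
theorem MonoB.shift_mul {S : Set (Fin 5 → ℂ)} (hu : MonoB S u) {a b : Fin 5 → ℂ} (ha : a ∈ S) (hb : b ∈ S) :
    MonoB S fun z => (kv a fun _ => z 0)⁻¹ * ((kv b fun _ => z 0)⁻¹ * u fun k => z (k + 1)) := by
  obtain ⟨l, h1, h2, h3⟩ := hu
  refine ⟨(a, fun _ => 0) :: (b, fun _ => 0) :: l.map fun q => (q.1, fun j => q.2 j + 1), fun q hq => ?_, fun x => ?_, fun z => ?_⟩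
  · rcases List.mem_cons.1 hq with rfl | hq
    · exact ha
    · rcases List.mem_cons.1 hq with rfl | hq
      · exact hb
      · obtain ⟨p, hp, rfl⟩ := List.mem_map.1 hq
        exact h1 p hp
  · rw [List.countP_cons, List.countP_cons, List.countP_map]
    cases x with
    | zero =>
      have e : List.countP ((fun q => decide (Involves q 0)) ∘ fun q : (Fin 5 → ℂ) × (Fin 3 → ℕ) => (q.1, fun j => q.2 j + 1)) l = 0 := by
        rw [List.countP_eq_zero]
        intro q _
        simp only [Function.comp_apply, decide_eq_true_eq]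
        rintro ⟨z, t, h⟩
        apply h
        congr 1
      rw [e]
      split_ifs <;> norm_num
    | succ y =>
      have e1 : ∀ c : Fin 5 → ℂ, ¬ Involves (c, fun _ => 0) (y + 1) := by
        rintro c ⟨z, t, h⟩
        apply h
        congr 1
      have e2 : List.countP ((fun q => decide (Involves q (y + 1))) ∘ fun q : (Fin 5 → ℂ) × (Fin 3 → ℕ) => (q.1, fun j => q.2 j + 1)) l
          ≤ List.countP (fun q => decide (Involves q y)) l := by
        apply List.countP_mono_left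
        intro q _
        simp only [Function.comp_apply, decide_eq_true_eq]
        rintro ⟨z, t, h⟩
        refine ⟨fun k => z (k + 1), t, fun h' => h ?_⟩
        rw [← update_shift] at h'
        exact h'
      simp only [e1, decide_false, Bool.false_eq_true, if_false, add_zero]
      exact e2.trans (h2 y)
  · dsimp only
    rw [List.map_cons, List.map_cons, List.prod_cons, List.prod_cons, h3, List.map_map]
    rfl

theorem NFB.shift_mul {S : Set (Fin 5 → ℂ)} (hu : NFB S u) {a b : Fin 5 → ℂ} (ha : a ∈ S) (hb : b ∈ S) :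
    NFB S fun z => (kv a fun _ => z 0)⁻¹ * ((kv b fun _ => z 0)⁻¹ * u fun k => z (k + 1)) := by
  obtain ⟨l, h1, h2⟩ := hu
  refine ⟨l.map fun p => (p.1, fun z => (kv a fun _ => z 0)⁻¹ * ((kv b fun _ => z 0)⁻¹ * p.2 fun k => z (k + 1))), fun p hp => ?_, fun z => ?_⟩
  · obtain ⟨q, hq, rfl⟩ := List.mem_map.1 hp
    exact ⟨(h1 q hq).1, (h1 q hq).2.shift_mul ha hb⟩
  · dsimp only
    rw [h2, List.map_map, ← List.sum_map_mul_left, ← List.sum_map_mul_left]
    congr 1
    apply List.map_congr_left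
    intro p _
    simp only [Function.comp_apply]
    ring

/-- `π` -/
theorem NFB.piT (hu : NFB SS u) : ∃ w, NFB SS w ∧ ∀ z ∈ D, w z = KP.piT u z := by
  have h8 : IsGauss 8 := by simpa using IsGauss.rat 8
  have s1 : (![2, 0, 0, Complex.I, 0] : Fin 5 → ℂ) ∈ SS := Or.inr (by simp [Spi])
  have s2 : (![2, 0, 0, -Complex.I, 0] : Fin 5 → ℂ) ∈ SS := Or.inr (by simp [Spi])
  have s3 : (![2 + Complex.I, 0, 0, Complex.I, 0] : Fin 5 → ℂ) ∈ SS := Or.inr (by simp [Spi])
  have s4 : (![2 - Complex.I, 0, 0, -Complex.I, 0] : Fin 5 → ℂ) ∈ SS := Or.inr (by simp [Spi])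
  refine ⟨_, ((hu.shift_mul s1 s2).const h8).add ((hu.shift_mul s3 s4).const h8), fun z hz => ?_⟩
  simp only [KP.piT, sh, piFn, kv, Matrix.cons_val_zero, Matrix.cons_val_one, Matrix.cons_val, zero_mul, add_zero]
  have e1 : 4 + z 0 ^ 2 = (2 + Complex.I * z 0) * (2 + (-Complex.I) * z 0) := by
    linear_combination (z 0 ^ 2) * Complex.I_sq
  have e2 : 4 + (1 + z 0) ^ 2 = ((2 + Complex.I) + Complex.I * z 0) * ((2 - Complex.I) + (-Complex.I) * z 0) := by
    linear_combination ((1 + z 0) ^ 2) * Complex.I_sq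
  rw [e1, e2]
  simp only [div_eq_mul_inv, mul_inv]
  ring

/-- `π^m f` has the normal form. -/
def RepB (f : Fn) : Prop := ∃ m : ℕ, ∃ g, NFB SS g ∧ Eqv (piMul m f) g

theorem RepB.of_eqv (h : Eqv f g) (hg : RepB g) : RepB f := by
  obtain ⟨m, r, hr, he⟩ := hg
  exact ⟨m, r, hr, (h.piMul m).trans he⟩

theorem RepB.of_eq (h : ∀ x, f (pt x) = g (pt x)) (hg : RepB g) : RepB f := RepB.of_eqv (Eqv.of_eq h) hg

theorem repB_succ {m : ℕ} {r : Fn} (hr : NFB SS r) (h : Eqv (piMul m f) r) (k : ℕ) : ∃ r', NFB SS r' ∧ Eqv (piMul (m + k) f) r' := by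
  induction k with
  | zero => exact ⟨r, hr, h⟩
  | succ k ih =>
    obtain ⟨r', hr', h'⟩ := ih
    obtain ⟨H, hH, h2⟩ := hr'.piT
    exact ⟨H, hH, (h'.piT).trans (Eqv.of_eq fun x => (h2 _ (pt_mem_D x)).symm)⟩

theorem RepB.mono (h : MonoB SS f) : RepB f := ⟨0, f, NFB.mono h, Eqv.refl _⟩

theorem RepB.add (hf : RepB f) (hg : RepB g) : RepB fun z => f z + g z := by
  obtain ⟨m, r, hr, h1⟩ := hf
  obtain ⟨m', r', hr', h2⟩ := hg
  obtain ⟨s, hs, h3⟩ := repB_succ hr h1 m'
  obtain ⟨s', hs', h4⟩ := repB_succ hr' h2 m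
  refine ⟨m + m', _, hs.add hs', ?_⟩
  rw [piMul_add]
  rw [add_comm m' m] at h4
  exact h3.add h4

theorem RepB.const {c : ℂ} (hc : IsGauss c) (hf : RepB f) : RepB fun z => c * f z := by
  obtain ⟨m, r, hr, h1⟩ := hf
  refine ⟨m, _, hr.const hc, ?_⟩
  rw [piMul_const]
  exact h1.const hc.isAlg

theorem RepB.sum {ι : Type*} (s : Finset ι) (F : ι → Fn) (h : ∀ i ∈ s, RepB (F i)) : RepB fun z => ∑ i ∈ s, F i z := by
  classical
  induction s using Finset.induction_on with
  | empty => simpa using (RepB.mono MonoB.one).const IsGauss.zero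
  | insert a s ha ih =>
    simp only [Finset.sum_insert ha]
    exact (h a (Finset.mem_insert_self a s)).add (ih fun i hi => h i (Finset.mem_insert_of_mem hi))

/-- removal of `2πi` -/
theorem RepB.of_cFn (hf : f ∈ O) {i : ℕ} (hi : Fresh i f) (h : RepB fun z => cFn (z i) * f z) : RepB f := by
  obtain ⟨m, r, hr, h1⟩ := h
  have h2I : IsAlgebraic ℚ (2 * Complex.I) := by
    have := isAlgebraic_algebraMap (R := ℚ) (A := ℂ) 2
    simp only [map_ofNat] at this
    exact this.mul isAlg_I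
  have h3 : Eqv (fun z => cFn (z i) * f z) fun z => 2 * Complex.I * piMul 1 f z :=
    (eqv_cFn hf hi).trans ((piFn_fresh hf hi).const h2I)
  have h4 := (h3.piMul m).symm.trans h1
  rw [piMul_const, piMul_piMul] at h4
  have h5 := h4.const (c := -Complex.I / 2) (by
    have := isAlgebraic_algebraMap (R := ℚ) (A := ℂ) 2
    simp only [map_ofNat] at this
    exact isAlg_I.neg.mul this.inv)
  refine ⟨m + 1, fun z => -Complex.I / 2 * r z, ?_, ?_⟩
  · refine hr.const ?_
    have := (IsGauss.rat (-1 / 2)).mul IsGauss.I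
    push_cast at this
    convert this using 1
    ring
  · refine (Eqv.of_eq fun x => ?_).trans h5
    linear_combination (piMul (m + 1) f (pt x)) * Complex.I_sq

/-- occurrences in a kernel with expressions -/
noncomputable def Fac.cnt (y : ℕ) (φ : Fac) : ℕ := ∑ j, (φ.p j).cnt y

/-- occurrences in a state -/
noncomputable def stc (y : ℕ) (Φ : List Fac) : ℕ := (Φ.map (Fac.cnt y)).sum

theorem stc_cons (y : ℕ) (φ : Fac) (Φ : List Fac) : stc y (φ :: Φ) = φ.cnt y + stc y Φ := by simp [stc]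

theorem stc_perm {Φ Ψ : List Fac} (h : Φ.Perm Ψ) (y : ℕ) : stc y Φ = stc y Ψ := (h.map _).sum_eq

theorem Fac.fresh_of_cnt {y : ℕ} {φ : Fac} (h : φ.cnt y = 0) : Fresh y φ.val := by
  intro z t
  have h1 : ∀ j, (φ.p j).cnt y = 0 := fun j => Finset.sum_eq_zero_iff.1 h j (Finset.mem_univ j)
  unfold Fac.val
  congr 1
  funext j
  exact Ex.fresh_of_cnt (h1 j) z t

theorem sv_fresh_of_cnt {y : ℕ} : ∀ {Φ : List Fac}, stc y Φ = 0 → Fresh y (sv Φ)
  | [], _ => fun z t => by simp [sv]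
  | φ :: Φ, h => by
    intro z t
    rw [stc_cons, Nat.add_eq_zero_iff] at h
    rw [sv_cons, sv_cons, Fac.fresh_of_cnt h.1 z t, sv_fresh_of_cnt h.2 z t]

theorem exists_cnt_state : ∀ Φ : List Fac, ∃ M, ∀ i ≥ M, stc i Φ = 0
  | [] => ⟨0, fun i _ => rfl⟩
  | φ :: Φ => by
    obtain ⟨M, hM⟩ := exists_cnt_state Φ
    obtain ⟨M0, h0⟩ := (φ.p 0).exists_cnt
    obtain ⟨M1, h1⟩ := (φ.p 1).exists_cnt
    obtain ⟨M2, h2⟩ := (φ.p 2).exists_cnt
    refine ⟨M + M0 + M1 + M2, fun i hi => ?_⟩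
    rw [stc_cons, hM i (by omega)]
    simp only [Fac.cnt, Fin.sum_univ_three, h0 i (by omega), h1 i (by omega), h2 i (by omega)]

open Classical in
theorem sv_monoB : ∀ {Φ : List Fac}, (∀ φ ∈ Φ, φ.OK) → (∀ φ ∈ Φ, φ.size = 0) →
    ∃ l : List ((Fin 5 → ℂ) × (Fin 3 → ℕ)), (∀ q ∈ l, q.1 ∈ SS) ∧ (∀ x, l.countP (fun q => Involves q x) ≤ stc x Φ) ∧
      ∀ z, sv Φ z = (l.map fun q => (kv q.1 fun j => z (q.2 j))⁻¹).prod
  | [], _, _ => ⟨[], by simp, by simp, by simp [sv]⟩
  | φ :: Φ, h, hs => by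
    obtain ⟨a, ha, x, hx⟩ := kernel_leaf (h φ (by simp)) (hs φ (by simp))
    obtain ⟨l, h1, h2, h3⟩ := sv_monoB (Φ := Φ) (fun ψ hψ => h ψ (by simp [hψ])) fun ψ hψ => hs ψ (by simp [hψ])
    refine ⟨(a, x) :: l, fun q hq => ?_, fun y => ?_, fun z => ?_⟩
    · rcases List.mem_cons.1 hq with rfl | hq
      · exact ha
      · exact h1 q hq
    · rw [List.countP_cons, stc_cons, add_comm]
      refine add_le_add ?_ (h2 y)
      by_cases hI : Involves (a, x) y
      · simp only [hI, decide_true, if_true]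
        by_contra hcon
        have h0 : φ.cnt y = 0 := by omega
        obtain ⟨z, t, hne⟩ := hI
        apply hne
        have h5 := Fac.fresh_of_cnt h0 z t
        rw [hx, hx] at h5
        exact h5
      · simp [hI]
    · rw [sv_cons, hx, h3, List.map_cons, List.prod_cons]

/-- **elimination of the operations, with the number of occurrences** -/
theorem repB_state (N : ℕ) : ∀ Φ : List Fac, (∀ φ ∈ Φ, φ.OK) → (∀ x, stc x Φ ≤ 3) → (Φ.map Fac.size).sum ≤ N → RepB (sv Φ) := by
  have base : ∀ Φ : List Fac, (∀ φ ∈ Φ, φ.OK) → (∀ x, stc x Φ ≤ 3) → (∀ φ ∈ Φ, φ.size = 0) → RepB (sv Φ) := by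
    intro Φ hΦ hc hs
    obtain ⟨l, h1, h2, h3⟩ := sv_monoB hΦ hs
    exact RepB.mono ⟨l, h1, fun x => (h2 x).trans (hc x), h3⟩
  induction N with
  | zero =>
    intro Φ hΦ hcn hN
    refine base Φ hΦ hcn fun φ hφ => ?_
    have h1 := List.sum_eq_zero_iff.1 (Nat.le_zero.1 hN)
    exact h1 _ (List.mem_map.2 ⟨φ, hφ, rfl⟩)
  | succ N ih =>
    intro Φ hΦ hcn hN
    by_cases hall : ∀ φ ∈ Φ, φ.size = 0
    · exact base Φ hΦ hcn hall
    push Not at hall
    obtain ⟨φ, hφ, hφs⟩ := hall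
    obtain ⟨l₁, l₂, rfl⟩ := List.append_of_mem hφ
    have hperm : (l₁ ++ φ :: l₂).Perm (φ :: (l₁ ++ l₂)) := List.perm_middle
    set Φ' := l₁ ++ l₂ with hΦ'
    have hOKφ : φ.OK := hΦ φ hφ
    have hOK' : ∀ ψ ∈ Φ', ψ.OK := fun ψ hψ => hΦ ψ (by
      rcases List.mem_append.1 hψ with h | h
      · simp [h]
      · simp [h])
    have hcn' : ∀ x, φ.cnt x + stc x Φ' ≤ 3 := fun x => by
      rw [← stc_cons, ← stc_perm hperm]; exact hcn x
    have hsum : φ.size + (Φ'.map Fac.size).sum ≤ N + 1 := by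
      have := (hperm.map Fac.size).sum_eq
      rw [List.map_cons, List.sum_cons] at this
      omega
    refine RepB.of_eq (g := sv (φ :: Φ')) (fun x => sv_perm hperm _) ?_
    obtain ⟨j0, hj0⟩ : ∃ j0, (φ.p j0).size ≠ 0 := by
      by_contra hcon
      push Not at hcon
      exact hφs (Finset.sum_eq_zero fun j _ => hcon j)
    obtain ⟨c₁, c₂, c₃, a, b, hop⟩ : ∃ c₁ c₂ c₃ a b, φ.p j0 = Ex.op c₁ c₂ c₃ a b := by
      cases h : φ.p j0 with
      | aff c₀ c₁ i => rw [h] at hj0; exact absurd rfl hj0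
      | op c₁ c₂ c₃ a b => exact ⟨c₁, c₂, c₃, a, b, rfl⟩
    have hIn := hOKφ.2 j0
    rw [hop] at hIn
    obtain ⟨hT, haI, hbI⟩ := hIn
    obtain ⟨hc1, hc2, hc3, hc⟩ := TS_gauss hT
    obtain ⟨M, hM⟩ := exists_cnt_state (φ :: Φ')
    have hM0 := hM M le_rfl
    rw [stc_cons, Nat.add_eq_zero_iff] at hM0
    have hMc : ∀ j, (φ.p j).cnt M = 0 := fun j => Finset.sum_eq_zero_iff.1 hM0.1 j (Finset.mem_univ j)
    have hMφ : ∀ j, Fresh M (φ.p j).eval := fun j => Ex.fresh_of_cnt (hMc j)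
    have hMs : Fresh M (sv Φ') := sv_fresh_of_cnt hM0.2
    set v : Fn := (φ.p j0).eval with hv
    have hvz : ∀ z, v z = c₁ * a.eval z + c₂ * b.eval z + c₃ * (a.eval z * b.eval z) := by
      intro z; rw [hv, hop]; rfl
    have hvP : PolF v := (hOKφ.2 j0).OK.polF
    have hvb : ∀ z ∈ D, ‖v z‖ ≤ 1 / 16 := fun z hz => by
      rw [hvz]; exact Ex.op_norm_le hc (haI.OK.norm_le z hz) (hbI.OK.norm_le z hz)
    set G : Fn := fun z => (kv φ.a (update (fun j => (φ.p j).eval z) j0 (z M)))⁻¹ * sv Φ' z with hG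
    have hGR : RatG G := by
      refine (RatG.inv (kv_polF (S0_good hOKφ.1).1 fun j => ?_) fun z hz => (S0_good hOKφ.1).2 _ fun j => ?_).mul (sv_ratG hOK')
      · by_cases hj : j = j0
        · subst hj; simpa using PolF.coord M
        · simpa [update_of_ne hj] using (hOKφ.2 j).OK.polF
      · by_cases hj : j = j0
        · subst hj; simpa using hz M
        · simpa [update_of_ne hj] using (hOKφ.2 j).OK.norm_le z hz
    have hsub := subst_formula hGR hvP (hMφ j0) hvb
    have hGu : ∀ z t, G (update z M t) = (kv φ.a (update (fun j => (φ.p j).eval z) j0 t))⁻¹ * sv Φ' z := by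
      intro z t
      simp only [hG, hMs z t, hMφ _ z t, update_self]
    have hGv : ∀ z, G (update z M (v z)) = sv (φ :: Φ') z := by
      intro z
      rw [hGu, sv_cons]
      congr 3
      rw [hv]
      exact update_eq_self j0 (fun j => (φ.p j).eval z)
    have hfO : sv (φ :: Φ') ∈ O := (sv_ratG (Φ := φ :: Φ') fun ψ hψ => by
      rcases List.mem_cons.1 hψ with rfl | h
      · exact hOKφ
      · exact hOK' ψ h).mem_O
    have hfM : Fresh M (sv (φ :: Φ')) := sv_fresh_of_cnt (hM M le_rfl)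
    refine RepB.of_cFn hfO hfM ?_
    have hsub' : Eqv (fun z => cFn (z M) * sv (φ :: Φ') z)
        (fun z => ∑ m ∈ Finset.range 16, W m * (G (update z M (ζ m (z M) / 4)) * (ζ m (z M) - 4 * v z)⁻¹)) := by
      simpa only [hGv] using hsub
    refine RepB.of_eqv hsub' (RepB.sum _ _ fun m hm => RepB.const (IsGauss.W m) ?_)
    rw [Finset.mem_range] at hm
    set ψ₁ : Fac := ⟨φ.a, update φ.p j0 (Ex.aff (V m / 4) (W m / 4) M)⟩ with hψ₁
    set ψ₂ : Fac := ⟨![V m, -4 * c₁, -4 * c₂, W m, -4 * c₃], ![a, b, Ex.aff 0 1 M]⟩ with hψ₂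
    have hres := ih (ψ₁ :: ψ₂ :: Φ') (fun ψ hψ => ?_) (fun x => ?_) ?_
    · convert hres using 1
      funext z
      rw [sv_cons, sv_cons, hGu]
      have e1 : ψ₁.val z = kv φ.a (update (fun j => (φ.p j).eval z) j0 (ζ m (z M) / 4)) := by
        simp only [hψ₁, Fac.val]
        congr 1
        funext j
        by_cases hj : j = j0
        · subst hj
          simp only [update_self, Ex.eval, ζ]
          ring
        · simp only [update_of_ne hj]
      have e2 : ψ₂.val z = ζ m (z M) - 4 * v z := by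
        simp only [hψ₂, Fac.val, kv, hvz, Matrix.cons_val_zero, Matrix.cons_val_one, Matrix.cons_val, Ex.eval, ζ]
        ring
      rw [e1, e2]
      ring
    · rcases List.mem_cons.1 hψ with rfl | hψ
      · refine ⟨hOKφ.1, fun j => ?_⟩
        by_cases hj : j = j0
        · subst hj
          simp only [hψ₁, update_self]
          exact mem_LS_zeta hm
        · simp only [hψ₁, update_of_ne hj]
          exact hOKφ.2 j
      · rcases List.mem_cons.1 hψ with rfl | hψ
        · refine ⟨mem_S0_op hm hT, fun j => ?_⟩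
          fin_cases j
          · exact haI
          · exact hbI
          · exact mem_LS_id
        · exact hOK' ψ hψ
    · -- occurrences
      rw [stc_cons, stc_cons]
      have s2 : ψ₂.cnt x = a.cnt x + b.cnt x + (Ex.aff 0 1 M).cnt x := by
        simp [hψ₂, Fac.cnt, Fin.sum_univ_three]
      have s1 : ψ₁.cnt x + (a.cnt x + b.cnt x) = φ.cnt x + (Ex.aff (V m / 4) (W m / 4) M).cnt x := by
        unfold Fac.cnt
        rw [← Finset.add_sum_erase _ _ (Finset.mem_univ j0), ← Finset.add_sum_erase (a := j0) _ (fun j => (φ.p j).cnt x) (Finset.mem_univ j0)]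
        have q1 : (ψ₁.p j0).cnt x = (Ex.aff (V m / 4) (W m / 4) M).cnt x := by simp [hψ₁]
        have q2 : (φ.p j0).cnt x = a.cnt x + b.cnt x := by rw [hop]; rfl
        have q3 : ∑ y ∈ Finset.univ.erase j0, (ψ₁.p y).cnt x = ∑ y ∈ Finset.univ.erase j0, (φ.p y).cnt x := by
          apply Finset.sum_congr rfl
          intro j hj
          simp only [hψ₁, update_of_ne (Finset.ne_of_mem_erase hj)]
        rw [q1, q2, q3]
        ring
      have hcx := hcn' x
      by_cases hx : x = M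
      · subst hx
        have k1 := hM0.1
        have k2 := hM0.2
        have k3 : (Ex.aff (V m / 4) (W m / 4) x).cnt x ≤ 1 := by
          simp only [Ex.cnt]; split_ifs <;> norm_num
        have k4 : (Ex.aff 0 1 x).cnt x ≤ 1 := by
          simp only [Ex.cnt]; split_ifs <;> norm_num
        omega
      · have k3 : (Ex.aff (V m / 4) (W m / 4) M).cnt x = 0 := by
          simp only [Ex.cnt]; rw [if_neg (fun h => hx h.1.symm)]
        have k4 : (Ex.aff 0 1 M).cnt x = 0 := by
          simp only [Ex.cnt]; rw [if_neg (fun h => hx h.1.symm)]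
        omega
    · rw [List.map_cons, List.map_cons, List.sum_cons, List.sum_cons]
      have s1 : ψ₁.size + (a.size + b.size + 1) = φ.size := by
        unfold Fac.size
        rw [← Finset.add_sum_erase _ _ (Finset.mem_univ j0), ← Finset.add_sum_erase (a := j0) _ (fun j => (φ.p j).size) (Finset.mem_univ j0)]
        have q1 : (ψ₁.p j0).size = 0 := by simp [hψ₁, Ex.size]
        have q2 : (φ.p j0).size = a.size + b.size + 1 := by rw [hop]; rfl
        have q3 : ∑ x ∈ Finset.univ.erase j0, (ψ₁.p x).size = ∑ x ∈ Finset.univ.erase j0, (φ.p x).size := by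
          apply Finset.sum_congr rfl
          intro j hj
          simp only [hψ₁, update_of_ne (Finset.ne_of_mem_erase hj)]
        rw [q1, q2, q3]
        ring
      have s2 : ψ₂.size = a.size + b.size := by
        simp [hψ₂, Fac.size, Fin.sum_univ_three, Ex.size]
      omega

end Pool.Agent.H39.KP
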