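import Pool.Agent.H39.KP.KDy

namespace Pool.Agent.H39.KP

open Function Filter Topology

variable {f g F G u v : Fn}

/-- polynomials with integral coefficients -/
abbrev RZ : Type := MvPolynomial ℕ ℤ

theorem clear_poly (A : R) : ∃ N : ℕ, 0 < N ∧ ∃ A' : RZ, ∀ z : ℕ → ℂ, (N : ℂ) * MvPolynomial.aeval z A = MvPolynomial.aeval z A' := by
  induction A using MvPolynomial.induction_on with
  | C a =>
    refine ⟨a.den, a.den_pos, MvPolynomial.C a.num, fun z => ?_⟩
    simp only [MvPolynomial.aeval_C, eq_ratCast, eq_intCast, map_intCast]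
    have h : ((a.den : ℚ) : ℂ) * (a : ℂ) = ((a.num : ℚ) : ℂ) := by
      rw [← Rat.cast_mul, mul_comm, Rat.mul_den_eq_num]
    exact_mod_cast h
  | add p q hp hq =>
    obtain ⟨N, hN, p', h1⟩ := hp
    obtain ⟨N', hN', q', h2⟩ := hq
    refine ⟨N * N', Nat.mul_pos hN hN', (N' : RZ) * p' + (N : RZ) * q', fun z => ?_⟩
    rw [map_add, map_add, map_mul, map_mul, ← h1, ← h2, map_natCast, map_natCast]
    push_cast
    ring
  | mul_X p i hp =>
    obtain ⟨N, hN, p', h1⟩ := hp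
    refine ⟨N, hN, p' * MvPolynomial.X i, fun z => ?_⟩
    rw [map_mul, map_mul, ← h1, MvPolynomial.aeval_X, MvPolynomial.aeval_X]
    ring

/-- polynomials over `ℤ[i]` -/
def PolZ (F : Fn) : Prop := ∃ A B : RZ, ∀ z, F z = MvPolynomial.aeval z A + Complex.I * MvPolynomial.aeval z B

theorem PolF.clear (hF : PolF F) : ∃ N : ℕ, 0 < N ∧ PolZ fun z => (N : ℂ) * F z := by
  obtain ⟨A, B, h⟩ := hF
  obtain ⟨N, hN, A', h1⟩ := clear_poly A
  obtain ⟨N', hN', B', h2⟩ := clear_poly B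
  refine ⟨N * N', Nat.mul_pos hN hN', (N' : RZ) * A', (N : RZ) * B', fun z => ?_⟩
  dsimp only
  rw [h, map_mul, map_mul, ← h1, ← h2, map_natCast, map_natCast]
  push_cast
  ring

theorem PolZ.nat_mul (hF : PolZ F) (N : ℕ) : PolZ fun z => (N : ℂ) * F z := by
  obtain ⟨A, B, h⟩ := hF
  refine ⟨(N : RZ) * A, (N : RZ) * B, fun z => ?_⟩
  dsimp only
  rw [h, map_mul, map_mul, map_natCast]
  ring

theorem RZ_polF (A : RZ) : PolF fun z => (MvPolynomial.aeval z A : ℂ) := by
  refine ⟨MvPolynomial.map (algebraMap ℤ ℚ) A, 0, fun z => ?_⟩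
  rw [map_zero, mul_zero, add_zero, MvPolynomial.aeval_map_algebraMap]

theorem PolZ.polF (hF : PolZ F) : PolF F := by
  obtain ⟨A, B, h⟩ := hF
  have : F = fun z => MvPolynomial.aeval z A + Complex.I * MvPolynomial.aeval z B := funext h
  rw [this]
  exact (RZ_polF A).add (PolF.I.mul (RZ_polF B))

theorem RZ_dy (A : RZ) {b : ℕ → ℚ} (hb : ∀ k, IsDy (b k : ℂ)) : IsDy (MvPolynomial.aeval (cor b) A) := by
  induction A using MvPolynomial.induction_on with
  | C a => simpa using IsDy.int a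
  | add p q hp hq => rw [map_add]; exact hp.add hq
  | mul_X p i hp => rw [map_mul, MvPolynomial.aeval_X]; exact hp.mul (hb i)

theorem PolZ.dy (hF : PolZ F) {b : ℕ → ℚ} (hb : ∀ k, IsDy (b k : ℂ)) : IsDy (F (cor b)) := by
  obtain ⟨A, B, h⟩ := hF
  rw [h]
  exact (RZ_dy A hb).add (IsDy.I.mul (RZ_dy B hb))

/-- polynomials on small dyadic boxes are expressions -/
theorem small_polyZ (A : RZ) : ∀ L : ℕ, ∃ δ > (0 : ℝ), ∀ b s : ℕ → ℚ, (∀ k, IsDy (b k : ℂ)) → (∀ k, IsDy (s k : ℂ)) → Good b s →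
    (∀ k, (s k : ℝ) < δ) →
    ∃ e : Ex, e.In ∧ ∀ z, (MvPolynomial.aeval (bx b s z) A : ℂ) = MvPolynomial.aeval (cor b) A + e.eval z / 2 ^ L := by
  induction A using MvPolynomial.induction_on with
  | C a =>
    intro L
    exact ⟨1, one_pos, fun b s _ _ _ _ => ⟨Ex.aff 0 0 0, mem_LS_zero, fun z => by simp [Ex.eval]⟩⟩
  | add p q hp hq =>
    intro L
    obtain ⟨δ, hδ, h1⟩ := hp (L + 5)
    obtain ⟨δ', hδ', h2⟩ := hq (L + 5)
    refine ⟨min δ δ', lt_min hδ hδ', fun b s hb hs hg hsm => ?_⟩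
    obtain ⟨e, he, h3⟩ := h1 b s hb hs hg fun k => (hsm k).trans_le (min_le_left _ _)
    obtain ⟨e', he', h4⟩ := h2 b s hb hs hg fun k => (hsm k).trans_le (min_le_right _ _)
    refine ⟨eadd e e', eadd_In he he', fun z => ?_⟩
    rw [map_add, map_add, h3, h4, eadd_eval, pow_add]
    field_simp
    ring
  | mul_X p i hp =>
    intro L
    obtain ⟨δ, hδ, h1⟩ := hp (L + 20)
    obtain ⟨C, hC, hCb⟩ := exists_bound (RZ_polF p).mem_O
    refine ⟨min δ (min (1 / 16) (1 / (2 ^ 15 * 2 ^ L * C))), by positivity, fun b s hb hs hg hsm => ?_⟩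
    obtain ⟨e, he, h3⟩ := h1 b s hb hs hg fun k => (hsm k).trans_le (min_le_left _ _)
    have hs1 := (hsm i).trans_le ((min_le_right _ _).trans (min_le_left _ _))
    have hs2 := (hsm i).trans_le ((min_le_right _ _).trans (min_le_right _ _))
    obtain ⟨g1, g2, g3⟩ := hg i
    have hbi : (b i : ℝ) ≤ 1 := by exact_mod_cast (by linarith : b i ≤ 1)
    have hsr : (0 : ℝ) < (s i : ℝ) := by exact_mod_cast g1
    set P0 : ℂ := MvPolynomial.aeval (cor b) p with hP0
    have hP0D : IsDy P0 := RZ_dy p hb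
    have hP0b : ‖P0‖ ≤ C := by
      obtain ⟨x, hx⟩ := cor_eq_pt hg
      rw [hP0, ← hx]
      exact hCb x
    obtain ⟨e₁, he₁, -, hc1⟩ := exists_const (c := 2 ^ (L + 9) * (P0 * (s i : ℂ))) ((hP0D.mul (hs i)).mul_pow _) (by
      rw [norm_mul, norm_mul, norm_pow, Complex.norm_ofNat, norm_rat g1.le]
      calc (2 : ℝ) ^ (L + 9) * (‖P0‖ * (s i : ℝ)) ≤ 2 ^ (L + 9) * (C * (1 / (2 ^ 15 * 2 ^ L * C))) := by gcongr
        _ = 1 / 64 := by rw [pow_add]; field_simp; norm_num)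
    obtain ⟨e₂, he₂, -, hc2⟩ := exists_const (c := (b i : ℂ) / 2 ^ 6) ((hb i).div_pow 6) (by
      rw [norm_div, norm_pow, Complex.norm_ofNat, norm_rat g2]
      norm_num
      linarith)
    obtain ⟨e₃, he₃, -, hc3⟩ := exists_const (c := (s i : ℂ) / 2 ^ 2) ((hs i).div_pow 2) (by
      rw [norm_div, norm_pow, Complex.norm_ofNat, norm_rat g1.le]
      norm_num
      linarith)
    refine ⟨eadd (emul e₁ (Ex.aff 0 1 i)) (emul e (eadd e₂ (emul e₃ (Ex.aff 0 1 i)))),
      eadd_In (emul_In he₁ mem_LS_id) (emul_In he (eadd_In he₂ (emul_In he₃ mem_LS_id))), fun z => ?_⟩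
    rw [map_mul, map_mul, h3, MvPolynomial.aeval_X, MvPolynomial.aeval_X, eadd_eval, emul_eval, emul_eval, eadd_eval, emul_eval,
      hc1, hc2, hc3]
    simp only [Ex.eval, bx, cor, zero_add, one_mul]
    rw [pow_add, pow_add]
    field_simp
    ring

theorem small_polZ (hF : PolZ F) (L : ℕ) : ∃ δ > (0 : ℝ), ∀ b s : ℕ → ℚ, (∀ k, IsDy (b k : ℂ)) → (∀ k, IsDy (s k : ℂ)) → Good b s →
    (∀ k, (s k : ℝ) < δ) → ∃ e : Ex, e.In ∧ ∀ z, F (bx b s z) = F (cor b) + e.eval z / 2 ^ L := by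
  obtain ⟨A, B, h⟩ := hF
  obtain ⟨δ, hδ, h1⟩ := small_polyZ A (L + 5)
  obtain ⟨δ', hδ', h2⟩ := small_polyZ B (L + 5)
  refine ⟨min δ δ', lt_min hδ hδ', fun b s hb hs hg hsm => ?_⟩
  obtain ⟨e, he, h3⟩ := h1 b s hb hs hg fun k => (hsm k).trans_le (min_le_left _ _)
  obtain ⟨e', he', h4⟩ := h2 b s hb hs hg fun k => (hsm k).trans_le (min_le_right _ _)
  refine ⟨eaddI e e', eaddI_In he he', fun z => ?_⟩
  rw [h, h, h3, h4, eaddI_eval, pow_add]
  field_simp
  ring

/-- all dyadic boxes with the sides `s` -/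
def AllRepS (f : Fn) (s : ℕ → ℚ) : Prop := ∀ b, (∀ k, IsDy (b k : ℂ)) → Good b s → RepS fun z => f (bx b s z)

theorem AllRepS.halve (hf : f ∈ O) {s : ℕ → ℚ} (hs : ∀ k, IsDy (s k : ℂ)) (i : ℕ) (h : AllRepS f (update s i (s i / 2))) : AllRepS f s := by
  intro b hbd hb
  have hF := O_bx hf hb
  have e0 : half0 i (fun z => f (bx b s z)) = fun z => ((1 / 2 : ℚ) : ℂ) * f (bx b (update s i (s i / 2)) z) := by
    funext z
    simp only [half0, bx_half0]
    push_cast; ring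
  have e1 : half1 i (fun z => f (bx b s z)) = fun z => ((1 / 2 : ℚ) : ℂ) * f (bx (update b i (b i + s i / 2)) (update s i (s i / 2)) z) := by
    funext z
    simp only [half1, bx_half1]
    push_cast; ring
  have hg0 : Good b (update s i (s i / 2)) := by
    intro k
    obtain ⟨h1, h2, h3⟩ := hb k
    by_cases hk : k = i
    · subst hk; rw [update_self]; exact ⟨by linarith, h2, by linarith⟩
    · rw [update_of_ne hk]; exact ⟨h1, h2, h3⟩
  have hg1 : Good (update b i (b i + s i / 2)) (update s i (s i / 2)) := by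
    intro k
    obtain ⟨h1, h2, h3⟩ := hb k
    by_cases hk : k = i
    · subst hk; rw [update_self, update_self]; exact ⟨by linarith, by linarith, by linarith⟩
    · rw [update_of_ne hk, update_of_ne hk]; exact ⟨h1, h2, h3⟩
  have hd1 : ∀ k, IsDy ((update b i (b i + s i / 2) k : ℚ) : ℂ) := by
    intro k
    by_cases hk : k = i
    · subst hk
      rw [update_self]
      push_cast
      have := (hs k).div_pow 1
      rw [pow_one] at this
      exact (hbd k).add this
    · rw [update_of_ne hk]; exact hbd k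
  have hsub := subdivide hF i
  rw [e0, e1] at hsub
  exact RepS.of_eqv hsub (((h _ hbd hg0).const (IsGauss.rat _)).add ((h _ hd1 hg1).const (IsGauss.rat _)))

theorem dy_half_pow (e : ℕ) : IsDy ((((1 : ℚ) / 2) ^ e : ℚ) : ℂ) := by
  have := IsDy.half_pow e
  push_cast
  rwa [div_pow, one_pow]

theorem AllRepS.step (hf : f ∈ O) {n e : ℕ} (h : AllRepS f (sd n (e + 1))) : AllRepS f (sd n e) := by
  have key : ∀ m ≤ n, AllRepS f (fun k => if k < n - m then (1 / 2) ^ (e + 1) else if k < n then (1 / 2) ^ e else 1) := by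
    intro m
    induction m with
    | zero =>
      intro _
      have : (fun k => if k < n - 0 then ((1 : ℚ) / 2) ^ (e + 1) else if k < n then (1 / 2) ^ e else 1) = sd n (e + 1) := by
        funext k
        simp only [sd, Nat.sub_zero]
        split_ifs <;> rfl
      rw [this]; exact h
    | succ m ih =>
      intro hm
      have h1 := ih (by omega)
      apply AllRepS.halve hf (fun k => by
        split_ifs
        · exact dy_half_pow _
        · exact dy_half_pow _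
        · simpa using IsDy.int 1) (n - (m + 1))
      convert h1 using 1
      funext k
      by_cases hk : k = n - (m + 1)
      · subst hk
        rw [update_self, if_neg (by omega), if_pos (by omega), if_pos (by omega)]
        ring
      · rw [update_of_ne hk]
        by_cases h2 : k < n - (m + 1)
        · rw [if_pos h2, if_pos (by omega)]
        · rw [if_neg h2, if_neg (show ¬ k < n - m by omega)]
  have h2 := key n le_rfl
  convert h2 using 1
  funext k
  simp [sd]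

theorem AllRepS.repS (hf : f ∈ O) {n e : ℕ} (h : AllRepS f (sd n e)) : RepS f := by
  have h0 : AllRepS f (sd n 0) := by
    induction e with
    | zero => exact h
    | succ e ih => exact ih (h.step hf)
  have h1 := h0 (fun _ => 0) (fun k => by simpa using IsDy.int 0) fun k => by
    simp only [sd]
    split_ifs <;> norm_num
  refine RepS.of_eq (fun x => ?_) h1
  congr 1
  funext k
  simp only [bx, sd]
  split_ifs <;> simp

/-- quotients of expressions, with the denominator near a grid point -/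
theorem repS_quot {c : ℂ} (hcG : c ∈ Grid 14) (hc : 1 / 4 < ‖c‖) {y : Ex} (hy : y.In) :
    RepS (fun z => (c + (1 / 4) * y.eval z)⁻¹) ∧
    ∀ {e : Ex}, e.In → RepS fun z => e.eval z * (c + (1 / 4) * y.eval z)⁻¹ := by
  set ρ : Fac := ⟨![c, 1 / 4, 0, 0, 0], ![y, Ex.aff 0 0 0, Ex.aff 0 0 0]⟩ with hρ
  have hρOK : ρ.OK := by
    refine ⟨Or.inl (Or.inl (Or.inr ⟨c, ⟨hcG, hc⟩, rfl⟩)), fun j => ?_⟩
    fin_cases j
    · exact hy
    · exact mem_LS_zero
    · exact mem_LS_zero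
  have hρv : ∀ z, ρ.val z = c + (1 / 4) * y.eval z := by
    intro z
    simp only [hρ, Fac.val, kv, Matrix.cons_val_zero, Matrix.cons_val_one, Matrix.cons_val]
    ring
  constructor
  · have h := repS_state _ [ρ] (fun φ hφ => by
      rw [List.mem_singleton] at hφ; subst hφ; exact hρOK) le_rfl
    convert h using 1
    funext z
    rw [sv_cons, hρv]
    simp [sv]
  · intro e he
    obtain ⟨M1, hM1⟩ := y.exists_fresh
    obtain ⟨M2, hM2⟩ := e.exists_fresh
    set M := M1 + M2 with hMM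
    have f1 : Fresh M y.eval := hM1 M (by omega)
    have f2 : Fresh M e.eval := hM2 M (by omega)
    have hFR : RatG fun z => (c + (1 / 4) * y.eval z)⁻¹ := by
      have h := RatG.inv hρOK.polF hρOK.ne
      simpa only [hρv] using h
    have hFf : Fresh M fun z => (c + (1 / 4) * y.eval z)⁻¹ := fun z t => by dsimp only; rw [f1]
    have hnum := numerator_formula hFR he.OK.polF hFf f2 he.OK.norm_le
    have hO : (fun z => (1 / 4 : ℂ) * (e.eval z * (c + (1 / 4) * y.eval z)⁻¹)) ∈ O := by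
      have h4 : PolF fun _ : ℕ → ℂ => (1 / 4 : ℂ) := by simpa using PolF.rat (1 / 4)
      exact (h4.ratG.mul (he.OK.polF.ratG.mul hFR)).mem_O
    have hOf : Fresh M (fun z => (1 / 4 : ℂ) * (e.eval z * (c + (1 / 4) * y.eval z)⁻¹)) := fun z t => by
      dsimp only; rw [f1, f2]
    have hrep : RepS (fun z => (1 / 4 : ℂ) * (e.eval z * (c + (1 / 4) * y.eval z)⁻¹)) := by
      refine RepS.of_cFn hO hOf (RepS.of_eqv hnum (RepS.sum _ _ fun m hm => RepS.const (IsGauss.W m) ?_))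
      rw [Finset.mem_range] at hm
      set τ : Fac := ⟨![V m, 0, 0, W m, 0], ![Ex.aff 0 0 0, Ex.aff 0 0 0, Ex.aff 0 1 M]⟩ with hτ
      set κ : Fac := ⟨![1, 0, -(1 / 4) * V m, 0, -(1 / 4) * W m], ![Ex.aff 0 1 M, e, Ex.aff 0 0 0]⟩ with hκ
      have hτOK : τ.OK := by
        refine ⟨Or.inr ⟨m, hm, rfl⟩, fun j => ?_⟩
        fin_cases j
        · exact mem_LS_zero
        · exact mem_LS_zero
        · exact mem_LS_id
      have hκOK : κ.OK := by
        refine ⟨Or.inl (Or.inr ⟨m, hm, rfl⟩), fun j => ?_⟩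
        fin_cases j
        · exact mem_LS_id
        · exact he
        · exact mem_LS_zero
      have h := repS_state _ [ρ, τ, τ, κ] (fun φ hφ => by
        simp only [List.mem_cons, List.not_mem_nil, or_false] at hφ
        rcases hφ with rfl | rfl | rfl | rfl
        · exact hρOK
        · exact hτOK
        · exact hτOK
        · exact hκOK) le_rfl
      convert h using 1
      funext z
      have v1 : τ.val z = ζ m (z M) := by
        simp only [hτ, Fac.val, kv, Matrix.cons_val_zero, Matrix.cons_val_one, Matrix.cons_val, Ex.eval, ζ]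
        ring
      have v2 : κ.val z = 1 - (1 / 4 : ℂ) * (ζ m (z M) * e.eval z) := by
        simp only [hκ, Fac.val, kv, Matrix.cons_val_zero, Matrix.cons_val_one, Matrix.cons_val, Ex.eval, ζ]
        ring
      rw [sv_cons, sv_cons, sv_cons, sv_cons, hρv, v1, v2]
      simp [sv]
    have h4 := hrep.const (c := 4) (by simpa using IsGauss.rat 4)
    convert h4 using 1
    funext z
    ring

/-- **rational functions, with finitely many kernels** -/
theorem repS_ratG (hF : RatG F) : RepS F := by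
  have hFO := hF.mem_O
  obtain ⟨P0, hP0, Q0, hQ0, h00, hF0⟩ := hF
  obtain ⟨N1, hN1, hPZ⟩ := hP0.clear
  obtain ⟨N2, hN2, hQZ⟩ := hQ0.clear
  have hN1c : (N1 : ℂ) ≠ 0 := by exact_mod_cast hN1.ne'
  have hN2c : (N2 : ℂ) ≠ 0 := by exact_mod_cast hN2.ne'
  obtain ⟨P, hP⟩ : ∃ P : Fn, P = fun z => (N2 : ℂ) * ((N1 : ℂ) * P0 z) := ⟨_, rfl⟩
  obtain ⟨Q, hQ⟩ : ∃ Q : Fn, Q = fun z => (N1 : ℂ) * ((N2 : ℂ) * Q0 z) := ⟨_, rfl⟩
  have hPz : PolZ P := by rw [hP]; exact hPZ.nat_mul N2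
  have hQz : PolZ Q := by rw [hQ]; exact hQZ.nat_mul N1
  have h0 : ∀ z ∈ D, Q z ≠ 0 := fun z hz => by
    rw [hQ]; exact mul_ne_zero hN1c (mul_ne_zero hN2c (h00 z hz))
  have hFe : ∀ z, F z = P z * (Q z)⁻¹ := by
    intro z
    rw [hF0, hP, hQ]
    dsimp only
    rw [← div_eq_mul_inv, mul_left_comm (N1 : ℂ), mul_div_mul_left _ _ hN2c, mul_div_mul_left _ _ hN1c]
  obtain ⟨n1, hn1⟩ := hPz.polF.dep
  obtain ⟨n2, hn2⟩ := hQz.polF.dep
  set n := n1 + n2 with hn
  have hPn : Dep n P := hn1.mono (by omega)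
  have hQn : Dep n Q := hn2.mono (by omega)
  -- a lower bound for the denominator
  obtain ⟨C, hC, hb⟩ := exists_bound (O_inv hQz.polF.mem_O h0)
  obtain ⟨K, hK⟩ := exists_pow_lt_of_lt_one (show (0 : ℝ) < 1 / C by positivity) (show (1 / 2 : ℝ) < 1 by norm_num)
  have hlow : ∀ b s, Good b s → (1 / 2 : ℝ) ^ K < ‖Q (cor b)‖ := by
    intro b s hg
    obtain ⟨x, hx⟩ := cor_eq_pt hg
    have h1 := hb x
    rw [hx, norm_inv] at h1
    have h2 : 0 < ‖Q (cor b)‖ := norm_pos_iff.2 (by rw [← hx]; exact h0 _ (pt_mem_D x))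
    have h3 : 1 / C ≤ ‖Q (cor b)‖ := by
      rw [div_le_iff₀ hC]
      have := mul_le_mul_of_nonneg_left h1 h2.le
      rw [mul_inv_cancel₀ h2.ne'] at this
      exact this
    linarith
  set L := K + 11 with hL
  obtain ⟨δ, hδ, h1⟩ := small_polZ hPz 0
  obtain ⟨δ', hδ', h2⟩ := small_polZ hQz L
  obtain ⟨N, hN⟩ := exists_pow_lt_of_lt_one (lt_min hδ hδ') (show (1 / 2 : ℝ) < 1 by norm_num)
  refine AllRepS.repS (n := n) (e := N) hFO fun b hbd hg => ?_
  -- the other variables do not matter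
  set b' : ℕ → ℚ := fun k => if k < n then b k else 0 with hb'
  set s' : ℕ → ℚ := fun k => (1 / 2) ^ N with hs'
  have hg' : Good b' s' := by
    intro k
    by_cases hk : k < n
    · have := hg k
      simp only [sd, hk, if_true] at this
      simpa only [hb', hs', hk, if_true] using this
    · simp only [hb', hs', hk, if_false]
      exact ⟨by positivity, le_rfl, by rw [zero_add]; exact pow_le_one₀ (by norm_num) (by norm_num)⟩
  have hb'd : ∀ k, IsDy (b' k : ℂ) := by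
    intro k
    simp only [hb']
    split_ifs
    · exact hbd k
    · simpa using IsDy.int 0
  have hs'd : ∀ k, IsDy (s' k : ℂ) := fun k => dy_half_pow N
  have hsmall : ∀ k, (s' k : ℝ) < min δ δ' := by
    intro k
    simp only [hs']
    push_cast
    exact hN
  obtain ⟨e, he, h3⟩ := h1 b' s' hb'd hs'd hg' fun k => (hsmall k).trans_le (min_le_left _ _)
  obtain ⟨e', he', h4⟩ := h2 b' s' hb'd hs'd hg' fun k => (hsmall k).trans_le (min_le_right _ _)
  have hbx : ∀ z, ∀ k < n, bx b (sd n N) z k = bx b' s' z k := by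
    intro z k hk
    simp [bx, sd, hb', hs', hk]
  -- normalisation of the denominator
  set c0 := Q (cor b') with hc0
  have hc0D : IsDy c0 := hQz.dy hb'd
  have hc0l := hlow b' s' hg'
  rw [← hc0] at hc0l
  have hc0p : 0 < ‖c0‖ := lt_trans (by positivity) hc0l
  obtain ⟨k, hk1, hk2⟩ := exists_mem_Ico_zpow hc0p (show (1 : ℝ) < 2 by norm_num)
  have hkK : -(K : ℤ) < k + 1 := by
    have h5 : (2 : ℝ) ^ (-(K : ℤ)) < 2 ^ (k + 1) := by
      rw [zpow_neg, zpow_natCast]
      have : ((2 : ℝ) ^ K)⁻¹ = (1 / 2) ^ K := by rw [one_div, inv_pow]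
      rw [this]
      exact hc0l.trans hk2
    exact (zpow_lt_zpow_iff_right₀ (by norm_num)).1 h5
  obtain ⟨J, hJ⟩ : ∃ J : ℕ, (J : ℤ) = L + (k + 1) - 7 := ⟨(L + (k + 1) - 7).toNat, by
    rw [Int.toNat_of_nonneg]; omega⟩
  have hJ4 : 4 ≤ J := by omega
  set c' := c0 / 2 ^ (k + 1) with hc'
  have h2z : (2 : ℂ) ^ (k + 1) ≠ 0 := zpow_ne_zero _ two_ne_zero
  have hc'D : IsDy c' := hc0D.div_zpow _
  have hc'n : ‖c'‖ = ‖c0‖ / 2 ^ (k + 1) := by rw [hc', norm_div, norm_zpow, Complex.norm_ofNat]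
  have hzp : (0 : ℝ) < 2 ^ (k + 1) := by positivity
  have hc'1 : ‖c'‖ ≤ 1 := by rw [hc'n, div_le_one hzp]; exact hk2.le
  have hc'2 : 1 / 2 ≤ ‖c'‖ := by
    rw [hc'n, le_div_iff₀ hzp, zpow_add_one₀ (by norm_num)]
    linarith
  obtain ⟨p, q, hp, hq, hpq⟩ := round_grid 14 hc'1
  set c := ((p : ℂ) + q * Complex.I) / 2 ^ 14 with hc
  have hcD : IsDy c := ⟨p, q, 14, rfl⟩
  have hcG : c ∈ Grid 14 := ⟨p, q, hp, hq, rfl⟩
  have hcn : 1 / 4 < ‖c‖ := by
    have h5 : ‖c'‖ - ‖c' - c‖ ≤ ‖c‖ := by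
      have := norm_sub_le c' (c' - c)
      rw [sub_sub_cancel] at this
      have h6 := norm_sub_norm_le c' (c' - c)
      rw [sub_sub_cancel] at h6
      exact h6
    have h6 : (2 : ℝ) / 2 ^ 14 < 1 / 4 := by norm_num
    linarith
  obtain ⟨e₁, he₁, -, hev1⟩ := exists_const (c := 2 ^ 7 * (c' - c)) ((hc'D.sub hcD).mul_pow 7) (by
    rw [norm_mul, norm_pow, Complex.norm_ofNat]
    calc (2 : ℝ) ^ 7 * ‖c' - c‖ ≤ 2 ^ 7 * (2 / 2 ^ 14) := by gcongr
      _ = 1 / 64 := by norm_num)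
  obtain ⟨e₂, he₂, -, hev2⟩ := scale_expr J hJ4 e' he'
  obtain ⟨r1, r2⟩ := repS_quot hcG hcn (eadd_In he₁ he₂)
  have hQe : ∀ z, (Q (bx b (sd n N) z))⁻¹ = (2 ^ (k + 1))⁻¹ * (c + (1 / 4) * (eadd e₁ e₂).eval z)⁻¹ := by
    intro z
    rw [← mul_inv]
    congr 1
    rw [hQn _ _ (hbx z), h4, eadd_eval, hev1, hev2]
    have e5 : (2 : ℂ) ^ L * 2 ^ (k + 1) = 2 ^ J * 2 ^ 7 := by
      have h7 : (2 : ℂ) ^ ((L : ℤ) + (k + 1)) = 2 ^ ((J : ℤ) + 7) := by congr 1; omega
      rw [zpow_add₀ two_ne_zero (L : ℤ) (k + 1), zpow_add₀ two_ne_zero (J : ℤ) 7, zpow_natCast, zpow_natCast] at h7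
      rw [h7]
      norm_num
    have e6 : (2 : ℂ) ^ (k + 1) * c' = c0 := by rw [hc']; field_simp
    have hL0 : (2 : ℂ) ^ L ≠ 0 := pow_ne_zero _ two_ne_zero
    have hJ0 : (2 : ℂ) ^ J ≠ 0 := pow_ne_zero _ two_ne_zero
    have e7 : e'.eval z / 2 ^ L = 2 ^ (k + 1) * (e'.eval z / (2 ^ J * 2 ^ 7)) := by
      rw [← e5]; field_simp
    rw [e7, ← e6]
    ring
  have hPG : IsGauss (P (cor b')) := hPz.polF.gauss b'
  have h2G : IsGauss ((2 ^ (k + 1) : ℂ)⁻¹) := by
    refine ⟨((2 : ℚ) ^ (k + 1))⁻¹, 0, ?_⟩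
    push_cast
    ring
  have r3 := ((RepS.const hPG r1).add (r2 he)).const h2G
  convert r3 using 1
  funext z
  rw [hFe, hQe, hPn _ _ (hbx z), h3, pow_zero, div_one]
  ring

end Pool.Agent.H39.KP
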