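import Pool.Agent.H39.KP.Ker

namespace Pool.Agent.H39.KP

open Function Filter Topology

variable {f g F G u v : Fn}

def Ex.In : Ex → Prop
  | .aff A B _ => (A, B) ∈ LS
  | .op c₁ c₂ c₃ a b => (c₁, c₂, c₃) ∈ TS ∧ a.In ∧ b.In

theorem Ex.In.OK : ∀ {e : Ex}, e.In → e.OK
  | .aff _ _ _, h => LS_gauss h
  | .op _ _ _ _ _, h => ⟨(TS_gauss h.1).1, (TS_gauss h.1).2.1, (TS_gauss h.1).2.2.1, (TS_gauss h.1).2.2.2, h.2.1.OK, h.2.2.OK⟩

open Classical in
/-- the number of occurrences of the variable `y` -/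
noncomputable def Ex.cnt (y : ℕ) : Ex → ℕ
  | .aff _ B x => if x = y ∧ B ≠ 0 then 1 else 0
  | .op _ _ _ a b => a.cnt y + b.cnt y

theorem Ex.cnt_const (y : ℕ) (A : ℂ) (x : ℕ) : (Ex.aff A 0 x).cnt y = 0 := by simp [Ex.cnt]

theorem Ex.fresh_of_cnt {y : ℕ} : ∀ {e : Ex}, e.cnt y = 0 → Fresh y e.eval
  | .aff A B x, h => by
    intro z t
    simp only [Ex.cnt, ite_eq_right_iff, one_ne_zero, imp_false, not_and, not_not] at h
    simp only [Ex.eval]
    by_cases hx : x = y
    · rw [h hx]; simp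
    · rw [update_of_ne hx]
  | .op c₁ c₂ c₃ a b, h => by
    intro z t
    simp only [Ex.cnt, Nat.add_eq_zero_iff] at h
    simp only [Ex.eval, fresh_of_cnt h.1 z t, fresh_of_cnt h.2 z t]

theorem Ex.exists_cnt : ∀ e : Ex, ∃ M, ∀ i ≥ M, e.cnt i = 0
  | .aff A B x => ⟨x + 1, fun i hi => by
      simp only [Ex.cnt]
      rw [if_neg (fun h => by omega)]⟩
  | .op c₁ c₂ c₃ a b => by
      obtain ⟨M, hM⟩ := exists_cnt a
      obtain ⟨M', hM'⟩ := exists_cnt b
      exact ⟨M + M', fun i hi => by simp only [Ex.cnt, hM i (by omega), hM' i (by omega)]⟩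

/-- the variables between `n` and `t` occur only as themselves -/
def Ex.Pure (n t : ℕ) : Ex → Prop
  | .aff A B x => n ≤ x → x < t → (A = 0 ∧ B = 1) ∨ B = 0
  | .op _ _ _ a b => a.Pure n t ∧ b.Pure n t

theorem Ex.pure_of_cnt {n t : ℕ} : ∀ {e : Ex}, (∀ x, e.cnt x = 0) → e.Pure n t
  | .aff A B x, h => fun _ _ => by
    have := h x
    simp only [Ex.cnt, true_and, ite_eq_right_iff, one_ne_zero, imp_false, not_not] at this
    exact Or.inr this
  | .op c₁ c₂ c₃ a b, h => by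
    have h1 : ∀ x, a.cnt x = 0 ∧ b.cnt x = 0 := fun x => by
      have := h x
      simp only [Ex.cnt, Nat.add_eq_zero_iff] at this
      exact this
    exact ⟨pure_of_cnt fun x => (h1 x).1, pure_of_cnt fun x => (h1 x).2⟩

/-- a kernel with expressions -/
structure Fac where
  a : Fin 5 → ℂ
  p : Fin 3 → Ex

namespace Fac

noncomputable def val (φ : Fac) : Fn := fun z => kv φ.a fun j => (φ.p j).eval z

def OK (φ : Fac) : Prop := φ.a ∈ S0 ∧ ∀ j, (φ.p j).In

def size (φ : Fac) : ℕ := ∑ j, (φ.p j).size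

theorem OK.ne {φ : Fac} (h : φ.OK) : ∀ z ∈ D, φ.val z ≠ 0 := fun z hz =>
  (S0_good h.1).2 _ fun j => (h.2 j).OK.norm_le z hz

theorem OK.polF {φ : Fac} (h : φ.OK) : PolF φ.val := kv_polF (S0_good h.1).1 fun j => (h.2 j).OK.polF

end Fac

/-- the product of the reciprocals -/
noncomputable def sv (Φ : List Fac) : Fn := fun z => (Φ.map fun φ => (φ.val z)⁻¹).prod

theorem sv_cons (φ : Fac) (Φ : List Fac) (z : ℕ → ℂ) : sv (φ :: Φ) z = (φ.val z)⁻¹ * sv Φ z := by
  simp [sv]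

theorem sv_ratG : ∀ {Φ : List Fac}, (∀ φ ∈ Φ, φ.OK) → RatG (sv Φ)
  | [], _ => by
    have := (PolF.rat 1).ratG
    convert this using 1
    funext z
    simp [sv]
  | φ :: Φ, h => by
    have h1 := (RatG.inv (h φ (by simp)).polF (h φ (by simp)).ne).mul (sv_ratG (Φ := Φ) fun ψ hψ => h ψ (by simp [hψ]))
    convert h1 using 1
    funext z
    rw [sv_cons]

theorem exists_fresh_state : ∀ Φ : List Fac, ∃ M, ∀ i ≥ M, ∀ φ ∈ Φ, ∀ j, Fresh i (φ.p j).eval
  | [] => ⟨0, fun i _ φ hφ => absurd hφ (by simp)⟩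
  | φ :: Φ => by
    obtain ⟨M, hM⟩ := exists_fresh_state Φ
    obtain ⟨M0, h0⟩ := (φ.p 0).exists_fresh
    obtain ⟨M1, h1⟩ := (φ.p 1).exists_fresh
    obtain ⟨M2, h2⟩ := (φ.p 2).exists_fresh
    refine ⟨M + M0 + M1 + M2, fun i hi ψ hψ j => ?_⟩
    rcases List.mem_cons.1 hψ with rfl | hψ
    · fin_cases j
      · exact h0 i (by omega)
      · exact h1 i (by omega)
      · exact h2 i (by omega)
    · exact hM i (by omega) ψ hψ j

theorem sv_perm {Φ Ψ : List Fac} (h : Φ.Perm Ψ) (z : ℕ → ℂ) : sv Φ z = sv Ψ z := (h.map _).prod_eq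

theorem kernel_leaf {φ : Fac} (h : φ.OK) (hs : φ.size = 0) : ∃ a ∈ SS, ∃ x : Fin 3 → ℕ, ∀ z, φ.val z = kv a fun j => z (x j) := by
  have h1 : ∀ j, (φ.p j).size = 0 := fun j => Finset.sum_eq_zero_iff.1 hs j (Finset.mem_univ j)
  choose A B x hx using fun j => Ex.aff_of_size _ (h1 j)
  have hl : ∀ j, (A j, B j) ∈ LS := fun j => by
    have := h.2 j
    rw [hx j] at this
    exact this
  refine ⟨cmb φ.a fun j => (A j, B j), Or.inl ⟨(φ.a, fun j => (A j, B j)), ⟨h.1, fun j _ => hl j⟩, rfl⟩, x, fun z => ?_⟩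
  rw [kv_cmb]
  unfold Fac.val
  congr 1
  funext j
  rw [hx j]
  rfl

theorem sv_mono : ∀ {Φ : List Fac}, (∀ φ ∈ Φ, φ.OK) → (∀ φ ∈ Φ, φ.size = 0) → MonoS SS (sv Φ)
  | [], _, _ => by
    have := MonoS.one (S := SS)
    convert this using 1
    funext z
    simp [sv]
  | φ :: Φ, h, hs => by
    obtain ⟨a, ha, x, hx⟩ := kernel_leaf (h φ (by simp)) (hs φ (by simp))
    have h1 := (MonoS.ker ha x).mul (sv_mono (Φ := Φ) (fun ψ hψ => h ψ (by simp [hψ])) fun ψ hψ => hs ψ (by simp [hψ]))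
    convert h1 using 1
    funext z
    rw [sv_cons, hx]

theorem mem_S0_op {m : ℕ} (hm : m < 16) {c₁ c₂ c₃ : ℂ} (h : (c₁, c₂, c₃) ∈ TS) : ![V m, -4 * c₁, -4 * c₂, W m, -4 * c₃] ∈ S0 :=
  Or.inl (Or.inl (Or.inl ⟨(m, (c₁, c₂, c₃)), ⟨hm, h⟩, rfl⟩))

theorem mem_LS_id : ((0 : ℂ), (1 : ℂ)) ∈ LS := Or.inl (Or.inl rfl)

theorem mem_LS_zeta {m : ℕ} (hm : m < 16) : (V m / 4, W m / 4) ∈ LS := Or.inl (Or.inr ⟨m, hm, rfl⟩)

/-- **elimination of the operations, with finitely many kernels** -/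
theorem repS_state (N : ℕ) : ∀ Φ : List Fac, (∀ φ ∈ Φ, φ.OK) → (Φ.map Fac.size).sum ≤ N → RepS (sv Φ) := by
  induction N with
  | zero =>
    intro Φ hΦ hN
    refine RepS.mono (sv_mono hΦ fun φ hφ => ?_)
    have h1 := List.sum_eq_zero_iff.1 (Nat.le_zero.1 hN)
    exact h1 _ (List.mem_map.2 ⟨φ, hφ, rfl⟩)
  | succ N ih =>
    intro Φ hΦ hN
    by_cases hall : ∀ φ ∈ Φ, φ.size = 0
    · exact RepS.mono (sv_mono hΦ hall)
    push Not at hall
    obtain ⟨φ, hφ, hφs⟩ := hall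
    obtain ⟨l₁, l₂, rfl⟩ := List.append_of_mem hφ
    have hperm : (l₁ ++ φ :: l₂).Perm (φ :: (l₁ ++ l₂)) := List.perm_middle
    set Φ' := l₁ ++ l₂ with hΦ'
    have hOKφ : φ.OK := hΦ φ hφ
    have hOK' : ∀ ψ ∈ Φ', ψ.OK := fun ψ hψ => hΦ ψ (by
      rcases List.mem_append.1 hψ with h | h
      · simp [h]
      · simp [h])
    have hsum : φ.size + (Φ'.map Fac.size).sum ≤ N + 1 := by
      have := (hperm.map Fac.size).sum_eq
      rw [List.map_cons, List.sum_cons] at this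
      omega
    refine RepS.of_eq (g := sv (φ :: Φ')) (fun x => sv_perm hperm _) ?_
    obtain ⟨j0, hj0⟩ : ∃ j0, (φ.p j0).size ≠ 0 := by
      by_contra hcon
      push Not at hcon
      exact hφs (Finset.sum_eq_zero fun j _ => hcon j)
    obtain ⟨c₁, c₂, c₃, a, b, hop⟩ : ∃ c₁ c₂ c₃ a b, φ.p j0 = Ex.op c₁ c₂ c₃ a b := by
      cases h : φ.p j0 with
      | aff c₀ c₁ i => rw [h] at hj0; exact absurd rfl hj0
      | op c₁ c₂ c₃ a b => exact ⟨c₁, c₂, c₃, a, b, rfl⟩
    have hIn := hOKφ.2 j0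
    rw [hop] at hIn
    obtain ⟨hT, haI, hbI⟩ := hIn
    obtain ⟨hc1, hc2, hc3, hc⟩ := TS_gauss hT
    obtain ⟨M, hM⟩ := exists_fresh_state (φ :: Φ')
    have hMφ : ∀ j, Fresh M (φ.p j).eval := fun j => hM M le_rfl φ (by simp) j
    have hMs : Fresh M (sv Φ') := by
      intro z t
      unfold sv
      congr 1
      apply List.map_congr_left
      intro ψ hψ
      unfold Fac.val
      simp only [hM M le_rfl ψ (by simp [hψ]) _ z t]
    set v : Fn := (φ.p j0).eval with hv
    have hvz : ∀ z, v z = c₁ * a.eval z + c₂ * b.eval z + c₃ * (a.eval z * b.eval z) := by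
      intro z; rw [hv, hop]; rfl
    have hvP : PolF v := (hOKφ.2 j0).OK.polF
    have hvb : ∀ z ∈ D, ‖v z‖ ≤ 1 / 16 := fun z hz => by
      rw [hvz]; exact Ex.op_norm_le hc (haI.OK.norm_le z hz) (hbI.OK.norm_le z hz)
    set G : Fn := fun z => (kv φ.a (update (fun j => (φ.p j).eval z) j0 (z M)))⁻¹ * sv Φ' z with hG
    have hGR : RatG G := by
      refine (RatG.inv (kv_polF (S0_good hOKφ.1).1 fun j => ?_) fun z hz => (S0_good hOKφ.1).2 _ fun j => ?_).mul (sv_ratG hOK')
      · by_cases hj : j = j0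
        · subst hj; simpa using PolF.coord M
        · simpa [update_of_ne hj] using (hOKφ.2 j).OK.polF
      · by_cases hj : j = j0
        · subst hj; simpa using hz M
        · simpa [update_of_ne hj] using (hOKφ.2 j).OK.norm_le z hz
    have hsub := subst_formula hGR hvP (hMφ j0) hvb
    have hGu : ∀ z t, G (update z M t) = (kv φ.a (update (fun j => (φ.p j).eval z) j0 t))⁻¹ * sv Φ' z := by
      intro z t
      simp only [hG, hMs z t, hMφ _ z t, update_self]
    have hGv : ∀ z, G (update z M (v z)) = sv (φ :: Φ') z := by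
      intro z
      rw [hGu, sv_cons]
      congr 3
      rw [hv]
      exact update_eq_self j0 (fun j => (φ.p j).eval z)
    have hfO : sv (φ :: Φ') ∈ O := (sv_ratG (Φ := φ :: Φ') fun ψ hψ => by
      rcases List.mem_cons.1 hψ with rfl | h
      · exact hOKφ
      · exact hOK' ψ h).mem_O
    have hfM : Fresh M (sv (φ :: Φ')) := by
      intro z t
      rw [sv_cons, sv_cons, hMs z t]
      unfold Fac.val
      simp only [hMφ _ z t]
    refine RepS.of_cFn hfO hfM ?_
    have hsub' : Eqv (fun z => cFn (z M) * sv (φ :: Φ') z)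
        (fun z => ∑ m ∈ Finset.range 16, W m * (G (update z M (ζ m (z M) / 4)) * (ζ m (z M) - 4 * v z)⁻¹)) := by
      simpa only [hGv] using hsub
    refine RepS.of_eqv hsub' (RepS.sum _ _ fun m hm => RepS.const (IsGauss.W m) ?_)
    rw [Finset.mem_range] at hm
    set ψ₁ : Fac := ⟨φ.a, update φ.p j0 (Ex.aff (V m / 4) (W m / 4) M)⟩ with hψ₁
    set ψ₂ : Fac := ⟨![V m, -4 * c₁, -4 * c₂, W m, -4 * c₃], ![a, b, Ex.aff 0 1 M]⟩ with hψ₂
    have hres := ih (ψ₁ :: ψ₂ :: Φ') (fun ψ hψ => ?_) ?_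
    · convert hres using 1
      funext z
      rw [sv_cons, sv_cons, hGu]
      have e1 : ψ₁.val z = kv φ.a (update (fun j => (φ.p j).eval z) j0 (ζ m (z M) / 4)) := by
        simp only [hψ₁, Fac.val]
        congr 1
        funext j
        by_cases hj : j = j0
        · subst hj
          simp only [update_self, Ex.eval, ζ]
          ring
        · simp only [update_of_ne hj]
      have e2 : ψ₂.val z = ζ m (z M) - 4 * v z := by
        simp only [hψ₂, Fac.val, kv, hvz, Matrix.cons_val_zero, Matrix.cons_val_one, Matrix.cons_val, Ex.eval, ζ]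
        ring
      rw [e1, e2]
      ring
    · rcases List.mem_cons.1 hψ with rfl | hψ
      · refine ⟨hOKφ.1, fun j => ?_⟩
        by_cases hj : j = j0
        · subst hj
          simp only [hψ₁, update_self]
          exact mem_LS_zeta hm
        · simp only [hψ₁, update_of_ne hj]
          exact hOKφ.2 j
      · rcases List.mem_cons.1 hψ with rfl | hψ
        · refine ⟨mem_S0_op hm hT, fun j => ?_⟩
          fin_cases j
          · exact haI
          · exact hbI
          · exact mem_LS_id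
        · exact hOK' ψ hψ
    · rw [List.map_cons, List.map_cons, List.sum_cons, List.sum_cons]
      have s1 : ψ₁.size + (a.size + b.size + 1) = φ.size := by
        unfold Fac.size
        rw [← Finset.add_sum_erase _ _ (Finset.mem_univ j0), ← Finset.add_sum_erase (a := j0) _ (fun j => (φ.p j).size) (Finset.mem_univ j0)]
        have q1 : (ψ₁.p j0).size = 0 := by simp [hψ₁, Ex.size]
        have q2 : (φ.p j0).size = a.size + b.size + 1 := by rw [hop]; rfl
        have q3 : ∑ x ∈ Finset.univ.erase j0, (ψ₁.p x).size = ∑ x ∈ Finset.univ.erase j0, (φ.p x).size := by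
          apply Finset.sum_congr rfl
          intro j hj
          simp only [hψ₁, update_of_ne (Finset.ne_of_mem_erase hj)]
        rw [q1, q2, q3]
        ring
      have s2 : ψ₂.size = a.size + b.size := by
        simp [hψ₂, Fac.size, Fin.sum_univ_three, Ex.size]
      omega

end Pool.Agent.H39.KP
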