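import Pool.Agent.H39.KP.NFRat

namespace Pool.Agent.H39.KP

open Function Filter Topology

variable {f g F G u v : Fn}

/-- the polynomial `a₀ + a₁ x + a₂ y + a₃ t + a₄ x y` -/
def kv (a : Fin 5 → ℂ) (w : Fin 3 → ℂ) : ℂ := a 0 + a 1 * w 0 + a 2 * w 1 + a 3 * w 2 + a 4 * (w 0 * w 1)

/-- Gaussian numbers with the denominator `2 ^ N` -/
def Grid (N : ℕ) : Set ℂ := {c | ∃ a b : ℤ, |a| ≤ 2 ^ N ∧ |b| ≤ 2 ^ N ∧ c = ((a : ℂ) + b * Complex.I) / 2 ^ N}

/-- coefficients of the leaves -/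
def LS : Set (ℂ × ℂ) := {((0 : ℂ), (1 : ℂ))} ∪ (fun m : ℕ => (V m / 4, W m / 4)) '' Set.Iio 16 ∪ (fun c : ℂ => (c, (0 : ℂ))) '' {c | c ∈ Grid 7 ∧ ‖c‖ ≤ 1}

/-- coefficients of the operations -/
def TS : Set (ℂ × ℂ × ℂ) := {(1 / 32, 1 / 32, 0), (0, 0, 1 / 16), (1 / 32, Complex.I * (1 / 32), 0), (1 / 16, 0, 0)}

/-- coefficients of the kernels -/
def S0 : Set (Fin 5 → ℂ) := (fun q : ℕ × (ℂ × ℂ × ℂ) => ![V q.1, -4 * q.2.1, -4 * q.2.2.1, W q.1, -4 * q.2.2.2]) '' (Set.Iio 16 ×ˢ TS)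
  ∪ (fun c : ℂ => ![c, 1 / 4, 0, 0, 0]) '' {c | c ∈ Grid 14 ∧ 1 / 4 < ‖c‖}
  ∪ (fun m : ℕ => ![1, 0, -(1 / 4) * V m, 0, -(1 / 4) * W m]) '' Set.Iio 16
  ∪ (fun m : ℕ => ![V m, 0, 0, W m, 0]) '' Set.Iio 16

/-- composition with affine functions -/
def cmb (a : Fin 5 → ℂ) (l : Fin 3 → ℂ × ℂ) : Fin 5 → ℂ :=
  ![a 0 + a 1 * (l 0).1 + a 2 * (l 1).1 + a 3 * (l 2).1 + a 4 * ((l 0).1 * (l 1).1),
    a 1 * (l 0).2 + a 4 * ((l 0).2 * (l 1).1), a 2 * (l 1).2 + a 4 * ((l 0).1 * (l 1).2), a 3 * (l 2).2,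
    a 4 * ((l 0).2 * (l 1).2)]

theorem kv_cmb (a : Fin 5 → ℂ) (l : Fin 3 → ℂ × ℂ) (w : Fin 3 → ℂ) :
    kv (cmb a l) w = kv a fun j => (l j).1 + (l j).2 * w j := by
  simp only [kv, cmb, Matrix.cons_val_zero, Matrix.cons_val_one, Matrix.cons_val]
  ring

/-- the kernels for `π` -/
noncomputable def Spi : Set (Fin 5 → ℂ) := {![2, 0, 0, Complex.I, 0], ![2, 0, 0, -Complex.I, 0], ![2 + Complex.I, 0, 0, Complex.I, 0],
  ![2 - Complex.I, 0, 0, -Complex.I, 0]}

/-- all kernels -/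
noncomputable def SS : Set (Fin 5 → ℂ) := (fun q : (Fin 5 → ℂ) × (Fin 3 → ℂ × ℂ) => cmb q.1 q.2) '' (S0 ×ˢ Set.pi Set.univ fun _ => LS) ∪ Spi

theorem finite_grid (N : ℕ) : (Grid N).Finite := by
  have h : Grid N ⊆ (fun q : ℤ × ℤ => ((q.1 : ℂ) + q.2 * Complex.I) / 2 ^ N) '' (Set.Icc (-2 ^ N) (2 ^ N) ×ˢ Set.Icc (-2 ^ N) (2 ^ N)) := by
    rintro c ⟨a, b, ha, hb, rfl⟩
    exact ⟨(a, b), ⟨abs_le.1 ha, abs_le.1 hb⟩, rfl⟩
  exact (((Set.finite_Icc _ _).prod (Set.finite_Icc _ _)).image _).subset h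

theorem finite_LS : LS.Finite :=
  ((Set.finite_singleton _).union ((Set.finite_Iio 16).image _)).union (((finite_grid 7).subset fun _ h => h.1).image _)

theorem finite_TS : TS.Finite := by
  unfold TS
  exact Set.toFinite _

theorem finite_S0 : S0.Finite :=
  (((((Set.finite_Iio 16).prod finite_TS).image _).union (((finite_grid 14).subset fun _ h => h.1).image _)).union
    ((Set.finite_Iio 16).image _)).union ((Set.finite_Iio 16).image _)

theorem finite_SS : SS.Finite := by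
  refine ((finite_S0.prod (Set.Finite.pi fun _ => finite_LS)).image _).union ?_
  unfold Spi
  exact Set.toFinite _

theorem gauss_grid {N : ℕ} {c : ℂ} (h : c ∈ Grid N) : IsGauss c := by
  obtain ⟨a, b, -, -, rfl⟩ := h
  refine ⟨a / 2 ^ N, b / 2 ^ N, ?_⟩
  push_cast
  ring

theorem LS_gauss {l : ℂ × ℂ} (h : l ∈ LS) : IsGauss l.1 ∧ IsGauss l.2 ∧ ‖l.1‖ + ‖l.2‖ ≤ 1 := by
  have h4 : IsGauss (1 / 4) := by simpa using IsGauss.rat (1 / 4)
  rcases h with (h | ⟨m, -, rfl⟩) | ⟨c, ⟨hc, hc1⟩, rfl⟩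
  · rw [Set.mem_singleton_iff] at h
    subst h
    exact ⟨IsGauss.zero, IsGauss.one, by simp⟩
  · refine ⟨?_, ?_, ?_⟩
    · dsimp only; rw [div_eq_mul_one_div]; exact (IsGauss.V m).mul h4
    · dsimp only; rw [div_eq_mul_one_div]; exact (IsGauss.W m).mul h4
    · have h0 : ‖V m‖ ≤ 3 / 2 := by
        have h1 := norm_zeta m 0
        rw [zeta_zero, mul_zero, add_zero] at h1
        rw [h1]
        have := (norm_base m).2
        linarith
      have h2 : ‖W m‖ = 1 / 2 := by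
        unfold W
        rw [norm_mul, norm_pow, Complex.norm_I, one_pow, one_mul, norm_div, Complex.norm_I]
        norm_num
      simp only [norm_div, Complex.norm_ofNat]
      rw [h2]
      linarith
  · exact ⟨gauss_grid hc, IsGauss.zero, by simpa using hc1⟩

theorem TS_gauss {c₁ c₂ c₃ : ℂ} (h : (c₁, c₂, c₃) ∈ TS) : IsGauss c₁ ∧ IsGauss c₂ ∧ IsGauss c₃ ∧ ‖c₁‖ + ‖c₂‖ + ‖c₃‖ ≤ 1 / 16 := by
  have h32 : IsGauss (1 / 32) := by simpa using IsGauss.rat (1 / 32)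
  have h16 : IsGauss (1 / 16) := by simpa using IsGauss.rat (1 / 16)
  simp only [TS, Set.mem_insert_iff, Set.mem_singleton_iff, Prod.mk.injEq] at h
  rcases h with ⟨rfl, rfl, rfl⟩ | ⟨rfl, rfl, rfl⟩ | ⟨rfl, rfl, rfl⟩ | ⟨rfl, rfl, rfl⟩
  · exact ⟨h32, h32, IsGauss.zero, by norm_num⟩
  · exact ⟨IsGauss.zero, IsGauss.zero, h16, by norm_num⟩
  · refine ⟨h32, IsGauss.I.mul h32, IsGauss.zero, ?_⟩
    rw [norm_mul, Complex.norm_I]
    norm_num
  · exact ⟨h16, IsGauss.zero, IsGauss.zero, by norm_num⟩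

/-- good kernels -/
def GoodK (a : Fin 5 → ℂ) : Prop := (∀ i, IsGauss (a i)) ∧ ∀ w : Fin 3 → ℂ, (∀ j, ‖w j‖ ≤ 1) → kv a w ≠ 0

theorem fin5 {p : Fin 5 → Prop} (h0 : p 0) (h1 : p 1) (h2 : p 2) (h3 : p 3) (h4 : p 4) : ∀ i, p i := by
  intro i
  fin_cases i
  exacts [h0, h1, h2, h3, h4]

theorem S0_good {a : Fin 5 → ℂ} (h : a ∈ S0) : GoodK a := by
  have h4 : IsGauss (-4) := by simpa using IsGauss.rat (-4)
  have hq : IsGauss (1 / 4) := by simpa using IsGauss.rat (1 / 4)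
  rcases h with ((⟨⟨m, c₁, c₂, c₃⟩, ⟨-, hT⟩, rfl⟩ | ⟨c, ⟨hc, hc1⟩, rfl⟩) | ⟨m, -, rfl⟩) | ⟨m, -, rfl⟩
  · obtain ⟨g1, g2, g3, hc⟩ := TS_gauss hT
    refine ⟨fin5 ?_ ?_ ?_ ?_ ?_, fun w hw h0 => ?_⟩
    · exact IsGauss.V m
    · exact h4.mul g1
    · exact h4.mul g2
    · exact IsGauss.W m
    · exact h4.mul g3
    · have h5 := Ex.op_norm_le hc (hw 0) (hw 1)
      have hl := zeta_lower m (hw 2)
      have e : ζ m (w 2) = 4 * (c₁ * w 0 + c₂ * w 1 + c₃ * (w 0 * w 1)) := by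
        simp only [kv, Matrix.cons_val_zero, Matrix.cons_val_one, Matrix.cons_val] at h0
        simp only [ζ]
        linear_combination h0
      rw [e, norm_mul, Complex.norm_ofNat] at hl
      linarith
  · refine ⟨fin5 ?_ ?_ ?_ ?_ ?_, fun w hw h0 => ?_⟩
    · exact gauss_grid hc
    · exact hq
    · exact IsGauss.zero
    · exact IsGauss.zero
    · exact IsGauss.zero
    · simp only [kv, Matrix.cons_val_zero, Matrix.cons_val_one, Matrix.cons_val] at h0
      have e : c = -(1 / 4 * w 0) := by linear_combination h0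
      have h1 := hw 0
      have h3 : ‖(1 / 4 : ℂ)‖ = 1 / 4 := by norm_num
      have h2 : 1 / 4 < ‖c‖ := hc1
      rw [e, norm_neg, norm_mul, h3] at h2
      linarith
  · refine ⟨fin5 ?_ ?_ ?_ ?_ ?_, fun w hw h0 => ?_⟩
    · exact IsGauss.one
    · exact IsGauss.zero
    · exact hq.neg.mul (IsGauss.V m)
    · exact IsGauss.zero
    · exact hq.neg.mul (IsGauss.W m)
    · simp only [kv, Matrix.cons_val_zero, Matrix.cons_val_one, Matrix.cons_val] at h0
      have e1 : (1 / 4 : ℂ) * (ζ m (w 0) * w 1) = 1 := by simp only [ζ]; linear_combination -h0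
      have e2 := congrArg norm e1
      rw [norm_mul, norm_mul, norm_one] at e2
      have e3 : ‖(1 / 4 : ℂ)‖ = 1 / 4 := by norm_num
      have hu := zeta_upper m (hw 0)
      have h1 := hw 1
      rw [e3] at e2
      nlinarith [norm_nonneg (ζ m (w 0)), norm_nonneg (w 1)]
  · refine ⟨fin5 ?_ ?_ ?_ ?_ ?_, fun w hw h0 => ?_⟩
    · exact IsGauss.V m
    · exact IsGauss.zero
    · exact IsGauss.zero
    · exact IsGauss.W m
    · exact IsGauss.zero
    · simp only [kv, Matrix.cons_val_zero, Matrix.cons_val_one, Matrix.cons_val] at h0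
      have hl := zeta_ne m (hw 2)
      apply hl
      simp only [ζ]
      linear_combination h0

theorem SS_good {a : Fin 5 → ℂ} (h : a ∈ SS) : GoodK a := by
  rcases h with ⟨⟨a, l⟩, ⟨ha, hl⟩, rfl⟩ | h
  · obtain ⟨g1, g2⟩ := S0_good ha
    have hl' : ∀ j, l j ∈ LS := fun j => hl j (Set.mem_univ j)
    have k := fun j => LS_gauss (hl' j)
    refine ⟨fin5 ?_ ?_ ?_ ?_ ?_, fun w hw => ?_⟩
    · exact ((((g1 0).add ((g1 1).mul (k 0).1)).add ((g1 2).mul (k 1).1)).add ((g1 3).mul (k 2).1)).add ((g1 4).mul ((k 0).1.mul (k 1).1))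
    · exact ((g1 1).mul (k 0).2.1).add ((g1 4).mul ((k 0).2.1.mul (k 1).1))
    · exact ((g1 2).mul (k 1).2.1).add ((g1 4).mul ((k 0).1.mul (k 1).2.1))
    · exact (g1 3).mul (k 2).2.1
    · exact (g1 4).mul ((k 0).2.1.mul (k 1).2.1)
    · show kv (cmb a l) w ≠ 0
      rw [kv_cmb]
      apply g2
      intro j
      have h1 : ‖(l j).2 * w j‖ ≤ ‖(l j).2‖ := by
        rw [norm_mul]; exact mul_le_of_le_one_right (norm_nonneg _) (hw j)
      exact (norm_add_le _ _).trans (by have := (k j).2.2; linarith)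
  · have h2 : IsGauss 2 := by simpa using IsGauss.rat 2
    simp only [Spi, Set.mem_insert_iff, Set.mem_singleton_iff] at h
    rcases h with rfl | rfl | rfl | rfl
    · refine ⟨fin5 h2 IsGauss.zero IsGauss.zero IsGauss.I IsGauss.zero, fun w hw h0 => ?_⟩
      simp only [kv, Matrix.cons_val_zero, Matrix.cons_val_one, Matrix.cons_val] at h0
      exact two_add_ne (hw 2) (by linear_combination h0)
    · refine ⟨fin5 h2 IsGauss.zero IsGauss.zero IsGauss.I.neg IsGauss.zero, fun w hw h0 => ?_⟩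
      simp only [kv, Matrix.cons_val_zero, Matrix.cons_val_one, Matrix.cons_val] at h0
      exact two_sub_ne (hw 2) (by linear_combination h0)
    · refine ⟨fin5 (h2.add IsGauss.I) IsGauss.zero IsGauss.zero IsGauss.I IsGauss.zero, fun w hw h0 => ?_⟩
      simp only [kv, Matrix.cons_val_zero, Matrix.cons_val_one, Matrix.cons_val] at h0
      exact two_add_ne' (hw 2) (by linear_combination h0)
    · refine ⟨fin5 (h2.sub IsGauss.I) IsGauss.zero IsGauss.zero IsGauss.I.neg IsGauss.zero, fun w hw h0 => ?_⟩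
      simp only [kv, Matrix.cons_val_zero, Matrix.cons_val_one, Matrix.cons_val] at h0
      exact two_sub_ne' (hw 2) (by linear_combination h0)

/-- products of reciprocals of kernels from `S` -/
def MonoS (S : Set (Fin 5 → ℂ)) (u : Fn) : Prop := ∃ l : List ((Fin 5 → ℂ) × (Fin 3 → ℕ)), (∀ q ∈ l, q.1 ∈ S) ∧
  ∀ z, u z = (l.map fun q => (kv q.1 fun j => z (q.2 j))⁻¹).prod

/-- linear combinations over `ℚ(i)` -/
def NFS (S : Set (Fin 5 → ℂ)) (u : Fn) : Prop := ∃ l : List (ℂ × Fn), (∀ p ∈ l, IsGauss p.1 ∧ MonoS S p.2) ∧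
  ∀ z, u z = (l.map fun p => p.1 * p.2 z).sum

theorem MonoS.one {S : Set (Fin 5 → ℂ)} : MonoS S fun _ => 1 := ⟨[], by simp, by simp⟩

theorem MonoS.ker {S : Set (Fin 5 → ℂ)} {a : Fin 5 → ℂ} (h : a ∈ S) (x : Fin 3 → ℕ) : MonoS S fun z => (kv a fun j => z (x j))⁻¹ :=
  ⟨[(a, x)], by simpa using h, by simp⟩

theorem MonoS.mul {S : Set (Fin 5 → ℂ)} (hu : MonoS S u) (hv : MonoS S v) : MonoS S fun z => u z * v z := by
  obtain ⟨l, h1, h2⟩ := hu
  obtain ⟨l', h1', h2'⟩ := hv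
  refine ⟨l ++ l', fun Q hQ => ?_, fun z => ?_⟩
  · rcases List.mem_append.1 hQ with h | h
    · exact h1 Q h
    · exact h1' Q h
  · dsimp only; rw [h2, h2', List.map_append, List.prod_append]

theorem kv_polF {a : Fin 5 → ℂ} (ha : ∀ i, IsGauss (a i)) {w : (ℕ → ℂ) → Fin 3 → ℂ} (hw : ∀ j, PolF fun z => w z j) :
    PolF fun z => kv a (w z) := by
  unfold kv
  exact (((((ha 0).polF.add ((ha 1).polF.mul (hw 0))).add ((ha 2).polF.mul (hw 1))).add ((ha 3).polF.mul (hw 2))).add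
    ((ha 4).polF.mul ((hw 0).mul (hw 1))))

theorem MonoS.ratG {S : Set (Fin 5 → ℂ)} (hS : ∀ a ∈ S, GoodK a) (h : MonoS S u) : RatG u := by
  obtain ⟨l, h1, h2⟩ := h
  have key : ∀ l : List ((Fin 5 → ℂ) × (Fin 3 → ℕ)), (∀ q ∈ l, q.1 ∈ S) →
      RatG fun z => (l.map fun q => (kv q.1 fun j => z (q.2 j))⁻¹).prod := by
    intro l
    induction l with
    | nil => intro _; simpa using (PolF.rat 1).ratG
    | cons Q l ih =>
      intro h
      simp only [List.map_cons, List.prod_cons]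
      have h3 := hS _ (h Q (by simp))
      exact (RatG.inv (kv_polF h3.1 fun j => PolF.coord _) fun z hz => h3.2 _ fun j => hz _).mul (ih fun P hP => h P (by simp [hP]))
  have : u = fun z => (l.map fun q => (kv q.1 fun j => z (q.2 j))⁻¹).prod := funext h2
  rw [this]
  exact key l h1

theorem NFS.mono {S : Set (Fin 5 → ℂ)} (h : MonoS S u) : NFS S u := ⟨[(1, u)], by simpa using ⟨IsGauss.one, h⟩, by simp⟩

theorem NFS.add {S : Set (Fin 5 → ℂ)} (hu : NFS S u) (hv : NFS S v) : NFS S fun z => u z + v z := by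
  obtain ⟨l, h1, h2⟩ := hu
  obtain ⟨l', h1', h2'⟩ := hv
  refine ⟨l ++ l', fun Q hQ => ?_, fun z => ?_⟩
  · rcases List.mem_append.1 hQ with h | h
    · exact h1 Q h
    · exact h1' Q h
  · dsimp only; rw [h2, h2', List.map_append, List.sum_append]

theorem NFS.const {S : Set (Fin 5 → ℂ)} {c : ℂ} (hc : IsGauss c) (hu : NFS S u) : NFS S fun z => c * u z := by
  obtain ⟨l, h1, h2⟩ := hu
  refine ⟨l.map fun p => (c * p.1, p.2), fun p hp => ?_, fun z => ?_⟩
  · obtain ⟨q, hq, rfl⟩ := List.mem_map.1 hp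
    exact ⟨hc.mul (h1 q hq).1, (h1 q hq).2⟩
  · dsimp only; rw [h2, List.map_map, ← List.sum_map_mul_left]
    congr 1
    apply List.map_congr_left
    intro p _
    simp only [Function.comp_apply]
    ring

theorem NFS.mul_mono {S : Set (Fin 5 → ℂ)} (hu : NFS S u) (hv : MonoS S v) : NFS S fun z => v z * u z := by
  obtain ⟨l, h1, h2⟩ := hu
  refine ⟨l.map fun p => (p.1, fun z => v z * p.2 z), fun p hp => ?_, fun z => ?_⟩
  · obtain ⟨q, hq, rfl⟩ := List.mem_map.1 hp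
    exact ⟨(h1 q hq).1, hv.mul (h1 q hq).2⟩
  · dsimp only; rw [h2, List.map_map, ← List.sum_map_mul_left]
    congr 1
    apply List.map_congr_left
    intro p _
    simp only [Function.comp_apply]
    ring

theorem MonoS.shift {S : Set (Fin 5 → ℂ)} (hu : MonoS S u) : MonoS S fun z => u fun k => z (k + 1) := by
  obtain ⟨l, h1, h2⟩ := hu
  refine ⟨l.map fun q => (q.1, fun j => q.2 j + 1), fun p hp => ?_, fun z => ?_⟩
  · obtain ⟨q, hq, rfl⟩ := List.mem_map.1 hp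
    exact h1 q hq
  · dsimp only; rw [h2, List.map_map]
    rfl

theorem NFS.shift {S : Set (Fin 5 → ℂ)} (hu : NFS S u) : NFS S fun z => u fun k => z (k + 1) := by
  obtain ⟨l, h1, h2⟩ := hu
  refine ⟨l.map fun p => (p.1, fun z => p.2 fun k => z (k + 1)), fun p hp => ?_, fun z => ?_⟩
  · obtain ⟨q, hq, rfl⟩ := List.mem_map.1 hp
    exact ⟨(h1 q hq).1, (h1 q hq).2.shift⟩
  · dsimp only; rw [h2, List.map_map]
    rfl

theorem NFS.mem_O {S : Set (Fin 5 → ℂ)} (hS : ∀ a ∈ S, GoodK a) (hu : NFS S u) : u ∈ O := by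
  obtain ⟨l, h1, h2⟩ := hu
  have key : ∀ l : List (ℂ × Fn), (∀ p ∈ l, IsGauss p.1 ∧ MonoS S p.2) → (fun z => (l.map fun p => p.1 * p.2 z).sum) ∈ O := by
    intro l
    induction l with
    | nil => intro _; simpa using O_rat 0
    | cons p l ih =>
      intro h
      simp only [List.map_cons, List.sum_cons]
      exact O_add (O_mul (h p (by simp)).1.polF.mem_O ((h p (by simp)).2.ratG hS).mem_O) (ih fun q hq => h q (by simp [hq]))
  have : u = fun z => (l.map fun p => p.1 * p.2 z).sum := funext h2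
  rw [this]
  exact key l h1

/-- `π` -/
theorem NFS.piT (hu : NFS SS u) : ∃ w, NFS SS w ∧ ∀ z ∈ D, w z = KP.piT u z := by
  have m1 : MonoS SS fun z => (kv ![2, 0, 0, Complex.I, 0] fun _ : Fin 3 => z 0)⁻¹ :=
    MonoS.ker (Or.inr (by simp [Spi])) fun _ => 0
  have m2 : MonoS SS fun z => (kv ![2, 0, 0, -Complex.I, 0] fun _ : Fin 3 => z 0)⁻¹ :=
    MonoS.ker (Or.inr (by simp [Spi])) fun _ => 0
  have m3 : MonoS SS fun z => (kv ![2 + Complex.I, 0, 0, Complex.I, 0] fun _ : Fin 3 => z 0)⁻¹ :=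
    MonoS.ker (Or.inr (by simp [Spi])) fun _ => 0
  have m4 : MonoS SS fun z => (kv ![2 - Complex.I, 0, 0, -Complex.I, 0] fun _ : Fin 3 => z 0)⁻¹ :=
    MonoS.ker (Or.inr (by simp [Spi])) fun _ => 0
  have h8 : IsGauss 8 := by simpa using IsGauss.rat 8
  refine ⟨_, ((hu.shift.mul_mono (m1.mul m2)).const h8).add ((hu.shift.mul_mono (m3.mul m4)).const h8), fun z hz => ?_⟩
  simp only [KP.piT, sh, piFn, kv, Matrix.cons_val_zero, Matrix.cons_val_one, Matrix.cons_val, zero_mul, add_zero]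
  have e1 : 4 + z 0 ^ 2 = (2 + Complex.I * z 0) * (2 + (-Complex.I) * z 0) := by
    linear_combination (z 0 ^ 2) * Complex.I_sq
  have e2 : 4 + (1 + z 0) ^ 2 = ((2 + Complex.I) + Complex.I * z 0) * ((2 - Complex.I) + (-Complex.I) * z 0) := by
    linear_combination ((1 + z 0) ^ 2) * Complex.I_sq
  rw [e1, e2]
  simp only [div_eq_mul_inv, mul_inv]
  ring

/-- `π^m f` has the normal form. -/
def RepS (f : Fn) : Prop := ∃ m : ℕ, ∃ g, NFS SS g ∧ Eqv (piMul m f) g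

theorem RepS.of_eqv (h : Eqv f g) (hg : RepS g) : RepS f := by
  obtain ⟨m, r, hr, he⟩ := hg
  exact ⟨m, r, hr, (h.piMul m).trans he⟩

theorem RepS.of_eq (h : ∀ x, f (pt x) = g (pt x)) (hg : RepS g) : RepS f := RepS.of_eqv (Eqv.of_eq h) hg

theorem repS_succ {m : ℕ} {r : Fn} (hr : NFS SS r) (h : Eqv (piMul m f) r) (k : ℕ) : ∃ r', NFS SS r' ∧ Eqv (piMul (m + k) f) r' := by
  induction k with
  | zero => exact ⟨r, hr, h⟩
  | succ k ih =>
    obtain ⟨r', hr', h'⟩ := ih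
    obtain ⟨H, hH, h2⟩ := hr'.piT
    exact ⟨H, hH, (h'.piT).trans (Eqv.of_eq fun x => (h2 _ (pt_mem_D x)).symm)⟩

theorem RepS.mono (h : MonoS SS f) : RepS f := ⟨0, f, NFS.mono h, Eqv.refl _⟩

theorem RepS.add (hf : RepS f) (hg : RepS g) : RepS fun z => f z + g z := by
  obtain ⟨m, r, hr, h1⟩ := hf
  obtain ⟨m', r', hr', h2⟩ := hg
  obtain ⟨s, hs, h3⟩ := repS_succ hr h1 m'
  obtain ⟨s', hs', h4⟩ := repS_succ hr' h2 m
  refine ⟨m + m', _, hs.add hs', ?_⟩
  rw [piMul_add]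
  rw [add_comm m' m] at h4
  exact h3.add h4

theorem RepS.const {c : ℂ} (hc : IsGauss c) (hf : RepS f) : RepS fun z => c * f z := by
  obtain ⟨m, r, hr, h1⟩ := hf
  refine ⟨m, _, hr.const hc, ?_⟩
  rw [piMul_const]
  exact h1.const hc.isAlg

theorem RepS.sum {ι : Type*} (s : Finset ι) (F : ι → Fn) (h : ∀ i ∈ s, RepS (F i)) : RepS fun z => ∑ i ∈ s, F i z := by
  classical
  induction s using Finset.induction_on with
  | empty => simpa using (RepS.mono MonoS.one).const IsGauss.zero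
  | insert a s ha ih =>
    simp only [Finset.sum_insert ha]
    exact (h a (Finset.mem_insert_self a s)).add (ih fun i hi => h i (Finset.mem_insert_of_mem hi))

/-- removal of `2πi` -/
theorem RepS.of_cFn (hf : f ∈ O) {i : ℕ} (hi : Fresh i f) (h : RepS fun z => cFn (z i) * f z) : RepS f := by
  obtain ⟨m, r, hr, h1⟩ := h
  have h2I : IsAlgebraic ℚ (2 * Complex.I) := by
    have := isAlgebraic_algebraMap (R := ℚ) (A := ℂ) 2
    simp only [map_ofNat] at this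
    exact this.mul isAlg_I
  have h3 : Eqv (fun z => cFn (z i) * f z) fun z => 2 * Complex.I * piMul 1 f z :=
    (eqv_cFn hf hi).trans ((piFn_fresh hf hi).const h2I)
  have h4 := (h3.piMul m).symm.trans h1
  rw [piMul_const, piMul_piMul] at h4
  have h5 := h4.const (c := -Complex.I / 2) (by
    have := isAlgebraic_algebraMap (R := ℚ) (A := ℂ) 2
    simp only [map_ofNat] at this
    exact isAlg_I.neg.mul this.inv)
  refine ⟨m + 1, fun z => -Complex.I / 2 * r z, ?_, ?_⟩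
  · refine hr.const ?_
    have := (IsGauss.rat (-1 / 2)).mul IsGauss.I
    push_cast at this
    convert this using 1
    ring
  · refine (Eqv.of_eq fun x => ?_).trans h5
    linear_combination (piMul (m + 1) f (pt x)) * Complex.I_sq

end Pool.Agent.H39.KP
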