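import Pool.Agent.H39.KP.SepQ
import Pool.Agent.H39.KP.Divide

namespace Pool.Agent.H39.KP

open Function Filter Topology Polynomial

variable {f g F G : Fn}

/-- elements of `ℚ(i)` in `K` -/
noncomputable def gK (α β : ℚ) : K := algebraMap ℚ K α + algebraMap ℚ K β * IK

theorem coe_gK (α β : ℚ) : ((gK α β : K) : ℂ) = (α : ℂ) + (β : ℂ) * Complex.I := by
  simp [gK, coe_IK]

theorem exists_gaussQ (c : ℂ) {δ : ℝ} (hδ : 0 < δ) : ∃ α β : ℚ, ‖((α : ℂ) + (β : ℂ) * Complex.I) - c‖ < δ := by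
  obtain ⟨a, ha1, ha2⟩ := exists_rat_btwn (show c.re - δ / 4 < c.re by linarith)
  obtain ⟨b, hb1, hb2⟩ := exists_rat_btwn (show c.im - δ / 4 < c.im by linarith)
  refine ⟨a, b, ?_⟩
  have h1 := Complex.norm_le_abs_re_add_abs_im ((a : ℂ) + b * Complex.I - c)
  refine h1.trans_lt ?_
  have e1 : ((a : ℂ) + b * Complex.I - c).re = (a : ℝ) - c.re := by simp
  have e2 : ((a : ℂ) + b * Complex.I - c).im = (b : ℝ) - c.im := by simp
  rw [e1, e2, abs_of_nonpos (by linarith), abs_of_nonpos (by linarith)]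
  linarith

/-- shifted boxes -/
theorem O_shift {n : ℕ} {r : ℝ} (hr : 1 < r) (hR : HoloR n r f) (ha : Algc f) {b s : ℕ → ℚ} (hg : Good b s) (β : ℕ → K) (A B : K)
    {i : ℕ} (hi : n ≤ i) (hD : ∀ z ∈ D, ∀ k < n, ‖bx b s z k + (β k : ℂ) * ((A : ℂ) + (B : ℂ) * z i)‖ < r) :
    (fun z => f fun k => bx b s z k + (β k : ℂ) * ((A : ℂ) + (B : ℂ) * z i)) ∈ O := by
  set Φ : ℕ → RK := fun k => MvPolynomial.C (algebraMap ℚ K (b k)) + MvPolynomial.C (algebraMap ℚ K (s k)) * MvPolynomial.X k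
    + MvPolynomial.C (β k) * (MvPolynomial.C A + MvPolynomial.C B * MvPolynomial.X i) with hΦ
  set ψ : RK →ₐ[K] RK := MvPolynomial.aeval fun j => if j = i then 0 else
    MvPolynomial.C (algebraMap ℚ K (s j))⁻¹ * (MvPolynomial.X j - MvPolynomial.C (algebraMap ℚ K (b j)) - MvPolynomial.C (β j) * MvPolynomial.C A) with hψ
  have hs0 : ∀ k, algebraMap ℚ K (s k) ≠ 0 := fun k => by
    rw [Ne, map_eq_zero]; exact (hg k).1.ne'
  have h1 : ∀ k < n, ψ (Φ k) = MvPolynomial.X k := by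
    intro k hk
    have hki : k ≠ i := by omega
    simp only [hΦ, hψ, map_add, map_mul, MvPolynomial.aeval_X, MvPolynomial.aeval_C, MvPolynomial.algebraMap_eq, if_true, if_neg hki]
    have e1 : (MvPolynomial.C (algebraMap ℚ K (s k)) : RK) * MvPolynomial.C (algebraMap ℚ K (s k))⁻¹ = 1 := by
      rw [← MvPolynomial.C_mul, mul_inv_cancel₀ (hs0 k), MvPolynomial.C_1]
    linear_combination (MvPolynomial.X k - MvPolynomial.C (algebraMap ℚ K (b k)) - MvPolynomial.C (β k) * MvPolynomial.C A : RK) * e1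
  have h2 : ∀ z : ℕ → ℂ, (fun k => (MvPolynomial.aeval z (Φ k) : ℂ)) = fun k => bx b s z k + (β k : ℂ) * ((A : ℂ) + (B : ℂ) * z i) := by
    intro z
    funext k
    simp [hΦ, bx]
  have h3 := O_comp hr hR ha Φ ψ h1 fun z hz => by
    rw [h2]
    exact fun k hk => hD z hz k hk
  simpa only [h2] using h3

/-- a direction in which the derivative does not vanish -/
theorem exists_direction {n : ℕ} {r : ℝ} (hr : 1 < r) (hG : HoloR n r G) (hne : ∃ x : Cube, G (pt x) ≠ 0) {a : Fin n → ℝ}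
    (ha : a ∈ Set.Icc (0 : Fin n → ℝ) 1) : ∃ α β : ℕ → ℚ, ∃ ρ : ℚ, 0 < ρ ∧ ρ < 1 / 2 ∧
      (∀ k, ‖((α k : ℂ) + (β k : ℂ) * Complex.I)‖ < r - 1) ∧
      ∀ᶠ y in 𝓝 (fun k => (a k : ℂ)), ∀ t : ℂ, (ρ : ℝ) / 2 ≤ ‖t‖ → ‖t‖ ≤ 2 * (ρ : ℝ) →
        G (fun k => ext n y k + t * ((α k : ℂ) + (β k : ℂ) * Complex.I)) ≠ 0 := by
  set ac : Fin n → ℂ := fun k => (a k : ℂ) with hac
  have hacB : ac ∈ Metric.closedBall (0 : Fin n → ℂ) 1 := real_mem_ball ha
  have hacD : ext n ac ∈ D := ext_mem hacB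
  have hacBl : ext n ac ∈ Bl n r := D_sub_Bl hr hacD
  -- a point near `a` where `G` does not vanish
  obtain ⟨y, hy1, hy2⟩ : ∃ y : ℕ → ℂ, (∀ k < n, ‖y k - ext n ac k‖ < (r - 1) / 2) ∧ G y ≠ 0 := by
    by_contra hcon
    push Not at hcon
    obtain ⟨x, hx⟩ := hne
    exact hx (hG.ident_nhds (by linarith) hacBl (δ := (r - 1) / 2) (by linarith) hcon _ (D_sub_Bl hr (pt_mem_D x)))
  have hyr : ∀ k < n, ‖y k‖ < 1 + (r - 1) / 2 := by
    intro k hk
    calc ‖y k‖ = ‖ext n ac k + (y k - ext n ac k)‖ := by congr 1; ring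
      _ ≤ ‖ext n ac k‖ + ‖y k - ext n ac k‖ := norm_add_le _ _
      _ < 1 + (r - 1) / 2 := by linarith [hacD k, hy1 k hk]
  have hyB : res n y ∈ Metric.ball (0 : Fin n → ℂ) r := by
    rw [mem_ball_zero_iff, pi_norm_lt_iff (by linarith)]
    intro k
    exact (hyr k k.2).trans (by linarith)
  have hcy : ContinuousAt (fun y => G (ext n y)) (res n y) := hG.2.continuousOn.continuousAt (Metric.isOpen_ball.mem_nhds hyB)
  have hy2' : G (ext n (res n y)) ≠ 0 := by rw [hG.1.ext_res]; exact hy2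
  have hev := hcy.eventually_ne hy2'
  obtain ⟨ε, hε, hεb⟩ := Metric.eventually_nhds_iff_ball.1 hev
  have hε' : 0 < min ε ((r - 1) / 2) := lt_min hε (by linarith)
  have hgs : ∀ k, ∃ α β : ℚ, ‖((α : ℂ) + (β : ℂ) * Complex.I)‖ < r - 1 ∧
      (k < n → ‖((α : ℂ) + (β : ℂ) * Complex.I) - (y k - ext n ac k)‖ < min ε ((r - 1) / 2)) := by
    intro k
    by_cases hk : k < n
    · obtain ⟨α, β, h⟩ := exists_gaussQ (y k - ext n ac k) hε'
      refine ⟨α, β, ?_, fun _ => h⟩
      calc ‖((α : ℂ) + (β : ℂ) * Complex.I)‖ = ‖((α : ℂ) + (β : ℂ) * Complex.I - (y k - ext n ac k)) + (y k - ext n ac k)‖ := by congr 1; ring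
        _ ≤ ‖(α : ℂ) + (β : ℂ) * Complex.I - (y k - ext n ac k)‖ + ‖y k - ext n ac k‖ := norm_add_le _ _
        _ < (r - 1) / 2 + (r - 1) / 2 := add_lt_add (h.trans_le (min_le_right _ _)) (hy1 k hk)
        _ = r - 1 := by ring
    · exact ⟨0, 0, by simpa using hr, fun h => absurd h hk⟩
  choose α β hv1 hv2 using hgs
  set v : ℕ → ℂ := fun k => (α k : ℂ) + (β k : ℂ) * Complex.I with hv
  have hGv : G (fun k => ext n ac k + 1 * v k) ≠ 0 := by
    have h1 : res n (fun k => ext n ac k + 1 * v k) ∈ Metric.ball (res n y) ε := by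
      rw [mem_ball_iff_norm, pi_norm_lt_iff hε]
      intro k
      have h2 := (hv2 k k.2).trans_le (min_le_left _ _)
      have e : (res n (fun k => ext n ac k + 1 * v k) - res n y) k = (α k : ℂ) + (β k : ℂ) * Complex.I - (y k - ext n ac k) := by
        simp only [Pi.sub_apply, res, hv]; ring
      rw [e]; exact h2
    have h3 := hεb _ h1
    rwa [hG.1.ext_res] at h3
  -- the line
  set φ : ℂ → ℂ := fun t => G fun k => ext n ac k + t * v k with hφ
  have hline : ∀ t : ℂ, ‖t‖ ≤ 1 → (fun k => ext n ac k + t * v k) ∈ Bl n r := by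
    intro t ht k _
    calc ‖ext n ac k + t * v k‖ ≤ ‖ext n ac k‖ + ‖t‖ * ‖v k‖ := by rw [← norm_mul]; exact norm_add_le _ _
      _ ≤ 1 + 1 * ‖v k‖ := add_le_add (hacD k) (mul_le_mul_of_nonneg_right ht (norm_nonneg _))
      _ < r := by linarith [hv1 k]
  set U : Set ℂ := {t | (fun k => ext n ac k + t * v k) ∈ Bl n r} with hU
  have hUo : IsOpen U := by
    have : U = ⋂ k : Fin n, {t : ℂ | ‖ext n ac k + t * v k‖ < r} := by
      ext t
      simp only [hU, Bl, Set.mem_ofPred_eq, Set.mem_iInter]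
      exact ⟨fun h k => h k k.2, fun h k hk => h ⟨k, hk⟩⟩
    rw [this]
    apply isOpen_iInter_of_finite
    intro k
    exact isOpen_lt (by fun_prop) continuous_const
  have hφd : DifferentiableOn ℂ φ U := by
    intro t ht
    refine (hG.diffAt_comp (by linarith) (φ := fun t k => ext n ac k + t * v k) (fun k _ => ?_) ht).differentiableWithinAt
    fun_prop
  have hφa : AnalyticOnNhd ℂ φ (Metric.closedBall 0 1) := fun t ht =>
    hφd.analyticAt (hUo.mem_nhds (hline t (by simpa using ht)))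
  have h0 : ∀ᶠ t in 𝓝[≠] (0 : ℂ), φ t ≠ 0 := by
    rcases (hφa 0 (by simp)).eventually_eq_zero_or_eventually_ne_zero with h | h
    · exfalso
      have h6 := hφa.eqOn_zero_of_preconnected_of_eventuallyEq_zero (convex_closedBall 0 1).isPreconnected (by simp) h
      exact hGv (h6 (x := 1) (by simp))
    · exact h
  obtain ⟨ρ₀, hρ₀, hρb⟩ := Metric.eventually_nhds_iff_ball.1 (eventually_nhdsWithin_iff.1 h0)
  obtain ⟨ρ, hρ0, hρ1⟩ := exists_rat_btwn (show (0 : ℝ) < min (ρ₀ / 2) (1 / 2) from lt_min (by positivity) (by norm_num))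
  have hρ : 0 < ρ := by exact_mod_cast hρ0
  have hρh : (ρ : ℝ) < 1 / 2 := hρ1.trans_le (min_le_right _ _)
  have hρh' : ρ < 1 / 2 := by
    have : ((ρ : ℚ) : ℝ) < ((1 / 2 : ℚ) : ℝ) := by push_cast; exact hρh
    exact_mod_cast this
  have hρ2 : (ρ : ℝ) < ρ₀ / 2 := hρ1.trans_le (min_le_left _ _)
  refine ⟨α, β, ρ, hρ, hρh', hv1, ?_⟩
  -- uniformity
  set A : Set ℂ := {t | (ρ : ℝ) / 2 ≤ ‖t‖ ∧ ‖t‖ ≤ 2 * (ρ : ℝ)} with hA
  have hAc : IsCompact A := by
    apply (isCompact_closedBall (0 : ℂ) (2 * (ρ : ℝ))).of_isClosed_subset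
    · exact (isClosed_le continuous_const continuous_norm).inter (isClosed_le continuous_norm continuous_const)
    · intro t ht
      rw [mem_closedBall_zero_iff]; exact ht.2
  have huni := hAc.eventually_forall_of_forall_eventually (x₀ := ac)
    (P := fun y t => G (fun k => ext n y k + t * v k) ≠ 0) fun t ht => ?_
  · filter_upwards [huni] with y hy t h1 h2
    exact hy t ⟨h1, h2⟩
  · have ht1 : ‖t‖ ≤ 1 := ht.2.trans (by linarith)
    have hne' : G (fun k => ext n ac k + t * v k) ≠ 0 := by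
      have h1 := hρb t (by rw [mem_ball_zero_iff]; linarith [ht.2]) (by
        intro h2
        have h3 : t = 0 := h2
        have h4 := ht.1
        rw [h3, norm_zero] at h4
        have : (0 : ℝ) < (ρ : ℝ) := hρ0
        linarith)
      exact h1
    have hB : res n (fun k => ext n ac k + t * v k) ∈ Metric.ball (0 : Fin n → ℂ) r := res_mem_ball (by linarith) (hline t ht1)
    have hc1 : ContinuousAt (fun y => G (ext n y)) (res n (fun k => ext n ac k + t * v k)) :=
      hG.2.continuousOn.continuousAt (Metric.isOpen_ball.mem_nhds hB)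
    have hc2 : Continuous fun p : (Fin n → ℂ) × ℂ => res n (fun k => ext n p.1 k + p.2 * v k) := by
      rw [continuous_pi_iff]
      intro k
      have : (fun p : (Fin n → ℂ) × ℂ => res n (fun k => ext n p.1 k + p.2 * v k) k) = fun p => p.1 k + p.2 * v k := by
        funext p
        simp [res, ext]
      rw [this]
      fun_prop
    have hc3 : ContinuousAt (fun p : (Fin n → ℂ) × ℂ => G (fun k => ext n p.1 k + p.2 * v k)) (ac, t) := by
      have h1 : ContinuousAt ((fun y => G (ext n y)) ∘ fun p : (Fin n → ℂ) × ℂ => res n (fun k => ext n p.1 k + p.2 * v k)) (ac, t) :=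
        ContinuousAt.comp hc1 hc2.continuousAt
      refine h1.congr (Eventually.of_forall fun p => ?_)
      simp only [comp_apply]
      exact hG.1.ext_res _
    exact hc3.eventually_ne hne'

/-- **the rational function** -/
theorem level1 (hf : f ∈ O) : Rep f := by
  obtain ⟨n, hn⟩ := holo_iff.1 hf.1
  obtain ⟨r, hr, hR⟩ := hn.exists_radius
  obtain ⟨q, hV, hz, hne⟩ := exists_sep_polyQ hn.1 hf.2
  have hball := ev2_ball hr hR hV hz
  have hV' : ∀ k, Vr n ((toK q).derivative.coeff k) := by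
    intro k
    rw [Polynomial.coeff_derivative]
    intro Φ Ψ hΦ
    rw [map_mul, map_mul, hV (k + 1) Φ Ψ hΦ]
    simp
  have hG := holoR_ev2 hR hV'
  refine rep_of_local hf n fun a ha => ?_
  obtain ⟨α, β, ρ, hρ, hρh, hv1, hev⟩ := exists_direction hr hG hne ha
  obtain ⟨δ, hδ, hδb⟩ := Metric.eventually_nhds_iff_ball.1 hev
  refine ⟨δ, hδ, fun b s hg hbs => ?_⟩
  have hρr : (0 : ℝ) < (ρ : ℝ) := by exact_mod_cast hρ
  have hρhr : (ρ : ℝ) < 1 / 2 := by
    have : ((ρ : ℚ) : ℝ) < ((1 / 2 : ℚ) : ℝ) := by exact_mod_cast hρh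
    simpa using this
  set v : ℕ → ℂ := fun k => (α k : ℂ) + (β k : ℂ) * Complex.I with hv
  set vK : ℕ → K := fun k => algebraMap ℚ K ρ * gK (α k) (β k) with hvK
  have hvKc : ∀ k, ((vK k : K) : ℂ) = (ρ : ℂ) * v k := by
    intro k
    have : ((vK k : K) : ℂ) = ((algebraMap ℚ K ρ : K) : ℂ) * ((gK (α k) (β k) : K) : ℂ) := rfl
    rw [this, coe_gK]
    simp [hv]
  have hρn : ‖(ρ : ℂ)‖ = (ρ : ℝ) := norm_rat hρ.le
  have hnear : ∀ z ∈ D, res n (bx b s z) ∈ Metric.ball (fun k => (a k : ℂ)) δ := fun z hz => box_near hg hδ hbs hz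
  -- a bound
  have hbd : ∀ z ∈ D, ∀ t : ℂ, ‖t‖ ≤ 2 → ∀ k, ‖bx b s z k + (ρ : ℂ) * v k * t‖ < r := by
    intro z hz t ht k
    have h1 := bx_mem_D hg hz k
    have h2 := hv1 k
    have h3 : ‖(ρ : ℂ) * v k * t‖ ≤ ‖v k‖ := by
      rw [norm_mul, norm_mul, hρn]
      calc (ρ : ℝ) * ‖v k‖ * ‖t‖ ≤ 1 / 2 * ‖v k‖ * 2 := by gcongr
        _ = ‖v k‖ := by ring
    calc ‖bx b s z k + (ρ : ℂ) * v k * t‖ ≤ ‖bx b s z k‖ + ‖(ρ : ℂ) * v k * t‖ := norm_add_le _ _
      _ < r := by linarith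
  -- the shifted functions
  set sh1 : ℕ → (ℕ → ℂ) → ℕ → ℂ := fun m z k => bx b s z k + (ρ : ℂ) * v k * ζ m (z n) with hsh1
  have hmO : ∀ m, (fun z => f (sh1 m z)) ∈ O := by
    intro m
    have h1 := O_shift hr hR hf.2 hg vK (VK m) (WK m) (i := n) le_rfl (fun z hz k _ => by
      rw [hvKc, coe_VK, coe_WK]
      exact hbd z hz _ (zeta_upper m (hz n)) k)
    simp only [hvKc, coe_VK, coe_WK] at h1
    exact h1
  have hFO : (fun z => f fun k => bx b s z k + (ρ : ℂ) * v k * (2 * z n)) ∈ O := by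
    have h1 := O_shift hr hR hf.2 hg vK 0 2 (i := n) le_rfl (fun z hz k _ => by
      rw [hvKc, coe_two]
      have : ((0 : K) : ℂ) = 0 := rfl
      rw [this, zero_add]
      exact hbd z hz _ (by
        rw [norm_mul, Complex.norm_ofNat]
        have := hz n
        linarith) k)
    have h0 : ((0 : K) : ℂ) = 0 := rfl
    simp only [hvKc, coe_two, h0, zero_add] at h1
    exact h1
  obtain ⟨K0, hK0, hdiv⟩ := divide hFO n
  have hhalf : (((1 / 2 : K)) : ℂ) = 1 / 2 := by
    have : (((1 / 2 : K)) : ℂ) = algebraMap K ℂ (1 / 2) := rfl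
    rw [this, map_div₀, map_one, map_ofNat]
  have hC := formal_cauchy hK0 n (lam := (1 / 2 : K)) (by norm_num) (by rw [hhalf]; norm_num)
  have hfr := fresh_bx hn.1 b s
  refine Rep.of_cFn (O_bx hf hg) hfr ?_
  have hRep : Rep fun z => ∑ m ∈ Finset.range 16, (W m / ζ m (z n)) * f (sh1 m z) := by
    refine Rep.sum _ _ fun m _ => ?_
    have hsP : ∀ k, PolF fun z => sh1 m z k := fun k =>
      ((PolF.rat (b k)).add ((PolF.rat (s k)).mul (PolF.coord k))).add
        (((PolF.rat ρ).mul ((PolF.rat (α k)).add ((PolF.rat (β k)).mul PolF.I))).mul (PolF.zeta m n))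
    refine level2 (c := fun k z => MvPolynomial.aeval (sh1 m z) (q.coeff k)) (d := q.natDegree + 1)
      (fun k => (PolF.poly (q.coeff k)).comp hsP) (hmO m) ((PolF.W m).ratG.div (PolF.zeta m n) fun z hz => zeta_ne m (hz n))
      (fun z hz => ?_) fun z hz => ?_
    · have h1 : sh1 m z ∈ Bl n r := fun k _ => hbd z hz _ (zeta_upper m (hz n)) k
      have h2 := hball _ h1
      rw [ev2_toK] at h2
      exact h2
    · have h1 := hδb _ (hnear z hz) ((ρ : ℂ) * ζ m (z n)) (by
        rw [norm_mul, hρn]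
        have := zeta_lower m (hz n)
        nlinarith) (by
        rw [norm_mul, hρn]
        have := zeta_upper m (hz n)
        nlinarith)
      have h2 : ev2 (toK q).derivative (sh1 m z) (f (sh1 m z)) ≠ 0 := by
        have e : ev2 (toK q).derivative (fun k => ext n (res n (bx b s z)) k + (ρ : ℂ) * ζ m (z n) * ((α k : ℂ) + (β k : ℂ) * Complex.I))
            (f fun k => ext n (res n (bx b s z)) k + (ρ : ℂ) * ζ m (z n) * ((α k : ℂ) + (β k : ℂ) * Complex.I))
            = ev2 (toK q).derivative (sh1 m z) (f (sh1 m z)) := by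
          apply hG.1
          intro k hk
          simp only [hsh1, hv, ext, hk, dif_pos, res]
          ring
        rw [← e]
        exact h1
      rw [ev2_toK'] at h2
      exact h2
  refine Rep.of_eqv (Eqv.symm ?_) hRep
  unfold Eqv
  convert hC using 1
  funext x
  set z := pt x with hzx
  have hzD : z ∈ D := pt_mem_D x
  unfold cFn
  beta_reduce
  rw [Finset.sum_mul, ← Finset.sum_sub_distrib]
  apply Finset.sum_congr rfl
  intro m _
  have hζ := zeta_ne m (hzD n)
  have huD : update z n ((1 / 2 : ℂ) * ζ m (z n)) ∈ D := by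
    apply update_mem_D hzD
    rw [norm_mul]
    have := zeta_upper m (hzD n)
    norm_num
    linarith
  have h1 := hdiv _ huD
  have e1 : (f fun k => bx b s (update z n ((1 / 2 : ℂ) * ζ m (z n))) k + (ρ : ℂ) * v k * (2 * update z n ((1 / 2 : ℂ) * ζ m (z n)) n))
      = f (sh1 m z) := by
    apply hn.1
    intro k hk
    simp only [bx, hsh1, update_self, update_of_ne (show k ≠ n by omega)]
    ring
  have e2 : (f fun k => bx b s (update (update z n ((1 / 2 : ℂ) * ζ m (z n))) n 0) k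
      + (ρ : ℂ) * v k * (2 * update (update z n ((1 / 2 : ℂ) * ζ m (z n))) n 0 n)) = f (bx b s z) := by
    apply hn.1
    intro k hk
    simp only [bx, update_self, update_of_ne (show k ≠ n by omega)]
    ring
  beta_reduce at h1
  rw [e1, e2, update_self] at h1
  rw [hhalf, h1]
  field_simp
  ring

end Pool.Agent.H39.KP
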