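import Pool.Agent.H39.KP.Boxes
import Pool.Agent.H39.KP.DerivAlg

namespace Pool.Agent.H39.KP

open Function Filter Topology

variable {f g F G : Fn}

/-- polynomials in `w` -/
noncomputable def pw (c : ℕ → Fn) (d : ℕ) (z : ℕ → ℂ) (w : ℂ) : ℂ := ∑ k ∈ Finset.range d, c k z * w ^ k

noncomputable def pw' (c : ℕ → Fn) (d : ℕ) (z : ℕ → ℂ) (w : ℂ) : ℂ := ∑ k ∈ Finset.range d, c k z * ((k : ℂ) * w ^ (k - 1))

/-- divided differences -/
noncomputable def gd (c : ℕ → Fn) (d : ℕ) (z : ℕ → ℂ) (w h : ℂ) : ℂ :=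
  ∑ k ∈ Finset.range d, c k z * ∑ a ∈ Finset.range k, w ^ a * h ^ (k - 1 - a)

noncomputable def gd' (c : ℕ → Fn) (d : ℕ) (z : ℕ → ℂ) (w h : ℂ) : ℂ :=
  ∑ k ∈ Finset.range d, c k z * ∑ a ∈ Finset.range k, ((a : ℂ) * w ^ (a - 1)) * h ^ (k - 1 - a)

theorem pw_sub (c : ℕ → Fn) (d : ℕ) (z : ℕ → ℂ) (w h : ℂ) : pw c d z w - pw c d z h = (w - h) * gd c d z w h := by
  unfold pw gd
  rw [← Finset.sum_sub_distrib, Finset.mul_sum]
  apply Finset.sum_congr rfl
  intro k _
  have := (Commute.all w h).mul_geom_sum₂ k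
  rw [← mul_sub, ← this]
  ring

theorem hasDerivAt_pw (c : ℕ → Fn) (d : ℕ) (z : ℕ → ℂ) (w : ℂ) : HasDerivAt (fun w => pw c d z w) (pw' c d z w) w := by
  unfold pw pw'
  apply HasDerivAt.fun_sum
  intro k _
  have := ((hasDerivAt_id' w).fun_pow k).const_mul (c k z)
  simpa using this

theorem hasDerivAt_gd (c : ℕ → Fn) (d : ℕ) (z : ℕ → ℂ) (w h : ℂ) : HasDerivAt (fun w => gd c d z w h) (gd' c d z w h) w := by
  unfold gd gd'
  apply HasDerivAt.fun_sum
  intro k _
  apply HasDerivAt.const_mul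
  apply HasDerivAt.fun_sum
  intro a _
  have := ((hasDerivAt_id' w).fun_pow a).mul_const (h ^ (k - 1 - a))
  simpa using this

theorem pw'_eq (c : ℕ → Fn) (d : ℕ) (z : ℕ → ℂ) (w h : ℂ) : pw' c d z w = gd c d z w h + (w - h) * gd' c d z w h := by
  have h1 := (hasDerivAt_pw c d z w).sub_const (pw c d z h)
  have h2 : HasDerivAt (fun w => pw c d z w - pw c d z h) (gd c d z w h + (w - h) * gd' c d z w h) w := by
    simp only [pw_sub]
    have := ((hasDerivAt_id' w).sub_const h).fun_mul (hasDerivAt_gd c d z w h)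
    simpa using this
  exact h1.unique h2

theorem gd_diag (c : ℕ → Fn) (d : ℕ) (z : ℕ → ℂ) (w : ℂ) : gd c d z w w = pw' c d z w := by
  rw [pw'_eq c d z w w]; ring

theorem PolF.pw {c : ℕ → Fn} {d : ℕ} (hc : ∀ k, PolF (c k)) {w : Fn} (hw : PolF w) : PolF fun z => KP.pw c d z (w z) := by
  unfold KP.pw
  exact PolF.sum _ _ fun k _ => (hc k).mul (hw.pow k)

theorem PolF.pw' {c : ℕ → Fn} {d : ℕ} (hc : ∀ k, PolF (c k)) {w : Fn} (hw : PolF w) : PolF fun z => KP.pw' c d z (w z) := by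
  unfold KP.pw'
  exact PolF.sum _ _ fun k _ => (hc k).mul ((by simpa using PolF.rat k : PolF fun _ => (k : ℂ)).mul (hw.pow (k - 1)))

theorem O_nat (k : ℕ) : (fun _ : ℕ → ℂ => (k : ℂ)) ∈ O := by simpa using O_rat k

theorem O_gd {c : ℕ → Fn} {d : ℕ} (hc : ∀ k, c k ∈ O) {w h : Fn} (hw : w ∈ O) (hh : h ∈ O) : (fun z => gd c d z (w z) (h z)) ∈ O := by
  unfold gd
  exact O_sum _ _ fun k _ => O_mul (hc k) (O_sum _ _ fun a _ => O_mul (O_pow hw a) (O_pow hh _))

theorem O_gd' {c : ℕ → Fn} {d : ℕ} (hc : ∀ k, c k ∈ O) {w h : Fn} (hw : w ∈ O) (hh : h ∈ O) : (fun z => gd' c d z (w z) (h z)) ∈ O := by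
  unfold gd'
  exact O_sum _ _ fun k _ => O_mul (hc k) (O_sum _ _ fun a _ => O_mul (O_mul (O_nat a) (O_pow hw _)) (O_pow hh _))

theorem exists_gaussP (c : ℂ) {δ : ℝ} (hδ : 0 < δ) : ∃ α : ℂ, PolF (fun _ => α) ∧ ‖α - c‖ ≤ δ := by
  obtain ⟨a, ha1, ha2⟩ := exists_rat_btwn (show c.re - δ / 2 < c.re by linarith)
  obtain ⟨b, hb1, hb2⟩ := exists_rat_btwn (show c.im - δ / 2 < c.im by linarith)
  refine ⟨(a : ℂ) + b * Complex.I, (PolF.rat a).add ((PolF.rat b).mul PolF.I), ?_⟩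
  have h1 := Complex.norm_le_abs_re_add_abs_im ((a : ℂ) + b * Complex.I - c)
  refine h1.trans ?_
  have e1 : ((a : ℂ) + b * Complex.I - c).re = (a : ℝ) - c.re := by simp
  have e2 : ((a : ℂ) + b * Complex.I - c).im = (b : ℝ) - c.im := by simp
  rw [e1, e2, abs_of_nonpos (by linarith), abs_of_nonpos (by linarith)]
  linarith

theorem PolF.V (m : ℕ) : PolF fun _ => V m := by
  unfold KP.V
  have h1 : PolF fun _ : ℕ → ℂ => (1 : ℂ) := by simpa using PolF.rat 1
  have h2 : PolF fun _ : ℕ → ℂ => (((m % 4 : ℕ) : ℂ) - 2) / 2 := by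
    have := PolF.rat ((((m % 4 : ℕ) : ℚ) - 2) / 2)
    push_cast at this
    exact this
  have h3 := (PolF.I.pow (m / 4)).mul (h1.add (PolF.I.mul h2))
  convert h3 using 1
  funext z
  ring

theorem PolF.W (m : ℕ) : PolF fun _ => W m := by
  unfold KP.W
  have h2 : PolF fun _ : ℕ → ℂ => (1 / 2 : ℂ) := by simpa using PolF.rat (1 / 2)
  have h3 := (PolF.I.pow (m / 4)).mul (PolF.I.mul h2)
  convert h3 using 1
  funext z
  ring

theorem PolF.zeta (m i : ℕ) : PolF fun z => ζ m (z i) := (PolF.V m).add ((PolF.W m).mul (PolF.coord i))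

theorem PolF.bx (b s : ℕ → ℚ) (hF : PolF F) : PolF fun z => F (bx b s z) :=
  hF.comp (Φ := KP.bx b s) fun k => (PolF.rat (b k)).add ((PolF.rat (s k)).mul (PolF.coord k))

theorem RatG.bx {b s : ℕ → ℚ} (h : Good b s) (hF : RatG F) : RatG fun z => F (bx b s z) :=
  hF.comp (Φ := KP.bx b s) (fun k => (PolF.rat (b k)).add ((PolF.rat (s k)).mul (PolF.coord k))) fun z hz => bx_mem_D h hz

theorem fresh_bx {n : ℕ} (hf : Dep n f) (b s : ℕ → ℚ) : Fresh n fun z => f (bx b s z) := by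
  intro z t
  apply hf
  intro k hk
  simp only [bx, update_of_ne (show k ≠ n by omega)]

theorem sum_W : ∑ m ∈ Finset.range 16, W m = 0 := by
  have := telescope fun v => v
  simp only [V_succ, add_sub_cancel_left] at this
  exact this

/-- a finite number of holomorphic functions -/
theorem exists_common {ι : Type*} (s : Finset ι) (F : ι → Fn) (h : ∀ i ∈ s, F i ∈ O) : ∃ n, ∀ i ∈ s, HoloN n (F i) := by
  classical
  induction s using Finset.induction_on with
  | empty => exact ⟨0, fun i hi => absurd hi (Finset.notMem_empty _)⟩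
  | insert a s ha ih =>
    obtain ⟨n, hn⟩ := ih fun i hi => h i (Finset.mem_insert_of_mem hi)
    obtain ⟨m, hm⟩ := holo_iff.1 (h a (Finset.mem_insert_self a s)).1
    refine ⟨max n m, fun i hi => ?_⟩
    rcases Finset.mem_insert.1 hi with rfl | hi
    · exact hm.mono (le_max_right _ _)
    · exact (hn i hi).mono (le_max_left _ _)

/-- the formal Cauchy formula for the root -/
theorem root_formula {C : ℕ → Fn} {d : ℕ} (hC : ∀ k, PolF (C k)) {H Qb : Fn} (hH : H ∈ O) (hQ : RatG Qb) {i : ℕ}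
    (hCi : ∀ k < d, Fresh i (C k)) (hHi : Fresh i H) (hQi : Fresh i Qb)
    (hz0 : ∀ z ∈ D, pw C d z (H z) = 0) {w₁ : ℂ} (hw₁ : PolF fun _ => w₁) {η : ℚ} (hη : 0 < η)
    (hclose : ∀ z ∈ D, ‖H z - w₁‖ ≤ (η : ℝ) / 4)
    (hne : ∀ z ∈ D, ∀ w, ‖w - w₁‖ ≤ 2 * (η : ℝ) → gd C d z w (H z) ≠ 0) : Rep fun z => Qb z * H z := by
  have hηr : (0 : ℝ) < (η : ℝ) := by exact_mod_cast hη
  have hηc : (η : ℂ) ≠ 0 := by exact_mod_cast hη.ne'
  have hηn : ‖(η : ℂ)‖ = (η : ℝ) := norm_rat hη.le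
  have hw₁O : (fun _ : ℕ → ℂ => w₁) ∈ O := hw₁.mem_O
  have hQO := hQ.mem_O
  have hCO : ∀ k, C k ∈ O := fun k => (hC k).mem_O
  have hQH : (fun z => Qb z * H z) ∈ O := O_mul hQO hH
  have hQHi : Fresh i fun z => Qb z * H z := fun z t => by simp only [hQi _ _, hHi _ _]
  refine Rep.of_cFn hQH hQHi ?_
  -- (1)
  set dd : Fn := fun z => ((η⁻¹ : ℚ) : ℂ) * (H z - w₁) with hdd
  have hddO : dd ∈ O := O_mul (O_rat _) (O_sub hH hw₁O)
  have hddi : Fresh i dd := fun z t => by simp only [hdd, hHi _ _]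
  have hddb : ∀ z ∈ D, ‖dd z‖ ≤ 1 / 4 := by
    intro z hz
    have h1 := hclose z hz
    simp only [hdd]
    rw [norm_mul, norm_rat (inv_nonneg.2 hη.le)]
    push_cast
    rw [inv_mul_le_iff₀ hηr]
    linarith
  have h1 := formal_residue hQH hddO hQHi hddi hddb
  -- (2)
  set wq : Fn := fun z => w₁ + 2 * (η : ℂ) * z i with hwq
  have hwqO : wq ∈ O := by
    have h2 : (fun _ : ℕ → ℂ => (2 : ℂ)) ∈ O := by simpa using O_rat 2
    exact O_add hw₁O (O_mul (O_mul h2 (O_rat η)) (O_coord i))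
  have hwqb : ∀ z ∈ D, ‖wq z - w₁‖ ≤ 2 * (η : ℝ) := by
    intro z hz
    simp only [hwq, add_sub_cancel_left]
    rw [norm_mul, norm_mul, hηn, Complex.norm_ofNat]
    have := hz i
    nlinarith
  set FF : Fn := fun z => Qb z * (wq z * (gd' C d z (wq z) (H z) * (gd C d z (wq z) (H z))⁻¹)) with hFF
  have hFFO : FF ∈ O := O_mul hQO (O_mul hwqO (O_mul (O_gd' hCO hwqO hH) (O_inv (O_gd hCO hwqO hH) fun z hz => hne z hz _ (hwqb z hz))))
  have hhalf : (((1 / 2 : K)) : ℂ) = 1 / 2 := by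
    have : (((1 / 2 : K)) : ℂ) = algebraMap K ℂ (1 / 2) := rfl
    rw [this, map_div₀, map_one, map_ofNat]
  have h2 := formal_cauchy hFFO i (lam := (1 / 2 : K)) (by norm_num) (by rw [hhalf]; norm_num)
  -- the rational functions
  set w : ℕ → Fn := fun m z => w₁ + (η : ℂ) * ζ m (z i) with hw
  have hwP : ∀ m, PolF (w m) := fun m => hw₁.add ((PolF.rat η).mul (PolF.zeta m i))
  have hwb : ∀ m, ∀ z ∈ D, ‖w m z - w₁‖ ≤ 2 * (η : ℝ) := by
    intro m z hz
    simp only [hw, add_sub_cancel_left]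
    rw [norm_mul, hηn]
    have := zeta_upper m (hz i)
    nlinarith
  have hwH : ∀ m, ∀ z ∈ D, w m z - H z ≠ 0 := by
    intro m z hz h0
    have h3 := hclose z hz
    have h4 := zeta_lower m (hz i)
    have h5 : (η : ℂ) * ζ m (z i) = H z - w₁ := by
      simp only [hw] at h0
      linear_combination h0
    have h6 : (η : ℝ) * ‖ζ m (z i)‖ ≤ (η : ℝ) / 4 := by
      rw [← hηn, ← norm_mul, h5, hηn]; exact h3
    nlinarith
  have hpw : ∀ m, ∀ z ∈ D, pw C d z (w m z) = (w m z - H z) * gd C d z (w m z) (H z) := by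
    intro m z hz
    have := pw_sub C d z (w m z) (H z)
    rw [hz0 z hz, sub_zero] at this
    exact this
  have hgne : ∀ m, ∀ z ∈ D, gd C d z (w m z) (H z) ≠ 0 := fun m z hz => hne z hz _ (hwb m z hz)
  set r : ℕ → Fn := fun m z => (Qb z * (w m z * pw' C d z (w m z)) / pw C d z (w m z)) * ((η : ℂ) * W m) with hr
  have hrR : ∀ m, RatG (r m) := fun m =>
    ((hQ.mul ((hwP m).mul ((hwP m).pw' hC)).ratG).div ((hwP m).pw hC) fun z hz => by
      rw [hpw m z hz]; exact mul_ne_zero (hwH m z hz) (hgne m z hz)).mul ((PolF.rat η).mul (PolF.W m)).ratG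
  have h3 : Rep fun z => ∑ m ∈ Finset.range 16, r m z := Rep.sum _ _ fun m _ => Rep.ratG (hrR m)
  refine Rep.of_eqv (Eqv.symm ?_) h3
  unfold Eqv
  have h4 := Stokes.smul_mem (2 * η) h2
  have h5 := Stokes.add_mem h1 h4
  convert h5 using 1
  funext x
  simp only [Pi.add_apply, Pi.smul_apply, Rat.smul_def]
  rw [Finset.mul_sum, ← Finset.sum_add_distrib]
  have e1 : cFn (pt x i) * (Qb (pt x) * H (pt x)) = ∑ m ∈ Finset.range 16, (Qb (pt x) * H (pt x)) * W m / ζ m (pt x i) := by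
    unfold cFn
    rw [Finset.sum_mul]
    apply Finset.sum_congr rfl
    intro m _
    ring
  have e2 : ∑ m ∈ Finset.range 16, r m (pt x) = ∑ m ∈ Finset.range 16, (r m (pt x) - Qb (pt x) * ((η : ℂ) * W m)) := by
    rw [Finset.sum_sub_distrib, ← Finset.mul_sum, ← Finset.mul_sum, sum_W]
    ring
  rw [e1, e2, ← Finset.sum_sub_distrib]
  apply Finset.sum_congr rfl
  intro m _
  set z := pt x with hz
  have hzD : z ∈ D := pt_mem_D x
  have k1 := hwH m z hzD
  have k2 := hgne m z hzD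
  have k3 : ζ m (z i) - dd z ≠ 0 := by
    intro h0
    apply k1
    simp only [hw, hdd] at h0 ⊢
    push_cast at h0
    field_simp at h0
    linear_combination h0
  have e3 : FF (update z i (((1 / 2 : K) : ℂ) * ζ m (z i))) = Qb z * (w m z * (gd' C d z (w m z) (H z) * (gd C d z (w m z) (H z))⁻¹)) := by
    have q1 : wq (update z i (((1 / 2 : K) : ℂ) * ζ m (z i))) = w m z := by
      simp only [hwq, hw, update_self, hhalf]; ring
    have q2 : ∀ t w h, gd' C d (update z i t) w h = gd' C d z w h := by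
      intro t w h
      unfold gd'
      apply Finset.sum_congr rfl
      intro k hk
      rw [hCi k (Finset.mem_range.1 hk)]
    have q3 : ∀ t w h, gd C d (update z i t) w h = gd C d z w h := by
      intro t w h
      unfold gd
      apply Finset.sum_congr rfl
      intro k hk
      rw [hCi k (Finset.mem_range.1 hk)]
    simp only [hFF, q1, q2, q3, hQi _ _, hHi _ _]
  rw [e3]
  have e4 : r m z = (Qb z * (w m z * (gd C d z (w m z) (H z) + (w m z - H z) * gd' C d z (w m z) (H z))) /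
      ((w m z - H z) * gd C d z (w m z) (H z))) * ((η : ℂ) * W m) := by
    simp only [hr]
    rw [hpw m z hzD, pw'_eq C d z (w m z) (H z)]
  rw [e4]
  have e5 : Qb z * H z * W m / (ζ m (z i) - dd z) = Qb z * H z * W m * (η : ℂ) / (w m z - H z) := by
    rw [div_eq_div_iff k3 k1]
    simp only [hw, hdd]
    push_cast
    field_simp
    ring
  rw [e5, hhalf]
  push_cast
  set g1 := gd C d z (w m z) (H z) with hg1
  set g2 := gd' C d z (w m z) (H z) with hg2
  set ww := w m z with hww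
  field_simp
  ring

end Pool.Agent.H39.KP
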