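import Pool.Agent.H39.KP.Level2

namespace Pool.Agent.H39.KP

open Function Filter Topology

variable {f g F G : Fn}

theorem real_mem_ball {n : ℕ} {a : Fin n → ℝ} (ha : a ∈ Set.Icc (0 : Fin n → ℝ) 1) :
    (fun k => (a k : ℂ)) ∈ Metric.closedBall (0 : Fin n → ℂ) 1 := by
  rw [mem_closedBall_zero_iff, pi_norm_le_iff_of_nonneg zero_le_one]
  intro k
  rw [Complex.norm_real, Real.norm_of_nonneg (ha.1 k)]
  exact ha.2 k

theorem HoloN.contAt {n : ℕ} (hf : HoloN n f) {x : Fin n → ℂ} (hx : x ∈ Metric.closedBall (0 : Fin n → ℂ) 1) :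
    ContinuousAt (fun y => f (ext n y)) x := (hf.2 x hx).self_of_nhds.continuousAt

theorem box_near {n : ℕ} {a : Fin n → ℝ} {b s : ℕ → ℚ} (hg : Good b s) {δ : ℝ} (hδ : 0 < δ)
    (h : ∀ k : Fin n, |(b k : ℝ) - a k| + (s k : ℝ) < δ) {z : ℕ → ℂ} (hz : z ∈ D) :
    res n (bx b s z) ∈ Metric.ball (fun k => (a k : ℂ)) δ := by
  rw [mem_ball_iff_norm, pi_norm_lt_iff hδ]
  intro k
  have hs : (0 : ℝ) < (s k : ℝ) := by exact_mod_cast (hg k).1
  have e : (res n (bx b s z) - fun k => (a k : ℂ)) k = (((b k : ℝ) - a k : ℝ) : ℂ) + (s k : ℂ) * z k := by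
    simp only [Pi.sub_apply, res, bx]
    push_cast
    ring
  rw [e]
  calc ‖(((b k : ℝ) - a k : ℝ) : ℂ) + (s k : ℂ) * z k‖ ≤ ‖(((b k : ℝ) - a k : ℝ) : ℂ)‖ + ‖(s k : ℂ)‖ * ‖z k‖ := by
        rw [← norm_mul]; exact norm_add_le _ _
    _ ≤ |(b k : ℝ) - a k| + (s k : ℝ) * 1 := by
        rw [Complex.norm_real, Real.norm_eq_abs, norm_rat (hg k).1.le]
        exact add_le_add le_rfl (mul_le_mul_of_nonneg_left (hz k) hs.le)
    _ < δ := by rw [mul_one]; exact h k

/-- simple roots -/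
theorem level2 {c : ℕ → Fn} {d : ℕ} (hc : ∀ k, PolF (c k)) {h q : Fn} (hh : h ∈ O) (hq : RatG q)
    (hz0 : ∀ z ∈ D, pw c d z (h z) = 0) (hne : ∀ z ∈ D, pw' c d z (h z) ≠ 0) : Rep fun z => q z * h z := by
  obtain ⟨n1, hn1⟩ := exists_common (Finset.range d) c fun k _ => (hc k).mem_O
  obtain ⟨n2, hn2⟩ := holo_iff.1 hh.1
  obtain ⟨n3, hn3⟩ := holo_iff.1 hq.mem_O.1
  set n := n1 + n2 + n3 with hn
  have hcN : ∀ k < d, HoloN n (c k) := fun k hk => (hn1 k (Finset.mem_range.2 hk)).mono (by omega)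
  have hhN : HoloN n h := hn2.mono (by omega)
  have hqN : HoloN n q := hn3.mono (by omega)
  refine rep_of_local (O_mul hq.mem_O hh) n fun a ha => ?_
  set ac : Fin n → ℂ := fun k => (a k : ℂ) with hac
  have hacB := real_mem_ball ha
  set w0 := h (ext n ac) with hw0
  have hacD : ext n ac ∈ D := ext_mem hacB
  -- continuity
  have hcont : ContinuousAt (fun y : (Fin n → ℂ) × (ℂ × ℂ) => gd c d (ext n y.1) y.2.1 y.2.2) (ac, (w0, w0)) := by
    unfold gd
    apply tendsto_finsetSum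
    intro k hk
    apply Tendsto.mul
    · have h1 := (hcN k (Finset.mem_range.1 hk)).contAt hacB
      exact h1.tendsto.comp (continuous_fst.tendsto (ac, (w0, w0)))
    · have : Continuous fun y : (Fin n → ℂ) × (ℂ × ℂ) => ∑ a ∈ Finset.range k, y.2.1 ^ a * y.2.2 ^ (k - 1 - a) := by fun_prop
      exact this.tendsto _
  have hne0 : gd c d (ext n ac) w0 w0 ≠ 0 := by
    rw [gd_diag]
    exact hne _ hacD
  have hev := hcont.eventually_ne hne0
  obtain ⟨ρ, hρ, hball⟩ := Metric.eventually_nhds_iff_ball.1 hev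
  obtain ⟨η, hη0, hη1⟩ := exists_rat_btwn (show (0 : ℝ) < ρ / 4 by positivity)
  have hη : 0 < η := by exact_mod_cast hη0
  obtain ⟨w₁, hw₁, hw₁c⟩ := exists_gaussP w0 (δ := (η : ℝ) / 8) (by positivity)
  have hhc := hhN.contAt hacB
  have hev2 : ∀ᶠ y in 𝓝 ac, ‖h (ext n y) - w0‖ < (η : ℝ) / 8 := by
    have h1 := Metric.tendsto_nhds.1 hhc.tendsto ((η : ℝ) / 8) (by positivity)
    filter_upwards [h1] with y hy
    rwa [dist_eq_norm] at hy
  obtain ⟨δ, hδ, hδb⟩ := Metric.eventually_nhds_iff_ball.1 hev2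
  refine ⟨min δ ρ, lt_min hδ hρ, fun b s hg hbs => ?_⟩
  have hnear : ∀ z ∈ D, res n (bx b s z) ∈ Metric.ball ac (min δ ρ) := fun z hz => box_near hg (lt_min hδ hρ) hbs hz
  have hclose : ∀ z ∈ D, ‖h (bx b s z) - w0‖ < (η : ℝ) / 8 := by
    intro z hz
    have h1 := hδb _ (Metric.ball_subset_ball (min_le_left _ _) (hnear z hz))
    rwa [hhN.1.ext_res] at h1
  refine root_formula (C := fun k z => c k (bx b s z)) (d := d) (fun k => (hc k).bx b s) (H := fun z => h (bx b s z))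
    (Qb := fun z => q (bx b s z)) (O_bx hh hg) (hq.bx hg) (i := n) (fun k hk => fresh_bx (hcN k hk).1 b s) (fresh_bx hhN.1 b s)
    (fresh_bx hqN.1 b s) (fun z hz => hz0 _ (bx_mem_D hg hz)) hw₁ hη (fun z hz => ?_) fun z hz w hw => ?_
  · have h1 := hclose z hz
    calc ‖h (bx b s z) - w₁‖ = ‖(h (bx b s z) - w0) - (w₁ - w0)‖ := by congr 1; ring
      _ ≤ ‖h (bx b s z) - w0‖ + ‖w₁ - w0‖ := norm_sub_le _ _
      _ ≤ (η : ℝ) / 4 := by linarith
  · have h1 := hclose z hz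
    have h2 : ‖w - w0‖ < ρ := by
      calc ‖w - w0‖ = ‖(w - w₁) + (w₁ - w0)‖ := by congr 1; ring
        _ ≤ ‖w - w₁‖ + ‖w₁ - w0‖ := norm_add_le _ _
        _ < ρ := by linarith
    have h3 : ‖h (bx b s z) - w0‖ < ρ := by linarith
    have h4 := hball (res n (bx b s z), (w, h (bx b s z))) (by
      rw [Metric.mem_ball, Prod.dist_eq, Prod.dist_eq]
      apply max_lt
      · exact Metric.ball_subset_ball (min_le_right _ _) (hnear z hz)
      · apply max_lt
        · rwa [dist_eq_norm]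
        · rwa [dist_eq_norm])
    have h5 : gd c d (ext n (res n (bx b s z))) w (h (bx b s z)) = gd (fun k z => c k (bx b s z)) d z w (h (bx b s z)) := by
      unfold gd
      apply Finset.sum_congr rfl
      intro k hk
      rw [(hcN k (Finset.mem_range.1 hk)).1.ext_res]
    rw [← h5]
    exact h4

end Pool.Agent.H39.KP
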