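import Pool.Agent.H39.KP.Calc

namespace Pool.Agent.H39.KP

open Function MeasureTheory

/-- the product measure -/
noncomputable abbrev μ : Measure Cube := Measure.infinitePi fun _ : ℕ => (volume : Measure unitInterval)

theorem map_update (i : ℕ) : (μ.prod (volume : Measure unitInterval)).map (fun p : Cube × unitInterval => update p.1 i p.2) = μ := by
  have hm : Measurable (fun p : Cube × unitInterval => update p.1 i p.2) := by
    rw [measurable_pi_iff]
    intro k
    by_cases hk : k = i
    · subst hk; simpa using measurable_snd
    · simp only [update_of_ne hk]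
      exact (measurable_pi_apply k).comp measurable_fst
  apply Measure.eq_infinitePi
  intro s t ht
  rw [Measure.map_apply hm (MeasurableSet.pi s.countable_toSet fun k _ => ht k)]
  by_cases hi : i ∈ s
  · have e : (fun p : Cube × unitInterval => update p.1 i p.2) ⁻¹' (Set.pi s t)
        = (Set.pi ((s.erase i : Finset ℕ) : Set ℕ) t) ×ˢ (t i) := by
      ext p
      simp only [Set.mem_preimage, Set.mem_pi, Finset.mem_coe, Set.mem_prod, Finset.mem_erase]
      constructor
      · intro h
        refine ⟨fun k hk => ?_, ?_⟩
        · have := h k hk.2
          rwa [update_of_ne hk.1] at this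
        · simpa using h i hi
      · rintro ⟨h1, h2⟩ k hk
        by_cases hki : k = i
        · subst hki; simpa using h2
        · rw [update_of_ne hki]; exact h1 k ⟨hki, hk⟩
    rw [e, Measure.prod_prod, Measure.infinitePi_pi _ fun k _ => ht k, Finset.prod_erase_mul s _ hi]
  · have e : (fun p : Cube × unitInterval => update p.1 i p.2) ⁻¹' (Set.pi s t)
        = (Set.pi (s : Set ℕ) t) ×ˢ (Set.univ : Set unitInterval) := by
      ext p
      simp only [Set.mem_preimage, Set.mem_pi, Finset.mem_coe, Set.mem_prod, Set.mem_univ, and_true]
      refine forall_congr' fun k => forall_congr' fun hk => ?_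
      rw [update_of_ne (fun h : k = i => hi (h ▸ hk))]
    rw [e, Measure.prod_prod, Measure.infinitePi_pi _ fun k _ => ht k, measure_univ, mul_one]

theorem continuous_update (i : ℕ) : Continuous fun p : Cube × unitInterval => update p.1 i p.2 := by
  rw [continuous_pi_iff]
  intro k
  by_cases hk : k = i
  · subst hk; simpa using continuous_snd
  · simp only [update_of_ne hk]
    exact (continuous_apply k).comp continuous_fst

theorem integrable_of_continuous {h : Cube → ℂ} (hc : Continuous h) : Integrable h μ := by
  obtain ⟨C, hC⟩ := isCompact_univ.exists_bound_of_continuousOn hc.continuousOn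
  exact Integrable.of_bound hc.aestronglyMeasurable C (ae_of_all _ fun x => hC x (Set.mem_univ x))

theorem integral_update {h : Cube → ℂ} (hc : Continuous h) (i : ℕ) :
    ∫ x, h x ∂μ = ∫ x, ∫ t : unitInterval, h (update x i t) ∂volume ∂μ := by
  have hc2 : Continuous fun p : Cube × unitInterval => h (update p.1 i p.2) := hc.comp (continuous_update i)
  have hint : Integrable (fun p : Cube × unitInterval => h (update p.1 i p.2)) (μ.prod (volume : Measure unitInterval)) := by
    obtain ⟨C, hC⟩ := isCompact_univ.exists_bound_of_continuousOn hc2.continuousOn
    exact Integrable.of_bound hc2.aestronglyMeasurable C (ae_of_all _ fun x => hC x (Set.mem_univ x))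
  rw [← integral_prod _ hint]
  conv_lhs => rw [← map_update i]
  rw [integral_map]
  · exact (continuous_update i).measurable.aemeasurable
  · exact hc.aestronglyMeasurable

theorem integral_unit {φ : ℝ → ℂ} : ∫ t : unitInterval, φ t ∂volume = ∫ t in (0 : ℝ)..1, φ t := by
  rw [intervalIntegral.integral_of_le zero_le_one]
  rw [← integral_Icc_eq_integral_Ioc]
  exact integral_subtype measurableSet_Icc φ

end Pool.Agent.H39.KP
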