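import Pool.Agent.H39.KP.OpenPos

namespace Pool.Agent.H39.KP

open Function MeasureTheory Filter Topology

variable {f g : Fn}

theorem IsReal.T (hf : IsReal f) (i : ℕ) : IsReal (T i f) := by
  intro x
  have p0 : 0 ≤ (x i : ℝ) / 2 := by have := (x i).2.1; positivity
  have p1 : (x i : ℝ) / 2 ≤ 1 := by have := (x i).2.2; linarith
  have p2 : 0 ≤ (1 + (x i : ℝ)) / 2 := by have := (x i).2.1; positivity
  have p3 : (1 + (x i : ℝ)) / 2 ≤ 1 := by have := (x i).2.2; linarith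
  have h0 : update (pt x) i (pt x i / 2) = pt (update x i ⟨(x i : ℝ) / 2, p0, p1⟩) := by
    rw [pt_update_rat x i p0 p1]; simp [pt]
  have h1 : update (pt x) i ((1 + pt x i) / 2) = pt (update x i ⟨(1 + (x i : ℝ)) / 2, p2, p3⟩) := by
    rw [pt_update_rat x i p2 p3]; simp [pt]
  simp only [KP.T, half0, half1, h0, h1]
  rw [Complex.add_im, Complex.div_ofNat_im, Complex.div_ofNat_im, hf, hf]
  simp

theorem IsReal.TT (hf : IsReal f) (n : ℕ) : IsReal (TT n f) := by
  induction n with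
  | zero => exact hf
  | succ n ih => exact ih.T n

theorem IsReal.Sub (hf : IsReal f) (n e : ℕ) : IsReal (Sub n e f) := by
  induction e with
  | zero => exact hf
  | succ e ih => rw [Sub_succ]; exact ih.TT n

/-- `g` is real and positive on the cube. -/
def Pos (g : Fn) : Prop := ∀ x : Cube, 0 < (g (pt x)).re ∧ (g (pt x)).im = 0

theorem real_root (hf : f ∈ O) (hr : IsReal f) (h0 : 0 < (ev f).re) {m : ℕ} (hm : 0 < m) :
    ∃ g ∈ O, Pos g ∧ (∀ z ∈ D, g z ≠ 0) ∧ Eqv f fun z => g z ^ m := by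
  obtain ⟨n, e, h⟩ := approx hf (ε := (ev f).re / 2) (by positivity)
  have hre : ∀ z ∈ D, 0 < (Sub n e f z).re := by
    intro z hz
    have h1 := (Complex.abs_re_le_norm _).trans (h z hz)
    rw [Complex.sub_re, abs_le] at h1
    linarith [h1.1]
  refine ⟨fun z => Sub n e f z ^ ((m : ℂ)⁻¹), O_root hm (O_Sub hf n e) hre, ?_, ?_, ?_⟩
  · intro x
    have hx := hre _ (pt_mem_D x)
    have e1 : Sub n e f (pt x) = (((Sub n e f (pt x)).re : ℝ) : ℂ) := by
      apply Complex.ext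
      · simp
      · simp [hr.Sub n e x]
    have e2 : Sub n e f (pt x) ^ ((m : ℂ)⁻¹) = (((Sub n e f (pt x)).re ^ ((m : ℝ)⁻¹) : ℝ) : ℂ) := by
      rw [Complex.ofReal_cpow hx.le]
      rw [← e1]
      push_cast
      rfl
    show 0 < (Sub n e f (pt x) ^ ((m : ℂ)⁻¹)).re ∧ (Sub n e f (pt x) ^ ((m : ℂ)⁻¹)).im = 0
    rw [e2]
    exact ⟨by rw [Complex.ofReal_re]; positivity, Complex.ofReal_im _⟩
  · intro z hz h1
    have h2 := hre z hz
    have h3 : Sub n e f z ^ ((m : ℂ)⁻¹) = 0 := h1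
    rw [Complex.cpow_eq_zero_iff] at h3
    rw [h3.1] at h2
    simp at h2
  · have : (fun z => (Sub n e f z ^ ((m : ℂ)⁻¹)) ^ m) = Sub n e f := by
      funext z
      exact Complex.cpow_nat_inv_pow _ hm.ne'
    show Eqv f (fun z => (Sub n e f z ^ ((m : ℂ)⁻¹)) ^ m)
    rw [this]
    exact eqv_Sub hf n e

theorem isAlg_gauss (a b : ℚ) : IsAlgebraic ℚ ((a : ℂ) + b * Complex.I) := by
  have ha : IsAlgebraic ℚ (a : ℂ) := by
    have := isAlgebraic_algebraMap (R := ℚ) (A := ℂ) a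
    simpa using this
  have hb : IsAlgebraic ℚ (b : ℂ) := by
    have := isAlgebraic_algebraMap (R := ℚ) (A := ℂ) b
    simpa using this
  exact ha.add (hb.mul isAlg_I)

theorem exists_gauss (c : ℂ) {δ : ℝ} (hδ : 0 < δ) : ∃ α : ℂ, IsAlgebraic ℚ α ∧ ‖α - c‖ ≤ δ := by
  obtain ⟨a, ha1, ha2⟩ := exists_rat_btwn (show c.re - δ / 2 < c.re by linarith)
  obtain ⟨b, hb1, hb2⟩ := exists_rat_btwn (show c.im - δ / 2 < c.im by linarith)
  refine ⟨(a : ℂ) + b * Complex.I, isAlg_gauss a b, ?_⟩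
  have h1 := Complex.norm_le_abs_re_add_abs_im ((a : ℂ) + b * Complex.I - c)
  refine h1.trans ?_
  have e1 : ((a : ℂ) + b * Complex.I - c).re = (a : ℝ) - c.re := by simp
  have e2 : ((a : ℂ) + b * Complex.I - c).im = (b : ℝ) - c.im := by simp
  rw [e1, e2, abs_of_nonpos (by linarith), abs_of_nonpos (by linarith)]
  linarith

theorem complex_root (hf : f ∈ O) (h0 : ev f ≠ 0) {m : ℕ} (hm : 0 < m) :
    ∃ g ∈ O, (∀ z ∈ D, g z ≠ 0) ∧ Eqv f fun z => g z ^ m := by
  set c := ev f with hc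
  have hcn : 0 < ‖c‖ := norm_pos_iff.2 h0
  obtain ⟨α, hα, hαc⟩ := exists_gauss c (δ := ‖c‖ / 8) (by positivity)
  obtain ⟨n, e, h⟩ := approx hf (ε := ‖c‖ / 8) (by positivity)
  have hαn : 7 / 8 * ‖c‖ ≤ ‖α‖ := by
    have : ‖c‖ ≤ ‖α‖ + ‖α - c‖ := by
      calc ‖c‖ = ‖α - (α - c)‖ := by congr 1; ring
        _ ≤ ‖α‖ + ‖α - c‖ := norm_sub_le _ _
    linarith
  have hα0 : α ≠ 0 := norm_pos_iff.1 (by linarith)
  have hαi : IsAlgebraic ℚ α⁻¹ := hα.inv
  have hS : (fun z => α⁻¹ * Sub n e f z) ∈ O := O_mul (O_const hαi) (O_Sub hf n e)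
  have hre : ∀ z ∈ D, 0 < (α⁻¹ * Sub n e f z).re := by
    intro z hz
    have h1 := h z hz
    have h2 : ‖α⁻¹ * Sub n e f z - 1‖ ≤ 1 / 2 := by
      have e3 : α⁻¹ * Sub n e f z - 1 = α⁻¹ * ((Sub n e f z - c) - (α - c)) := by
        field_simp; ring
      rw [e3, norm_mul, norm_inv, inv_mul_le_iff₀ (by linarith)]
      calc ‖Sub n e f z - c - (α - c)‖ ≤ ‖Sub n e f z - c‖ + ‖α - c‖ := norm_sub_le _ _
        _ ≤ ‖α‖ * (1 / 2) := by linarith
    have h3 := (Complex.abs_re_le_norm _).trans h2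
    rw [Complex.sub_re, Complex.one_re, abs_le] at h3
    linarith [h3.1]
  obtain ⟨β, hβ⟩ := IsAlgClosed.exists_pow_nat_eq α hm
  have hβa : IsAlgebraic ℚ β := IsAlgebraic.of_pow hm (by rw [hβ]; exact hα)
  have hβ0 : β ≠ 0 := by
    rintro rfl
    rw [zero_pow hm.ne'] at hβ
    exact hα0 hβ.symm
  refine ⟨fun z => β * (α⁻¹ * Sub n e f z) ^ ((m : ℂ)⁻¹), O_mul (O_const hβa) (O_root hm hS hre), ?_, ?_⟩
  · intro z hz h1
    rcases mul_eq_zero.1 h1 with h2 | h2
    · exact hβ0 h2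
    · have h3 := hre z hz
      rw [Complex.cpow_eq_zero_iff] at h2
      rw [h2.1] at h3
      simp at h3
  · have : (fun z => (β * (α⁻¹ * Sub n e f z) ^ ((m : ℂ)⁻¹)) ^ m) = Sub n e f := by
      funext z
      rw [mul_pow, Complex.cpow_nat_inv_pow _ hm.ne', hβ]
      field_simp
    show Eqv f (fun z => (β * (α⁻¹ * Sub n e f z) ^ ((m : ℂ)⁻¹)) ^ m)
    rw [this]
    exact eqv_Sub hf n e

theorem ev_sq (_hg : g ∈ O) (hr : IsReal g) : ev (fun z => g z ^ 2) = ((∫ x, (g (pt x)).re ^ 2 ∂μ : ℝ) : ℂ) := by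
  unfold ev
  rw [← integral_complex_ofReal]
  congr 1
  funext x
  have : g (pt x) = (((g (pt x)).re : ℝ) : ℂ) := by
    apply Complex.ext
    · simp
    · simp [hr x]
  show g (pt x) ^ 2 = _
  rw [this]
  simp

theorem Pos.isReal (h : Pos g) : IsReal g := fun x => (h x).2

theorem sq_pos (hg : g ∈ O) (hr : IsReal g) {x : Cube} (hx : g (pt x) ≠ 0) : 0 < ∫ x, (g (pt x)).re ^ 2 ∂μ := by
  have hc : Continuous fun x : Cube => (g (pt x)).re ^ 2 := (Complex.continuous_re.comp hg.1.continuous).pow 2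
  have hx2 : (g (pt x)).re ≠ 0 := fun h' => hx (Complex.ext h' (hr x))
  refine integral_pos_of_integrable_nonneg_nonzero (x := x) hc ?_ (fun x => sq_nonneg _) (pow_ne_zero 2 hx2)
  obtain ⟨C, hC⟩ := isCompact_univ.exists_bound_of_continuousOn hc.continuousOn
  exact Integrable.of_bound hc.aestronglyMeasurable C (ae_of_all _ fun x => hC x (Set.mem_univ x))

theorem ev_sq_pos (hg : g ∈ O) (hp : Pos g) : 0 < (ev fun z => g z ^ 2).re := by
  rw [ev_sq hg hp.isReal, Complex.ofReal_re]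
  refine sq_pos hg hp.isReal (x := fun _ => 0) fun h => ?_
  have := (hp fun _ => 0).1
  rw [h] at this
  simp at this

theorem ev_sq_nonneg (hg : g ∈ O) (hr : IsReal g) : 0 ≤ (ev fun z => g z ^ 2).re := by
  rw [ev_sq hg hr, Complex.ofReal_re]
  exact integral_nonneg fun x => sq_nonneg _

theorem sq_zero (hg : g ∈ O) (hr : IsReal g) (h : ev (fun z => g z ^ 2) = 0) (x : Cube) : g (pt x) = 0 := by
  by_contra hx
  have := sq_pos hg hr hx
  rw [ev_sq hg hr, Complex.ofReal_eq_zero] at h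
  linarith

theorem ev_add (hf : f ∈ O) (hg : g ∈ O) : ev (fun z => f z + g z) = ev f + ev g := by
  unfold ev
  exact integral_add (integrable_of_continuous hf.1.continuous) (integrable_of_continuous hg.1.continuous)

theorem ev_neg (f : Fn) : ev (fun z => - f z) = - ev f := by
  unfold ev
  exact integral_neg _

theorem ev_const (c : ℂ) : ev (fun _ => c) = c := by
  unfold ev
  simp

theorem isReal_const (q : ℚ) : IsReal fun _ => (q : ℂ) := fun x => by
  show ((q : ℂ)).im = 0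
  rw [show (q : ℂ) = ((q : ℝ) : ℂ) by push_cast; rfl, Complex.ofReal_im]

theorem IsReal.add (hf : IsReal f) (hg : IsReal g) : IsReal fun z => f z + g z := fun x => by
  show (f (pt x) + g (pt x)).im = 0
  rw [Complex.add_im, hf, hg, add_zero]

theorem IsReal.neg (hf : IsReal f) : IsReal fun z => - f z := fun x => by
  show (- f (pt x)).im = 0
  rw [Complex.neg_im, hf, neg_zero]

/-- evaluation of a real function -/
theorem ev_real_eq (hr : IsReal f) : ev f = ((ev f).re : ℂ) := by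
  apply Complex.ext
  · simp
  · simp [ev_im hr]

/-- **the conjecture and squares** -/
theorem conj_iff_squares : Conj ↔ ∀ f ∈ O, IsReal f → ∃ m : ℕ, ∃ g ∈ O, IsReal g ∧
    (Eqv (piMul m f) (fun z => g z ^ 2) ∨ Eqv (piMul m f) (fun z => -g z ^ 2)) := by
  constructor
  · intro h f hf hr
    rcases lt_trichotomy (ev f).re 0 with h0 | h0 | h0
    · have h1 : 0 < (ev fun z => - f z).re := by rw [ev_neg]; simpa using h0
      obtain ⟨g, hg, hp, -, he⟩ := real_root (O_neg hf) hr.neg h1 (m := 2) (by norm_num)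
      refine ⟨0, g, hg, hp.isReal, Or.inr ?_⟩
      have := he.neg
      simp only [neg_neg] at this
      exact this
    · have h1 : ev f = 0 := by rw [ev_real_eq hr, h0]; simp
      obtain ⟨m, hm⟩ := h f hf h1
      refine ⟨m, fun _ => ((0 : ℚ) : ℂ), O_rat 0, isReal_const 0, Or.inl ?_⟩
      unfold Eqv
      simpa using hm
    · obtain ⟨g, hg, hp, -, he⟩ := real_root hf hr h0 (m := 2) (by norm_num)
      exact ⟨0, g, hg, hp.isReal, Or.inl he⟩
  · intro h
    refine conj_of_real fun f hf hr h0 => ?_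
    obtain ⟨m, g, hg, hgr, he⟩ := h f hf hr
    have e0 : ev (piMul m f) = 0 := by rw [ev_piMul hf, h0, mul_zero]
    have hP := O_piMul hf m
    have hsq : (fun z => g z ^ 2) ∈ O := O_pow hg 2
    have hz : ∀ x : Cube, g (pt x) = 0 := by
      apply sq_zero hg hgr
      rcases he with he | he
      · rw [← he.ev_eq hP.1 hsq.1, e0]
      · have h1 := he.ev_eq hP.1 (O_neg hsq).1
        rw [e0, ev_neg] at h1
        exact (neg_eq_zero.1 h1.symm)
    refine ⟨m, ?_⟩
    rcases he with he | he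
    · unfold Eqv at he
      simpa [hz] using he
    · unfold Eqv at he
      simpa [hz] using he

/-- **the conjecture and the Archimedean axiom** -/
theorem conj_iff_archimedean : Conj ↔ ∀ f ∈ O, IsReal f →
    (∀ N : ℕ, (∃ g ∈ O, IsReal g ∧ Eqv (fun z => ((1 / (N + 1) : ℚ) : ℂ) + f z) fun z => g z ^ 2) ∧
      ∃ g ∈ O, IsReal g ∧ Eqv (fun z => ((1 / (N + 1) : ℚ) : ℂ) - f z) fun z => g z ^ 2) → Zero f := by
  constructor
  · intro h f hf hr hN
    refine h f hf ?_
    have key : ∀ N : ℕ, |(ev f).re| ≤ 1 / ((N : ℝ) + 1) := by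
      intro N
      obtain ⟨⟨g, hg, hgr, h1⟩, ⟨k, hk, hkr, h2⟩⟩ := hN N
      have e1 := h1.ev_eq (O_add (O_rat _) hf).1 (O_pow hg 2).1
      have e2 := h2.ev_eq (O_sub (O_rat _) hf).1 (O_pow hk 2).1
      have n1 := ev_sq_nonneg hg hgr
      have n2 := ev_sq_nonneg hk hkr
      rw [← e1, ev_add (O_rat _) hf, ev_const] at n1
      have e3 : ev (fun z => ((1 / (N + 1) : ℚ) : ℂ) - f z) = ((1 / (N + 1) : ℚ) : ℂ) - ev f := by
        have := ev_add (O_rat (1 / (N + 1))) (O_neg hf)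
        rw [ev_const, ev_neg] at this
        simpa [sub_eq_add_neg] using this
      rw [← e2, e3] at n2
      have e4 : (((1 / (N + 1) : ℚ) : ℂ)).re = 1 / ((N : ℝ) + 1) := by
        rw [show (((1 / (N + 1) : ℚ)) : ℂ) = (((1 / ((N : ℝ) + 1) : ℝ)) : ℂ) by push_cast; rfl, Complex.ofReal_re]
      rw [Complex.add_re, e4] at n1
      rw [Complex.sub_re, e4] at n2
      rw [abs_le]
      constructor <;> linarith
    have h0 : (ev f).re = 0 := by
      by_contra hne
      have hpos : 0 < |(ev f).re| := abs_pos.2 hne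
      obtain ⟨N, hN⟩ := exists_nat_one_div_lt hpos
      exact absurd (key N) (not_le.2 hN)
    rw [ev_real_eq hr, h0]; simp
  · intro h
    refine conj_of_real fun f hf hr h0 => h f hf hr fun N => ?_
    have hp : (0 : ℝ) < 1 / ((N : ℝ) + 1) := by positivity
    have e4 : (((1 / (N + 1) : ℚ) : ℂ)).re = 1 / ((N : ℝ) + 1) := by
      rw [show (((1 / (N + 1) : ℚ)) : ℂ) = (((1 / ((N : ℝ) + 1) : ℝ)) : ℂ) by push_cast; rfl, Complex.ofReal_re]
    constructor
    · obtain ⟨g, hg, hgp, -, he⟩ := real_root (O_add (O_rat (1 / (N + 1))) hf) ((isReal_const _).add hr)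
        (by rw [ev_add (O_rat _) hf, ev_const, h0, add_zero, e4]; exact hp) (m := 2) (by norm_num)
      exact ⟨g, hg, hgp.isReal, he⟩
    · obtain ⟨g, hg, hgp, -, he⟩ := real_root (O_add (O_rat (1 / (N + 1))) (O_neg hf)) ((isReal_const _).add hr.neg)
        (by rw [ev_add (O_rat _) (O_neg hf), ev_const, ev_neg, h0, neg_zero, add_zero, e4]; exact hp) (m := 2) (by norm_num)
      exact ⟨g, hg, hgp.isReal, by simpa [sub_eq_add_neg] using he⟩

/-- **the conjecture and closedness** -/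
theorem conj_iff_closed : Conj ↔ ∀ f ∈ O, (∀ ε > 0, ∃ g ∈ O, Eqv f g ∧ ∀ z ∈ D, ‖g z‖ ≤ ε) → Zero f := by
  constructor
  · intro h f hf hs
    refine h f hf ?_
    by_contra hne
    have hpos : 0 < ‖ev f‖ := norm_pos_iff.2 hne
    obtain ⟨g, hg, he, hb⟩ := hs (‖ev f‖ / 2) (by positivity)
    have h1 : ‖ev g‖ ≤ ‖ev f‖ / 2 := by
      have := norm_integral_le_of_norm_le_const (μ := μ) (ae_of_all _ fun x : Cube => hb _ (pt_mem_D x))
      simp only [probReal_univ, mul_one] at this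
      exact this
    rw [← he.ev_eq hf.1 hg.1] at h1
    linarith
  · intro h f hf h0
    refine h f hf fun ε hε => ?_
    obtain ⟨n, e, hb⟩ := approx hf hε
    refine ⟨Sub n e f, O_Sub hf n e, eqv_Sub hf n e, fun z hz => ?_⟩
    have := hb z hz
    rwa [h0, sub_zero] at this

end Pool.Agent.H39.KP
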