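import Pool.Agent.H39.KP.Special
import Pool.Agent.H39.KP.Squares

namespace Pool.Agent.H39.KP

open Function Filter Topology MeasureTheory

variable {f g h φ F : Fn}

/-- `z_i ↦ φ(z)` is an algebraic diffeomorphism of the cube which fixes the other coordinates: `φ` is a real function of
the algebra `O`, equal to `0` for `z_i = 0` and to `1` for `z_i = 1`, with `∂φ/∂z_i > 0` on the cube. -/
def Diffeo (i : ℕ) (φ : Fn) : Prop := φ ∈ O ∧ IsReal φ ∧
  (∀ x : Cube, φ (update (pt x) i 0) = 0 ∧ φ (update (pt x) i 1) = 1) ∧ ∀ x : Cube, 0 < (pd i φ (pt x)).re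

/-- A move from `f` to `g`: for an algebraic diffeomorphism `z_i ↦ φ(z)` of the cube with Jacobian `∂φ/∂z_i` and a
rational number `c > 0`, the summand `c ∂φ/∂z_i` of `f` is replaced by `c`. All functions are in `O` and positive on the
cube. -/
def Move (f g : Fn) : Prop := f ∈ O ∧ g ∈ O ∧ ∃ F ∈ O, Pos F ∧ ∃ (i : ℕ) (φ : Fn), Diffeo i φ ∧ ∃ c : ℚ, 0 < c ∧
  (∀ x : Cube, f (pt x) = F (pt x) + (c : ℂ) * pd i φ (pt x)) ∧ ∀ x : Cube, g (pt x) = F (pt x) + (c : ℂ)

/-- Connected by finitely many moves or inverse moves. -/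
def Equidec (f g : Fn) : Prop := Relation.ReflTransGen (fun a b => Move a b ∨ Move b a) f g

theorem Equidec.trans (h1 : Equidec f g) (h2 : Equidec g h) : Equidec f h := Relation.ReflTransGen.trans h1 h2

/-- the partial derivatives of real functions are real -/
theorem pd_cj (hf : Holo f) (i : ℕ) (x : Cube) : pd i (cj f) (pt x) = star (pd i f (pt x)) := by
  unfold pd
  have e : (fun t => cj f (update (pt x) i t)) = star ∘ (fun t => f (update (pt x) i t)) ∘ star := by
    funext t
    simp only [cj, comp_apply]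
    congr 2
    funext k
    by_cases hk : k = i
    · subst hk; simp
    · simp only [update_of_ne hk]
      simp [pt]
  have h1 : HasDerivAt (fun t => f (update (pt x) i t)) (pd i f (pt x)) (pt x i) := hf.hasDeriv (pt_mem_D x) i
  have h2 : star (pt x i) = pt x i := by simp [pt]
  have h3 : HasDerivAt (star ∘ (fun t => f (update (pt x) i t)) ∘ star) (star (pd i f (pt x))) (pt x i) := by
    have h4 := h1.conj_conj
    have h5 : (starRingEnd ℂ) (pt x i) = pt x i := h2
    rw [h5] at h4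
    exact h4
  rw [e, h3.deriv]
  rfl

theorem pd_reP (hf : f ∈ O) (i : ℕ) (x : Cube) : pd i (reP f) (pt x) = ((pd i f (pt x)).re : ℂ) := by
  have h1 : HasDerivAt (fun t => f (update (pt x) i t)) (pd i f (pt x)) (pt x i) := hf.1.hasDeriv (pt_mem_D x) i
  have h2 : HasDerivAt (fun t => cj f (update (pt x) i t)) (pd i (cj f) (pt x)) (pt x i) := (O_cj hf).1.hasDeriv (pt_mem_D x) i
  rw [pd_cj hf.1] at h2
  have h3 := (h1.fun_add h2).const_mul ((1 / 2 : ℚ) : ℂ)
  have h4 : pd i (reP f) (pt x) = ((1 / 2 : ℚ) : ℂ) * (pd i f (pt x) + star (pd i f (pt x))) := h3.deriv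
  rw [h4]
  apply Complex.ext <;> simp
  ring

theorem update_pt_zero (x : Cube) (i : ℕ) : update (pt x) i 0 = pt (update x i 0) := by
  have := pt_update_rat x i (a := 0) le_rfl zero_le_one
  rw [Complex.ofReal_zero] at this
  exact this.symm

theorem update_pt_one (x : Cube) (i : ℕ) : update (pt x) i 1 = pt (update x i 1) := by
  have := pt_update_rat x i (a := 1) zero_le_one le_rfl
  rw [Complex.ofReal_one] at this
  exact this.symm

theorem exists_bound (hf : f ∈ O) : ∃ C > 0, ∀ x : Cube, ‖f (pt x)‖ ≤ C := by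
  obtain ⟨C, hC⟩ := isCompact_univ.exists_bound_of_continuousOn hf.1.continuous.continuousOn
  exact ⟨max C 1, lt_max_of_lt_right one_pos, fun x => (hC x (Set.mem_univ x)).trans (le_max_left _ _)⟩

/-- the relations of the Jacobians -/
noncomputable def Jac : Submodule ℚ (Cube → ℂ) := Submodule.span ℚ
  {h | ∃ (i : ℕ) (φ : Fn), Diffeo i φ ∧ h = fun x => pd i φ (pt x) - 1}

theorem jac_le : Jac ≤ Stokes := by
  apply Submodule.span_le.2
  rintro _ ⟨i, φ, ⟨h1, -, h3, -⟩, rfl⟩
  have := stokes_mem h1 i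
  simp only [(h3 _).1, (h3 _).2, add_zero] at this
  exact this

/-- the derivative as in `Diffeo` -/
theorem pd_of_form {v0 v1 : Fn} {ε : ℂ} (hg : g ∈ O) (i : ℕ) (h0 : ∀ z t, v0 (update z i t) = v0 z)
    (h1 : ∀ z t, v1 (update z i t) = v1 z) (x : Cube) :
    pd i (fun z => z i + ε * (g z - v0 z - (v1 z - v0 z) * z i)) (pt x)
      = 1 + ε * (pd i g (pt x) - (v1 (pt x) - v0 (pt x))) := by
  unfold pd
  have hd : HasDerivAt (fun t => g (update (pt x) i t)) (pd i g (pt x)) (pt x i) := hg.1.hasDeriv (pt_mem_D x) i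
  have e : (fun t => update (pt x) i t i + ε * (g (update (pt x) i t) - v0 (update (pt x) i t)
      - (v1 (update (pt x) i t) - v0 (update (pt x) i t)) * update (pt x) i t i))
      = fun t => t + ε * (g (update (pt x) i t) - v0 (pt x) - (v1 (pt x) - v0 (pt x)) * t) := by
    funext t
    rw [h0, h1, update_self]
  rw [e]
  have h2 := (hasDerivAt_id' (pt x i)).fun_add
    (((hd.sub_const (v0 (pt x))).fun_sub ((hasDerivAt_id' (pt x i)).const_mul (v1 (pt x) - v0 (pt x)))).const_mul ε)
  rw [h2.deriv]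
  unfold pd
  ring

/-- the Stokes relation of a real function is a multiple of the relation of a Jacobian -/
theorem mem_jac (hg : g ∈ O) (hr : IsReal g) (i : ℕ) :
    (fun x => pd i g (pt x) - g (update (pt x) i 1) + g (update (pt x) i 0)) ∈ Jac := by
  set v0 : Fn := fun z => g (update z i 0) with hv0
  set v1 : Fn := fun z => g (update z i 1) with hv1
  have hO0 : v0 ∈ O := O_at0 hg i
  have hO1 : v1 ∈ O := O_at1 hg i
  have hr0 : ∀ x, (v0 (pt x)).im = 0 := fun x => by
    simp only [hv0, update_pt_zero]; exact hr _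
  have hr1 : ∀ x, (v1 (pt x)).im = 0 := fun x => by
    simp only [hv1, update_pt_one]; exact hr _
  have hi0 : ∀ z t, v0 (update z i t) = v0 z := fun z t => by simp only [hv0, update_idem]
  have hi1 : ∀ z t, v1 (update z i t) = v1 z := fun z t => by simp only [hv1, update_idem]
  have hsO : (fun z => pd i g z - (v1 z - v0 z)) ∈ O := O_sub (O_pd hg i) (O_sub hO1 hO0)
  obtain ⟨C, hC, hb⟩ := exists_bound hsO
  obtain ⟨ε, hε0, hε1⟩ := exists_rat_btwn (show (0 : ℝ) < 1 / C by positivity)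
  have hε0' : 0 < ε := by exact_mod_cast hε0
  set φ : Fn := fun z => z i + (ε : ℂ) * (g z - v0 z - (v1 z - v0 z) * z i) with hφ
  have hφO : φ ∈ O := O_add (O_coord i) (O_mul (O_rat ε) (O_sub (O_sub hg hO0) (O_mul (O_sub hO1 hO0) (O_coord i))))
  have hpd : ∀ x, pd i φ (pt x) = 1 + (ε : ℂ) * (pd i g (pt x) - (v1 (pt x) - v0 (pt x))) := fun x =>
    pd_of_form hg i hi0 hi1 x
  have hεr : (ε : ℂ) = ((ε : ℝ) : ℂ) := by push_cast; rfl
  have hD : Diffeo i φ := by
    refine ⟨hφO, fun x => ?_, fun x => ⟨?_, ?_⟩, fun x => ?_⟩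
    · have h1 := hr x
      have h2 := hr0 x
      have h3 := hr1 x
      have h4 : (pt x i).im = 0 := by simp [pt]
      simp only [hφ, hεr, Complex.add_im, Complex.mul_im, Complex.sub_im, Complex.sub_re, Complex.ofReal_im, Complex.ofReal_re,
        h1, h2, h3, h4]
      ring
    · simp only [hφ, update_self, hi0, hi1]
      simp only [hv0]
      ring
    · simp only [hφ, update_self, hi0, hi1]
      simp only [hv0, hv1]
      ring
    · rw [hpd]
      have h1 := (Complex.abs_re_le_norm _).trans (hb x)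
      rw [abs_le] at h1
      rw [hεr, Complex.add_re, Complex.one_re, Complex.re_ofReal_mul]
      have h2 : (ε : ℝ) * C < 1 := by
        rw [lt_div_iff₀ hC] at hε1; exact hε1
      nlinarith [h1.1]
  have hmem : (fun x => pd i φ (pt x) - 1) ∈ Jac := Submodule.subset_span ⟨i, φ, hD, rfl⟩
  have := Jac.smul_mem (ε⁻¹) hmem
  convert this using 1
  funext x
  simp only [Pi.smul_apply, hpd, hv0, hv1, Rat.smul_def]
  have : (ε : ℂ) ≠ 0 := by exact_mod_cast hε0'.ne'
  push_cast
  field_simp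
  ring

theorem re_mem_jac {h : Cube → ℂ} (hh : h ∈ Stokes) : (fun x => ((h x).re : ℂ)) ∈ Jac := by
  unfold Stokes at hh
  induction hh using Submodule.span_induction with
  | mem h hh =>
    obtain ⟨g, hg, i, rfl⟩ := hh
    have := mem_jac (O_reP hg) (isReal_reP g) i
    convert this using 1
    funext x
    rw [pd_reP hg, update_pt_zero, update_pt_one, reP_pt, reP_pt]
    simp [← update_pt_zero, ← update_pt_one]
  | zero =>
    convert Jac.zero_mem using 1
    funext x; simp
  | add h1 h2 _ _ ih1 ih2 =>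
    convert Jac.add_mem ih1 ih2 using 1
    funext x; simp
  | smul q h _ ih =>
    convert Jac.smul_mem q ih using 1
    funext x
    simp only [Pi.smul_apply, Rat.smul_def]
    rw [show (q : ℂ) = ((q : ℝ) : ℂ) by push_cast; rfl, Complex.re_ofReal_mul]
    push_cast
    rfl

theorem jac_real {h : Cube → ℂ} (hh : h ∈ Jac) (x : Cube) : (h x).im = 0 := by
  unfold Jac at hh
  induction hh using Submodule.span_induction with
  | mem h hh =>
    obtain ⟨i, φ, ⟨h1, h2, -, -⟩, rfl⟩ := hh
    have h3 := pd_cj h1.1 i x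
    -- `cj φ = φ` on the polydisc
    obtain ⟨n, r, hr, hn1, hn2⟩ := h1.1.common_radius (O_cj h1).1
    have h4 : ∀ z ∈ Bl n r, φ z - cj φ z = 0 := by
      have h5 : HoloR n r fun z => φ z + (-1) * cj φ z := hn1.add ((HoloR.const n r (-1)).mul hn2)
      have h6 := h5.ident hr fun y => by
        have h7 : star (φ (pt y)) = φ (pt y) := by
          apply Complex.ext
          · simp
          · simp [h2 y]
        rw [cj_pt, h7]
        ring
      intro z hz
      have := h6 z hz
      linear_combination this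
    have h5 : pd i (cj φ) (pt x) = pd i φ (pt x) := by
      unfold pd
      apply Filter.EventuallyEq.deriv_eq
      have hxB : pt x ∈ Bl n r := D_sub_Bl hr (pt_mem_D x)
      by_cases hi : i < n
      · have h6 : ∀ᶠ t in 𝓝 (pt x i), ‖t‖ < r := continuous_norm.continuousAt.eventually_lt continuousAt_const (hxB i hi)
        filter_upwards [h6] with t ht
        exact (sub_eq_zero.1 (h4 _ (update_mem_Bl hxB i ht))).symm
      · refine Eventually.of_forall fun t => ?_
        refine (sub_eq_zero.1 (h4 _ ?_)).symm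
        intro k hk
        rw [update_of_ne (by omega)]
        exact hxB k hk
    rw [h5] at h3
    have h6 := congrArg Complex.im h3
    simp only [Complex.star_def, Complex.conj_im] at h6
    simp only [Complex.sub_im, Complex.one_im, sub_zero]
    linarith
  | zero => simp
  | add h1 h2 _ _ ih1 ih2 => simp [ih1, ih2]
  | smul q h _ ih =>
    simp only [Pi.smul_apply, Rat.smul_def]
    rw [show (q : ℂ) = ((q : ℝ) : ℂ) by push_cast; rfl, Complex.im_ofReal_mul, ih, mul_zero]

/-- the real relations are spanned by the relations of the Jacobians -/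
theorem mem_jac_iff {h : Cube → ℂ} : h ∈ Jac ↔ h ∈ Stokes ∧ ∀ x, (h x).im = 0 := by
  constructor
  · intro hh
    exact ⟨jac_le hh, jac_real hh⟩
  · rintro ⟨h1, h2⟩
    have := re_mem_jac h1
    convert this using 1
    funext x
    apply Complex.ext
    · simp
    · simp [h2 x]

/-- a move is a relation -/
theorem Move.eqv (h : Move f g) : Eqv f g := by
  obtain ⟨-, -, F, -, -, i, φ, hφ, c, hc, h1, h2⟩ := h
  have h3 : (fun x => pd i φ (pt x) - 1) ∈ Stokes := jac_le (Submodule.subset_span ⟨i, φ, hφ, rfl⟩)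
  have h4 := Stokes.smul_mem c h3
  unfold Eqv
  convert h4 using 1
  funext x
  simp only [Pi.smul_apply, Rat.smul_def, h1, h2]
  ring

theorem Equidec.eqv (h : Equidec f g) : Eqv f g := by
  induction h with
  | refl => exact Eqv.refl _
  | tail _ h ih =>
    rcases h with h | h
    · exact ih.trans h.eqv
    · exact ih.trans h.eqv.symm

theorem pos_rat {c : ℚ} (hc : 0 < c) : Pos fun _ => (c : ℂ) := fun x => by
  show 0 < ((c : ℂ)).re ∧ ((c : ℂ)).im = 0
  rw [show (c : ℂ) = ((c : ℝ) : ℂ) by push_cast; rfl, Complex.ofReal_re, Complex.ofReal_im]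
  exact ⟨by exact_mod_cast hc, rfl⟩

theorem re_rat (c : ℚ) : ((c : ℂ)).re = (c : ℝ) := by
  rw [show (c : ℂ) = ((c : ℝ) : ℂ) by push_cast; rfl, Complex.ofReal_re]

theorem im_rat (c : ℚ) : ((c : ℂ)).im = 0 := by
  rw [show (c : ℂ) = ((c : ℝ) : ℂ) by push_cast; rfl, Complex.ofReal_im]

theorem diffeo_id (i : ℕ) : Diffeo i fun z => z i := by
  refine ⟨O_coord i, fun x => by simp [pt], fun x => by simp, fun x => ?_⟩
  have : pd i (fun z => z i) (pt x) = 1 := by
    unfold pd
    simp
  rw [this]; simp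

/-- equal functions on the cube -/
theorem equidec_of_eq (hf : f ∈ O) (hg : g ∈ O) {δ : ℝ} (hδ : 0 < δ) (hp : ∀ x : Cube, δ ≤ (f (pt x)).re ∧ (f (pt x)).im = 0)
    (h : ∀ x : Cube, f (pt x) = g (pt x)) : Equidec f g := by
  obtain ⟨c, hc0, hc1⟩ := exists_rat_btwn hδ
  have hc : 0 < c := by exact_mod_cast hc0
  refine Relation.ReflTransGen.single (Or.inl ⟨hf, hg, fun z => f z - (c : ℂ), O_sub hf (O_rat c), fun x => ?_, 0, _, diffeo_id 0, c, hc,
    fun x => ?_, fun x => ?_⟩)
  · show 0 < (f (pt x) - (c : ℂ)).re ∧ (f (pt x) - (c : ℂ)).im = 0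
    rw [Complex.sub_re, Complex.sub_im, re_rat, im_rat, (hp x).2]
    exact ⟨by linarith [(hp x).1], by simp⟩
  · have : pd 0 (fun z => z 0) (pt x) = 1 := by
      unfold pd
      simp
    rw [this]; ring
  · rw [← h x]; ring

/-- small multiples of relations of Jacobians are realised by moves -/
theorem jac_moves {h : Cube → ℂ} (hh : h ∈ Jac) : ∃ C > 0, (∀ x, ‖h x‖ ≤ C) ∧ ∀ (ε : ℚ) (f : Fn) (δ : ℝ), f ∈ O → |(ε : ℝ)| * C < δ →
    (∀ x : Cube, δ ≤ (f (pt x)).re ∧ (f (pt x)).im = 0) →
    ∃ g ∈ O, Equidec f g ∧ ∀ x : Cube, g (pt x) = f (pt x) - (ε : ℂ) * h x := by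
  unfold Jac at hh
  induction hh using Submodule.span_induction with
  | mem h hh =>
    obtain ⟨i, φ, hφ, rfl⟩ := hh
    have hpO : pd i φ ∈ O := O_pd hφ.1 i
    obtain ⟨C, hC, hb⟩ := exists_bound hpO
    have him : ∀ x : Cube, (pd i φ (pt x)).im = 0 := fun x => by
      have := jac_real (h := fun x => pd i φ (pt x) - 1) (Submodule.subset_span ⟨i, φ, hφ, rfl⟩) x
      simpa using this
    refine ⟨C + 1, by linarith, fun x => (norm_sub_le _ _).trans (by rw [norm_one]; linarith [hb x]), ?_⟩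
    intro ε f δ hf hε hp
    have hgO : (fun z => f z - (ε : ℂ) * (pd i φ z - 1)) ∈ O :=
      O_sub hf (O_mul (O_rat ε) (O_sub hpO (by simpa using O_rat 1)))
    refine ⟨fun z => f z - (ε : ℂ) * (pd i φ z - 1), hgO, ?_, fun x => rfl⟩
    have hre : ∀ x : Cube, |(pd i φ (pt x)).re| ≤ C := fun x => (Complex.abs_re_le_norm _).trans (hb x)
    have hδ : 0 < δ := lt_of_le_of_lt (mul_nonneg (abs_nonneg _) (by linarith)) hε
    have eεr : (ε : ℂ) = ((ε : ℝ) : ℂ) := by push_cast; rfl
    rcases lt_trichotomy ε 0 with h0 | h0 | h0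
    · -- `f = F + c`, `g = F + c ∂φ`, `c = -ε`
      refine Relation.ReflTransGen.single (Or.inr ⟨hgO, hf, fun z => f z + (ε : ℂ), O_add hf (O_rat ε), fun x => ?_, i, φ, hφ, -ε,
        by linarith, fun x => ?_, fun x => ?_⟩)
      · show 0 < (f (pt x) + (ε : ℂ)).re ∧ (f (pt x) + (ε : ℂ)).im = 0
        rw [Complex.add_re, Complex.add_im, re_rat, im_rat, (hp x).2]
        have h1 : (ε : ℝ) < 0 := by exact_mod_cast h0
        rw [abs_of_neg h1] at hε
        exact ⟨by nlinarith [(hp x).1], by simp⟩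
      · show f (pt x) - (ε : ℂ) * (pd i φ (pt x) - 1) = f (pt x) + (ε : ℂ) + ((-ε : ℚ) : ℂ) * pd i φ (pt x)
        push_cast
        ring
      · show f (pt x) = f (pt x) + (ε : ℂ) + ((-ε : ℚ) : ℂ)
        push_cast
        ring
    · subst h0
      refine equidec_of_eq hf hgO hδ hp fun x => ?_
      simp
    · refine Relation.ReflTransGen.single (Or.inl ⟨hf, hgO, fun z => f z - (ε : ℂ) * pd i φ z, O_sub hf (O_mul (O_rat ε) hpO),
        fun x => ?_, i, φ, hφ, ε, h0, fun x => ?_, fun x => ?_⟩)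
      · show 0 < (f (pt x) - (ε : ℂ) * pd i φ (pt x)).re ∧ (f (pt x) - (ε : ℂ) * pd i φ (pt x)).im = 0
        rw [eεr, Complex.sub_re, Complex.sub_im, Complex.re_ofReal_mul, Complex.im_ofReal_mul, him, (hp x).2]
        have h1 : (0 : ℝ) < (ε : ℝ) := by exact_mod_cast h0
        rw [abs_of_pos h1] at hε
        have h2 := (abs_le.1 (hre x)).2
        refine ⟨?_, by simp⟩
        have h3 := (hp x).1
        nlinarith
      · ring
      · ring
  | zero =>
    refine ⟨1, one_pos, fun x => by simp, fun ε f δ hf hε hp => ⟨f, hf, Relation.ReflTransGen.refl, fun x => by simp⟩⟩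
  | add h1 h2 hs1 _ ih1 ih2 =>
    obtain ⟨C1, hC1, hb1, hm1⟩ := ih1
    obtain ⟨C2, hC2, hb2, hm2⟩ := ih2
    refine ⟨C1 + C2, by linarith, fun x => (norm_add_le _ _).trans (add_le_add (hb1 x) (hb2 x)), fun ε f δ hf hε hp => ?_⟩
    obtain ⟨g, hg, he, hgx⟩ := hm1 ε f δ hf (by nlinarith [abs_nonneg (ε : ℝ)]) hp
    have hgim : ∀ x : Cube, (g (pt x)).im = 0 := by
      intro x
      have h3 : (h1 x).im = 0 := jac_real hs1 x
      rw [hgx, Complex.sub_im, (hp x).2, show (ε : ℂ) = ((ε : ℝ) : ℂ) by push_cast; rfl, Complex.im_ofReal_mul, h3]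
      simp
    have hgre : ∀ x : Cube, δ - |(ε : ℝ)| * C1 ≤ (g (pt x)).re := by
      intro x
      rw [hgx, Complex.sub_re]
      have h3 := (hp x).1
      have h4 : ((ε : ℂ) * h1 x).re ≤ |(ε : ℝ)| * C1 := by
        refine (Complex.re_le_norm _).trans ?_
        rw [norm_mul]
        have h5 : ‖(ε : ℂ)‖ = |(ε : ℝ)| := by
          rw [show (ε : ℂ) = ((ε : ℝ) : ℂ) by push_cast; rfl, Complex.norm_real, Real.norm_eq_abs]
        rw [h5]
        exact mul_le_mul_of_nonneg_left (hb1 x) (abs_nonneg _)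
      linarith
    obtain ⟨k, hk, he2, hkx⟩ := hm2 ε g (δ - |(ε : ℝ)| * C1) hg (by linarith) fun x => ⟨hgre x, hgim x⟩
    refine ⟨k, hk, he.trans he2, fun x => ?_⟩
    rw [hkx, hgx]
    simp only [Pi.add_apply]
    ring
  | smul q h _ ih =>
    obtain ⟨C, hC, hb, hm⟩ := ih
    refine ⟨|(q : ℝ)| * C + 1, by positivity, fun x => ?_, fun ε f δ hf hε hp => ?_⟩
    · simp only [Pi.smul_apply, Rat.smul_def, norm_mul]
      have h5 : ‖(q : ℂ)‖ = |(q : ℝ)| := by
        rw [show (q : ℂ) = ((q : ℝ) : ℂ) by push_cast; rfl, Complex.norm_real, Real.norm_eq_abs]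
      rw [h5]
      nlinarith [mul_le_mul_of_nonneg_left (hb x) (abs_nonneg (q : ℝ))]
    · obtain ⟨g, hg, he, hgx⟩ := hm (ε * q) f δ hf (by
        push_cast
        rw [abs_mul]
        nlinarith [abs_nonneg (ε : ℝ)]) hp
      refine ⟨g, hg, he, fun x => ?_⟩
      rw [hgx]
      simp only [Pi.smul_apply, Rat.smul_def]
      push_cast
      ring

/-- Positive functions in the same class are connected by moves. -/
theorem equidec_of_eqv (hf : f ∈ O) (hg : g ∈ O) (hfp : Pos f) (hgp : Pos g) (h : Eqv f g) : Equidec f g := by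
  have hJ : (fun x : Cube => f (pt x) - g (pt x)) ∈ Jac := mem_jac_iff.2 ⟨h, fun x => by
    rw [Complex.sub_im, (hfp x).2, (hgp x).2, sub_zero]⟩
  obtain ⟨C, hC, -, hm⟩ := jac_moves hJ
  -- lower bounds
  obtain ⟨δ, hδ, hδf, hδg⟩ : ∃ δ > 0, (∀ x : Cube, δ ≤ (f (pt x)).re) ∧ ∀ x : Cube, δ ≤ (g (pt x)).re := by
    obtain ⟨a, -, ha⟩ := isCompact_univ.exists_isMinOn (f := fun x : Cube => (f (pt x)).re) (s := Set.univ) ⟨fun _ => 0, Set.mem_univ _⟩
      (Complex.continuous_re.comp hf.1.continuous).continuousOn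
    obtain ⟨b, -, hb⟩ := isCompact_univ.exists_isMinOn (f := fun x : Cube => (g (pt x)).re) (s := Set.univ) ⟨fun _ => 0, Set.mem_univ _⟩
      (Complex.continuous_re.comp hg.1.continuous).continuousOn
    refine ⟨min (f (pt a)).re (g (pt b)).re, lt_min (hfp a).1 (hgp b).1, fun x => (min_le_left _ _).trans (ha (Set.mem_univ x)),
      fun x => (min_le_right _ _).trans (hb (Set.mem_univ x))⟩
  obtain ⟨N, hN⟩ := exists_nat_gt (C / δ)
  have hN0 : (0 : ℝ) < N := lt_of_le_of_lt (by positivity) hN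
  have hN0' : N ≠ 0 := by rintro rfl; simp at hN0
  have key : ∀ j ≤ N, ∃ k ∈ O, Equidec f k ∧ ∀ x : Cube, k (pt x) = f (pt x) - (((j : ℚ) / N : ℚ) : ℂ) * (f (pt x) - g (pt x)) := by
    intro j
    induction j with
    | zero => intro _; exact ⟨f, hf, Relation.ReflTransGen.refl, fun x => by simp⟩
    | succ j ih =>
      intro hj
      obtain ⟨k, hk, he, hkx⟩ := ih (by omega)
      have h1 : ∀ x : Cube, δ ≤ (k (pt x)).re ∧ (k (pt x)).im = 0 := by
        intro x
        rw [hkx, Complex.sub_re, Complex.sub_im, show ((((j : ℚ) / N : ℚ)) : ℂ) = ((((j : ℝ) / N : ℝ)) : ℂ) by push_cast; rfl,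
          Complex.re_ofReal_mul, Complex.im_ofReal_mul, Complex.sub_re, Complex.sub_im, (hfp x).2, (hgp x).2]
        refine ⟨?_, by simp⟩
        have h2 := hδf x
        have h3 := hδg x
        have h4 : (0 : ℝ) ≤ (j : ℝ) / N := by positivity
        have h5 : (j : ℝ) / N ≤ 1 := by
          rw [div_le_one hN0]
          exact_mod_cast (by omega : j ≤ N)
        nlinarith
      obtain ⟨k', hk', he', hkx'⟩ := hm (1 / N) k δ hk (by
        push_cast
        rw [abs_of_pos (by positivity)]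
        rw [div_lt_iff₀ hδ] at hN
        rw [one_div, inv_mul_lt_iff₀ hN0]
        exact hN) h1
      refine ⟨k', hk', he.trans he', fun x => ?_⟩
      rw [hkx', hkx]
      push_cast
      ring
  obtain ⟨k, hk, he, hkx⟩ := key N le_rfl
  have hkg : ∀ x : Cube, g (pt x) = k (pt x) := by
    intro x
    rw [hkx, div_self (by exact_mod_cast hN0')]
    push_cast
    ring
  refine he.trans ?_
  exact equidec_of_eq hk hg hδ (fun x => by rw [← hkg]; exact ⟨hδg x, (hgp x).2⟩) fun x => (hkg x).symm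

theorem equidec_iff (hf : f ∈ O) (hg : g ∈ O) (hfp : Pos f) (hgp : Pos g) : Equidec f g ↔ Eqv f g :=
  ⟨Equidec.eqv, equidec_of_eqv hf hg hfp hgp⟩

theorem piFn_pos (x : unitInterval) : 0 < (piFn ((x : ℝ) : ℂ)).re ∧ (piFn ((x : ℝ) : ℂ)).im = 0 := by
  have e : piFn ((x : ℝ) : ℂ) = ((8 / (4 + (x : ℝ) ^ 2) + 8 / (4 + (1 + (x : ℝ)) ^ 2) : ℝ) : ℂ) := by
    simp [piFn]
  rw [e, Complex.ofReal_re, Complex.ofReal_im]
  exact ⟨by positivity, rfl⟩

theorem Pos.piMul (hf : Pos f) (m : ℕ) : Pos (piMul m f) := by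
  induction m with
  | zero => exact hf
  | succ m ih =>
    intro x
    rw [piMul_succ]
    obtain ⟨h1, h2⟩ := piFn_pos (x 0)
    obtain ⟨h3, h4⟩ := ih (shC x)
    show 0 < (piFn ((x 0 : ℝ) : ℂ) * KP.piMul m f (pt (shC x))).re ∧ (piFn ((x 0 : ℝ) : ℂ) * KP.piMul m f (pt (shC x))).im = 0
    rw [Complex.mul_re, Complex.mul_im, h2, h4]
    exact ⟨by simpa using mul_pos h1 h3, by simp⟩

theorem eqv_piMul_of_zero {f g : Fn} {m : ℕ} (h : (fun x => piMul m (fun z => f z - g z) (pt x)) ∈ Stokes) :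
    Eqv (piMul m f) (piMul m g) := by
  unfold Eqv
  have e : (fun z => f z - g z) = fun z => f z + (-1) * g z := by funext z; ring
  rw [e, piMul_add, piMul_const] at h
  convert h using 1
  funext x
  ring

theorem ev_pos (hf : f ∈ O) (hp : Pos f) : 0 < (ev f).re := by
  have hc : Continuous fun x : Cube => (f (pt x)).re := Complex.continuous_re.comp hf.1.continuous
  have e : (ev f).re = ∫ x, (f (pt x)).re ∂μ := by
    unfold ev
    exact (integral_re (integrable_of_continuous hf.1.continuous)).symm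
  rw [e]
  refine integral_pos_of_integrable_nonneg_nonzero (x := fun _ => 0) hc ?_ (fun x => (hp x).1.le) (hp _).1.ne'
  obtain ⟨C, hC⟩ := isCompact_univ.exists_bound_of_continuousOn hc.continuousOn
  exact Integrable.of_bound hc.aestronglyMeasurable C (ae_of_all _ fun x => hC x (Set.mem_univ x))

/-- every positive function is connected to functions close to a constant -/
theorem exists_close (hf : f ∈ O) (hp : Pos f) {ε : ℝ} (hε : 0 < ε) :
    ∃ g ∈ O, Pos g ∧ Equidec f g ∧ ∀ z ∈ D, ‖g z - ev f‖ ≤ ε := by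
  have hev := ev_pos hf hp
  obtain ⟨n, e, h⟩ := approx hf (ε := min ε ((ev f).re / 2)) (lt_min hε (by positivity))
  have hP : Pos (Sub n e f) := fun x => by
    refine ⟨?_, hp.isReal.Sub n e x⟩
    have h1 := (Complex.abs_re_le_norm _).trans ((h _ (pt_mem_D x)).trans (min_le_right _ _))
    rw [Complex.sub_re, abs_le] at h1
    linarith [h1.1]
  exact ⟨Sub n e f, O_Sub hf n e, hP, equidec_of_eqv hf (O_Sub hf n e) hp hP (eqv_Sub hf n e),
    fun z hz => (h z hz).trans (min_le_left _ _)⟩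

/-- **the conjecture as a problem of equidecomposability** -/
theorem conj_iff_equidec : Conj ↔ ∀ f ∈ O, ∀ g ∈ O, Pos f → Pos g → ev f = ev g → ∃ m : ℕ, Equidec (piMul m f) (piMul m g) := by
  constructor
  · intro h f hf g hg hfp hgp he
    have h0 : ev (fun z => f z - g z) = 0 := by
      have := ev_add hf (O_neg hg)
      rw [ev_neg, he, add_neg_cancel] at this
      simpa [sub_eq_add_neg] using this
    obtain ⟨m, hm⟩ := h _ (O_sub hf hg) h0
    exact ⟨m, equidec_of_eqv (O_piMul hf m) (O_piMul hg m) (hfp.piMul m) (hgp.piMul m) (eqv_piMul_of_zero hm)⟩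
  · intro h
    refine conj_of_real fun f hf hr h0 => ?_
    obtain ⟨C, hC, hb⟩ := exists_bound hf
    obtain ⟨c, hc⟩ := exists_rat_gt C
    have hc0 : 0 < c := by exact_mod_cast hC.trans hc
    have h1 : Pos fun z => f z + (c : ℂ) := fun x => by
      show 0 < (f (pt x) + (c : ℂ)).re ∧ (f (pt x) + (c : ℂ)).im = 0
      rw [Complex.add_re, Complex.add_im, re_rat, im_rat, hr x]
      have := (abs_le.1 ((Complex.abs_re_le_norm _).trans (hb x))).1
      exact ⟨by linarith, by simp⟩
    obtain ⟨m, hm⟩ := h _ (O_add hf (O_rat c)) _ (O_rat c) h1 (pos_rat hc0) (by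
      rw [ev_add hf (O_rat c), h0, zero_add])
    refine ⟨m, ?_⟩
    have h2 := hm.eqv
    unfold Eqv at h2
    rw [piMul_add] at h2
    convert h2 using 1
    funext x
    ring

end Pool.Agent.H39.KP
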