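import Pool.Agent.H39.KP.RatFin

namespace Pool.Agent.H39.KP

open Function Filter Topology

variable {f g F G u v : Fn}

/-- the field `ℚ(i)` -/
def IsGauss (c : ℂ) : Prop := ∃ a b : ℚ, c = (a : ℂ) + (b : ℂ) * Complex.I

theorem IsGauss.rat (q : ℚ) : IsGauss (q : ℂ) := ⟨q, 0, by simp⟩

theorem IsGauss.zero : IsGauss 0 := by simpa using IsGauss.rat 0

theorem IsGauss.one : IsGauss 1 := by simpa using IsGauss.rat 1

theorem IsGauss.I : IsGauss Complex.I := ⟨0, 1, by simp⟩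

theorem IsGauss.add {c d : ℂ} (hc : IsGauss c) (hd : IsGauss d) : IsGauss (c + d) := by
  obtain ⟨a, b, rfl⟩ := hc
  obtain ⟨a', b', rfl⟩ := hd
  exact ⟨a + a', b + b', by push_cast; ring⟩

theorem IsGauss.mul {c d : ℂ} (hc : IsGauss c) (hd : IsGauss d) : IsGauss (c * d) := by
  obtain ⟨a, b, rfl⟩ := hc
  obtain ⟨a', b', rfl⟩ := hd
  refine ⟨a * a' - b * b', a * b' + b * a', ?_⟩
  push_cast
  linear_combination (b * b' : ℂ) * Complex.I_sq

theorem IsGauss.neg {c : ℂ} (hc : IsGauss c) : IsGauss (-c) := by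
  simpa using (IsGauss.rat (-1)).mul hc

theorem IsGauss.sub {c d : ℂ} (hc : IsGauss c) (hd : IsGauss d) : IsGauss (c - d) := by
  rw [sub_eq_add_neg]; exact hc.add hd.neg

theorem IsGauss.pow {c : ℂ} (hc : IsGauss c) (n : ℕ) : IsGauss (c ^ n) := by
  induction n with
  | zero => simpa using IsGauss.one
  | succ n ih => rw [pow_succ]; exact ih.mul hc

theorem IsGauss.polF {c : ℂ} (hc : IsGauss c) : PolF (fun _ => c) := by
  obtain ⟨a, b, rfl⟩ := hc
  exact (PolF.rat a).add ((PolF.rat b).mul PolF.I)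

theorem IsGauss.V (m : ℕ) : IsGauss (KP.V m) := by
  unfold KP.V
  refine (IsGauss.I.pow _).mul (IsGauss.one.add ?_)
  have := (IsGauss.rat ((((m % 4 : ℕ) : ℚ) - 2) / 2)).mul IsGauss.I
  push_cast at this
  convert this using 1
  ring

theorem IsGauss.W (m : ℕ) : IsGauss (KP.W m) := by
  unfold KP.W
  refine (IsGauss.I.pow _).mul ?_
  have := (IsGauss.rat (1 / 2)).mul IsGauss.I
  push_cast at this
  convert this using 1
  ring

/-- Polynomials `a₀ + a₁ x + a₂ y + a₃ t + a₄ x y` over `ℚ(i)` in three of the variables. -/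
def Tri (Q : Fn) : Prop := ∃ (i j k : ℕ) (a₀ a₁ a₂ a₃ a₄ : ℂ), IsGauss a₀ ∧ IsGauss a₁ ∧ IsGauss a₂ ∧ IsGauss a₃ ∧
  IsGauss a₄ ∧ ∀ z, Q z = a₀ + a₁ * z i + a₂ * z j + a₃ * z k + a₄ * (z i * z j)

/-- Finite products of reciprocals of such polynomials without zeros on the closed polydisc. -/
def Mono (u : Fn) : Prop := ∃ l : List Fn, (∀ Q ∈ l, Tri Q ∧ ∀ z : ℕ → ℂ, (∀ i, ‖z i‖ ≤ 1) → Q z ≠ 0) ∧
  ∀ z, u z = (l.map fun Q => (Q z)⁻¹).prod

/-- Linear combinations over `ℚ(i)`. -/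
def NF (u : Fn) : Prop := ∃ l : List (ℂ × Fn), (∀ p ∈ l, IsGauss p.1 ∧ Mono p.2) ∧
  ∀ z, u z = (l.map fun p => p.1 * p.2 z).sum

theorem Tri.polF (h : Tri F) : PolF F := by
  obtain ⟨i, j, k, a₀, a₁, a₂, a₃, a₄, h0, h1, h2, h3, h4, hF⟩ := h
  have : F = fun z => a₀ + a₁ * z i + a₂ * z j + a₃ * z k + a₄ * (z i * z j) := funext hF
  rw [this]
  exact (((h0.polF.add (h1.polF.mul (PolF.coord i))).add (h2.polF.mul (PolF.coord j))).add (h3.polF.mul (PolF.coord k))).add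
    (h4.polF.mul ((PolF.coord i).mul (PolF.coord j)))

/-- affine substitutions -/
theorem Tri.subst (h : Tri F) (α β : ℕ → ℂ) (hα : ∀ k, IsGauss (α k)) (hβ : ∀ k, IsGauss (β k)) (τ : ℕ → ℕ) :
    Tri fun z => F fun k => α k + β k * z (τ k) := by
  obtain ⟨i, j, k, a₀, a₁, a₂, a₃, a₄, h0, h1, h2, h3, h4, hF⟩ := h
  refine ⟨τ i, τ j, τ k, a₀ + a₁ * α i + a₂ * α j + a₃ * α k + a₄ * (α i * α j), a₁ * β i + a₄ * (β i * α j),
    a₂ * β j + a₄ * (α i * β j), a₃ * β k, a₄ * (β i * β j), ?_, ?_, ?_, ?_, ?_, fun z => ?_⟩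
  · exact (((h0.add (h1.mul (hα i))).add (h2.mul (hα j))).add (h3.mul (hα k))).add (h4.mul ((hα i).mul (hα j)))
  · exact (h1.mul (hβ i)).add (h4.mul ((hβ i).mul (hα j)))
  · exact (h2.mul (hβ j)).add (h4.mul ((hα i).mul (hβ j)))
  · exact h3.mul (hβ k)
  · exact h4.mul ((hβ i).mul (hβ j))
  · dsimp only; rw [hF]; ring

theorem Mono.one : Mono fun _ => 1 := ⟨[], by simp, by simp⟩

theorem Mono.inv (h : Tri F) (h0 : ∀ z ∈ D, F z ≠ 0) : Mono fun z => (F z)⁻¹ :=
  ⟨[F], by simpa using ⟨h, h0⟩, by simp⟩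

theorem Mono.mul (hu : Mono u) (hv : Mono v) : Mono fun z => u z * v z := by
  obtain ⟨l, h1, h2⟩ := hu
  obtain ⟨l', h1', h2'⟩ := hv
  refine ⟨l ++ l', fun Q hQ => ?_, fun z => ?_⟩
  · rcases List.mem_append.1 hQ with h | h
    · exact h1 Q h
    · exact h1' Q h
  · dsimp only; rw [h2, h2', List.map_append, List.prod_append]

theorem Mono.subst (h : Mono u) (α β : ℕ → ℂ) (hα : ∀ k, IsGauss (α k)) (hβ : ∀ k, IsGauss (β k)) (τ : ℕ → ℕ)
    (hD : ∀ z ∈ D, (fun k => α k + β k * z (τ k)) ∈ D) : Mono fun z => u fun k => α k + β k * z (τ k) := by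
  obtain ⟨l, h1, h2⟩ := h
  refine ⟨l.map fun Q z => Q fun k => α k + β k * z (τ k), fun Q hQ => ?_, fun z => ?_⟩
  · obtain ⟨P, hP, rfl⟩ := List.mem_map.1 hQ
    exact ⟨(h1 P hP).1.subst α β hα hβ τ, fun z hz => (h1 P hP).2 _ (hD z hz)⟩
  · dsimp only; rw [h2, List.map_map]
    rfl

theorem Mono.ratG (h : Mono u) : RatG u := by
  obtain ⟨l, h1, h2⟩ := h
  have key : ∀ l : List Fn, (∀ Q ∈ l, Tri Q ∧ ∀ z : ℕ → ℂ, (∀ i, ‖z i‖ ≤ 1) → Q z ≠ 0) →
      RatG fun z => (l.map fun Q => (Q z)⁻¹).prod := by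
    intro l
    induction l with
    | nil => intro _; simpa using (PolF.rat 1).ratG
    | cons Q l ih =>
      intro h
      simp only [List.map_cons, List.prod_cons]
      exact (RatG.inv (h Q (by simp)).1.polF (h Q (by simp)).2).mul (ih fun P hP => h P (by simp [hP]))
  have : u = fun z => (l.map fun Q => (Q z)⁻¹).prod := funext h2
  rw [this]
  exact key l h1

theorem NF.zero : NF fun _ => 0 := ⟨[], by simp, by simp⟩

theorem NF.mono (h : Mono u) : NF u := ⟨[(1, u)], by simpa using ⟨IsGauss.one, h⟩, by simp⟩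

theorem NF.add (hu : NF u) (hv : NF v) : NF fun z => u z + v z := by
  obtain ⟨l, h1, h2⟩ := hu
  obtain ⟨l', h1', h2'⟩ := hv
  refine ⟨l ++ l', fun Q hQ => ?_, fun z => ?_⟩
  · rcases List.mem_append.1 hQ with h | h
    · exact h1 Q h
    · exact h1' Q h
  · dsimp only; rw [h2, h2', List.map_append, List.sum_append]

theorem NF.const {c : ℂ} (hc : IsGauss c) (hu : NF u) : NF fun z => c * u z := by
  obtain ⟨l, h1, h2⟩ := hu
  refine ⟨l.map fun p => (c * p.1, p.2), fun p hp => ?_, fun z => ?_⟩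
  · obtain ⟨q, hq, rfl⟩ := List.mem_map.1 hp
    exact ⟨hc.mul (h1 q hq).1, (h1 q hq).2⟩
  · dsimp only; rw [h2, List.map_map, ← List.sum_map_mul_left]
    congr 1
    apply List.map_congr_left
    intro p _
    simp only [Function.comp_apply]
    ring

theorem NF.mul_mono (hu : NF u) (hv : Mono v) : NF fun z => v z * u z := by
  obtain ⟨l, h1, h2⟩ := hu
  refine ⟨l.map fun p => (p.1, fun z => v z * p.2 z), fun p hp => ?_, fun z => ?_⟩
  · obtain ⟨q, hq, rfl⟩ := List.mem_map.1 hp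
    exact ⟨(h1 q hq).1, hv.mul (h1 q hq).2⟩
  · dsimp only; rw [h2, List.map_map, ← List.sum_map_mul_left]
    congr 1
    apply List.map_congr_left
    intro p _
    simp only [Function.comp_apply]
    ring

theorem NF.shift (hu : NF u) : NF fun z => u fun k => z (k + 1) := by
  obtain ⟨l, h1, h2⟩ := hu
  refine ⟨l.map fun p => (p.1, fun z => p.2 fun k => z (k + 1)), fun p hp => ?_, fun z => ?_⟩
  · obtain ⟨q, hq, rfl⟩ := List.mem_map.1 hp
    refine ⟨(h1 q hq).1, ?_⟩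
    have := (h1 q hq).2.subst (fun _ => 0) (fun _ => 1) (fun _ => IsGauss.zero) (fun _ => IsGauss.one) (fun k => k + 1)
      fun z hz k => by simpa using hz (k + 1)
    simpa using this
  · dsimp only; rw [h2, List.map_map]
    rfl

theorem NF.ratG (hu : NF u) : ∃ r, RatG r ∧ ∀ z ∈ D, u z = r z := by
  obtain ⟨l, h1, h2⟩ := hu
  have key : ∀ l : List (ℂ × Fn), (∀ p ∈ l, IsGauss p.1 ∧ Mono p.2) →
      ∃ r, RatG r ∧ ∀ z ∈ D, (l.map fun p => p.1 * p.2 z).sum = r z := by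
    intro l
    induction l with
    | nil => intro _; exact ⟨_, (PolF.rat 0).ratG, by simp⟩
    | cons p l ih =>
      intro h
      obtain ⟨r, hr, hr'⟩ := ih fun q hq => h q (by simp [hq])
      obtain ⟨H, hH, hH'⟩ := (((h p (by simp)).1.polF.ratG).mul (h p (by simp)).2.ratG).add hr
      refine ⟨H, hH, fun z hz => ?_⟩
      rw [List.map_cons, List.sum_cons, hr' z hz, hH' z hz]
  obtain ⟨r, hr, h⟩ := key l h1
  exact ⟨r, hr, fun z hz => by rw [h2, h z hz]⟩

theorem two_add_ne {w : ℂ} (hw : ‖w‖ ≤ 1) : 2 + Complex.I * w ≠ 0 :=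
  kf_ne ((Complex.im_le_norm w).trans hw)

theorem two_sub_ne {w : ℂ} (hw : ‖w‖ ≤ 1) : 2 - Complex.I * w ≠ 0 := by
  have := two_add_ne (w := -w) (by rwa [norm_neg])
  rwa [mul_neg, ← sub_eq_add_neg] at this

theorem two_add_ne' {w : ℂ} (hw : ‖w‖ ≤ 1) : 2 + Complex.I * (1 + w) ≠ 0 :=
  kf_ne (by simpa using (Complex.im_le_norm w).trans hw)

theorem two_sub_ne' {w : ℂ} (hw : ‖w‖ ≤ 1) : 2 - Complex.I * (1 + w) ≠ 0 := by
  have h : 2 + Complex.I * (-(1 + w)) ≠ 0 := by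
    apply kf_ne
    have h1 := Complex.im_le_norm (-w)
    rw [norm_neg] at h1
    simp at h1 ⊢
    linarith
  rwa [mul_neg, ← sub_eq_add_neg] at h

theorem tri_lin {a b : ℂ} (ha : IsGauss a) (hb : IsGauss b) (k : ℕ) : Tri fun z => a + b * z k :=
  ⟨k, k, k, a, b, 0, 0, 0, ha, hb, IsGauss.zero, IsGauss.zero, IsGauss.zero, fun z => by ring⟩

/-- `π` -/
theorem NF.piT (hu : NF u) : ∃ w, NF w ∧ ∀ z ∈ D, w z = KP.piT u z := by
  have h2 : IsGauss 2 := by simpa using IsGauss.rat 2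
  have m1 : Mono fun z => (2 + Complex.I * z 0)⁻¹ := Mono.inv (tri_lin h2 IsGauss.I 0) fun z hz => two_add_ne (hz 0)
  have m2 : Mono fun z => (2 + (-Complex.I) * z 0)⁻¹ := Mono.inv (tri_lin h2 IsGauss.I.neg 0) fun z hz => by
    rw [neg_mul, ← sub_eq_add_neg]; exact two_sub_ne (hz 0)
  have m3 : Mono fun z => ((2 + Complex.I) + Complex.I * z 0)⁻¹ := Mono.inv (tri_lin (h2.add IsGauss.I) IsGauss.I 0) fun z hz => by
    have := two_add_ne' (hz 0)
    rwa [mul_add, mul_one, ← add_assoc] at this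
  have m4 : Mono fun z => ((2 - Complex.I) + (-Complex.I) * z 0)⁻¹ := Mono.inv (tri_lin (h2.sub IsGauss.I) IsGauss.I.neg 0) fun z hz => by
    have := two_sub_ne' (hz 0)
    rw [mul_add, mul_one] at this
    intro h0
    apply this
    linear_combination h0
  have h8 : IsGauss 8 := by simpa using IsGauss.rat 8
  refine ⟨_, ((hu.shift.mul_mono (m1.mul m2)).const h8).add ((hu.shift.mul_mono (m3.mul m4)).const h8), fun z hz => ?_⟩
  simp only [KP.piT, sh, piFn]
  have e1 : 4 + z 0 ^ 2 = (2 + Complex.I * z 0) * (2 + (-Complex.I) * z 0) := by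
    linear_combination (z 0 ^ 2) * Complex.I_sq
  have e2 : 4 + (1 + z 0) ^ 2 = ((2 + Complex.I) + Complex.I * z 0) * ((2 - Complex.I) + (-Complex.I) * z 0) := by
    linear_combination ((1 + z 0) ^ 2) * Complex.I_sq
  rw [e1, e2]
  simp only [div_eq_mul_inv, mul_inv]
  ring

/-- `π^m f` has the normal form. -/
def RepN (f : Fn) : Prop := ∃ m : ℕ, ∃ g, NF g ∧ Eqv (piMul m f) g

theorem RepN.of_eqv (h : Eqv f g) (hg : RepN g) : RepN f := by
  obtain ⟨m, r, hr, he⟩ := hg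
  exact ⟨m, r, hr, (h.piMul m).trans he⟩

theorem RepN.of_eq (h : ∀ x, f (pt x) = g (pt x)) (hg : RepN g) : RepN f := RepN.of_eqv (Eqv.of_eq h) hg

theorem repN_succ {m : ℕ} {r : Fn} (hr : NF r) (h : Eqv (piMul m f) r) (k : ℕ) : ∃ r', NF r' ∧ Eqv (piMul (m + k) f) r' := by
  induction k with
  | zero => exact ⟨r, hr, h⟩
  | succ k ih =>
    obtain ⟨r', hr', h'⟩ := ih
    obtain ⟨H, hH, h2⟩ := hr'.piT
    exact ⟨H, hH, (h'.piT).trans (Eqv.of_eq fun x => (h2 _ (pt_mem_D x)).symm)⟩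

theorem RepN.mono (h : Mono f) : RepN f := ⟨0, f, NF.mono h, Eqv.refl _⟩

theorem RepN.add (hf : RepN f) (hg : RepN g) : RepN fun z => f z + g z := by
  obtain ⟨m, r, hr, h1⟩ := hf
  obtain ⟨m', r', hr', h2⟩ := hg
  obtain ⟨s, hs, h3⟩ := repN_succ hr h1 m'
  obtain ⟨s', hs', h4⟩ := repN_succ hr' h2 m
  refine ⟨m + m', _, hs.add hs', ?_⟩
  rw [piMul_add]
  rw [add_comm m' m] at h4
  exact h3.add h4

theorem IsGauss.isAlg {c : ℂ} (hc : IsGauss c) : IsAlgebraic ℚ c := by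
  obtain ⟨a, b, rfl⟩ := hc
  have h1 := isAlgebraic_algebraMap (R := ℚ) (A := ℂ) a
  have h2 := isAlgebraic_algebraMap (R := ℚ) (A := ℂ) b
  simp only [eq_ratCast] at h1 h2
  exact h1.add (h2.mul isAlg_I)

theorem RepN.const {c : ℂ} (hc : IsGauss c) (hf : RepN f) : RepN fun z => c * f z := by
  obtain ⟨m, r, hr, h1⟩ := hf
  refine ⟨m, _, hr.const hc, ?_⟩
  rw [piMul_const]
  exact h1.const hc.isAlg

theorem RepN.sum {ι : Type*} (s : Finset ι) (F : ι → Fn) (h : ∀ i ∈ s, RepN (F i)) : RepN fun z => ∑ i ∈ s, F i z := by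
  classical
  induction s using Finset.induction_on with
  | empty => simpa using (RepN.mono Mono.one).const IsGauss.zero
  | insert a s ha ih =>
    simp only [Finset.sum_insert ha]
    exact (h a (Finset.mem_insert_self a s)).add (ih fun i hi => h i (Finset.mem_insert_of_mem hi))

/-- removal of `2πi` -/
theorem RepN.of_cFn (hf : f ∈ O) {i : ℕ} (hi : Fresh i f) (h : RepN fun z => cFn (z i) * f z) : RepN f := by
  obtain ⟨m, r, hr, h1⟩ := h
  have h2I : IsAlgebraic ℚ (2 * Complex.I) := by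
    have := isAlgebraic_algebraMap (R := ℚ) (A := ℂ) 2
    simp only [map_ofNat] at this
    exact this.mul isAlg_I
  have h3 : Eqv (fun z => cFn (z i) * f z) fun z => 2 * Complex.I * piMul 1 f z :=
    (eqv_cFn hf hi).trans ((piFn_fresh hf hi).const h2I)
  have h4 := (h3.piMul m).symm.trans h1
  rw [piMul_const, piMul_piMul] at h4
  have h5 := h4.const (c := -Complex.I / 2) (by
    have := isAlgebraic_algebraMap (R := ℚ) (A := ℂ) 2
    simp only [map_ofNat] at this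
    exact isAlg_I.neg.mul this.inv)
  refine ⟨m + 1, fun z => -Complex.I / 2 * r z, ?_, ?_⟩
  · refine hr.const ?_
    have := (IsGauss.rat (-1 / 2)).mul IsGauss.I
    push_cast at this
    convert this using 1
    ring
  · refine (Eqv.of_eq fun x => ?_).trans h5
    linear_combination (piMul (m + 1) f (pt x)) * Complex.I_sq

end Pool.Agent.H39.KP
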