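import Pool.Agent.H39.KP.Expr

namespace Pool.Agent.H39.KP

open Function Filter Topology

variable {f g F G u v : Fn}

/-- all boxes with the sides `s` -/
def AllRepN (f : Fn) (s : ℕ → ℚ) : Prop := ∀ b, Good b s → RepN fun z => f (bx b s z)

theorem AllRepN.halve (hf : f ∈ O) {s : ℕ → ℚ} (i : ℕ) (h : AllRepN f (update s i (s i / 2))) : AllRepN f s := by
  intro b hb
  have hF := O_bx hf hb
  have e0 : half0 i (fun z => f (bx b s z)) = fun z => ((1 / 2 : ℚ) : ℂ) * f (bx b (update s i (s i / 2)) z) := by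
    funext z
    simp only [half0, bx_half0]
    push_cast; ring
  have e1 : half1 i (fun z => f (bx b s z)) = fun z => ((1 / 2 : ℚ) : ℂ) * f (bx (update b i (b i + s i / 2)) (update s i (s i / 2)) z) := by
    funext z
    simp only [half1, bx_half1]
    push_cast; ring
  have hg0 : Good b (update s i (s i / 2)) := by
    intro k
    obtain ⟨h1, h2, h3⟩ := hb k
    by_cases hk : k = i
    · subst hk; rw [update_self]; exact ⟨by linarith, h2, by linarith⟩
    · rw [update_of_ne hk]; exact ⟨h1, h2, h3⟩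
  have hg1 : Good (update b i (b i + s i / 2)) (update s i (s i / 2)) := by
    intro k
    obtain ⟨h1, h2, h3⟩ := hb k
    by_cases hk : k = i
    · subst hk; rw [update_self, update_self]; exact ⟨by linarith, by linarith, by linarith⟩
    · rw [update_of_ne hk, update_of_ne hk]; exact ⟨h1, h2, h3⟩
  have hsub := subdivide hF i
  rw [e0, e1] at hsub
  exact RepN.of_eqv hsub (((h _ hg0).const (IsGauss.rat _)).add ((h _ hg1).const (IsGauss.rat _)))

theorem AllRepN.step (hf : f ∈ O) {n e : ℕ} (h : AllRepN f (sd n (e + 1))) : AllRepN f (sd n e) := by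
  have key : ∀ m ≤ n, AllRepN f (fun k => if k < n - m then (1 / 2) ^ (e + 1) else if k < n then (1 / 2) ^ e else 1) := by
    intro m
    induction m with
    | zero =>
      intro _
      have : (fun k => if k < n - 0 then ((1 : ℚ) / 2) ^ (e + 1) else if k < n then (1 / 2) ^ e else 1) = sd n (e + 1) := by
        funext k
        simp only [sd, Nat.sub_zero]
        split_ifs <;> rfl
      rw [this]; exact h
    | succ m ih =>
      intro hm
      have h1 := ih (by omega)
      apply AllRepN.halve hf (n - (m + 1))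
      convert h1 using 1
      funext k
      by_cases hk : k = n - (m + 1)
      · subst hk
        rw [update_self, if_neg (by omega), if_pos (by omega), if_pos (by omega)]
        ring
      · rw [update_of_ne hk]
        by_cases h2 : k < n - (m + 1)
        · rw [if_pos h2, if_pos (by omega)]
        · rw [if_neg h2, if_neg (show ¬ k < n - m by omega)]
  have h2 := key n le_rfl
  convert h2 using 1
  funext k
  simp [sd]

theorem AllRepN.repN (hf : f ∈ O) {n e : ℕ} (h : AllRepN f (sd n e)) : RepN f := by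
  have h0 : AllRepN f (sd n 0) := by
    induction e with
    | zero => exact h
    | succ e ih => exact ih (h.step hf)
  have h1 := h0 (fun _ => 0) fun k => by
    simp only [sd]
    split_ifs <;> norm_num
  refine RepN.of_eq (fun x => ?_) h1
  congr 1
  funext k
  simp only [bx, sd]
  split_ifs <;> simp

/-- the corner -/
noncomputable def cor (b : ℕ → ℚ) : ℕ → ℂ := fun k => (b k : ℂ)

theorem norm_real_le {x : ℝ} (hx : 0 ≤ x) : ‖(x : ℂ)‖ = x := by rw [Complex.norm_real, Real.norm_of_nonneg hx]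

theorem cor_eq_pt {b s : ℕ → ℚ} (h : Good b s) : ∃ x : Cube, pt x = cor b := by
  have h0 : ∀ k, (0 : ℝ) ≤ (b k : ℝ) ∧ (b k : ℝ) ≤ 1 := fun k => by
    obtain ⟨h1, h2, h3⟩ := h k
    exact ⟨by exact_mod_cast h2, by exact_mod_cast (by linarith : b k ≤ 1)⟩
  refine ⟨fun k => ⟨(b k : ℝ), (h0 k).1, (h0 k).2⟩, ?_⟩
  funext k
  simp [pt, cor]

theorem aeval_cor (b : ℕ → ℚ) (A : R) : (MvPolynomial.aeval (cor b) A : ℂ) = ((MvPolynomial.eval b A : ℚ) : ℂ) := by
  have : cor b = algebraMap ℚ ℂ ∘ b := by funext k; simp [cor]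
  rw [this, MvPolynomial.aeval_algebraMap_apply, MvPolynomial.aeval_eq_eval]
  simp

/-- polynomials on small boxes are expressions -/
theorem small_poly (A : R) : ∀ lam : ℚ, 0 < lam → ∃ δ > (0 : ℝ), ∀ b s : ℕ → ℚ, Good b s → (∀ k, (s k : ℝ) < δ) →
    ∃ e : Ex, e.OK ∧ ∀ z, (MvPolynomial.aeval (bx b s z) A : ℂ) = MvPolynomial.aeval (cor b) A + (lam : ℂ) * e.eval z := by
  induction A using MvPolynomial.induction_on with
  | C a =>
    intro lam _
    exact ⟨1, one_pos, fun b s _ _ => ⟨Ex.aff 0 0 0, Ex.OK_zero, fun z => by simp [Ex.eval]⟩⟩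
  | add p q hp hq =>
    intro lam hlam
    obtain ⟨δ, hδ, h1⟩ := hp (lam / 32) (by positivity)
    obtain ⟨δ', hδ', h2⟩ := hq (lam / 32) (by positivity)
    refine ⟨min δ δ', lt_min hδ hδ', fun b s hg hs => ?_⟩
    obtain ⟨e, he, h3⟩ := h1 b s hg fun k => (hs k).trans_le (min_le_left _ _)
    obtain ⟨e', he', h4⟩ := h2 b s hg fun k => (hs k).trans_le (min_le_right _ _)
    have hG : IsGauss (1 / 32) := by simpa using IsGauss.rat (1 / 32)
    refine ⟨Ex.op (1 / 32) (1 / 32) 0 e e', ⟨hG, hG, IsGauss.zero, by norm_num, he, he'⟩, fun z => ?_⟩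
    rw [map_add, map_add, h3, h4]
    simp only [Ex.eval]
    push_cast
    ring
  | mul_X p i hp =>
    intro lam hlam
    obtain ⟨δ, hδ, h1⟩ := hp (lam / 64) (by positivity)
    obtain ⟨C, hC, hb⟩ := exists_bound (O_poly p)
    have hlamr : (0 : ℝ) < (lam : ℝ) := by exact_mod_cast hlam
    refine ⟨min δ (min 1 ((lam : ℝ) / (32 * C))), by positivity, fun b s hg hs => ?_⟩
    obtain ⟨e, he, h3⟩ := h1 b s hg fun k => (hs k).trans_le (min_le_left _ _)
    have hs1 := (hs i).trans_le ((min_le_right _ _).trans (min_le_left _ _))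
    have hs2 := (hs i).trans_le ((min_le_right _ _).trans (min_le_right _ _))
    obtain ⟨g1, g2, g3⟩ := hg i
    have hbi : (b i : ℝ) ≤ 1 := by exact_mod_cast (by linarith : b i ≤ 1)
    have hsr : (0 : ℝ) < (s i : ℝ) := by exact_mod_cast g1
    set P0 : ℂ := MvPolynomial.aeval (cor b) p with hP0
    have hP0G : IsGauss P0 := by rw [hP0, aeval_cor]; exact IsGauss.rat _
    have hP0b : ‖P0‖ ≤ C := by
      obtain ⟨x, hx⟩ := cor_eq_pt hg
      rw [hP0, ← hx]
      exact hb x
    have hlamc : (lam : ℂ) ≠ 0 := by exact_mod_cast hlam.ne'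
    refine ⟨Ex.op ((b i / 64 : ℚ) : ℂ) (P0 * ((s i / lam : ℚ) : ℂ)) ((s i / 64 : ℚ) : ℂ) e (Ex.aff 0 1 i),
      ⟨IsGauss.rat _, hP0G.mul (IsGauss.rat _), IsGauss.rat _, ?_, he, IsGauss.zero, IsGauss.one, by simp⟩, fun z => ?_⟩
    · rw [norm_mul, norm_rat (by positivity), norm_rat (by positivity), norm_rat (by positivity)]
      push_cast
      have h5 : ‖P0‖ * ((s i : ℝ) / lam) ≤ 1 / 32 := by
        calc ‖P0‖ * ((s i : ℝ) / lam) ≤ C * (((lam : ℝ) / (32 * C)) / lam) := by gcongr
          _ = 1 / 32 := by field_simp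
      linarith
    · rw [map_mul, map_mul, h3, MvPolynomial.aeval_X, MvPolynomial.aeval_X]
      simp only [Ex.eval, bx, cor]
      push_cast
      field_simp
      ring

/-- the same over `ℚ(i)` -/
theorem small_polF (hF : PolF F) (lam : ℚ) (hlam : 0 < lam) : ∃ δ > (0 : ℝ), ∀ b s : ℕ → ℚ, Good b s → (∀ k, (s k : ℝ) < δ) →
    ∃ e : Ex, e.OK ∧ ∀ z, F (bx b s z) = F (cor b) + (lam : ℂ) * e.eval z := by
  obtain ⟨A, B, h⟩ := hF
  obtain ⟨δ, hδ, h1⟩ := small_poly A (lam / 32) (by positivity)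
  obtain ⟨δ', hδ', h2⟩ := small_poly B (lam / 32) (by positivity)
  refine ⟨min δ δ', lt_min hδ hδ', fun b s hg hs => ?_⟩
  obtain ⟨e, he, h3⟩ := h1 b s hg fun k => (hs k).trans_le (min_le_left _ _)
  obtain ⟨e', he', h4⟩ := h2 b s hg fun k => (hs k).trans_le (min_le_right _ _)
  have hG : IsGauss (1 / 32) := by simpa using IsGauss.rat (1 / 32)
  refine ⟨Ex.op (1 / 32) (Complex.I * (1 / 32)) 0 e e', ⟨hG, IsGauss.I.mul hG, IsGauss.zero, ?_, he, he'⟩, fun z => ?_⟩
  · rw [norm_mul, Complex.norm_I]; norm_num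
  · rw [h, h, h3, h4]
    simp only [Ex.eval]
    push_cast
    ring

theorem PolF.gauss (hF : PolF F) (b : ℕ → ℚ) : IsGauss (F (cor b)) := by
  obtain ⟨A, B, h⟩ := hF
  rw [h, aeval_cor, aeval_cor]
  exact (IsGauss.rat _).add (IsGauss.I.mul (IsGauss.rat _))

theorem PolF.dep (hF : PolF F) : ∃ n, Dep n F := hF.mem_O.1.dep

/-- a quotient of expressions -/
theorem repN_quot {c : ℂ} (hc : IsGauss c) {lam : ℚ} (hlam : 0 < lam) (hcl : (lam : ℝ) < ‖c‖) {e : Ex} (he : e.OK) :
    (∀ {w : Fn}, True → RepN fun z => (c + (lam : ℂ) * e.eval z)⁻¹) ∧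
    ∀ {e' : Ex}, e'.OK → RepN fun z => e'.eval z * (c + (lam : ℂ) * e.eval z)⁻¹ := by
  have hne : ∀ t : ℂ, ‖t‖ ≤ 1 → c + (lam : ℂ) * t ≠ 0 := by
    intro t ht h0
    have h1 : c = -((lam : ℂ) * t) := by linear_combination h0
    rw [h1, norm_neg, norm_mul, norm_rat hlam.le] at hcl
    have hlamr : (0 : ℝ) < (lam : ℝ) := by exact_mod_cast hlam
    nlinarith
  have hM : ∀ k, Mono fun z => (c + (lam : ℂ) * z k)⁻¹ := fun k => Mono.inv (tri_lin hc (IsGauss.rat _) k) fun z hz => hne _ (hz k)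
  refine ⟨fun _ => ?_, fun {e'} he' => ?_⟩
  · have h := repN_expr _ 1 (fun z => (c + (lam : ℂ) * z 0)⁻¹) (fun _ => e) (hM 0) (fun z w h => by
      dsimp only; rw [h 0 (by norm_num)]) (fun _ => he) le_rfl
    exact h
  · obtain ⟨M1, hM1⟩ := e.exists_fresh
    obtain ⟨M2, hM2⟩ := e'.exists_fresh
    set M := M1 + M2 with hMM
    have f1 : Fresh M e.eval := hM1 M (by omega)
    have f2 : Fresh M e'.eval := hM2 M (by omega)
    have hFR : RatG fun z => (c + (lam : ℂ) * e.eval z)⁻¹ :=
      RatG.inv (hc.polF.add ((PolF.rat lam).mul he.polF)) fun z hz => hne _ (he.norm_le z hz)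
    have hFf : Fresh M fun z => (c + (lam : ℂ) * e.eval z)⁻¹ := fun z t => by dsimp only; rw [f1]
    have hnum := numerator_formula hFR he'.polF hFf f2 he'.norm_le
    have hO : (fun z => (1 / 4 : ℂ) * (e'.eval z * (c + (lam : ℂ) * e.eval z)⁻¹)) ∈ O := by
      have h4 : PolF fun _ : ℕ → ℂ => (1 / 4 : ℂ) := by simpa using PolF.rat (1 / 4)
      exact (h4.ratG.mul (he'.polF.ratG.mul hFR)).mem_O
    have hOf : Fresh M (fun z => (1 / 4 : ℂ) * (e'.eval z * (c + (lam : ℂ) * e.eval z)⁻¹)) := fun z t => by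
      dsimp only; rw [f1, f2]
    have hrep : RepN (fun z => (1 / 4 : ℂ) * (e'.eval z * (c + (lam : ℂ) * e.eval z)⁻¹)) := by
      refine RepN.of_cFn hO hOf (RepN.of_eqv hnum (RepN.sum _ _ fun m _ => RepN.const (IsGauss.W m) ?_))
      have hz1 : Mono fun z => (ζ m (z 2))⁻¹ := Mono.inv (tri_lin (IsGauss.V m) (IsGauss.W m) 2) fun z hz => zeta_ne m (hz 2)
      have hq : IsGauss (1 / 4) := by simpa using IsGauss.rat (1 / 4)
      have hT : Mono fun z => (1 - (1 / 4 : ℂ) * (ζ m (z 2) * z 1))⁻¹ := by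
        refine Mono.inv ⟨2, 1, 0, 1, 0, -(1 / 4) * V m, 0, -(1 / 4) * W m, IsGauss.one, IsGauss.zero, hq.neg.mul (IsGauss.V m),
          IsGauss.zero, hq.neg.mul (IsGauss.W m), fun z => by simp only [ζ]; ring⟩ fun z hz h0 => ?_
        have e1 : (1 / 4 : ℂ) * (ζ m (z 2) * z 1) = 1 := by linear_combination -h0
        have e2 := congrArg norm e1
        rw [norm_mul, norm_mul, norm_one] at e2
        have e3 : ‖(1 / 4 : ℂ)‖ = 1 / 4 := by norm_num
        have hu := zeta_upper m (hz 2)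
        have h1 := hz 1
        rw [e3] at e2
        nlinarith [norm_nonneg (ζ m (z 2)), norm_nonneg (z 1)]
      have h := repN_expr _ 3 (fun z => (c + (lam : ℂ) * z 0)⁻¹ * ((ζ m (z 2))⁻¹ * ((ζ m (z 2))⁻¹ * (1 - (1 / 4 : ℂ) * (ζ m (z 2) * z 1))⁻¹)))
        (fun j => if j = 0 then e else if j = 1 then e' else Ex.aff 0 1 M) ((hM 0).mul (hz1.mul (hz1.mul hT)))
        (fun z w h => by dsimp only; rw [h 0 (by norm_num), h 1 (by norm_num), h 2 (by norm_num)]) (fun j => by
          split_ifs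
          · exact he
          · exact he'
          · exact ⟨IsGauss.zero, IsGauss.one, by simp⟩) le_rfl
      convert h using 1
      funext z
      simp [Ex.eval]
    have h4 := hrep.const (c := 4) (by simpa using IsGauss.rat 4)
    convert h4 using 1
    funext z
    ring

/-- **rational functions have the normal form** -/
theorem repN_ratG (hF : RatG F) : RepN F := by
  have hFO := hF.mem_O
  obtain ⟨P, hP, Q, hQ, h0, h⟩ := hF
  obtain ⟨n1, hn1⟩ := hP.dep
  obtain ⟨n2, hn2⟩ := hQ.dep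
  set n := n1 + n2 with hn
  have hPn : Dep n P := hn1.mono (by omega)
  have hQn : Dep n Q := hn2.mono (by omega)
  -- a lower bound for the denominator
  obtain ⟨C, hC, hb⟩ := exists_bound (O_inv hQ.mem_O h0)
  obtain ⟨lam, hl0, hl1⟩ := exists_rat_btwn (show (0 : ℝ) < 1 / C by positivity)
  have hlam : 0 < lam := by exact_mod_cast hl0
  have hlow : ∀ b s, Good b s → (lam : ℝ) < ‖Q (cor b)‖ := by
    intro b s hg
    obtain ⟨x, hx⟩ := cor_eq_pt hg
    have h1 := hb x
    rw [hx, norm_inv] at h1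
    have h2 : 0 < ‖Q (cor b)‖ := norm_pos_iff.2 (by rw [← hx]; exact h0 _ (pt_mem_D x))
    have h3 : 1 / C ≤ ‖Q (cor b)‖ := by
      rw [div_le_iff₀ hC]
      have := mul_le_mul_of_nonneg_left h1 h2.le
      rw [mul_inv_cancel₀ h2.ne'] at this
      exact this
    linarith
  obtain ⟨δ, hδ, h1⟩ := small_polF hP 1 one_pos
  obtain ⟨δ', hδ', h2⟩ := small_polF hQ lam hlam
  obtain ⟨N, hN⟩ := exists_pow_lt_of_lt_one (lt_min hδ hδ') (show (1 / 2 : ℝ) < 1 by norm_num)
  refine AllRepN.repN (n := n) (e := N) hFO fun b hg => ?_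
  -- the other variables do not matter
  set b' : ℕ → ℚ := fun k => if k < n then b k else 0 with hb'
  set s' : ℕ → ℚ := fun k => (1 / 2) ^ N with hs'
  have hg' : Good b' s' := by
    intro k
    by_cases hk : k < n
    · have := hg k
      simp only [sd, hk, if_true] at this
      simpa only [hb', hs', hk, if_true] using this
    · simp only [hb', hs', hk, if_false]
      exact ⟨by positivity, le_rfl, by rw [zero_add]; exact pow_le_one₀ (by norm_num) (by norm_num)⟩
  have hsmall : ∀ k, (s' k : ℝ) < min δ δ' := by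
    intro k
    simp only [hs']
    push_cast
    exact hN
  obtain ⟨e, he, h3⟩ := h1 b' s' hg' fun k => (hsmall k).trans_le (min_le_left _ _)
  obtain ⟨e', he', h4⟩ := h2 b' s' hg' fun k => (hsmall k).trans_le (min_le_right _ _)
  have hbx : ∀ z, ∀ k < n, bx b (sd n N) z k = bx b' s' z k := by
    intro z k hk
    simp [bx, sd, hb', hs', hk]
  obtain ⟨r1, r2⟩ := repN_quot (hQ.gauss b') hlam (hlow b' s' hg') he'
  have r3 := (RepN.const (hP.gauss b') (r1 (w := F) trivial)).add (r2 he)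
  convert r3 using 1
  funext z
  rw [h, hPn _ _ (hbx z), hQn _ _ (hbx z), h3, h4]
  push_cast
  rw [div_eq_mul_inv]
  ring

/-- formal periods of rational functions have the normal form -/
theorem exists_NF (hf : f ∈ O) : RepN f := by
  obtain ⟨m, r, hr, h⟩ := level1 hf
  obtain ⟨m', g, hg, h'⟩ := repN_ratG hr
  refine ⟨m' + m, g, hg, ?_⟩
  have e : ∀ k : ℕ, KP.piMul k (KP.piMul m f) = KP.piMul (k + m) f := by
    intro k
    induction k with
    | zero => rw [zero_add]; rfl
    | succ k ih => rw [piMul_succ, ih, show k + 1 + m = (k + m) + 1 by omega]; rfl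
  have h2 := h.piMul m'
  rw [e] at h2
  exact h2.trans h'

theorem NF.mem_O (hu : NF u) : u ∈ O := by
  obtain ⟨l, h1, h2⟩ := hu
  have key : ∀ l : List (ℂ × Fn), (∀ p ∈ l, IsGauss p.1 ∧ Mono p.2) → (fun z => (l.map fun p => p.1 * p.2 z).sum) ∈ O := by
    intro l
    induction l with
    | nil => intro _; simpa using O_rat 0
    | cons p l ih =>
      intro h
      simp only [List.map_cons, List.sum_cons]
      exact O_add (O_mul (h p (by simp)).1.polF.mem_O (h p (by simp)).2.ratG.mem_O) (ih fun q hq => h q (by simp [hq]))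
  have : u = fun z => (l.map fun p => p.1 * p.2 z).sum := funext h2
  rw [this]
  exact key l h1

theorem zero_of_eqv {m : ℕ} (he : Eqv (piMul m f) g) (hg : Zero g) : Zero f := by
  obtain ⟨k, hk⟩ := hg
  refine ⟨m + k, ?_⟩
  have h2 := he.piMul k
  have e : ∀ k : ℕ, KP.piMul k (KP.piMul m f) = KP.piMul (m + k) f := by
    intro k
    induction k with
    | zero => rfl
    | succ k ih => rw [piMul_succ, ih]; rfl
  rw [e] at h2
  have h3 := Stokes.add_mem h2 hk
  convert h3 using 1
  funext x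
  simp

/-- **the conjecture for products of reciprocals** -/
theorem conj_iff_NF : Conj ↔ ∀ u, NF u → ev u = 0 → Zero u := by
  constructor
  · intro h u hu h0
    exact h u hu.mem_O h0
  · intro h f hf h0
    obtain ⟨m, u, hu, he⟩ := exists_NF hf
    have h1 : ev u = 0 := by
      rw [← he.ev_eq (O_piMul hf m).1 hu.mem_O.1, ev_piMul hf, h0, mul_zero]
    exact zero_of_eqv he (h u hu h1)

end Pool.Agent.H39.KP
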