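import Pool.Agent.H39.KP.PiM

namespace Pool.Agent.H39.KP

open Function MeasureTheory Filter Topology

instance : (volume : Measure unitInterval).IsOpenPosMeasure := by
  constructor
  rintro U hU ⟨a, ha⟩ h0
  obtain ⟨ε, hε, hb⟩ := Metric.isOpen_iff.1 hU a ha
  have h1 : volume (Subtype.val '' U : Set ℝ) = 0 := by
    rw [← comap_subtype_coe_apply measurableSet_Icc volume U]
    exact h0
  have h2 : Set.Ioo (max 0 ((a : ℝ) - ε)) (min 1 ((a : ℝ) + ε)) ⊆ Subtype.val '' U := by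
    intro t ht
    simp only [Set.mem_Ioo, max_lt_iff, lt_min_iff] at ht
    refine ⟨⟨t, ht.1.1.le, ht.2.1.le⟩, hb ?_, rfl⟩
    rw [Metric.mem_ball, Subtype.dist_eq, Real.dist_eq, abs_lt]
    constructor
    · simp only; linarith [ht.1.2]
    · simp only; linarith [ht.2.2]
  have h3 := measure_mono_null h2 h1
  rw [Real.volume_Ioo, ENNReal.ofReal_eq_zero] at h3
  have h4 : max 0 ((a : ℝ) - ε) < min 1 ((a : ℝ) + ε) := by
    have := a.2.1
    have := a.2.2
    rw [max_lt_iff, lt_min_iff, lt_min_iff]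
    exact ⟨⟨by norm_num, by linarith⟩, ⟨by linarith, by linarith⟩⟩
  linarith

instance : (μ).IsOpenPosMeasure := by
  constructor
  rintro U hU ⟨a, ha⟩ h0
  obtain ⟨I, u, h1, h2⟩ := isOpen_pi_iff.1 hU a ha
  have h3 : μ (Set.pi (I : Set ℕ) u) = 0 := measure_mono_null h2 h0
  rw [Measure.infinitePi_pi _ fun i hi => (h1 i hi).1.measurableSet, Finset.prod_eq_zero_iff] at h3
  obtain ⟨i, hi, h4⟩ := h3
  exact (h1 i hi).1.measure_ne_zero _ ⟨a i, (h1 i hi).2⟩ h4

end Pool.Agent.H39.KP
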