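import Pool.Agent.H39.KP.Deriv

namespace Pool.Agent.H39.KP

open Function MeasureTheory Filter Topology

variable {f g : Fn}

/-- oscillation in the variable `z_i` -/
def Os (f : Fn) (i : ℕ) (δ ε : ℝ) : Prop := ∀ z ∈ D, ∀ s t : ℂ, ‖s‖ ≤ 1 → ‖t‖ ≤ 1 → ‖s - t‖ ≤ δ →
  ‖f (update z i s) - f (update z i t)‖ ≤ ε

/-- the average over the two halves -/
noncomputable def T (i : ℕ) (f : Fn) : Fn := fun z => half0 i f z + half1 i f z

theorem O_T (hf : f ∈ O) (i : ℕ) : T i f ∈ O := O_add (O_half0 hf i) (O_half1 hf i)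

theorem eqv_T (hf : f ∈ O) (i : ℕ) : Eqv f (T i f) := subdivide hf i

theorem norm_half_one {s : ℂ} (hs : ‖s‖ ≤ 1) : ‖(1 + s) / 2‖ ≤ 1 := by
  rw [norm_div, Complex.norm_ofNat, div_le_one (by norm_num)]
  exact (norm_add_le _ _).trans (by rw [norm_one]; linarith)

theorem norm_half_zero {s : ℂ} (hs : ‖s‖ ≤ 1) : ‖s / 2‖ ≤ 1 := by
  rw [norm_div, Complex.norm_ofNat, div_le_one (by norm_num)]
  linarith

theorem Os.T_same {i : ℕ} {δ ε : ℝ} (h : Os f i δ ε) : Os (T i f) i (2 * δ) ε := by
  intro z hz s t hs ht hst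
  simp only [T, half0, half1, update_idem, update_self]
  have h1 := h z hz (s / 2) (t / 2) (norm_half_zero hs) (norm_half_zero ht) (by
    rw [← sub_div, norm_div, Complex.norm_ofNat]; linarith)
  have h2 := h z hz ((1 + s) / 2) ((1 + t) / 2) (norm_half_one hs) (norm_half_one ht) (by
    rw [show (1 + s) / 2 - (1 + t) / 2 = (s - t) / 2 by ring, norm_div, Complex.norm_ofNat]; linarith)
  have e : f (update z i (s / 2)) / 2 + f (update z i ((1 + s) / 2)) / 2 - (f (update z i (t / 2)) / 2 + f (update z i ((1 + t) / 2)) / 2)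
      = (f (update z i (s / 2)) - f (update z i (t / 2))) / 2 + (f (update z i ((1 + s) / 2)) - f (update z i ((1 + t) / 2))) / 2 := by
    ring
  rw [e]
  refine (norm_add_le _ _).trans ?_
  rw [norm_div, norm_div, Complex.norm_ofNat]
  linarith

theorem Os.T_other {i k : ℕ} (hik : i ≠ k) {δ ε : ℝ} (h : Os f i δ ε) : Os (T k f) i δ ε := by
  intro z hz s t hs ht hst
  simp only [T, half0, half1, update_of_ne hik.symm, update_comm hik]
  have h1 := h _ (update_mem_D hz k (norm_half_zero (hz k))) s t hs ht hst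
  have h2 := h _ (update_mem_D hz k (norm_half_one (hz k))) s t hs ht hst
  have e : ∀ a b c d : ℂ, a / 2 + b / 2 - (c / 2 + d / 2) = (a - c) / 2 + (b - d) / 2 := fun a b c d => by ring
  rw [e]
  refine (norm_add_le _ _).trans ?_
  rw [norm_div, norm_div, Complex.norm_ofNat]
  linarith

/-- one step in all variables -/
noncomputable def TT : ℕ → Fn → Fn
  | 0, f => f
  | n + 1, f => T n (TT n f)

theorem O_TT (hf : f ∈ O) (n : ℕ) : TT n f ∈ O := by
  induction n with
  | zero => exact hf
  | succ n ih => exact O_T ih n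

theorem eqv_TT (hf : f ∈ O) (n : ℕ) : Eqv f (TT n f) := by
  induction n with
  | zero => exact Eqv.refl f
  | succ n ih => exact ih.trans (eqv_T (O_TT hf n) n)

theorem Os.TT_ge {i : ℕ} {δ ε : ℝ} (h : Os f i δ ε) (n : ℕ) (hn : n ≤ i) : Os (TT n f) i δ ε := by
  induction n with
  | zero => exact h
  | succ n ih => exact (ih (by omega)).T_other (by omega)

theorem Os.TT_lt {i : ℕ} {δ ε : ℝ} (h : Os f i δ ε) (n : ℕ) (hn : i < n) : Os (TT n f) i (2 * δ) ε := by
  induction n with
  | zero => omega
  | succ n ih =>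
    by_cases h' : i = n
    · subst h'
      exact (h.TT_ge i le_rfl).T_same
    · exact (ih (by omega)).T_other h'

theorem Dep.T {n : ℕ} (h : Dep n f) (i : ℕ) (hi : i < n) : Dep n (T i f) := by
  intro z w hzw
  simp only [KP.T, half0, half1, hzw i hi]
  have : ∀ t, f (Function.update z i t) = f (Function.update w i t) := fun t => by
    apply h
    intro k hk
    by_cases hki : k = i
    · subst hki; simp
    · simp [update_of_ne hki, hzw k hk]
  rw [this, this]

theorem Dep.TT {n : ℕ} (h : Dep n f) (m : ℕ) (hm : m ≤ n) : Dep n (TT m f) := by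
  induction m with
  | zero => exact h
  | succ m ih => exact (ih (by omega)).T m (by omega)

/-- iterated subdivision -/
noncomputable def Sub (n e : ℕ) (f : Fn) : Fn := (TT n)^[e] f

theorem Sub_succ (n e : ℕ) (f : Fn) : Sub n (e + 1) f = TT n (Sub n e f) := by
  simp only [Sub, iterate_succ_apply']

theorem O_Sub (hf : f ∈ O) (n e : ℕ) : Sub n e f ∈ O := by
  induction e with
  | zero => exact hf
  | succ e ih => rw [Sub_succ]; exact O_TT ih n

theorem eqv_Sub (hf : f ∈ O) (n e : ℕ) : Eqv f (Sub n e f) := by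
  induction e with
  | zero => exact Eqv.refl f
  | succ e ih => rw [Sub_succ]; exact ih.trans (eqv_TT (O_Sub hf n e) n)

theorem Dep.Sub {n : ℕ} (h : Dep n f) (e : ℕ) : Dep n (Sub n e f) := by
  induction e with
  | zero => exact h
  | succ e ih => rw [Sub_succ]; exact ih.TT n le_rfl

theorem Os.Sub {i n : ℕ} (hi : i < n) {δ ε : ℝ} (h : Os f i δ ε) (e : ℕ) : Os (Sub n e f) i (2 ^ e * δ) ε := by
  induction e with
  | zero => simpa [KP.Sub] using h
  | succ e ih =>
    rw [Sub_succ, pow_succ, mul_comm (2 ^ e : ℝ) 2, mul_assoc]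
    exact ih.TT_lt n hi

/-- uniform continuity -/
theorem exists_Os {n : ℕ} (hf : HoloN n f) {ε : ℝ} (hε : 0 < ε) : ∃ δ > 0, ∀ i, Os f i δ ε := by
  have hc : ContinuousOn (fun y => f (ext n y)) (Metric.closedBall (0 : Fin n → ℂ) 1) := fun x hx =>
    (hf.2 x hx).self_of_nhds.continuousAt.continuousWithinAt
  have hu := (isCompact_closedBall (0 : Fin n → ℂ) 1).uniformContinuousOn_of_continuous hc
  rw [Metric.uniformContinuousOn_iff_le] at hu
  obtain ⟨δ, hδ, h⟩ := hu ε hε
  refine ⟨δ, hδ, fun i z hz s t hs ht hst => ?_⟩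
  have h1 := h (res n (update z i s)) (res_mem (update_mem_D hz i hs)) (res n (update z i t))
    (res_mem (update_mem_D hz i ht)) (by
      rw [dist_pi_le_iff hδ.le]
      intro k
      by_cases hk : (k : ℕ) = i
      · simp only [res, hk, update_self]; rwa [dist_eq_norm]
      · simp only [res, update_of_ne hk, dist_self]; exact hδ.le)
  rw [dist_eq_norm] at h1
  simpa only [hf.1.ext_res] using h1

theorem Os.total {n : ℕ} (hd : Dep n f) {ε : ℝ} (h : ∀ i < n, Os f i 2 ε) {z w : ℕ → ℂ} (hz : z ∈ D) (hw : w ∈ D) :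
    ‖f z - f w‖ ≤ n * ε := by
  have key : ∀ m ≤ n, ‖f z - f (fun i => if i < m then w i else z i)‖ ≤ m * ε := by
    intro m
    induction m with
    | zero => intro _; simp
    | succ m ih =>
      intro hm
      have h1 := ih (by omega)
      set u : ℕ → ℂ := fun i => if i < m then w i else z i with hu
      have huD : u ∈ D := by
        intro i
        simp only [hu]
        split_ifs
        · exact hw i
        · exact hz i
      have e1 : u = update u m (z m) := by
        funext k
        by_cases hk : k = m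
        · subst hk; simp [hu]
        · simp [update_of_ne hk]
      have e2 : (fun i => if i < m + 1 then w i else z i) = update u m (w m) := by
        funext k
        by_cases hk : k = m
        · subst hk; simp
        · rw [update_of_ne hk]
          simp only [hu]
          by_cases h' : k < m
          · simp [h', Nat.lt_succ_of_lt h']
          · rw [if_neg h', if_neg (by omega)]
      have h2 := h m (by omega) u huD (z m) (w m) (hz m) (hw m) (by
        calc ‖z m - w m‖ ≤ ‖z m‖ + ‖w m‖ := norm_sub_le _ _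
          _ ≤ 2 := by linarith [hz m, hw m])
      rw [← e1, ← e2] at h2
      have : f z - f (fun i => if i < m + 1 then w i else z i) = (f z - f u) + (f u - f (fun i => if i < m + 1 then w i else z i)) := by
        ring
      rw [this]
      refine (norm_add_le _ _).trans ?_
      push_cast
      linarith
  have h1 := key n le_rfl
  have : f (fun i => if i < n then w i else z i) = f w := by
    apply hd
    intro i hi
    simp [hi]
  rwa [this] at h1

/-- **Every class contains functions which are uniformly close to the integral.** -/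
theorem approx (hf : f ∈ O) {ε : ℝ} (hε : 0 < ε) : ∃ n e : ℕ, ∀ z ∈ D, ‖Sub n e f z - ev f‖ ≤ ε := by
  obtain ⟨n, hn⟩ := holo_iff.1 hf.1
  have hε' : 0 < ε / (n + 1) := by positivity
  obtain ⟨δ, hδ, h1⟩ := exists_Os hn hε'
  obtain ⟨e, he⟩ := pow_unbounded_of_one_lt (2 / δ) (one_lt_two)
  refine ⟨n, e, fun z hz => ?_⟩
  have h2 : ∀ i < n, Os (Sub n e f) i 2 (ε / (n + 1)) := by
    intro i hi z hz s t hs ht hst
    refine (h1 i).Sub hi e z hz s t hs ht (hst.trans ?_)
    rw [div_lt_iff₀ hδ] at he
    exact he.le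
  have hS := O_Sub hf n e
  have h3 : ∀ x : Cube, ‖Sub n e f z - Sub n e f (pt x)‖ ≤ ε := by
    intro x
    refine (Os.total (hn.1.Sub e) h2 hz (pt_mem_D x)).trans ?_
    rw [mul_div_assoc', div_le_iff₀ (by positivity)]
    nlinarith
  rw [(eqv_Sub hf n e).ev_eq hf.1 hS.1]
  have h4 : Sub n e f z - ev (Sub n e f) = ∫ x, (Sub n e f z - Sub n e f (pt x)) ∂μ := by
    rw [integral_sub (integrable_const _) (integrable_of_continuous hS.1.continuous)]
    simp [ev]
  rw [h4]
  have := norm_integral_le_of_norm_le_const (μ := μ) (ae_of_all _ h3)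
  simpa using this

end Pool.Agent.H39.KP
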