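import Pool.Agent.H39.KP.Contour

namespace Pool.Agent.H39.KP

open Function Filter Topology

variable {f g : Fn}

/-- renaming of variables, injective on the variables of the function -/
theorem O_ren {n : ℕ} (hn : HoloN n f) (ha : Algc f) (τ : ℕ → ℕ) (hτ : ∀ i < n, ∀ j < n, τ i = τ j → i = j) :
    (fun z => f fun k => z (τ k)) ∈ O := by
  classical
  obtain ⟨r, hr, hR⟩ := hn.exists_radius
  set Φ : ℕ → RK := fun k => MvPolynomial.X (τ k) with hΦ
  set ψ : RK →ₐ[K] RK := MvPolynomial.aeval fun j => if h : ∃ k < n, τ k = j then MvPolynomial.X h.choose else 0 with hψ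
  have h1 : ∀ k < n, ψ (Φ k) = MvPolynomial.X k := by
    intro k hk
    have hex : ∃ k' < n, τ k' = τ k := ⟨k, hk, rfl⟩
    simp only [hΦ, hψ, MvPolynomial.aeval_X]
    rw [dif_pos hex]
    congr 1
    exact hτ _ hex.choose_spec.1 _ hk hex.choose_spec.2
  have h2 := O_comp hr hR ha Φ ψ h1 fun z hz => by
    simp only [hΦ, MvPolynomial.aeval_X]
    exact D_sub_Bl hr fun k => hz (τ k)
  simpa only [hΦ, MvPolynomial.aeval_X] using h2

/-- renaming of variables does not change the class -/
theorem eqv_ren {n : ℕ} (hn : HoloN n f) (ha : Algc f) (τ : ℕ → ℕ) (hτ : ∀ i < n, ∀ j < n, τ i = τ j → i = j) :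
    Eqv f fun z => f fun k => z (τ k) := by
  -- first to `M + k`
  have key : ∀ τ : ℕ → ℕ, (∀ i < n, ∀ j < n, τ i = τ j → i = j) → ∀ M, (∀ k < n, τ k < M) →
      Eqv (fun z => f fun k => z (τ k)) fun z => f fun k => z (M + k) := by
    intro τ hτ M hM
    have hstep : ∀ m ≤ n, Eqv (fun z => f fun k => z (τ k)) fun z => f fun k => z (if k < m then M + k else τ k) := by
      intro m
      induction m with
      | zero => intro _; simpa using Eqv.refl _
      | succ m ih =>
        intro hm
        refine (ih (by omega)).trans ?_
        set σ : ℕ → ℕ := fun k => if k < m then M + k else τ k with hσ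
        have hinj : ∀ i < n, ∀ j < n, σ i = σ j → i = j := by
          intro i hi j hj h
          simp only [hσ] at h
          have h1 := hM i hi
          have h2 := hM j hj
          split_ifs at h
          · omega
          · omega
          · omega
          · exact hτ i hi j hj h
        have hO := O_ren hn ha σ hinj
        have hfr : Fresh (M + m) fun z => f fun k => z (σ k) := by
          intro z t
          apply hn.1
          intro k hk
          have hk1 := hM k hk
          rw [update_of_ne]
          simp only [hσ]
          split_ifs <;> omega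
        have hτm := hM m (by omega)
        have h3 := rename_fresh hO (i := τ m) (j := M + m) (by omega) hfr
        refine h3.trans (Eqv.of_eq fun x => ?_)
        apply hn.1
        intro k hk
        by_cases hkm : k = m
        · subst hkm
          simp [hσ]
        · have h4 : σ k ≠ τ m := by
            simp only [hσ]
            split_ifs with h5
            · omega
            · intro h6; exact hkm (hτ k hk m (by omega) h6)
          rw [update_of_ne h4]
          simp only [hσ]
          congr 1
          split_ifs <;> first | rfl | omega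
    refine (hstep n le_rfl).trans (Eqv.of_eq fun x => ?_)
    apply hn.1
    intro k hk
    simp [hk]
  set M := n + (Finset.range n).sup τ + 1 with hM
  have hM1 : ∀ k < n, τ k < M := by
    intro k hk
    have := Finset.le_sup (f := τ) (Finset.mem_range.2 hk)
    omega
  have h1 := key id (fun i _ j _ h => h) M fun k hk => by simp only [id]; omega
  have h2 := key τ hτ M hM1
  exact h1.trans h2.symm

/-- multiplication by `π` in a new variable -/
theorem piFn_fresh (hf : f ∈ O) {i : ℕ} (hi : Fresh i f) : Eqv (fun z => piFn (z i) * f z) (piMul 1 f) := by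
  obtain ⟨n, hn⟩ := holo_iff.1 hf.1
  -- move `i` to a large variable
  set N := n + i + 1 with hN
  have hF : (fun z => piFn (z i) * f z) ∈ O := O_mul (O_piFn i) hf
  have hiN : i ≠ N := by omega
  have hfr : Fresh N fun z => piFn (z i) * f z := by
    intro z t
    simp only
    rw [update_of_ne hiN, hn.1.update (by omega)]
  have h1 : Eqv (fun z => piFn (z i) * f z) fun z => piFn (z N) * f z := by
    refine (rename_fresh hF hiN hfr).trans (Eqv.of_eq fun x => ?_)
    simp only [update_self]
    rw [hi]
  -- cyclic renaming
  have hG : (fun z => piFn (z N) * f z) ∈ O := O_mul (O_piFn N) hf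
  have hn2 : HoloN (N + 1) fun z => piFn (z N) * f z := by
    obtain ⟨m, hm⟩ := holo_iff.1 hG.1
    refine ⟨fun z w h => ?_, fun x hx => ?_⟩
    · simp only
      rw [h N (by omega), hn.1 z w fun k hk => h k (by omega)]
    · -- via radius
      have h3 : HoloN (N + 1) f := hn.mono (by omega)
      have h4 : HoloN (N + 1) fun z => piFn (z N) := by
        have e : (fun z : ℕ → ℂ => piFn (z N)) = fun z => 8 * (4 + z N * z N)⁻¹ + 8 * (4 + (1 + z N) * (1 + z N))⁻¹ := by
          funext z
          simp only [piFn, div_eq_mul_inv, sq]
        rw [e]
        have hc := holoN_coord (n := N + 1) (k := N) (by omega)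
        refine ((holoN_const _ 8).mul (((holoN_const _ 4).add (hc.mul hc)).inv fun z hz => ?_)).add
          ((holoN_const _ 8).mul (((holoN_const _ 4).add (((holoN_const _ 1).add hc).mul ((holoN_const _ 1).add hc))).inv fun z hz => ?_))
        · have := four_ne (hz N)
          rwa [sq] at this
        · have := four_ne' (hz N)
          rwa [sq] at this
      exact (h4.mul h3).2 x hx
  have h2 := eqv_ren hn2 hG.2 (fun k => if k < N then k + 1 else 0) (fun a ha b hb h => by
    split_ifs at h <;> omega)
  refine h1.trans (h2.trans (Eqv.of_eq fun x => ?_))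
  simp only [piMul, lt_irrefl, if_false]
  congr 1
  apply hn.1
  intro k hk
  rw [if_pos (by omega)]

end Pool.Agent.H39.KP
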