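import Pool.Agent.H39.KP.Root

namespace Pool.Agent.H39.KP

open Function MeasureTheory Filter Topology

variable {f g : Fn}

theorem Algc.inv (hf : Algc f) (h0 : ∀ x : Cube, f (pt x) ≠ 0) : Algc fun z => (f z)⁻¹ := by
  obtain ⟨p, hp, h⟩ := hf
  refine ⟨p.reverse, fun h' => hp ?_, fun x => ?_⟩
  · rwa [Polynomial.reverse_eq_zero] at h'
  · have hu : IsUnit (f (pt x)) := isUnit_iff_ne_zero.2 (h0 x)
    have : Invertible (f (pt x)) := hu.invertible
    have h1 := Polynomial.eval₂_reverse_mul_pow (MvPolynomial.aeval (pt x) : R →ₐ[ℚ] ℂ).toRingHom (f (pt x)) p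
    rw [h x, invOf_eq_inv] at h1
    rcases mul_eq_zero.1 h1 with h2 | h2
    · exact h2
    · exact absurd h2 (pow_ne_zero _ (h0 x))

theorem O_inv (hf : f ∈ O) (h0 : ∀ z ∈ D, f z ≠ 0) : (fun z => (f z)⁻¹) ∈ O :=
  ⟨hf.1.inv h0, hf.2.inv fun x => h0 _ (pt_mem_D x)⟩

theorem O_pow (hf : f ∈ O) (m : ℕ) : (fun z => f z ^ m) ∈ O := by
  induction m with
  | zero => simpa using O_rat 1
  | succ m ih => simpa only [pow_succ] using O_mul ih hf

theorem four_ne {w : ℂ} (hw : ‖w‖ ≤ 1) : 4 + w ^ 2 ≠ 0 := by
  intro h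
  have h1 : ‖w ^ 2‖ = 4 := by
    rw [show w ^ 2 = -4 by linear_combination h]; simp
  rw [norm_pow] at h1
  nlinarith [norm_nonneg w]

theorem four_ne' {w : ℂ} (hw : ‖w‖ ≤ 1) : 4 + (1 + w) ^ 2 ≠ 0 := by
  intro h
  have h1 : (1 + w - 2 * Complex.I) * (1 + w + 2 * Complex.I) = 0 := by
    ring_nf
    rw [Complex.I_sq]
    linear_combination h
  rcases mul_eq_zero.1 h1 with h2 | h2
  · have : w = -1 + 2 * Complex.I := by linear_combination h2
    rw [this] at hw
    have := Complex.abs_im_le_norm (-1 + 2 * Complex.I)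
    simp at this
    linarith
  · have : w = -1 - 2 * Complex.I := by linear_combination h2
    rw [this] at hw
    have := Complex.abs_im_le_norm (-1 - 2 * Complex.I)
    simp at this
    linarith

theorem O_piFn (k : ℕ) : (fun z : ℕ → ℂ => piFn (z k)) ∈ O := by
  have h1 : (fun z : ℕ → ℂ => (4 + z k ^ 2)) ∈ O := by
    have := O_add (O_rat 4) (O_pow (O_coord k) 2)
    simpa using this
  have h2 : (fun z : ℕ → ℂ => (4 + (1 + z k) ^ 2)) ∈ O := by
    have := O_add (O_rat 4) (O_pow (O_add (O_rat 1) (O_coord k)) 2)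
    simpa using this
  have h3 := O_add (O_mul (O_rat 8) (O_inv h1 fun z hz => four_ne (hz k)))
    (O_mul (O_rat 8) (O_inv h2 fun z hz => four_ne' (hz k)))
  convert h3 using 1
  funext z
  simp only [piFn, div_eq_mul_inv]
  push_cast
  rfl

/-- shift of the variables -/
def sh (f : Fn) : Fn := fun z => f fun i => z (i + 1)

theorem O_sh (hf : f ∈ O) : sh f ∈ O := by
  refine ⟨hf.1.comp (Φ := fun z i => z (i + 1)) (fun k => holo_coord (k + 1)) fun z hz i => hz (i + 1), ?_⟩
  refine hf.2.comp_inj (fun z i => z (i + 1)) (MvPolynomial.rename (· + 1))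
    (MvPolynomial.rename_injective _ (add_left_injective 1)) (fun x => ⟨fun i => x (i + 1), rfl⟩) fun x k => ?_
  simp

/-- multiplication by `π` -/
noncomputable def piT (f : Fn) : Fn := fun z => piFn (z 0) * sh f z

theorem O_piT (hf : f ∈ O) : piT f ∈ O := O_mul (O_piFn 0) (O_sh hf)

theorem piMul_succ (m : ℕ) (f : Fn) : piMul (m + 1) f = piT (piMul m f) := rfl

theorem O_piMul (hf : f ∈ O) (m : ℕ) : piMul m f ∈ O := by
  induction m with
  | zero => exact hf
  | succ m ih => rw [piMul_succ]; exact O_piT ih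

/-- the shift on the cube -/
def shC (x : Cube) : Cube := fun i => x (i + 1)

theorem map_shC : μ.map shC = μ := by
  have hm : Measurable shC := by
    rw [measurable_pi_iff]
    intro k
    exact measurable_pi_apply (k + 1)
  apply Measure.eq_infinitePi
  intro s t ht
  rw [Measure.map_apply hm (MeasurableSet.pi s.countable_toSet fun k _ => ht k)]
  have e : shC ⁻¹' (Set.pi s t) = Set.pi ((s.map ⟨(· + 1), add_left_injective 1⟩ : Finset ℕ) : Set ℕ) fun k => t (k - 1) := by
    ext x
    simp only [Set.mem_preimage, Set.mem_pi, Finset.mem_coe, shC, Finset.mem_map, Function.Embedding.coeFn_mk]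
    constructor
    · rintro h k ⟨a, ha, rfl⟩
      simpa using h a ha
    · intro h k hk
      simpa using h (k + 1) ⟨k, hk, rfl⟩
  rw [e, Measure.infinitePi_pi _ fun k _ => ht (k - 1)]
  simp

theorem continuous_shC : Continuous shC := by
  rw [continuous_pi_iff]
  intro k
  exact continuous_apply (k + 1)

theorem integral_piFn : ∫ t : unitInterval, piFn ((t : ℝ) : ℂ) ∂volume = Real.pi := by
  rw [integral_unit (φ := fun t => piFn (t : ℂ))]
  have e : ∀ t : ℝ, piFn (t : ℂ) = ((8 / (4 + t ^ 2) + 8 / (4 + (1 + t) ^ 2) : ℝ) : ℂ) := by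
    intro t; simp [piFn]
  simp only [e]
  rw [intervalIntegral.integral_ofReal]
  congr 1
  have hd : ∀ t ∈ Set.uIcc (0 : ℝ) 1, HasDerivAt (fun t : ℝ => 4 * Real.arctan (t / 2) + 4 * Real.arctan ((1 + t) / 2))
      (8 / (4 + t ^ 2) + 8 / (4 + (1 + t) ^ 2)) t := by
    intro t _
    have h1 := ((hasDerivAt_id' t).div_const 2).arctan.const_mul 4
    have h2 := (((hasDerivAt_id' t).const_add 1).div_const 2).arctan.const_mul 4
    refine (h1.add h2).congr_deriv ?_
    have p1 : (4 : ℝ) + t ^ 2 ≠ 0 := by positivity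
    have p2 : (4 : ℝ) + (1 + t) ^ 2 ≠ 0 := by positivity
    have p3 : (1 : ℝ) + (t / 2) ^ 2 ≠ 0 := by positivity
    have p4 : (1 : ℝ) + ((1 + t) / 2) ^ 2 ≠ 0 := by positivity
    congr 1
    · field_simp; ring
    · field_simp; ring
  rw [intervalIntegral.integral_eq_sub_of_hasDerivAt hd]
  · norm_num
    ring
  · apply Continuous.intervalIntegrable
    have p1 : ∀ t : ℝ, (4 : ℝ) + t ^ 2 ≠ 0 := fun t => by positivity
    have p2 : ∀ t : ℝ, (4 : ℝ) + (1 + t) ^ 2 ≠ 0 := fun t => by positivity
    exact (continuous_const.div (by fun_prop) p1).add (continuous_const.div (by fun_prop) p2)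

theorem ev_piT (hf : f ∈ O) : ev (piT f) = Real.pi * ev f := by
  unfold ev
  have hc : Continuous fun x : Cube => piT f (pt x) := (O_piT hf).1.continuous
  have e0 : ∫ x, piT f (pt x) ∂μ = ∫ x, ∫ t : unitInterval, piT f (pt (update x 0 t)) ∂volume ∂μ := integral_update hc 0
  show ∫ x, piT f (pt x) ∂μ = _
  rw [e0]
  have e1 : ∀ x : Cube, ∀ t : unitInterval, piT f (pt (update x 0 t)) = piFn ((t : ℝ) : ℂ) * f (pt (shC x)) := by
    intro x t
    simp only [piT, sh]
    congr 1
  simp only [e1]
  have e2 : ∀ x : Cube, ∫ t : unitInterval, piFn ((t : ℝ) : ℂ) * f (pt (shC x)) ∂volume = Real.pi * f (pt (shC x)) := by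
    intro x
    rw [integral_mul_const, integral_piFn]
  simp only [e2]
  rw [integral_const_mul]
  congr 1
  have h3 := integral_map (μ := μ) continuous_shC.measurable.aemeasurable
    (f := fun x : Cube => f (pt x)) (hf.1.continuous.aestronglyMeasurable)
  rw [map_shC] at h3
  exact h3.symm

theorem ev_piMul (hf : f ∈ O) (m : ℕ) : ev (piMul m f) = Real.pi ^ m * ev f := by
  induction m with
  | zero => simp [piMul]
  | succ m ih => rw [piMul_succ, ev_piT (O_piMul hf m), ih, pow_succ]; ring

theorem update_shift (z : ℕ → ℂ) (i : ℕ) (t : ℂ) : (fun k => update z (i + 1) t (k + 1)) = update (fun k => z (k + 1)) i t := by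
  funext k
  by_cases h : k = i
  · subst h; simp
  · rw [update_of_ne h, update_of_ne (by omega)]

/-- relations are stable under multiplication by `π` -/
theorem stokes_pi {s : Cube → ℂ} (hs : s ∈ Stokes) : (fun x : Cube => piFn (pt x 0) * s (shC x)) ∈ Stokes := by
  unfold Stokes at hs
  induction hs using Submodule.span_induction with
  | mem h hh =>
    obtain ⟨g, hg, i, rfl⟩ := hh
    have := stokes_mem (O_piT hg) (i + 1)
    convert this using 1
    funext x
    have e : ∀ t, piT g (update (pt x) (i + 1) t) = piFn (pt x 0) * g (update (pt (shC x)) i t) := by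
      intro t
      simp only [piT, sh]
      rw [update_shift, update_of_ne (by omega)]
      rfl
    have e2 : pd (i + 1) (piT g) (pt x) = piFn (pt x 0) * pd i g (pt (shC x)) := by
      unfold pd
      simp only [e]
      rw [deriv_const_mul_field]
      rfl
    rw [e, e, e2]
    ring
  | zero =>
    have := Stokes.zero_mem
    convert this using 1
    funext x; simp
  | add h1 h2 _ _ ih1 ih2 =>
    have := Stokes.add_mem ih1 ih2
    convert this using 1
    funext x; simp; ring
  | smul q h _ ih =>
    have := Stokes.smul_mem q ih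
    convert this using 1
    funext x; simp [Rat.smul_def]; ring

/-- relations are stable under multiplication by algebraic numbers -/
theorem stokes_const {c : ℂ} (hc : IsAlgebraic ℚ c) {s : Cube → ℂ} (hs : s ∈ Stokes) : (fun x : Cube => c * s x) ∈ Stokes := by
  unfold Stokes at hs
  induction hs using Submodule.span_induction with
  | mem h hh =>
    obtain ⟨g, hg, i, rfl⟩ := hh
    have := stokes_mem (O_mul (O_const hc) hg) i
    convert this using 1
    funext x
    have e2 : pd i (fun z => c * g z) (pt x) = c * pd i g (pt x) := by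
      unfold pd
      rw [deriv_const_mul_field]
    rw [e2]
    ring
  | zero =>
    have := Stokes.zero_mem
    convert this using 1
    funext x; simp
  | add h1 h2 _ _ ih1 ih2 =>
    have := Stokes.add_mem ih1 ih2
    convert this using 1
    funext x; simp; ring
  | smul q h _ ih =>
    have := Stokes.smul_mem q ih
    convert this using 1
    funext x; simp [Rat.smul_def]; ring

/-- `ϖ ^ m ⊗` -/
theorem zero_mono {m : ℕ} (h : (fun x => piMul m f (pt x)) ∈ Stokes) (k : ℕ) : (fun x => piMul (m + k) f (pt x)) ∈ Stokes := by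
  induction k with
  | zero => exact h
  | succ k ih =>
    have := stokes_pi ih
    rw [← add_assoc, piMul_succ]
    exact this

theorem piMul_add (m : ℕ) (f g : Fn) : piMul m (fun z => f z + g z) = fun z => piMul m f z + piMul m g z := by
  induction m with
  | zero => rfl
  | succ m ih =>
    rw [piMul_succ, piMul_succ, piMul_succ, ih]
    funext z
    simp only [piT, sh]
    ring

theorem piMul_const (m : ℕ) (c : ℂ) (f : Fn) : piMul m (fun z => c * f z) = fun z => c * piMul m f z := by
  induction m with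
  | zero => rfl
  | succ m ih =>
    rw [piMul_succ, piMul_succ, ih]
    funext z
    simp only [piT, sh]
    ring

theorem Zero.add (hf : Zero f) (hg : Zero g) : Zero fun z => f z + g z := by
  obtain ⟨m, hm⟩ := hf
  obtain ⟨n, hn⟩ := hg
  refine ⟨m + n, ?_⟩
  rw [piMul_add]
  have h1 := zero_mono hm n
  have h2 := zero_mono hn m
  rw [add_comm n m] at h2
  exact Stokes.add_mem h1 h2

theorem Zero.const (hf : Zero f) {c : ℂ} (hc : IsAlgebraic ℚ c) : Zero fun z => c * f z := by
  obtain ⟨m, hm⟩ := hf
  refine ⟨m, ?_⟩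
  rw [piMul_const]
  exact stokes_const hc hm

theorem Zero.of_eq (hf : Zero f) (h : ∀ x : Cube, g (pt x) = f (pt x)) : Zero g := by
  obtain ⟨m, hm⟩ := hf
  refine ⟨m, ?_⟩
  have key : ∀ m, ∀ x : Cube, piMul m g (pt x) = piMul m f (pt x) := by
    intro m
    induction m with
    | zero => exact h
    | succ m ih =>
      intro x
      rw [piMul_succ, piMul_succ]
      simp only [piT, sh]
      congr 1
      exact ih (shC x)
  simpa only [key] using hm

/-- the conjecture for real functions -/
theorem conj_of_real (h : ∀ f ∈ O, IsReal f → ev f = 0 → Zero f) : Conj := by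
  intro f hf h0
  have h1 := h _ (O_reP hf) (isReal_reP f) (by rw [ev_reP hf, h0]; simp)
  have h2 := h _ (O_imP hf) (isReal_imP f) (by rw [ev_imP hf, h0]; simp)
  have h3 := h1.add (h2.const isAlg_I)
  refine h3.of_eq fun x => ?_
  rw [reP_pt, imP_pt, mul_comm Complex.I, Complex.re_add_im]

end Pool.Agent.H39.KP
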