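import Pool.Agent.H39.KP.TwoPi

namespace Pool.Agent.H39.KP

open Function Filter Topology

variable {f g F G : Fn}

/-- polynomials over `ℚ(i)` -/
def PolF (F : Fn) : Prop := ∃ A B : R, ∀ z, F z = MvPolynomial.aeval z A + Complex.I * MvPolynomial.aeval z B

theorem PolF.poly (A : R) : PolF (fun z => (MvPolynomial.aeval z A : ℂ)) := ⟨A, 0, fun z => by simp⟩

theorem PolF.rat (q : ℚ) : PolF (fun _ : ℕ → ℂ => (q : ℂ)) := ⟨MvPolynomial.C q, 0, fun z => by simp⟩

theorem PolF.I : PolF (fun _ : ℕ → ℂ => Complex.I) := ⟨0, 1, fun z => by simp⟩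

theorem PolF.coord (k : ℕ) : PolF (fun z : ℕ → ℂ => z k) := ⟨MvPolynomial.X k, 0, fun z => by simp⟩

theorem PolF.add (hF : PolF F) (hG : PolF G) : PolF (fun z => F z + G z) := by
  obtain ⟨A, B, h1⟩ := hF
  obtain ⟨A', B', h2⟩ := hG
  exact ⟨A + A', B + B', fun z => by simp only [h1, h2, map_add]; ring⟩

theorem PolF.mul (hF : PolF F) (hG : PolF G) : PolF (fun z => F z * G z) := by
  obtain ⟨A, B, h1⟩ := hF
  obtain ⟨A', B', h2⟩ := hG
  refine ⟨A * A' - B * B', A * B' + B * A', fun z => ?_⟩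
  simp only [h1, h2, map_sub, map_add, map_mul]
  linear_combination (MvPolynomial.aeval z B * MvPolynomial.aeval z B' : ℂ) * Complex.I_sq

theorem PolF.neg (hF : PolF F) : PolF (fun z => -F z) := by
  have := (PolF.rat (-1)).mul hF
  simpa using this

theorem PolF.sub (hF : PolF F) (hG : PolF G) : PolF (fun z => F z - G z) := by
  simpa [sub_eq_add_neg] using hF.add hG.neg

theorem PolF.pow (hF : PolF F) (k : ℕ) : PolF (fun z => F z ^ k) := by
  induction k with
  | zero => simpa using PolF.rat 1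
  | succ k ih => simpa only [pow_succ] using ih.mul hF

theorem PolF.sum {ι : Type*} (s : Finset ι) (F : ι → Fn) (h : ∀ i ∈ s, PolF (F i)) : PolF (fun z => ∑ i ∈ s, F i z) := by
  classical
  induction s using Finset.induction_on with
  | empty => simpa using PolF.rat 0
  | insert a s ha ih =>
    simp only [Finset.sum_insert ha]
    exact (h a (Finset.mem_insert_self a s)).add (ih fun i hi => h i (Finset.mem_insert_of_mem hi))

theorem PolF.comp (hF : PolF F) {Φ : (ℕ → ℂ) → ℕ → ℂ} (hΦ : ∀ k, PolF (fun z => Φ z k)) : PolF (fun z => F (Φ z)) := by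
  obtain ⟨A, B, h1⟩ := hF
  have key : ∀ A : R, PolF (fun z => (MvPolynomial.aeval (Φ z) A : ℂ)) := by
    intro A
    induction A using MvPolynomial.induction_on with
    | C a => simpa using PolF.rat a
    | add p q hp hq => simpa using hp.add hq
    | mul_X p i hp => simpa using hp.mul (hΦ i)
  simp only [h1]
  exact (key A).add (PolF.I.mul (key B))

theorem O_poly (A : R) : (fun z => (MvPolynomial.aeval z A : ℂ)) ∈ O := by
  have := O_polyK (MvPolynomial.map (algebraMap ℚ K) A)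
  simpa only [aeval_map_K] using this

theorem PolF.mem_O (hF : PolF F) : F ∈ O := by
  obtain ⟨A, B, h1⟩ := hF
  have : F = fun z => MvPolynomial.aeval z A + Complex.I * MvPolynomial.aeval z B := funext h1
  rw [this]
  exact O_add (O_poly A) (O_mul (O_const isAlg_I) (O_poly B))

/-- rational functions over `ℚ(i)` without poles on the polydisc -/
def RatG (r : Fn) : Prop := ∃ P, PolF P ∧ ∃ Q, PolF Q ∧ (∀ z ∈ D, Q z ≠ 0) ∧ ∀ z, r z = P z / Q z

theorem RatG.mem_O (hF : RatG F) : F ∈ O := by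
  obtain ⟨P, hP, Q, hQ, h0, h⟩ := hF
  have : F = fun z => P z * (Q z)⁻¹ := funext fun z => by rw [h, div_eq_mul_inv]
  rw [this]
  exact O_mul hP.mem_O (O_inv hQ.mem_O h0)

theorem PolF.ratG (hF : PolF F) : RatG F :=
  ⟨F, hF, fun _ => ((1 : ℚ) : ℂ), PolF.rat 1, fun z _ => by simp, fun z => by simp⟩

theorem RatG.mul (hF : RatG F) (hG : RatG G) : RatG (fun z => F z * G z) := by
  obtain ⟨P, hP, Q, hQ, h0, h⟩ := hF
  obtain ⟨P', hP', Q', hQ', h0', h'⟩ := hG
  exact ⟨_, hP.mul hP', _, hQ.mul hQ', fun z hz => mul_ne_zero (h0 z hz) (h0' z hz), fun z => by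
    simp only [h, h', div_mul_div_comm]⟩

theorem RatG.inv (hF : PolF F) (h0 : ∀ z ∈ D, F z ≠ 0) : RatG (fun z => (F z)⁻¹) :=
  ⟨fun _ => ((1 : ℚ) : ℂ), PolF.rat 1, F, hF, h0, fun z => by simp⟩

theorem RatG.div (hF : RatG F) (hG : PolF G) (h0 : ∀ z ∈ D, G z ≠ 0) : RatG (fun z => F z / G z) := by
  simpa [div_eq_mul_inv] using hF.mul (RatG.inv hG h0)

/-- the sum; the values outside of the polydisc can be changed -/
theorem RatG.add (hF : RatG F) (hG : RatG G) : ∃ H, RatG H ∧ ∀ z ∈ D, H z = F z + G z := by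
  obtain ⟨P, hP, Q, hQ, h0, h⟩ := hF
  obtain ⟨P', hP', Q', hQ', h0', h'⟩ := hG
  refine ⟨fun z => (P z * Q' z + Q z * P' z) / (Q z * Q' z), ⟨_, (hP.mul hQ').add (hQ.mul hP'), _, hQ.mul hQ', fun z hz => mul_ne_zero (h0 z hz) (h0' z hz), fun z => rfl⟩,
    fun z hz => ?_⟩
  rw [h, h', div_add_div _ _ (h0 z hz) (h0' z hz)]

theorem RatG.comp (hF : RatG F) {Φ : (ℕ → ℂ) → ℕ → ℂ} (hΦ : ∀ k, PolF (fun z => Φ z k)) (hD : ∀ z ∈ D, Φ z ∈ D) :
    RatG (fun z => F (Φ z)) := by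
  obtain ⟨P, hP, Q, hQ, h0, h⟩ := hF
  exact ⟨_, hP.comp hΦ, _, hQ.comp hΦ, fun z hz => h0 _ (hD z hz), fun z => h _⟩

theorem piFn_ratG : ∃ H, RatG H ∧ ∀ z ∈ D, H z = piFn (z 0) := by
  have h4 : PolF (fun _ : ℕ → ℂ => (4 : ℂ)) := by simpa using PolF.rat 4
  have h8 : PolF (fun _ : ℕ → ℂ => (8 : ℂ)) := by simpa using PolF.rat 8
  have h1 : PolF (fun _ : ℕ → ℂ => (1 : ℂ)) := by simpa using PolF.rat 1
  exact RatG.add (h8.ratG.div (h4.add ((PolF.coord 0).pow 2)) fun z hz => four_ne (hz 0))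
    (h8.ratG.div (h4.add ((h1.add (PolF.coord 0)).pow 2)) fun z hz => four_ne' (hz 0))

theorem RatG.piT (hF : RatG F) : ∃ H, RatG H ∧ ∀ z ∈ D, H z = KP.piT F z := by
  obtain ⟨H, hH, h⟩ := piFn_ratG
  refine ⟨_, hH.mul (hF.comp (Φ := fun z i => z (i + 1)) (fun k => PolF.coord (k + 1)) fun z hz i => hz (i + 1)), fun z hz => ?_⟩
  simp only [KP.piT, sh, h z hz]

theorem Eqv.piT (h : Eqv f g) : Eqv (piT f) (piT g) := by
  have := stokes_pi h
  unfold Eqv
  convert this using 1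
  funext x
  simp only [KP.piT, sh]
  rw [← mul_sub]
  rfl

theorem Eqv.piMul (h : Eqv f g) (m : ℕ) : Eqv (piMul m f) (piMul m g) := by
  induction m with
  | zero => exact h
  | succ m ih => exact ih.piT

/-- `π^m f` is a rational function. -/
def Rep (f : Fn) : Prop := ∃ m : ℕ, ∃ r, RatG r ∧ Eqv (piMul m f) r

theorem Rep.of_eqv (h : Eqv f g) (hg : Rep g) : Rep f := by
  obtain ⟨m, r, hr, he⟩ := hg
  exact ⟨m, r, hr, (h.piMul m).trans he⟩

theorem Rep.of_eq (h : ∀ x, f (pt x) = g (pt x)) (hg : Rep g) : Rep f := Rep.of_eqv (Eqv.of_eq h) hg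

theorem rep_succ {m : ℕ} {r : Fn} (hr : RatG r) (h : Eqv (piMul m f) r) (k : ℕ) : ∃ r', RatG r' ∧ Eqv (piMul (m + k) f) r' := by
  induction k with
  | zero => exact ⟨r, hr, h⟩
  | succ k ih =>
    obtain ⟨r', hr', h'⟩ := ih
    obtain ⟨H, hH, h2⟩ := hr'.piT
    exact ⟨H, hH, (h'.piT).trans (Eqv.of_eq fun x => (h2 _ (pt_mem_D x)).symm)⟩

theorem Rep.ratG (h : RatG f) : Rep f := ⟨0, f, h, Eqv.refl _⟩

theorem Rep.add (hf : Rep f) (hg : Rep g) : Rep fun z => f z + g z := by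
  obtain ⟨m, r, hr, h1⟩ := hf
  obtain ⟨m', r', hr', h2⟩ := hg
  obtain ⟨s, hs, h3⟩ := rep_succ hr h1 m'
  obtain ⟨s', hs', h4⟩ := rep_succ hr' h2 m
  obtain ⟨H, hH, h5⟩ := hs.add hs'
  refine ⟨m + m', H, hH, ?_⟩
  rw [piMul_add]
  rw [add_comm m' m] at h4
  exact (h3.add h4).trans (Eqv.of_eq fun x => (h5 _ (pt_mem_D x)).symm)

theorem Eqv.const {c : ℂ} (hc : IsAlgebraic ℚ c) (h : Eqv f g) : Eqv (fun z => c * f z) fun z => c * g z := by
  have := stokes_const hc h
  unfold Eqv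
  convert this using 1
  funext x
  ring

/-- constants from `ℚ(i)` -/
theorem Rep.const {c : ℂ} (hc : PolF (fun _ : ℕ → ℂ => c)) (hf : Rep f) : Rep fun z => c * f z := by
  obtain ⟨m, r, hr, h1⟩ := hf
  have hca : IsAlgebraic ℚ c := by
    obtain ⟨A, B, h⟩ := hc
    have h0 := h fun _ => 0
    have hA : (MvPolynomial.aeval (fun _ => (0 : ℂ)) A : ℂ) = ((MvPolynomial.eval (fun _ => (0 : ℚ)) A : ℚ) : ℂ) := by
      have : (fun _ : ℕ => (0 : ℂ)) = algebraMap ℚ ℂ ∘ fun _ => (0 : ℚ) := by funext k; simp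
      rw [this, MvPolynomial.aeval_algebraMap_apply, MvPolynomial.aeval_eq_eval]
      simp
    have hB : (MvPolynomial.aeval (fun _ => (0 : ℂ)) B : ℂ) = ((MvPolynomial.eval (fun _ => (0 : ℚ)) B : ℚ) : ℂ) := by
      have : (fun _ : ℕ => (0 : ℂ)) = algebraMap ℚ ℂ ∘ fun _ => (0 : ℚ) := by funext k; simp
      rw [this, MvPolynomial.aeval_algebraMap_apply, MvPolynomial.aeval_eq_eval]
      simp
    simp only [hA, hB] at h0
    rw [h0]
    have h1 := isAlgebraic_algebraMap (R := ℚ) (A := ℂ) (MvPolynomial.eval (fun _ => (0 : ℚ)) A)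
    have h2 := isAlgebraic_algebraMap (R := ℚ) (A := ℂ) (MvPolynomial.eval (fun _ => (0 : ℚ)) B)
    simp only [eq_ratCast] at h1 h2
    exact h1.add (isAlg_I.mul h2)
  refine ⟨m, _, hc.ratG.mul hr, ?_⟩
  rw [piMul_const]
  exact h1.const hca

theorem Rep.sum {ι : Type*} (s : Finset ι) (F : ι → Fn) (h : ∀ i ∈ s, Rep (F i)) : Rep fun z => ∑ i ∈ s, F i z := by
  classical
  induction s using Finset.induction_on with
  | empty => simpa using Rep.ratG (PolF.rat 0).ratG
  | insert a s ha ih =>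
    simp only [Finset.sum_insert ha]
    exact (h a (Finset.mem_insert_self a s)).add (ih fun i hi => h i (Finset.mem_insert_of_mem hi))

theorem piMul_piMul (m : ℕ) (f : Fn) : piMul m (piMul 1 f) = piMul (m + 1) f := by
  induction m with
  | zero => rfl
  | succ m ih => rw [piMul_succ, ih]; rfl

/-- removal of `2πi` -/
theorem Rep.of_cFn (hf : f ∈ O) {i : ℕ} (hi : Fresh i f) (h : Rep fun z => cFn (z i) * f z) : Rep f := by
  obtain ⟨m, r, hr, h1⟩ := h
  have h2I : IsAlgebraic ℚ (2 * Complex.I) := by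
    have := isAlgebraic_algebraMap (R := ℚ) (A := ℂ) 2
    simp only [map_ofNat] at this
    exact this.mul isAlg_I
  have h3 : Eqv (fun z => cFn (z i) * f z) fun z => 2 * Complex.I * piMul 1 f z :=
    (eqv_cFn hf hi).trans ((piFn_fresh hf hi).const h2I)
  have h4 := (h3.piMul m).symm.trans h1
  rw [piMul_const, piMul_piMul] at h4
  have h5 := h4.const (c := -Complex.I / 2) (by
    have := isAlgebraic_algebraMap (R := ℚ) (A := ℂ) 2
    simp only [map_ofNat] at this
    exact isAlg_I.neg.mul this.inv)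
  refine ⟨m + 1, fun z => -Complex.I / 2 * r z, ?_, ?_⟩
  · have hc : PolF (fun _ : ℕ → ℂ => -Complex.I / 2) := by
      have := PolF.I.mul (PolF.rat (-1 / 2))
      convert this using 1
      funext z
      push_cast
      ring
    exact hc.ratG.mul hr
  · refine (Eqv.of_eq fun x => ?_).trans h5
    linear_combination (piMul (m + 1) f (pt x)) * Complex.I_sq

end Pool.Agent.H39.KP
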