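import Pool.Agent.H39.KP.Level1
import Pool.Agent.H39.KP.Moves

namespace Pool.Agent.H39.KP

open Function Filter Topology

variable {f g F G : Fn}

/-- `u` is a rational function `A / C` over `ℚ`, where the polynomial `C` has no zeros on the closed unit polydisc. -/
def RatQ (u : Fn) : Prop := ∃ A C : MvPolynomial ℕ ℚ, (∀ z : ℕ → ℂ, (∀ i, ‖z i‖ ≤ 1) → (MvPolynomial.aeval z C : ℂ) ≠ 0) ∧
  ∀ z : ℕ → ℂ, u z = MvPolynomial.aeval z A / MvPolynomial.aeval z C

theorem aeval_star (z : ℕ → ℂ) (A : R) : (MvPolynomial.aeval (fun i => star (z i)) A : ℂ) = star (MvPolynomial.aeval z A) := by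
  induction A using MvPolynomial.induction_on with
  | C a => simp
  | add p q hp hq => rw [map_add, map_add, hp, hq, star_add]
  | mul_X p i hp => rw [map_mul, map_mul, hp, MvPolynomial.aeval_X, MvPolynomial.aeval_X, star_mul']

/-- real and imaginary part of a rational function over `ℚ(i)` -/
theorem RatG.split (h : RatG F) : ∃ u v, RatQ u ∧ RatQ v ∧ (∀ z ∈ D, F z = u z + Complex.I * v z) ∧
    ∀ x : Cube, (u (pt x)).im = 0 ∧ (v (pt x)).im = 0 := by
  obtain ⟨P, ⟨A, B, hP⟩, Q, ⟨C, E, hQ⟩, h0, hF⟩ := h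
  have hne : ∀ z ∈ D, (MvPolynomial.aeval z (C ^ 2 + E ^ 2 : R) : ℂ) ≠ 0 := by
    intro z hz
    have h1 := h0 z hz
    have h2 := h0 _ (star_mem_D hz)
    rw [hQ] at h1 h2
    rw [aeval_star, aeval_star] at h2
    have h3 : (MvPolynomial.aeval z C : ℂ) - Complex.I * MvPolynomial.aeval z E ≠ 0 := by
      intro h4
      apply h2
      have h5 := congrArg star h4
      rw [star_sub, star_mul', star_zero] at h5
      simp only [Complex.star_def, Complex.conj_I] at h5 ⊢
      linear_combination h5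
    have h4 : (MvPolynomial.aeval z (C ^ 2 + E ^ 2 : R) : ℂ) = (MvPolynomial.aeval z C + Complex.I * MvPolynomial.aeval z E)
        * (MvPolynomial.aeval z C - Complex.I * MvPolynomial.aeval z E) := by
      rw [map_add, map_pow, map_pow]
      linear_combination (MvPolynomial.aeval z E : ℂ) ^ 2 * Complex.I_sq
    rw [h4]
    exact mul_ne_zero h1 h3
  have hreal : ∀ (A C : R) (x : Cube), ((MvPolynomial.aeval (pt x) A / MvPolynomial.aeval (pt x) C : ℂ)).im = 0 := by
    intro A C x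
    have h1 : ∀ A : R, ∃ a : ℝ, (MvPolynomial.aeval (pt x) A : ℂ) = a := by
      intro A
      refine ⟨(MvPolynomial.aeval (pt x) A : ℂ).re, ?_⟩
      have h2 := aeval_star (pt x) A
      rw [pt_star] at h2
      exact (Complex.conj_eq_iff_re.1 h2.symm).symm
    obtain ⟨a, ha⟩ := h1 A
    obtain ⟨c, hc⟩ := h1 C
    rw [ha, hc, ← Complex.ofReal_div, Complex.ofReal_im]
  refine ⟨fun z => MvPolynomial.aeval z (A * C + B * E) / MvPolynomial.aeval z (C ^ 2 + E ^ 2),
    fun z => MvPolynomial.aeval z (B * C - A * E) / MvPolynomial.aeval z (C ^ 2 + E ^ 2), ⟨_, _, hne, fun _ => rfl⟩,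
    ⟨_, _, hne, fun _ => rfl⟩, fun z hz => ?_, fun x => ⟨hreal _ _ x, hreal _ _ x⟩⟩
  have h1 := h0 z hz
  have h2 := hne z hz
  rw [hF, hP, hQ] at *
  rw [div_eq_iff h1]
  simp only [map_add, map_sub, map_mul, map_pow] at h2 ⊢
  field_simp
  linear_combination (-(MvPolynomial.aeval z A * MvPolynomial.aeval z E ^ 2 + Complex.I * MvPolynomial.aeval z B * MvPolynomial.aeval z E ^ 2
    ) + (MvPolynomial.aeval z A * MvPolynomial.aeval z E ^ 2 + Complex.I * MvPolynomial.aeval z B * MvPolynomial.aeval z E ^ 2) - (MvPolynomial.aeval z B * MvPolynomial.aeval z C * MvPolynomial.aeval z E - MvPolynomial.aeval z A * MvPolynomial.aeval z E ^ 2 : ℂ)) * Complex.I_sq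

theorem ratQ_im (h : RatQ f) (x : Cube) : (f (pt x)).im = 0 := by
  obtain ⟨A, C, -, h1⟩ := h
  have h2 : ∀ A : R, ∃ a : ℝ, (MvPolynomial.aeval (pt x) A : ℂ) = a := by
    intro A
    refine ⟨(MvPolynomial.aeval (pt x) A : ℂ).re, ?_⟩
    have h2 := aeval_star (pt x) A
    rw [pt_star] at h2
    exact (Complex.conj_eq_iff_re.1 h2.symm).symm
  obtain ⟨a, ha⟩ := h2 A
  obtain ⟨c, hc⟩ := h2 C
  rw [h1, ha, hc, ← Complex.ofReal_div, Complex.ofReal_im]

theorem RatQ.mem_O (h : RatQ f) : f ∈ O := by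
  obtain ⟨A, C, h0, h1⟩ := h
  have : f = fun z => MvPolynomial.aeval z A * (MvPolynomial.aeval z C : ℂ)⁻¹ := funext fun z => by rw [h1, div_eq_mul_inv]
  rw [this]
  exact O_mul (O_poly A) (O_inv (O_poly C) h0)

/-- every formal period is rational, up to powers of `π` -/
theorem exists_ratQ (hf : f ∈ O) : ∃ m : ℕ, ∃ u v, RatQ u ∧ RatQ v ∧ Eqv (piMul m f) fun z => u z + Complex.I * v z := by
  obtain ⟨m, r, hr, h⟩ := level1 hf
  obtain ⟨u, v, hu, hv, h1, -⟩ := hr.split
  exact ⟨m, u, v, hu, hv, h.trans (Eqv.of_eq fun x => h1 _ (pt_mem_D x))⟩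

theorem IsReal.piMul (hf : IsReal f) (m : ℕ) : IsReal (piMul m f) := by
  induction m with
  | zero => exact hf
  | succ m ih =>
    intro x
    rw [piMul_succ]
    obtain ⟨h1, h2⟩ := piFn_pos (x 0)
    have h4 := ih (shC x)
    show (piFn ((x 0 : ℝ) : ℂ) * KP.piMul m f (pt (shC x))).im = 0
    rw [Complex.mul_im, h2, h4]
    simp

theorem exists_ratQ_real (hf : f ∈ O) (hr : IsReal f) : ∃ m : ℕ, ∃ u, RatQ u ∧ Eqv (piMul m f) u := by
  obtain ⟨m, r, hrat, h⟩ := level1 hf
  obtain ⟨u, v, hu, hv, h1, h2⟩ := hrat.split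
  refine ⟨m, u, hu, ?_⟩
  have h3 := jac_le (re_mem_jac h)
  unfold Eqv
  convert h3 using 1
  funext x
  have h4 := hr.piMul m x
  have h5 := (h2 x).1
  have h6 := (h2 x).2
  rw [h1 _ (pt_mem_D x)]
  apply Complex.ext
  · simp [h5, h6]
  · simp [h4, h5, h6]

/-- **the conjecture for rational functions over `ℚ`** -/
theorem conj_iff_ratQ : Conj ↔ ∀ u, RatQ u → ev u = 0 → Zero u := by
  constructor
  · intro h u hu h0
    exact h u hu.mem_O h0
  · intro h
    refine conj_of_real fun f hf hr h0 => ?_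
    obtain ⟨m, u, hu, he⟩ := exists_ratQ_real hf hr
    have h1 : ev u = 0 := by
      rw [← he.ev_eq (O_piMul hf m).1 hu.mem_O.1, ev_piMul hf, h0, mul_zero]
    obtain ⟨k, hk⟩ := h u hu h1
    refine ⟨m + k, ?_⟩
    have h2 := he.piMul k
    have e : ∀ k : ℕ, KP.piMul k (KP.piMul m f) = KP.piMul (m + k) f := by
      intro k
      induction k with
      | zero => rfl
      | succ k ih => rw [piMul_succ, ih]; rfl
    rw [e] at h2
    have h3 := Stokes.add_mem h2 hk
    convert h3 using 1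
    funext x
    simp

theorem RatQ.add_rat (h : RatQ f) (q : ℚ) : ∃ g, RatQ g ∧ ∀ x : Cube, g (pt x) = f (pt x) + (q : ℂ) := by
  obtain ⟨A, C, h0, h1⟩ := h
  refine ⟨fun z => MvPolynomial.aeval z (A + MvPolynomial.C q * C) / MvPolynomial.aeval z C, ⟨_, C, h0, fun z => rfl⟩, fun x => ?_⟩
  have h2 := h0 _ (pt_mem_D x)
  show (MvPolynomial.aeval (pt x) (A + MvPolynomial.C q * C) / MvPolynomial.aeval (pt x) C : ℂ) = _
  rw [h1]
  simp only [map_add, map_mul, MvPolynomial.aeval_C, eq_ratCast]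
  field_simp

/-- the conjecture for positive rational functions over `ℚ` and moves -/
theorem conj_iff_ratQ_moves : Conj ↔ ∀ u v, RatQ u → RatQ v → Pos u → Pos v → ev u = ev v →
    ∃ m : ℕ, Equidec (piMul m u) (piMul m v) := by
  constructor
  · intro h u v hu hv hup hvp he
    exact conj_iff_equidec.1 h u hu.mem_O v hv.mem_O hup hvp he
  · intro h
    rw [conj_iff_ratQ]
    intro u hu h0
    obtain ⟨C, hC, hb⟩ := exists_bound hu.mem_O
    obtain ⟨c, hc⟩ := exists_rat_gt C
    have hc0 : 0 < c := by exact_mod_cast hC.trans hc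
    obtain ⟨g, hg, hgx⟩ := hu.add_rat c
    have hgp : Pos g := fun x => by
      rw [hgx, Complex.add_re, Complex.add_im, re_rat, im_rat, ratQ_im hu x]
      have := (abs_le.1 ((Complex.abs_re_le_norm _).trans (hb x))).1
      exact ⟨by linarith, by simp⟩
    have hconst : RatQ fun _ => (c : ℂ) := ⟨MvPolynomial.C c, 1, fun z _ => by simp, fun z => by simp⟩
    have hev : ev g = ev fun _ => (c : ℂ) := by
      have h3 : ev g = ev fun z => u z + (c : ℂ) := by
        unfold ev
        simp only [hgx]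
      rw [h3, ev_add hu.mem_O (O_rat c), h0, zero_add]
    obtain ⟨m, hm⟩ := h g _ hg hconst hgp (pos_rat hc0) hev
    have h4 := hm.eqv
    have h5 : Eqv g fun z => u z + (c : ℂ) := Eqv.of_eq hgx
    have h6 := (h5.piMul m).symm.trans h4
    refine ⟨m, ?_⟩
    unfold Eqv at h6
    rw [piMul_add] at h6
    convert h6 using 1
    funext x
    ring

end Pool.Agent.H39.KP
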