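import Pool.Agent.H39.KP.Osc

namespace Pool.Agent.H39.KP

open Function MeasureTheory Filter Topology

variable {f g : Fn}

theorem HoloN.root {n : ℕ} (hf : HoloN n f) (h0 : ∀ z ∈ D, 0 < (f z).re) (a : ℂ) : HoloN n fun z => f z ^ a := by
  refine ⟨fun z w h => by simp only [hf.1 z w h], fun x hx => ?_⟩
  have h1 := (hf.2 x hx)
  have h2 : ContinuousAt (fun y => f (ext n y)) x := h1.self_of_nhds.continuousAt
  have h3 : ∀ᶠ y in 𝓝 x, 0 < (f (ext n y)).re :=
    (Complex.continuous_re.continuousAt.comp h2).eventually_const_lt (h0 _ (ext_mem hx))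
  filter_upwards [h1, h3] with y h1 h2
  exact h1.cpow_const (Or.inl h2)

theorem Algc.root {m : ℕ} (hm : 0 < m) (hf : Algc f) : Algc fun z => f z ^ ((m : ℂ)⁻¹) := by
  rw [algc_iff] at *
  refine IsAlgebraic.of_pow hm (r := fun x : Cube => f (pt x) ^ ((m : ℂ)⁻¹)) ?_
  convert hf using 1
  funext x
  simp only [Pi.pow_apply]
  exact Complex.cpow_nat_inv_pow _ hm.ne'

theorem O_root {m : ℕ} (hm : 0 < m) (hf : f ∈ O) (h0 : ∀ z ∈ D, 0 < (f z).re) : (fun z => f z ^ ((m : ℂ)⁻¹)) ∈ O := by
  refine ⟨?_, hf.2.root hm⟩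
  obtain ⟨n, hn⟩ := holo_iff.1 hf.1
  exact holo_iff.2 ⟨n, hn.root h0 _⟩

/-- real part -/
noncomputable def cj (f : Fn) : Fn := fun z => star (f fun i => star (z i))

theorem star_mem_D {z : ℕ → ℂ} (hz : z ∈ D) : (fun i => star (z i)) ∈ D := fun i => by
  rw [norm_star]; exact hz i

theorem pt_star (x : Cube) : (fun i => star (pt x i)) = pt x := by
  funext i
  simp [pt]

theorem cj_pt (f : Fn) (x : Cube) : cj f (pt x) = star (f (pt x)) := by
  simp only [cj, pt_star]

theorem HoloN.cj {n : ℕ} (hf : HoloN n f) : HoloN n (cj f) := by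
  refine ⟨fun z w h => ?_, fun x hx => ?_⟩
  · unfold KP.cj
    rw [hf.1 _ (fun i => star (w i)) (fun i hi => by rw [h i hi])]
  · have e : (fun y : Fin n → ℂ => KP.cj f (ext n y)) = star ∘ (fun y => f (ext n y)) ∘ star := by
      funext y
      simp only [KP.cj, comp_apply]
      congr 2
      funext i
      by_cases h : i < n
      · simp [ext, h]
      · simp [ext, h]
    rw [e]
    have hx' : star x ∈ Metric.closedBall (0 : Fin n → ℂ) 1 := by
      rw [mem_closedBall_zero_iff] at *; rwa [norm_star]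
    have h1 := hf.2 _ hx'
    have h2 : ∀ᶠ y in 𝓝 x, DifferentiableAt ℂ (fun y => f (ext n y)) (star y) :=
      (continuous_star.continuousAt (x := x)).eventually h1
    filter_upwards [h2] with y hy
    have := hy.star_star
    rwa [star_star] at this

theorem Algc.cj (hf : Algc f) : Algc (cj f) := by
  obtain ⟨p, hp, h⟩ := hf
  refine ⟨p, hp, fun x => ?_⟩
  rw [cj_pt]
  have h1 := congrArg (starRingEnd ℂ) (h x)
  rw [map_zero, Polynomial.hom_eval₂] at h1
  have hh : (starRingEnd ℂ).comp (MvPolynomial.aeval (pt x) : R →ₐ[ℚ] ℂ).toRingHom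
      = (MvPolynomial.aeval (pt x) : R →ₐ[ℚ] ℂ).toRingHom := by
    apply MvPolynomial.ringHom_ext
    · intro r; simp
    · intro k; simp [pt]
  rw [hh] at h1
  exact h1

theorem O_cj (hf : f ∈ O) : cj f ∈ O := by
  refine ⟨?_, hf.2.cj⟩
  obtain ⟨n, hn⟩ := holo_iff.1 hf.1
  exact holo_iff.2 ⟨n, hn.cj⟩

/-- the real part and the imaginary part -/
noncomputable def reP (f : Fn) : Fn := fun z => ((1 / 2 : ℚ) : ℂ) * (f z + cj f z)

noncomputable def imP (f : Fn) : Fn := fun z => ((-1 / 2 : ℚ) : ℂ) * (Complex.I * (f z - cj f z))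

theorem isAlg_I : IsAlgebraic ℚ Complex.I := by
  refine ⟨Polynomial.X ^ 2 + 1, ?_, by simp⟩
  intro h
  have := congrArg (fun p : Polynomial ℚ => p.coeff 2) h
  simp [Polynomial.coeff_one] at this

theorem O_reP (hf : f ∈ O) : reP f ∈ O := O_mul (O_rat _) (O_add hf (O_cj hf))

theorem O_imP (hf : f ∈ O) : imP f ∈ O := O_mul (O_rat _) (O_mul (O_const isAlg_I) (O_sub hf (O_cj hf)))

theorem reP_pt (f : Fn) (x : Cube) : reP f (pt x) = ((f (pt x)).re : ℂ) := by
  simp only [reP, cj_pt]
  apply Complex.ext <;> simp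
  ring

theorem imP_pt (f : Fn) (x : Cube) : imP f (pt x) = ((f (pt x)).im : ℂ) := by
  simp only [imP, cj_pt]
  apply Complex.ext <;> simp
  ring

theorem isReal_reP (f : Fn) : IsReal (reP f) := fun x => by rw [reP_pt]; simp

theorem isReal_imP (f : Fn) : IsReal (imP f) := fun x => by rw [imP_pt]; simp

/-- evaluation of real functions -/
theorem ev_im (hf : IsReal f) : (ev f).im = 0 := by
  unfold ev
  have h : (fun x => f (pt x)) = fun x => (((f (pt x)).re : ℝ) : ℂ) := by
    funext x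
    apply Complex.ext <;> simp [hf x]
  rw [h, integral_complex_ofReal, Complex.ofReal_im]

theorem ev_reP (hf : f ∈ O) : ev (reP f) = ((ev f).re : ℂ) := by
  unfold ev
  simp only [reP_pt]
  rw [integral_complex_ofReal]
  congr 1
  exact integral_re (integrable_of_continuous hf.1.continuous)

theorem ev_imP (hf : f ∈ O) : ev (imP f) = ((ev f).im : ℂ) := by
  unfold ev
  simp only [imP_pt]
  rw [integral_complex_ofReal]
  congr 1
  exact integral_im (integrable_of_continuous hf.1.continuous)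

end Pool.Agent.H39.KP
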