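import Pool.Agent.H39.KP.Level2b

namespace Pool.Agent.H39.KP

open Function Filter Topology Polynomial

variable {f g F G : Fn}

/-- the polynomial over `K` of a polynomial over `ℚ` -/
noncomputable def toK (q : R[X]) : RK[X] := q.map (MvPolynomial.map (algebraMap ℚ K))

theorem exists_good_polyQ {n : ℕ} (hd : Dep n f) (hf : Algc f) :
    ∃ q : R[X], toK q ≠ 0 ∧ (∀ k, Vr n ((toK q).coeff k)) ∧ ∀ x : Cube, ev2 (toK q) (pt x) (f (pt x)) = 0 := by
  obtain ⟨p, hp, h⟩ := hf
  obtain ⟨m, hm⟩ : ∃ m, p.coeff m ≠ 0 := by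
    by_contra h
    push Not at h
    exact hp (Polynomial.ext h)
  have hinf : (Set.Icc (0 : ℚ) 1).Infinite := Set.Icc_infinite (by norm_num)
  obtain ⟨y, hy, hy2⟩ : ∃ y : ℕ → ℚ, (∀ k, y k ∈ Set.Icc (0 : ℚ) 1) ∧ MvPolynomial.eval y (p.coeff m) ≠ 0 := by
    by_contra h
    push Not at h
    apply hm
    apply MvPolynomial.funext_set (fun _ => Set.Icc (0 : ℚ) 1) (fun _ => hinf)
    intro y hy
    rw [map_zero]
    exact h y fun k => hy k (Set.mem_univ k)
  set spQ : R →ₐ[ℚ] R := MvPolynomial.aeval fun k => if k < n then MvPolynomial.X k else MvPolynomial.C (y k) with hspQ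
  have hcomm : ∀ a : R, MvPolynomial.map (algebraMap ℚ K) (spQ a) = sp n y (MvPolynomial.map (algebraMap ℚ K) a) := by
    intro a
    have : (MvPolynomial.map (algebraMap ℚ K)).comp spQ.toRingHom = (sp n y).toRingHom.comp (MvPolynomial.map (algebraMap ℚ K)) := by
      apply MvPolynomial.ringHom_ext
      · intro r
        simp [hspQ, sp]
      · intro k
        simp only [hspQ, sp, RingHom.comp_apply, AlgHom.toRingHom_eq_coe, RingHom.coe_coe, MvPolynomial.aeval_X, MvPolynomial.map_X]
        split_ifs <;> simp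
    exact congrArg (fun F : R →+* RK => F a) this
  set p1 : RK[X] := p.map (MvPolynomial.map (algebraMap ℚ K)) with hp1
  have hq : toK (p.map spQ.toRingHom) = p1.map (sp n y).toRingHom := by
    unfold toK
    rw [hp1, Polynomial.map_map, Polynomial.map_map]
    congr 1
    exact RingHom.ext hcomm
  have hev : ∀ z w, ev2 p1 z w = eval₂ (MvPolynomial.aeval z : R →ₐ[ℚ] ℂ).toRingHom w p := by
    intro z w
    rw [ev2, hp1, Polynomial.eval₂_map]
    congr 1
    refine RingHom.ext fun q => ?_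
    exact aeval_map_K z q
  refine ⟨p.map spQ.toRingHom, ?_, fun k => ?_, fun x => ?_⟩
  · rw [hq]
    intro h0
    apply hy2
    have h1 := congrArg (fun q : RK[X] => MvPolynomial.aeval (fun k => ((y k : ℚ) : ℂ)) (q.coeff m)) h0
    simp only [Polynomial.coeff_map, Polynomial.coeff_zero, map_zero, hp1] at h1
    have h2 : MvPolynomial.aeval (fun k => ((y k : ℚ) : ℂ)) (sp n y (MvPolynomial.map (algebraMap ℚ K) (p.coeff m))) = 0 := h1
    rw [aeval_sp, aeval_map_K] at h2
    have h3 : (fun k => if k < n then ((y k : ℚ) : ℂ) else ((y k : ℚ) : ℂ)) = algebraMap ℚ ℂ ∘ y := by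
      funext k; simp
    rw [h3, MvPolynomial.aeval_algebraMap_apply] at h2
    have h4 := (map_eq_zero (algebraMap ℚ ℂ)).1 h2
    rwa [MvPolynomial.aeval_eq_eval] at h4
  · rw [hq, Polynomial.coeff_map]
    exact Vr_sp n y _
  · rw [hq]
    have hx : ∀ k, ∃ t : unitInterval, ((t : ℝ) : ℂ) = if k < n then pt x k else ((y k : ℚ) : ℂ) := by
      intro k
      by_cases hk : k < n
      · exact ⟨x k, by simp [hk, pt]⟩
      · have h1 := hy k
        refine ⟨⟨(y k : ℝ), by exact_mod_cast h1.1, by exact_mod_cast h1.2⟩, ?_⟩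
        simp [hk]
    choose t ht using hx
    have h5 := h t
    rw [← hev] at h5
    have h6 : pt t = fun k => if k < n then pt x k else ((y k : ℚ) : ℂ) := by funext k; exact ht k
    have h7 : f (pt t) = f (pt x) := hd _ _ fun k hk => by rw [h6]; simp [hk]
    rw [h7] at h5
    rw [ev2, Polynomial.eval₂_map]
    rw [ev2] at h5
    convert h5 using 2
    refine RingHom.ext fun q => ?_
    have := aeval_sp n y (pt x) q
    rw [← h6] at this
    exact this

theorem exists_sep_polyQ {n : ℕ} (hd : Dep n f) (hf : Algc f) :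
    ∃ q : R[X], (∀ k, Vr n ((toK q).coeff k)) ∧ (∀ x : Cube, ev2 (toK q) (pt x) (f (pt x)) = 0) ∧
      ∃ x : Cube, ev2 (toK q).derivative (pt x) (f (pt x)) ≠ 0 := by
  classical
  have hex : ∃ d, ∃ q : R[X], (toK q).natDegree = d ∧ toK q ≠ 0 ∧ (∀ k, Vr n ((toK q).coeff k)) ∧
      ∀ x : Cube, ev2 (toK q) (pt x) (f (pt x)) = 0 := by
    obtain ⟨q, h1, h2, h3⟩ := exists_good_polyQ hd hf
    exact ⟨_, q, rfl, h1, h2, h3⟩
  obtain ⟨q, hdeg, hp0, hp, h⟩ := Nat.find_spec hex
  refine ⟨q, hp, h, ?_⟩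
  by_contra hcon
  push Not at hcon
  have hpos : 0 < (toK q).natDegree := by
    by_contra h0
    have h1 : (toK q).natDegree = 0 := by omega
    rw [Polynomial.natDegree_eq_zero] at h1
    obtain ⟨a, ha⟩ := h1
    apply hp0
    rw [← ha] at h ⊢
    rw [polyK_zero (q := a) fun x => by simpa [ev2] using h x]
    simp
  have hd0 : (toK q).derivative ≠ 0 := by
    intro h0
    have := Polynomial.derivative_eq_zero.1 h0
    omega
  have hlt : (toK q).derivative.natDegree < (toK q).natDegree := Polynomial.natDegree_derivative_lt hpos.ne'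
  rw [hdeg] at hlt
  have hder : toK q.derivative = (toK q).derivative := by
    unfold toK
    rw [Polynomial.derivative_map]
  refine Nat.find_min hex hlt ⟨q.derivative, by rw [hder], by rw [hder]; exact hd0, fun k => ?_, by rw [hder]; exact hcon⟩
  rw [hder, Polynomial.coeff_derivative]
  intro Φ Ψ hΦ
  rw [map_mul, map_mul, hp (k + 1) Φ Ψ hΦ]
  simp

theorem ev2_toK (q : R[X]) (z : ℕ → ℂ) (w : ℂ) :
    ev2 (toK q) z w = pw (fun k z => MvPolynomial.aeval z (q.coeff k)) (q.natDegree + 1) z w := by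
  unfold ev2 pw toK
  rw [Polynomial.eval₂_map, Polynomial.eval₂_eq_sum_range]
  apply Finset.sum_congr rfl
  intro k _
  congr 1
  exact aeval_map_K z _

theorem ev2_toK' (q : R[X]) (z : ℕ → ℂ) (w : ℂ) :
    ev2 (toK q).derivative z w = pw' (fun k z => MvPolynomial.aeval z (q.coeff k)) (q.natDegree + 1) z w := by
  have h1 := hasDerivAt_pw (fun k z => MvPolynomial.aeval z (q.coeff k)) (q.natDegree + 1) z w
  have h2 : HasDerivAt (fun w => ev2 (toK q) z w) (ev2 (toK q).derivative z w) w := by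
    have h8 := Polynomial.hasDerivAt ((toK q).map (MvPolynomial.aeval z : RK →ₐ[K] ℂ).toRingHom) w
    rw [Polynomial.derivative_map] at h8
    unfold ev2
    simp only [Polynomial.eval₂_eq_eval_map]
    exact h8
  simp only [ev2_toK] at h2
  exact h2.unique h1

end Pool.Agent.H39.KP
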