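import Pool.Agent.H39.KP.DerivAlg

namespace Pool.Agent.H39.KP

open Function Filter Topology Polynomial

variable {f g h : Fn}

theorem cont_ev2 (p : RK[X]) (hf : Holo f) : Continuous fun x : Cube => ev2 p (pt x) (f (pt x)) := by
  simp only [ev2_eq_sum]
  apply continuous_finsetSum
  intro k _
  exact (holo_polyK _).continuous.mul (hf.continuous.pow k)

theorem dvd_of_spec (i : ℕ) (a : K) (q : RK) (h : MvPolynomial.aeval (update MvPolynomial.X i (MvPolynomial.C a) : ℕ → RK) q = 0) :
    (MvPolynomial.X i - MvPolynomial.C a : RK) ∣ q := by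
  rw [← Ideal.mem_span_singleton, ← Ideal.Quotient.eq_zero_iff_mem]
  set I : Ideal RK := Ideal.span {MvPolynomial.X i - MvPolynomial.C a} with hI
  have h1 : (Ideal.Quotient.mkₐ K I) = (Ideal.Quotient.mkₐ K I).comp
      (MvPolynomial.aeval (update MvPolynomial.X i (MvPolynomial.C a) : ℕ → RK) : RK →ₐ[K] RK) := by
    apply MvPolynomial.algHom_ext
    intro k
    by_cases hk : k = i
    · subst hk
      simp only [AlgHom.comp_apply, MvPolynomial.aeval_X, update_self]
      exact Ideal.Quotient.eq.2 (Ideal.subset_span rfl)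
    · simp only [AlgHom.comp_apply, MvPolynomial.aeval_X, update_of_ne hk]
  have h2 := congrArg (fun F : RK →ₐ[K] (RK ⧸ I) => F q) h1
  simp only [AlgHom.comp_apply] at h2
  rw [h, map_zero] at h2
  exact h2

/-- specialisations of algebraic functions -/
theorem Algc.at' (hf : Holo f) (ha : Algc f) (i : ℕ) {a : ℚ} (h0 : 0 ≤ a) (h1 : a ≤ 1) :
    Algc fun z => f (update z i (a : ℂ)) := by
  classical
  have h0' : (0 : ℝ) ≤ (a : ℝ) := by exact_mod_cast h0
  have h1' : (a : ℝ) ≤ 1 := by exact_mod_cast h1
  set aK : K := algebraMap ℚ K a with haK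
  have haC : ((aK : K) : ℂ) = (a : ℂ) := by simp [haK]
  have hex : ∃ d, ∃ p : RK[X], ∑ k ∈ Finset.range (p.natDegree + 1), (p.coeff k).totalDegree = d ∧ p ≠ 0 ∧
      ∀ x : Cube, ev2 p (pt x) (f (pt x)) = 0 := by
    obtain ⟨p, h1, h2⟩ := ha.toK
    exact ⟨_, p, rfl, h1, h2⟩
  obtain ⟨p, hdeg, hp0, hp⟩ := Nat.find_spec hex
  have hs : p.map (MvPolynomial.aeval (update MvPolynomial.X i (MvPolynomial.C aK) : ℕ → RK) : RK →ₐ[K] RK).toRingHom ≠ 0 := by
    intro hz
    have h2 : ∀ k, (MvPolynomial.X i - MvPolynomial.C aK : RK) ∣ p.coeff k := by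
      intro k
      apply dvd_of_spec
      have := congrArg (fun q => Polynomial.coeff q k) hz
      simpa using this
    obtain ⟨q, hq⟩ := (Polynomial.C_dvd_iff_dvd_coeff _ _).2 h2
    have hX0 : (MvPolynomial.X i - MvPolynomial.C aK : RK) ≠ 0 := by
      intro h3
      rw [h3, Polynomial.C_0, zero_mul] at hq
      exact hp0 hq
    have hq0 : q ≠ 0 := by
      rintro rfl
      rw [mul_zero] at hq
      exact hp0 hq
    have hnd : q.natDegree = p.natDegree := by
      rw [hq, Polynomial.natDegree_C_mul hX0]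
    have hann : ∀ x : Cube, ev2 q (pt x) (f (pt x)) = 0 := by
      have h4 : ∀ x : Cube, pt x i ≠ (a : ℂ) → ev2 q (pt x) (f (pt x)) = 0 := by
        intro x hx
        have h5 := hp x
        rw [hq] at h5
        have h6 : ev2 (Polynomial.C (MvPolynomial.X i - MvPolynomial.C aK) * q) (pt x) (f (pt x))
            = (pt x i - (a : ℂ)) * ev2 q (pt x) (f (pt x)) := by
          simp [ev2, haC]
        rw [h6] at h5
        rcases mul_eq_zero.1 h5 with h7 | h7
        · exact absurd (sub_eq_zero.1 h7) hx
        · exact h7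
      intro x
      have hc : Continuous fun t : unitInterval => ev2 q (pt (update x i t)) (f (pt (update x i t))) :=
        (cont_ev2 q hf).comp ((continuous_update i).comp (Continuous.prodMk continuous_const continuous_id))
      have hd : Dense ({(⟨(a : ℝ), h0', h1'⟩ : unitInterval)}ᶜ : Set unitInterval) := dense_compl_singleton _
      have h5 : (fun t : unitInterval => ev2 q (pt (update x i t)) (f (pt (update x i t)))) = fun _ => 0 := by
        refine hc.ext_on hd continuous_const fun t ht => ?_
        apply h4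
        intro h6
        apply ht
        apply Subtype.ext
        simp only [pt, update_self] at h6
        have : ((t : ℝ) : ℂ) = ((a : ℝ) : ℂ) := by rw [h6]; push_cast; rfl
        exact Complex.ofReal_injective this
      have h6 := congrFun h5 (x i)
      simpa using h6
    refine Nat.find_min hex ?_ ⟨q, rfl, hq0, hann⟩
    rw [← hdeg, hnd]
    have hle : ∀ k, (q.coeff k).totalDegree ≤ (p.coeff k).totalDegree := by
      intro k
      rw [hq, Polynomial.coeff_C_mul]
      by_cases hk : q.coeff k = 0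
      · simp [hk]
      · rw [MvPolynomial.totalDegree_mul_of_isDomain hX0 hk]
        omega
    apply Finset.sum_lt_sum (fun k _ => hle k)
    refine ⟨q.natDegree, by rw [Finset.mem_range, hnd]; omega, ?_⟩
    have hk : q.coeff q.natDegree ≠ 0 := by
      rw [Polynomial.coeff_natDegree]; exact Polynomial.leadingCoeff_ne_zero.2 hq0
    conv_rhs => rw [hq, Polynomial.coeff_C_mul]
    rw [MvPolynomial.totalDegree_mul_of_isDomain hX0 hk]
    have h7 : (MvPolynomial.X i - MvPolynomial.C aK : RK).totalDegree ≠ 0 := by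
      intro h8
      rw [MvPolynomial.totalDegree_eq_zero_iff] at h8
      have h9 := h8 (Finsupp.single i 1) (by
        have h10 : (0 : ℕ →₀ ℕ) ≠ Finsupp.single i 1 := fun h11 => by
          have := congrArg (fun F : ℕ →₀ ℕ => F i) h11
          simp at this
        rw [MvPolynomial.mem_support_iff, MvPolynomial.coeff_sub, MvPolynomial.coeff_X, MvPolynomial.coeff_C, if_neg h10]
        simp) i
      simp at h9
    omega
  refine algc_of_K _ hs fun x => ?_
  rw [ev2_map _ _ rfl]
  have e : (fun k => (MvPolynomial.aeval (pt x) ((update MvPolynomial.X i (MvPolynomial.C aK) : ℕ → RK) k) : ℂ))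
      = pt (update x i ⟨(a : ℝ), h0', h1'⟩) := by
    rw [pt_update_rat x i h0' h1']
    funext k
    by_cases hk : k = i
    · subst hk; simp [haC]
    · simp [update_of_ne hk]
  rw [e]
  have e2 : update (pt x) i (a : ℂ) = pt (update x i ⟨(a : ℝ), h0', h1'⟩) := by
    rw [pt_update_rat x i h0' h1']
    simp
  rw [e2]
  exact hp _

theorem O_at (hf : f ∈ O) (i : ℕ) {a : ℚ} (h0 : 0 ≤ a) (h1 : a ≤ 1) : (fun z => f (update z i (a : ℂ))) ∈ O := by
  refine ⟨hf.1.at' i ?_, hf.2.at' hf.1 i h0 h1⟩
  rw [show (a : ℂ) = ((a : ℝ) : ℂ) by push_cast; rfl, Complex.norm_real, Real.norm_of_nonneg (by exact_mod_cast h0)]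
  exact_mod_cast h1

theorem O_at0 (hf : f ∈ O) (i : ℕ) : (fun z => f (update z i 0)) ∈ O := by
  simpa using O_at hf i (a := 0) le_rfl zero_le_one

theorem O_at1 (hf : f ∈ O) (i : ℕ) : (fun z => f (update z i 1)) ∈ O := by
  simpa using O_at hf i (a := 1) zero_le_one le_rfl

end Pool.Agent.H39.KP
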