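import Pool.Agent.H39.KP.NF

namespace Pool.Agent.H39.KP

open Function Filter Topology

variable {f g F G u v : Fn}

theorem PolF.update (hF : PolF F) (hv : PolF v) (i : ℕ) : PolF fun z => F (update z i (v z)) := by
  refine hF.comp (Φ := fun z => Function.update z i (v z)) fun k => ?_
  by_cases hk : k = i
  · subst hk; simpa using hv
  · simpa [update_of_ne hk] using PolF.coord k

/-- division of a polynomial by `z_i - v` -/
theorem PolF.divide (hF : PolF F) (hv : PolF v) (i : ℕ) :
    ∃ G, PolF G ∧ ∀ z, F z = F (Function.update z i (v z)) + (z i - v z) * G z := by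
  have key : ∀ A : R, ∃ G, PolF G ∧ ∀ z : ℕ → ℂ, (MvPolynomial.aeval z A : ℂ)
      = MvPolynomial.aeval (Function.update z i (v z)) A + (z i - v z) * G z := by
    intro A
    induction A using MvPolynomial.induction_on with
    | C a => exact ⟨fun _ => ((0 : ℚ) : ℂ), PolF.rat 0, fun z => by simp⟩
    | add p q hp hq =>
      obtain ⟨G, hG, h1⟩ := hp
      obtain ⟨G', hG', h2⟩ := hq
      exact ⟨_, hG.add hG', fun z => by rw [map_add, map_add, h1, h2]; ring⟩
    | mul_X p k hp =>
      obtain ⟨G, hG, h1⟩ := hp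
      by_cases hk : k = i
      · subst hk
        refine ⟨_, ((PolF.poly p).update hv k).add (hG.mul (PolF.coord k)), fun z => ?_⟩
        rw [map_mul, map_mul, h1, MvPolynomial.aeval_X, MvPolynomial.aeval_X, update_self]
        ring
      · refine ⟨_, hG.mul (PolF.coord k), fun z => ?_⟩
        rw [map_mul, map_mul, h1, MvPolynomial.aeval_X, MvPolynomial.aeval_X, update_of_ne hk]
        ring
  obtain ⟨A, B, h⟩ := hF
  obtain ⟨G, hG, h1⟩ := key A
  obtain ⟨G', hG', h2⟩ := key B
  refine ⟨_, hG.add (PolF.I.mul hG'), fun z => ?_⟩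
  rw [h z, h (Function.update z i (v z)), h1, h2]
  ring

/-- division of a rational function by `z_i - v` -/
theorem RatG.divide (hF : RatG F) (hv : PolF v) (hb : ∀ z ∈ D, ‖v z‖ ≤ 1) (i : ℕ) :
    ∃ G, RatG G ∧ ∀ z ∈ D, F z = F (Function.update z i (v z)) + (z i - v z) * G z := by
  obtain ⟨P, hP, Q, hQ, h0, h⟩ := hF
  obtain ⟨P', hP', h1⟩ := hP.divide hv i
  obtain ⟨Q', hQ', h2⟩ := hQ.divide hv i
  refine ⟨fun z => (P' z * Q (Function.update z i (v z)) - P (Function.update z i (v z)) * Q' z) /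
    (Q z * Q (Function.update z i (v z))), ⟨_, (hP'.mul (hQ.update hv i)).sub ((hP.update hv i).mul hQ'), _,
    hQ.mul (hQ.update hv i), fun z hz => mul_ne_zero (h0 z hz) (h0 _ (update_mem_D hz i (hb z hz))), fun z => rfl⟩, fun z hz => ?_⟩
  have k1 := h0 z hz
  have k2 := h0 _ (update_mem_D hz i (hb z hz))
  rw [h z, h (Function.update z i (v z))]
  field_simp
  rw [h1 z, h2 z]
  ring

theorem coe_quarter : (((1 / 4 : K)) : ℂ) = 1 / 4 := by
  have : (((1 / 4 : K)) : ℂ) = algebraMap K ℂ (1 / 4) := rfl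
  rw [this, map_div₀, map_one, map_ofNat]

/-- **substitution formula** -/
theorem subst_formula (hF : RatG F) (hv : PolF v) {i : ℕ} (hvi : Fresh i v) (hb : ∀ z ∈ D, ‖v z‖ ≤ 1 / 16) :
    Eqv (fun z => cFn (z i) * F (Function.update z i (v z)))
      (fun z => ∑ m ∈ Finset.range 16, W m * (F (Function.update z i (ζ m (z i) / 4)) * (ζ m (z i) - 4 * v z)⁻¹)) := by
  have hb1 : ∀ z ∈ D, ‖v z‖ ≤ 1 := fun z hz => (hb z hz).trans (by norm_num)
  obtain ⟨G, hG, hdiv⟩ := hF.divide hv hb1 i
  set h : Fn := fun z => F (Function.update z i (v z)) with hh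
  have hhR : RatG h := hF.comp (Φ := fun z => Function.update z i (v z)) (fun k => by
    by_cases hk : k = i
    · subst hk; simpa using hv
    · simpa [update_of_ne hk] using PolF.coord k) fun z hz => update_mem_D hz i (hb1 z hz)
  have hhi : Fresh i h := fun z t => by
    simp only [hh, update_idem, hvi _ _]
  set d : Fn := fun z => 4 * v z with hd
  have h4 : PolF fun _ : ℕ → ℂ => (4 : ℂ) := by simpa using PolF.rat 4
  have hdO : d ∈ O := (h4.mul hv).mem_O
  have hdi : Fresh i d := fun z t => by simp only [hd, hvi _ _]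
  have h1 := formal_residue hhR.mem_O hdO hhi hdi (fun z hz => by
    simp only [hd]
    rw [norm_mul, Complex.norm_ofNat]
    have := hb z hz
    linarith)
  have h2 := formal_cauchy hG.mem_O i (lam := (1 / 4 : K)) (by norm_num) (by rw [coe_quarter]; norm_num)
  have h3 := Submodule.neg_mem _ (Submodule.add_mem _ h1 h2)
  unfold Eqv
  convert h3 using 1
  funext x
  simp only [Pi.neg_apply, Pi.add_apply, coe_quarter]
  set z := pt x with hz
  have hzD : z ∈ D := pt_mem_D x
  rw [← Finset.sum_add_distrib, ← Finset.sum_neg_distrib]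
  unfold cFn
  rw [Finset.sum_mul, ← Finset.sum_sub_distrib]
  apply Finset.sum_congr rfl
  intro m _
  have hu := zeta_upper m (hzD i)
  have hl := zeta_lower m (hzD i)
  have hζ0 := zeta_ne m (hzD i)
  have hne : ζ m (z i) - 4 * v z ≠ 0 := by
    intro h0
    have e : ζ m (z i) = 4 * v z := by linear_combination h0
    rw [e, norm_mul, Complex.norm_ofNat] at hl
    have := hb z hzD
    linarith
  have hD : Function.update z i (ζ m (z i) / 4) ∈ D := update_mem_D hzD i (by
    rw [norm_div, Complex.norm_ofNat]; linarith)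
  have e1 := hdiv _ hD
  rw [update_self, update_idem, hvi] at e1
  have e2 : F (Function.update z i (v z)) = h z := rfl
  rw [e2] at e1 ⊢
  rw [e1, show (1 / 4 : ℂ) * ζ m (z i) = ζ m (z i) / 4 by ring]
  simp only [hd]
  field_simp
  ring

/-- **numerators** -/
theorem numerator_formula (hF : RatG F) (hv : PolF v) {i : ℕ} (hFi : Fresh i F) (hvi : Fresh i v) (hb : ∀ z ∈ D, ‖v z‖ ≤ 1) :
    Eqv (fun z => cFn (z i) * ((1 / 4 : ℂ) * (v z * F z)))
      (fun z => ∑ m ∈ Finset.range 16, W m * (F z * ((ζ m (z i))⁻¹ * ((ζ m (z i))⁻¹ * (1 - (1 / 4 : ℂ) * (ζ m (z i) * v z))⁻¹)))) := by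
  have h2 : PolF fun _ : ℕ → ℂ => (2 : ℂ) := by simpa using PolF.rat 2
  have h1 : PolF fun _ : ℕ → ℂ => (1 : ℂ) := by simpa using PolF.rat 1
  have hq : PolF fun _ : ℕ → ℂ => (1 / 4 : ℂ) := by simpa using PolF.rat (1 / 4)
  have hh : PolF fun _ : ℕ → ℂ => (1 / 2 : ℂ) := by simpa using PolF.rat (1 / 2)
  -- (a)
  have hden : ∀ z ∈ D, 1 - (1 / 2 : ℂ) * (z i * v z) ≠ 0 := by
    intro z hz h0
    have e : (1 / 2 : ℂ) * (z i * v z) = 1 := by linear_combination -h0
    have e2 := congrArg norm e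
    rw [norm_mul, norm_mul, norm_one] at e2
    have e3 : ‖(1 / 2 : ℂ)‖ = 1 / 2 := by norm_num
    rw [e3] at e2
    have := norm_mul_le_one (hz i) (hb z hz)
    rw [norm_mul] at this
    linarith
  have hG : RatG fun z => (1 / 8 : ℂ) * (v z * v z * F z) * (1 - (1 / 2 : ℂ) * (z i * v z))⁻¹ := by
    have h8 : PolF fun _ : ℕ → ℂ => (1 / 8 : ℂ) := by simpa using PolF.rat (1 / 8)
    exact (h8.ratG.mul ((hv.mul hv).ratG.mul hF)).mul (RatG.inv (h1.sub (hh.mul ((PolF.coord i).mul hv))) hden)
  have hhalf : (((1 / 2 : K)) : ℂ) = 1 / 2 := by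
    have : (((1 / 2 : K)) : ℂ) = algebraMap K ℂ (1 / 2) := rfl
    rw [this, map_div₀, map_one, map_ofNat]
  have c1 := formal_cauchy hG.mem_O i (lam := (1 / 2 : K)) (by norm_num) (by rw [hhalf]; norm_num)
  -- (b)
  have hVK : ∀ m, PolF fun z : ℕ → ℂ => ζ m (z i) := fun m => PolF.zeta m i
  have c2 : (fun x : Cube => ∑ m ∈ Finset.range 16, W m * (F (pt x) * ((ζ m (pt x i))⁻¹ * (ζ m (pt x i))⁻¹))) ∈ Stokes := by
    have key : ∀ m, (fun x : Cube => W m * (F (pt x) * ((ζ m (pt x i))⁻¹ * (ζ m (pt x i))⁻¹))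
        - (-(F (pt x) * (V (m + 1))⁻¹) - (-(F (pt x) * (V m)⁻¹)))) ∈ Stokes := by
      intro m
      have hg : (fun z => -(F z * (ζ m (z i))⁻¹)) ∈ O := O_neg (O_mul hF.mem_O (O_inv (hVK m).mem_O fun z hz => zeta_ne m (hz i)))
      have h := stokes_mem hg i
      convert h using 1
      funext x
      have e1 : pd i (fun z => -(F z * (ζ m (z i))⁻¹)) (pt x) = W m * (F (pt x) * ((ζ m (pt x i))⁻¹ * (ζ m (pt x i))⁻¹)) := by
        unfold pd
        have e : (fun t => -(F (Function.update (pt x) i t) * (ζ m (Function.update (pt x) i t i))⁻¹))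
            = fun t => -(F (pt x) * (ζ m t)⁻¹) := by
          funext t
          rw [hFi, update_self]
        rw [e]
        have hd : HasDerivAt (fun t => ζ m t) (W m) (pt x i) := by
          unfold ζ
          exact (((hasDerivAt_id' (pt x i)).const_mul (W m)).const_add (V m)).congr_deriv (by ring)
        have hne := zeta_ne m (pt_mem_D x i)
        have h3 := (((hd.fun_inv hne).const_mul (F (pt x))).fun_neg).deriv
        rw [h3]
        field_simp
      rw [e1, hFi, hFi, update_self, update_self, zeta_one, zeta_zero]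
      ring
    have hsum := Submodule.sum_mem Stokes (t := Finset.range 16) fun m _ => key m
    convert hsum using 1
    funext x
    simp only [Finset.sum_apply, Finset.sum_sub_distrib]
    have := telescope fun w => -(F (pt x) * w⁻¹)
    rw [Finset.sum_sub_distrib] at this
    rw [this, sub_zero]
  have h3 := Submodule.neg_mem _ (Submodule.add_mem _ c1 c2)
  unfold Eqv
  convert h3 using 1
  funext x
  simp only [Pi.neg_apply, Pi.add_apply, hhalf]
  set z := pt x with hz
  have hzD : z ∈ D := pt_mem_D x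
  rw [← Finset.sum_add_distrib, ← Finset.sum_neg_distrib]
  unfold cFn
  rw [Finset.sum_mul, ← Finset.sum_sub_distrib]
  apply Finset.sum_congr rfl
  intro m _
  have hu := zeta_upper m (hzD i)
  have hζ0 := zeta_ne m (hzD i)
  have hD : Function.update z i (ζ m (z i) / 2) ∈ D := update_mem_D hzD i (by
    rw [norm_div, Complex.norm_ofNat]; linarith)
  have k1 := hden _ hD
  rw [update_self, hvi] at k1
  rw [show (1 / 2 : ℂ) * ζ m (z i) = ζ m (z i) / 2 by ring]
  simp only [update_self, hvi _ _, hFi _ _]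
  have k2 : 1 - (1 / 4 : ℂ) * (ζ m (z i) * v z) ≠ 0 := by
    intro h0
    apply k1
    linear_combination h0
  have e5 : 1 - (1 / 2 : ℂ) * (ζ m (z i) / 2 * v z) = 1 - (1 / 4 : ℂ) * (ζ m (z i) * v z) := by ring
  rw [e5]
  set X := ζ m (z i) with hX
  set Y := v z with hY
  set E := 1 - (1 / 4 : ℂ) * (X * Y) with hE
  have hE4 : 4 * E = 4 - X * Y := by rw [hE]; ring
  field_simp
  linear_combination (1 : ℂ) * hE4

end Pool.Agent.H39.KP
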