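import Pool.Agent.H39.KP.Perm

namespace Pool.Agent.H39.KP

open Function Filter Topology

variable {f g : Fn}

noncomputable def kf (w : ℂ) : ℂ := Complex.I * (2 + Complex.I * w)⁻¹

theorem kf_ne {w : ℂ} (hw : w.im ≤ 1) : 2 + Complex.I * w ≠ 0 := by
  intro h
  have := congrArg Complex.re h
  simp at this
  linarith

theorem kf_deriv {φ : ℂ → ℂ} {φ' t : ℂ} (hφ : HasDerivAt φ φ' t) (h : (φ t).im ≤ 1) :
    HasDerivAt (fun t => kf (φ t)) (φ' / (2 + Complex.I * φ t) ^ 2) t := by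
  unfold kf
  have h1 := (((hφ.const_mul Complex.I).const_add 2).fun_inv (kf_ne h)).const_mul Complex.I
  refine h1.congr_deriv ?_
  linear_combination (-φ' / (2 + Complex.I * φ t) ^ 2) * Complex.I_sq

theorem im_le_one {w : ℂ} (h : ‖w‖ ≤ 1) (β : ℚ) : ((β : ℂ) + w).im ≤ 1 := by
  rw [Complex.add_im, show (β : ℂ) = ((β : ℝ) : ℂ) by push_cast; rfl, Complex.ofReal_im, zero_add]
  exact (Complex.im_le_norm w).trans h

theorem O_kf {u : Fn} (hu : u ∈ O) (h : ∀ z ∈ D, ‖u z‖ ≤ 1) (β : ℚ) : (fun z => kf ((β : ℂ) + u z)) ∈ O := by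
  unfold kf
  have hI := O_const isAlg_I
  refine O_mul hI (O_inv ?_ fun z hz => kf_ne (im_le_one (h z hz) β))
  have h2 : (fun _ : ℕ → ℂ => (2 : ℂ)) ∈ O := by simpa using O_rat 2
  exact O_add h2 (O_mul hI (O_add (O_rat β) hu))

theorem norm_sub_half {s t : ℂ} (hs : ‖s‖ ≤ 1) (ht : ‖t‖ ≤ 1) : ‖t * (s - 1) / 2‖ ≤ 1 := by
  have h : ‖s - 1‖ ≤ 2 := (norm_sub_le _ _).trans (by rw [norm_one]; linarith)
  rw [norm_div, norm_mul, Complex.norm_ofNat, div_le_one (by norm_num)]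
  calc ‖t‖ * ‖s - 1‖ ≤ 1 * 2 := by gcongr
    _ = 2 := by norm_num

theorem reflect_half (hf : f ∈ O) {i : ℕ} (hi : Fresh i f) (β : ℚ) :
    Eqv (fun z => (1 / 2 : ℂ) * kf ((β : ℂ) + (z i - 1) / 2) * f z) fun z => (1 / 2 : ℂ) * kf ((β : ℂ) + (-z i) / 2) * f z := by
  obtain ⟨j, hji, hj⟩ := hf.1.exists_fresh i
  have hij : i ≠ j := hji.symm
  have h2 : (fun _ : ℕ → ℂ => (1 / 2 : ℂ)) ∈ O := by simpa using O_rat (1 / 2)
  have h1O : (fun _ : ℕ → ℂ => (1 : ℂ)) ∈ O := by simpa using O_rat 1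
  have hu : (fun z : ℕ → ℂ => z j * (z i - 1) / 2) ∈ O := by
    have := O_mul (O_mul (O_coord j) (O_sub (O_coord i) h1O)) h2
    convert this using 1
    funext z; ring
  have hk : (fun z : ℕ → ℂ => kf ((β : ℂ) + z j * (z i - 1) / 2)) ∈ O :=
    O_kf hu (fun z hz => norm_sub_half (hz i) (hz j)) β
  have hA : (fun z : ℕ → ℂ => (1 / 2 : ℂ) * z j * kf ((β : ℂ) + z j * (z i - 1) / 2) * f z) ∈ O :=
    O_mul (O_mul (O_mul h2 (O_coord j)) hk) hf
  have hB : (fun z : ℕ → ℂ => (1 / 2 : ℂ) * (z i - 1) * kf ((β : ℂ) + z j * (z i - 1) / 2) * f z) ∈ O :=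
    O_mul (O_mul (O_mul h2 (O_sub (O_coord i) h1O)) hk) hf
  have h := two_forms hA hB (i := i) (j := j) fun x => ?_
  · have h3 : Eqv (fun z => (1 / 2 : ℂ) * kf ((β : ℂ) + (z i - 1) / 2) * f z) fun z => (1 / 2 : ℂ) * kf ((β : ℂ) + (-z j) / 2) * f z := by
      unfold Eqv
      convert h using 1
      funext x
      simp only [update_self, update_of_ne hij, update_of_ne hij.symm, hi _ _, hj _ _, one_mul, zero_mul, mul_one, mul_zero,
        sub_self, zero_div, zero_sub, sub_zero, mul_neg, neg_mul]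
      ring
    refine h3.trans ?_
    have hnegO : (fun z : ℕ → ℂ => (-z i) / 2) ∈ O := by
      have := O_mul (O_neg (O_coord i)) h2
      convert this using 1
      funext z; ring
    have hG : (fun z : ℕ → ℂ => (1 / 2 : ℂ) * kf ((β : ℂ) + (-z i) / 2) * f z) ∈ O := by
      refine O_mul (O_mul h2 (O_kf hnegO (fun z hz => ?_) β)) hf
      rw [norm_div, norm_neg, Complex.norm_ofNat]
      have := hz i
      linarith
    have hfr : Fresh j fun z : ℕ → ℂ => (1 / 2 : ℂ) * kf ((β : ℂ) + (-z i) / 2) * f z := by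
      intro z t
      simp only [update_of_ne hij, hj _ _]
    refine Eqv.symm ((rename_fresh hG hij hfr).trans (Eqv.of_eq fun x => ?_))
    simp only [update_self, hi _ _]
  · set z := pt x with hz
    have hzD : z ∈ D := pt_mem_D x
    have him : ((β : ℂ) + z j * (z i - 1) / 2).im ≤ 1 := im_le_one (norm_sub_half (hzD i) (hzD j)) β
    unfold pd
    have e1 : (fun t => (1 / 2 : ℂ) * update z j t j * kf ((β : ℂ) + update z j t j * (update z j t i - 1) / 2) * f (update z j t))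
        = fun t => (1 / 2 : ℂ) * t * kf ((β : ℂ) + t * (z i - 1) / 2) * f z := by
      funext t
      rw [update_self, update_of_ne hij, hj]
    have e2 : (fun t => (1 / 2 : ℂ) * (update z i t i - 1) * kf ((β : ℂ) + update z i t j * (update z i t i - 1) / 2) * f (update z i t))
        = fun t => (1 / 2 : ℂ) * (t - 1) * kf ((β : ℂ) + z j * (t - 1) / 2) * f z := by
      funext t
      rw [update_self, update_of_ne hij.symm, hi]
    rw [e1, e2]
    have d1 : HasDerivAt (fun t => (β : ℂ) + t * (z i - 1) / 2) ((z i - 1) / 2) (z j) :=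
      (((hasDerivAt_id' (z j)).mul_const (z i - 1)).div_const 2).const_add (β : ℂ) |>.congr_deriv (by ring)
    have d2 : HasDerivAt (fun t => (β : ℂ) + z j * (t - 1) / 2) (z j / 2) (z i) :=
      ((((hasDerivAt_id' (z i)).sub_const 1).const_mul (z j)).div_const 2).const_add (β : ℂ) |>.congr_deriv (by ring)
    have h1 := ((((hasDerivAt_id' (z j)).const_mul (1 / 2 : ℂ)).fun_mul (kf_deriv d1 him)).mul_const (f z)).deriv
    have h2 := (((((hasDerivAt_id' (z i)).sub_const 1).const_mul (1 / 2 : ℂ)).fun_mul (kf_deriv d2 him)).mul_const (f z)).deriv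
    rw [h1, h2]
    ring

theorem reflect (hf : f ∈ O) {i : ℕ} (hi : Fresh i f) (c : ℚ) :
    Eqv (fun z => kf (((-1 - c : ℚ) : ℂ) + z i) * f z) fun z => kf (((-c : ℚ) : ℂ) + -z i) * f z := by
  have hF1 : (fun z => kf (((-1 - c : ℚ) : ℂ) + z i) * f z) ∈ O := O_mul (O_kf (O_coord i) (fun z hz => hz i) _) hf
  have hF2 : (fun z => kf (((-c : ℚ) : ℂ) + -z i) * f z) ∈ O :=
    O_mul (O_kf (O_neg (O_coord i)) (fun z hz => by rw [norm_neg]; exact hz i) _) hf
  have s1 := subdivide hF1 i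
  have s2 := subdivide hF2 i
  have r0 := reflect_half hf hi (-1 / 2 - c)
  have r1 := reflect_half hf hi (-c)
  refine s1.trans (Eqv.trans ?_ s2.symm)
  refine (Eqv.of_eq fun x => ?_).trans ((r0.add r1).trans (Eqv.of_eq fun x => ?_))
  · simp only [half0, half1, update_self, hi _ _]
    rw [show ((-1 - c : ℚ) : ℂ) + pt x i / 2 = ((-1 / 2 - c : ℚ) : ℂ) + (pt x i - 1) / 2 by push_cast; ring,
      show ((-1 - c : ℚ) : ℂ) + (1 + pt x i) / 2 = ((-c : ℚ) : ℂ) + (pt x i - 1) / 2 by push_cast; ring]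
    ring
  · simp only [half0, half1, update_self, hi _ _]
    rw [show ((-c : ℚ) : ℂ) + -(pt x i / 2) = ((-c : ℚ) : ℂ) + (-pt x i) / 2 by push_cast; ring,
      show ((-c : ℚ) : ℂ) + -((1 + pt x i) / 2) = ((-1 / 2 - c : ℚ) : ℂ) + (-pt x i) / 2 by push_cast; ring]
    ring

/-- the function with integral `2πi` -/
noncomputable def cFn (t : ℂ) : ℂ := ∑ m ∈ Finset.range 16, W m / ζ m t

theorem W_div (m : ℕ) (t : ℂ) : W m / ζ m t = kf (((m % 4 : ℕ) : ℂ) - 2 + t) := by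
  have hI : Complex.I ^ (m / 4) ≠ 0 := pow_ne_zero _ Complex.I_ne_zero
  have e : ζ m t = Complex.I ^ (m / 4) * ((2 + Complex.I * (((m % 4 : ℕ) : ℂ) - 2 + t)) / 2) := by
    simp only [ζ, V, W]; ring
  rw [e, W, mul_div_mul_left _ _ hI, kf]
  by_cases h : 2 + Complex.I * (((m % 4 : ℕ) : ℂ) - 2 + t) = 0
  · rw [h]; simp
  · field_simp

theorem cFn_eq (t : ℂ) : cFn t = 4 * (kf (-2 + t) + kf (-1 + t) + kf t + kf (1 + t)) := by
  unfold cFn
  simp only [W_div]
  simp only [Finset.sum_range_succ, Finset.sum_range_zero]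
  norm_num
  ring

theorem kf_add {w : ℂ} (h1 : 2 + Complex.I * w ≠ 0) (h2 : 2 + Complex.I * (-w) ≠ 0) :
    kf w + kf (-w) = 4 * Complex.I / (4 + w ^ 2) := by
  have h5 : 4 + w ^ 2 = (2 + Complex.I * w) * (2 + Complex.I * (-w)) := by
    linear_combination (w ^ 2) * Complex.I_sq
  have h6 : (2 + Complex.I * w) + (2 + Complex.I * (-w)) = 4 := by ring
  rw [h5]
  unfold kf
  set a := 2 + Complex.I * w with ha
  set b := 2 + Complex.I * (-w) with hb
  rw [← h6]
  field_simp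
  ring

/-- the formal `2πi` -/
theorem eqv_cFn (hf : f ∈ O) {i : ℕ} (hi : Fresh i f) :
    Eqv (fun z => cFn (z i) * f z) fun z => 2 * Complex.I * (piFn (z i) * f z) := by
  have h4 : IsAlgebraic ℚ (4 : ℂ) := by
    have := isAlgebraic_algebraMap (R := ℚ) (A := ℂ) 4
    simpa using this
  have r0 := reflect hf hi 0
  have r1 := reflect hf hi 1
  have hsum := (r0.add r1).add (Eqv.refl fun z => (kf (z i) + kf (1 + z i)) * f z)
  have hsum4 := stokes_const h4 hsum
  unfold Eqv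
  convert hsum4 using 1
  funext x
  have hz : ‖pt x i‖ ≤ 1 := pt_mem_D x i
  have him := (Complex.im_le_norm (pt x i)).trans hz
  have him' : (-pt x i).im ≤ 1 := (Complex.im_le_norm (-pt x i)).trans (le_of_eq_of_le (norm_neg _) hz)
  have k1 : 2 + Complex.I * (pt x i) ≠ 0 := kf_ne him
  have k2 : 2 + Complex.I * (-pt x i) ≠ 0 := kf_ne him'
  have k3 : 2 + Complex.I * (1 + pt x i) ≠ 0 := kf_ne (by simpa using him)
  have k4 : 2 + Complex.I * (-1 + -pt x i) ≠ 0 := kf_ne (by simpa using him')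
  have e1 : kf (pt x i) + kf (-pt x i) = 4 * Complex.I / (4 + pt x i ^ 2) := kf_add k1 k2
  have e2 : kf (1 + pt x i) + kf (-1 + -pt x i) = 4 * Complex.I / (4 + (1 + pt x i) ^ 2) := by
    rw [show -1 + -pt x i = -(1 + pt x i) by ring] at k4 ⊢
    exact kf_add k3 k4
  simp only [cFn_eq, piFn]
  push_cast
  rw [show ((-1 : ℂ) - 0 + pt x i) = -1 + pt x i by ring, show ((-1 : ℂ) - 1 + pt x i) = -2 + pt x i by ring,
    show (-(0 : ℂ) + -pt x i) = -pt x i by ring]
  linear_combination (4 * f (pt x)) * e1 + (4 * f (pt x)) * e2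

end Pool.Agent.H39.KP
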